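import Pool.Agent.H409_AG.Defs

/-!
# Part C, step C6a: from enumerated names to the orientation in the forcing language
-/

set_option autoImplicit false

namespace Pool.Agent.H409_AG.C6

open Cardinal Pool.Agent.Helper669.Forcing Pool.Agent.H409_AG

variable {P : Type} [Preorder P]

theorem meets_of_dense {N : Set P} {p : P} (h : ∀ q ≤ p, ∃ r ≤ q, r ∈ meets N) :
    p ∈ meets N := by
  intro q hq
  obtain ⟨r, hr, h1⟩ := h q hq
  obtain ⟨s, hs, t, ht, hst⟩ := h1 r le_rfl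
  exact ⟨s, hs.trans hr, t, ht, hst⟩

theorem fex_of_dense {ι : Sort*} {φ : ι → Set P} {p : P} (h : ∀ q ≤ p, ∃ r ≤ q, r ∈ fex φ) :
    p ∈ fex φ := by
  rw [mem_fex]
  intro q hq
  obtain ⟨r, hr, h1⟩ := h q hq
  obtain ⟨s, hs, i, hi⟩ := mem_fex.1 h1 r le_rfl
  exact ⟨s, hs.trans hr, i, hi⟩

theorem fimp_mp {φ ψ : Set P} {p : P} (h : p ∈ fimp φ ψ) (h' : p ∈ φ) : ∃ q ≤ p, q ∈ ψ :=
  mem_fimp.1 h p le_rfl h'

/-! ### Equality of names for reals -/

theorem sameReal_symm {x y : ℕ → ℕ → Set P} {p : P} (h : p ∈ SameReal x y) :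
    p ∈ SameReal y x := by
  intro n a b
  rw [mem_fimp]
  rintro q hq ⟨h1, h2⟩
  exact ⟨q, le_rfl, (SameReal.eq (down_SameReal _ _ _ h _ hq) h2 h1).symm⟩

theorem sameReal_self {x : ℕ → ℕ → Set P} {p : P} (h : p ∈ IsFun x) : p ∈ SameReal x x := by
  intro n a b
  rw [mem_fimp]
  rintro q hq ⟨h1, h2⟩
  exact ⟨q, le_rfl, IsFun.unique (down_IsFun _ _ h _ hq) h1 h2⟩

theorem sameReal_trans {x y z : ℕ → ℕ → Set P} {p : P} (hy : p ∈ IsFun y)
    (h : p ∈ SameReal x y) (h' : p ∈ SameReal y z) : p ∈ SameReal x z := by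
  intro n a b
  rw [mem_fimp]
  rintro q hq ⟨h1, h2⟩
  obtain ⟨r, hr, c, hc⟩ := IsFun.total (down_IsFun _ _ hy _ hq) n
  refine ⟨q, le_rfl, ?_⟩
  have e1 := SameReal.eq (down_SameReal _ _ _ h _ (hr.trans hq)) (down_meets _ _ h1 _ hr) hc
  have e2 := SameReal.eq (down_SameReal _ _ _ h' _ (hr.trans hq)) hc (down_meets _ _ h2 _ hr)
  exact e1.trans e2

theorem meets_of_sameReal {x y : ℕ → ℕ → Set P} {p : P} (hy : p ∈ IsFun y)
    (h : p ∈ SameReal x y) {n a : ℕ} (h1 : p ∈ meets (x n a)) : p ∈ meets (y n a) := by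
  refine meets_of_dense fun q hq => ?_
  obtain ⟨r, hr, c, hc⟩ := IsFun.total (down_IsFun _ _ hy _ hq) n
  have e1 := SameReal.eq (down_SameReal _ _ _ h _ (hr.trans hq))
    (down_meets _ _ h1 _ (hr.trans hq)) hc
  rw [e1]
  exact ⟨r, hr, hc⟩

theorem initSeg_of_sameReal {x y : ℕ → ℕ → Set P} {p : P} (hy : p ∈ IsFun y)
    (h : p ∈ SameReal x y) {s : List ℕ} (h1 : p ∈ InitSeg s x) : p ∈ InitSeg s y :=
  fun i hi => meets_of_sameReal hy h (h1 i hi)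

theorem rtn_of_sameReal {T : List ℕ → List ℕ → Set P} {x x' y y' : ℕ → ℕ → Set P} {p : P}
    (hx : p ∈ IsFun x) (hy : p ∈ IsFun y) (h : p ∈ SameReal x x') (h' : p ∈ SameReal y y')
    (hR : p ∈ RTN T x y) : p ∈ RTN T x' y' := by
  intro s t hst
  rw [mem_fimp]
  rintro q hq ⟨h1, h2⟩
  exact mem_fimp.1 (hR s t hst) q hq
    ⟨initSeg_of_sameReal (down_IsFun _ _ hx _ hq)
      (sameReal_symm (down_SameReal _ _ _ h _ hq)) h1,
    initSeg_of_sameReal (down_IsFun _ _ hy _ hq)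
      (sameReal_symm (down_SameReal _ _ _ h' _ hq)) h2⟩

theorem down_RTN (T : List ℕ → List ℕ → Set P) (x y : ℕ → ℕ → Set P) : Down (RTN T x y) :=
  down_fall fun _ => down_fall fun _ => down_fall fun _ => down_fimp _ _

/-! ### The least index of a real in a family -/

section

variable {I : Type}

/-- the name of the least index `k` with `z k = ν` (and of `i0` if there is no such index) -/
def pick (z : I → ℕ → ℕ → Set P) (ν : ℕ → ℕ → Set P) (i0 k : I) : Set P :=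
  {q | (q ∈ SameReal (z k) ν ∧ ∀ k', WellOrderingRel k' k → q ∈ fnot (SameReal (z k') ν)) ∨
    (k = i0 ∧ ∀ k', q ∈ fnot (SameReal (z k') ν))}

theorem down_pick (z : I → ℕ → ℕ → Set P) (ν : ℕ → ℕ → Set P) (i0 k : I) :
    Down (pick z ν i0 k) := by
  rintro p (⟨h1, h2⟩ | ⟨h1, h2⟩) q hq
  · exact Or.inl ⟨down_SameReal _ _ _ h1 _ hq, fun k' hk => down_fnot _ _ (h2 k' hk) _ hq⟩
  · exact Or.inr ⟨h1, fun k' => down_fnot _ _ (h2 k') _ hq⟩

theorem pick_spec {z : I → ℕ → ℕ → Set P} {ν : ℕ → ℕ → Set P} (i0 : I) {p : P} {j : I}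
    (h : p ∈ SameReal (z j) ν) : ∃ q ≤ p, ∃ k, q ∈ pick z ν i0 k ∧ q ∈ SameReal (z k) ν := by
  have hne : {k | ∃ q ≤ p, q ∈ SameReal (z k) ν}.Nonempty := ⟨j, p, le_rfl, h⟩
  have wf : WellFounded (WellOrderingRel : I → I → Prop) := IsWellFounded.wf
  obtain ⟨q, hq, hk⟩ := wf.min_mem _ hne
  refine ⟨q, hq, wf.min _ hne, Or.inl ⟨hk, fun k' hk' r hr h' => ?_⟩, hk⟩
  exact wf.not_lt_min _ (show k' ∈ {k | ∃ q ≤ p, q ∈ SameReal (z k) ν} from
    ⟨r, hr.trans hq, h'⟩) hk'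

theorem pick_total (z : I → ℕ → ℕ → Set P) (ν : ℕ → ℕ → Set P) (i0 : I) (p : P) :
    ∃ q ≤ p, ∃ k, q ∈ pick z ν i0 k := by
  by_cases h : ∃ q ≤ p, ∃ j, q ∈ SameReal (z j) ν
  · obtain ⟨q, hq, j, hj⟩ := h
    obtain ⟨r, hr, k, hk, _⟩ := pick_spec i0 hj
    exact ⟨r, hr.trans hq, k, hk⟩
  · push Not at h
    exact ⟨p, le_rfl, i0, Or.inr ⟨rfl, fun k' r hr h' => h r hr k' h'⟩⟩

theorem pick_unique {z : I → ℕ → ℕ → Set P} {ν : ℕ → ℕ → Set P} {i0 k k' : I} {p : P}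
    (h : p ∈ pick z ν i0 k) (h' : p ∈ pick z ν i0 k') : k = k' := by
  rcases h with ⟨h1, h2⟩ | ⟨h1, h2⟩
  · rcases h' with ⟨h3, h4⟩ | ⟨h3, h4⟩
    · rcases trichotomous_of (WellOrderingRel : I → I → Prop) k k' with h | h | h
      · exact absurd h1 (h4 k h p le_rfl)
      · exact h
      · exact absurd h3 (h2 k' h p le_rfl)
    · exact absurd h1 (h4 k p le_rfl)
  · rcases h' with ⟨h3, h4⟩ | ⟨h3, h4⟩
    · exact absurd h3 (h2 k' p le_rfl)
    · rw [h1, h3]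

theorem pick_isFun (z : I → ℕ → ℕ → Set P) (ν : ℕ → ℕ → ℕ → Set P) (i0 : I) (p : P) :
    p ∈ IsFun fun (m : ℕ) (k : I) => pick z (ν m) i0 k := by
  refine ⟨fun m => ?_, fun m k k' => ?_⟩
  · rw [mem_fex]
    intro q _
    obtain ⟨r, hr, k, hk⟩ := pick_total z (ν m) i0 q
    exact ⟨r, hr, k, meets_of_mem hk⟩
  · rw [mem_fimp]
    rintro q _ ⟨h1, h2⟩
    obtain ⟨r, hr, h3⟩ := exists_of_meets (down_pick _ _ _ _) h1
    obtain ⟨s, hs, h4⟩ := exists_of_meets (down_pick _ _ _ _) (down_meets _ _ h2 _ hr)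
    exact ⟨q, le_rfl, pick_unique (down_pick _ _ _ _ _ h3 _ hs) h4⟩

end

/-- From enumerated names to the orientation: `τ i` enumerates countably many names for reals
such that on each edge one end is named by the names for the other end. -/
theorem orientN_of {I : Type} {T : List ℕ → List ℕ → Set P} {z : I → ℕ → ℕ → Set P} {p : P}
    (τ : I → ℕ → ℕ → ℕ → Set P)
    (H : ∀ q ≤ p, ∀ i j, q ∈ RTN T (z i) (z j) → ∃ r ≤ q,
      (∃ m, r ∈ IsFun (τ i m) ∧ r ∈ SameReal (τ i m) (z j)) ∨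
      (∃ m, r ∈ IsFun (τ j m) ∧ r ∈ SameReal (τ j m) (z i))) :
    p ∈ OrientN T z := by
  refine mem_fex_of_mem (fun i m k => pick z (τ i m) i k) (down_fand (down_fall fun _ =>
    down_IsFun _) (down_fall fun _ => down_fall fun _ => down_fimp _ _)) ⟨fun i =>
      pick_isFun z (τ i) i p, fun i j => mem_fimp.2 fun q hq hR => ?_⟩
  -- one side of the disjunction
  have key : ∀ i j m, ∀ r, r ∈ IsFun (τ i m) → r ∈ SameReal (τ i m) (z j) → ∃ s ≤ r,
      s ∈ fex fun m => fex fun k => fand (meets (pick z (τ i m) i k)) (SameReal (z k) (z j)) := by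
    intro i j m r hf h
    obtain ⟨s, hs, k, hk, hk'⟩ := pick_spec i (sameReal_symm h)
    refine ⟨s, hs, mem_fex_of_mem m (down_fex _) (mem_fex_of_mem k
      (down_fand (down_meets _) (down_SameReal _ _)) ⟨meets_of_mem hk, ?_⟩)⟩
    exact sameReal_trans (down_IsFun _ _ hf _ hs) hk'
      (down_SameReal _ _ _ h _ hs)
  obtain ⟨r, hr, h | h⟩ := H q hq i j hR
  · obtain ⟨m, hf, hm⟩ := h
    obtain ⟨s, hs, h1⟩ := key i j m r hf hm
    refine ⟨s, hs.trans hr, ?_⟩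
    intro t ht h2
    exact h2.1 t le_rfl (down_fex _ _ h1 _ ht)
  · obtain ⟨m, hf, hm⟩ := h
    obtain ⟨s, hs, h1⟩ := key j i m r hf hm
    refine ⟨s, hs.trans hr, ?_⟩
    intro t ht h2
    exact h2.2 t le_rfl (down_fex _ _ h1 _ ht)

end Pool.Agent.H409_AG.C6
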