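import Pool.Agent.H409_AG.StmtsC

/-!
# PART C, C5: the base case
-/

set_option autoImplicit false

namespace Pool.Agent.H409_AG.Gr

open Cardinal Pool.Agent.H409_AG.Ccc Pool.Agent.H409_AG Pool.Agent.Helper669.Forcing

variable {L : Type} {A : L → L → Prop}

/-- there are few countable names with support in a set of size at most `ℵ₁` -/
theorem mk_NU_le (hCH : #(ℕ → ℕ) ≤ (ℵ₁ : Cardinal.{0})) {U : Set L}
    (hU : #U ≤ (ℵ₁ : Cardinal.{0})) : #(NU A U) ≤ (ℵ₁ : Cardinal.{0}) := by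
  have hc : (𝔠 : Cardinal.{0}) ≤ ℵ₁ := by
    refine le_trans (le_of_eq ?_) hCH
    rw [← Cardinal.aleph0_power_aleph0]
    simp
  let PU : Type := {p : Cond A // On p U}
  have h1 : #(Option PU) ≤ (𝔠 : Cardinal.{0}) := by
    rw [Cardinal.mk_option]
    refine Cardinal.add_le_of_le Cardinal.aleph0_le_continuum ?_ ?_
    · exact (mk_on_le (Cardinal.aleph0_le_aleph _) hU).trans Cardinal.aleph_one_le_continuum
    · exact Cardinal.one_le_aleph0.trans Cardinal.aleph0_le_continuum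
  let f : (ℕ → ℕ → ℕ → Option PU) → Nm A := fun c k a => {p | ∃ i, ∃ h : On p U, c k a i = some ⟨p, h⟩}
  have hsub : NU A U ⊆ Set.range f := by
    intro υ hυ
    have hka : ∀ k a, ∃ g : ℕ → Option PU, ∀ p, p ∈ υ k a ↔ ∃ i, ∃ h : On p U, g i = some ⟨p, h⟩ := by
      intro k a
      rcases Set.eq_empty_or_nonempty (υ k a) with h0 | h0
      · refine ⟨fun _ => none, fun p => ?_⟩
        rw [h0]
        simp
      · obtain ⟨e, he⟩ := (hυ k a).1.exists_eq_range h0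
        have hon : ∀ i, On (e i) U := fun i => (hυ k a).2 _ (he ▸ ⟨i, rfl⟩)
        refine ⟨fun i => some ⟨e i, hon i⟩, fun p => ?_⟩
        rw [he]
        constructor
        · rintro ⟨i, rfl⟩
          exact ⟨i, hon i, rfl⟩
        · rintro ⟨i, h, hi⟩
          rw [Option.some.injEq, Subtype.mk.injEq] at hi
          exact ⟨i, hi⟩
    choose g hg using hka
    refine ⟨g, ?_⟩
    funext k a
    ext p
    exact (hg k a p).symm
  calc #(NU A U) ≤ #(Set.range f) := Cardinal.mk_le_mk_of_subset hsub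
    _ ≤ #(ℕ → ℕ → ℕ → Option PU) := Cardinal.mk_range_le
    _ = ((#(Option PU) ^ ℵ₀) ^ ℵ₀) ^ ℵ₀ := by simp
    _ ≤ ((𝔠 ^ ℵ₀) ^ ℵ₀) ^ ℵ₀ := by
      refine Cardinal.power_le_power_right (Cardinal.power_le_power_right
        (Cardinal.power_le_power_right h1))
    _ = 𝔠 := by simp
    _ ≤ ℵ₁ := hc

/-- the base case -/
theorem cap_base (hCH : #(ℕ → ℕ) ≤ (ℵ₁ : Cardinal.{0})) {U : Set L}
    (hU : #U ≤ (ℵ₁ : Cardinal.{0})) : Cap A U := by
  classical
  have h1 : #(NU A U) ≤ #((ℵ₁ : Cardinal.{0}).ord.ToType) := by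
    rw [Cardinal.mk_ord_toType]
    exact mk_NU_le hCH hU
  obtain ⟨r⟩ := h1
  let Φ : Nm A → Set (Nm A) := fun τ =>
    if h : τ ∈ NU A U then (fun υ : NU A U => υ.1) '' {υ | r υ ≤ r ⟨τ, h⟩} else ∅
  have hcount : ∀ i : (ℵ₁ : Cardinal.{0}).ord.ToType, (Set.Iic i).Countable := by
    intro i
    have h2 : (Set.Iio i).Countable := by
      refine Cardinal.mk_le_aleph0_iff.1 ?_
      rw [← Order.lt_succ_iff, Cardinal.succ_aleph0]
      exact Cardinal.mk_Iio_toType_ord_lt i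
    rw [← Set.Iio_insert]
    exact h2.insert i
  refine ⟨Φ, fun τ => ⟨?_, ?_⟩, ?_⟩
  · by_cases h : τ ∈ NU A U
    · simp only [Φ, dif_pos h]
      refine Set.Countable.image ?_ _
      exact (hcount (r ⟨τ, h⟩)).preimage r.injective
    · simp only [Φ, dif_neg h]
      exact Set.countable_empty
  · by_cases h : τ ∈ NU A U
    · simp only [Φ, dif_pos h]
      rintro _ ⟨υ, _, rfl⟩
      exact υ.2
    · simp only [Φ, dif_neg h]
      exact Set.empty_subset _
  · intro τ hτ υ hυ p hpτ hpυ _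
    rcases le_total (r ⟨υ, hυ⟩) (r ⟨τ, hτ⟩) with h | h
    · left
      refine ⟨p, le_rfl, υ, ?_, hpυ, hpυ.2⟩
      simp only [Φ, dif_pos hτ]
      exact ⟨⟨υ, hυ⟩, h, rfl⟩
    · right
      refine ⟨p, le_rfl, τ, ?_, hpτ, hpτ.2⟩
      simp only [Φ, dif_pos hυ]
      exact ⟨⟨τ, hτ⟩, h, rfl⟩

end Pool.Agent.H409_AG.Gr
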