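import Mathlib
import Pool.Agent.Helper669.Forcing

/-!
# General facts on forcing notions with the countable chain condition
-/

set_option autoImplicit false

namespace Pool.Agent.H409_AG.Ccc

set_option linter.unusedSectionVars false

open Cardinal Pool.Agent.Helper669.Forcing

universe v

variable {P : Type} [Preorder P]

/-- `p` and `q` are compatible -/
def Compat (p q : P) : Prop := ∃ s, s ≤ p ∧ s ≤ q

theorem Compat.symm {p q : P} (h : Compat p q) : Compat q p := by
  obtain ⟨s, h1, h2⟩ := h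
  exact ⟨s, h2, h1⟩

/-- the countable chain condition -/
def CCC (P : Type) [Preorder P] : Prop :=
  ∀ A : Set P, (∀ a ∈ A, ∀ b ∈ A, a ≠ b → ¬ Compat a b) → A.Countable

theorem CCC.family (hP : CCC P) {Y : Type v} (f : Y → P) (hY : ¬ Countable Y) :
    ∃ y y', y ≠ y' ∧ Compat (f y) (f y') := by
  by_contra hcon
  push Not at hcon
  have hinj : Function.Injective f := by
    intro y y' h
    by_contra hne
    exact hcon y y' hne ⟨f y, le_rfl, by rw [h]⟩
  have h1 : (Set.range f).Countable := by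
    apply hP
    rintro _ ⟨y, rfl⟩ _ ⟨y', rfl⟩ hne h
    exact hcon y y' (fun h => hne (by rw [h])) h
  exact hY (Set.countable_univ_iff.1 (Set.countable_of_injective_of_countable_image
    (f := f) (s := Set.univ) hinj.injOn (by rwa [Set.image_univ])))

/-- inside every set of pairs there is a countable set such that the first coordinate of each
member of the set is compatible with the first coordinate of one of them -/
theorem CCC.exists_max (hP : CCC P) {α : Type v} (D : Set (P × α)) :
    ∃ A ⊆ D, A.Countable ∧ ∀ d ∈ D, ∃ a ∈ A, Compat d.1 a.1 := by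
  obtain ⟨A, hA⟩ := zorn_subset {A : Set (P × α) | A ⊆ D ∧ ∀ a ∈ A, ∀ b ∈ A,
      Compat a.1 b.1 → a = b}
    (by
      intro c hc hchain
      refine ⟨⋃₀ c, ⟨Set.sUnion_subset fun s hs => (hc hs).1, ?_⟩,
        fun s hs => Set.subset_sUnion_of_mem hs⟩
      rintro a ⟨s, hs, ha⟩ b ⟨t, ht, hb⟩ hab
      rcases hchain.total hs ht with h | h
      · exact (hc ht).2 a (h ha) b hb hab
      · exact (hc hs).2 a ha b (h hb) hab)
  refine ⟨A, hA.prop.1, ?_, ?_⟩
  · by_contra hcount
    have hcount' : ¬ Countable A := hcount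
    obtain ⟨y, y', hne, h⟩ := hP.family (fun a : A => a.1.1) hcount'
    exact hne (Subtype.ext (hA.prop.2 y.1 y.2 y'.1 y'.2 h))
  · intro p hp
    by_contra hcon
    push Not at hcon
    have hpA : p ∉ A := fun hpA => hcon p hpA ⟨p.1, le_rfl, le_rfl⟩
    have hmem : insert p A ∈ {A : Set (P × α) | A ⊆ D ∧ ∀ a ∈ A, ∀ b ∈ A,
        Compat a.1 b.1 → a = b} := by
      refine ⟨Set.insert_subset hp hA.prop.1, ?_⟩
      rintro a (rfl | ha) b (rfl | hb) h
      · rfl
      · exact absurd h (hcon b hb)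
      · exact absurd h.symm (hcon a ha)
      · exact hA.prop.2 a ha b hb h
    exact hpA (hA.le_of_ge hmem (Set.subset_insert p A) (Set.mem_insert p A))

theorem CCC.exists_antichain (hP : CCC P) (D : Set P) :
    ∃ A ⊆ D, A.Countable ∧ ∀ p ∈ D, ∃ a ∈ A, Compat p a := by
  obtain ⟨A, hA, hAc, hAp⟩ := hP.exists_max {d : P × Unit | d.1 ∈ D}
  refine ⟨Prod.fst '' A, ?_, hAc.image _, ?_⟩
  · rintro _ ⟨a, ha, rfl⟩
    exact hA ha
  · intro p hp
    obtain ⟨a, ha, h⟩ := hAp (p, ()) hp
    exact ⟨a.1, ⟨a, ha, rfl⟩, h⟩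

theorem CCC.exists_compat_same (hP : CCC P) {X Z : Type v} (h : #Z * ℵ₀ < #X) (f : X → P)
    (z : X → Z) : ∃ x x', x ≠ x' ∧ z x = z x' ∧ Compat (f x) (f x') := by
  have h1 : ∃ c, ¬ Countable {x // z x = c} := by
    by_contra hcon
    push Not at hcon
    have h2 : #X = Cardinal.sum fun c => #{x // z x = c} := by
      rw [← mk_sigma]
      exact (Equiv.sigmaFiberEquiv z).symm.cardinal_eq
    have h3 : #X ≤ #Z * ℵ₀ := by
      rw [h2]
      refine (Cardinal.sum_le_sum _ (fun _ => ℵ₀) fun c => ?_).trans ?_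
      · have := hcon c
        exact mk_le_aleph0
      · rw [Cardinal.sum_const']
    exact absurd h3 (not_le.2 h)
  obtain ⟨c, hc⟩ := h1
  obtain ⟨y, y', hne, hcomp⟩ := hP.family (fun x : {x // z x = c} => f x.1) hc
  exact ⟨y.1, y'.1, fun h => hne (Subtype.ext h), y.2.trans y'.2.symm, hcomp⟩

theorem CCC.cardinalsPreserved (hP : CCC P) (p : P) : p ∈ CardinalsPreserved.{0, v} P := by
  intro μ ν hμν hν q _ hq
  obtain ⟨r, _, R, hR1, hR2⟩ := mem_fex.1 hq q le_rfl
  have h1 : ∀ y : ν.out, ∃ s ≤ r, ∃ x : μ.out, s ∈ meets (R x y) := fun y =>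
    mem_fex.1 (hR2 y) r le_rfl
  choose f hf x hx using h1
  obtain ⟨y, y', hne, hz, s, hs1, hs2⟩ := hP.exists_compat_same (X := ν.out) (Z := μ.out) (by
    rw [mk_out, mk_out]
    exact mul_lt_of_lt hν.le hμν hν) f x
  apply hne
  refine IsFun.unique (down_IsFun R r hR1 s (hs1.trans (hf y))) (down_meets _ _ (hx y) s hs1) ?_
  rw [hz]
  exact down_meets _ _ (hx y') s hs2

/-- among uncountably many conditions there is one all of whose extensions are compatible with
uncountably many of them -/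
theorem CCC.exists_heavy (hP : CCC P) {Y : Type v} (f : Y → P) (hY : ¬ Countable Y) :
    ∃ y, ∀ w ≤ f y, ¬ {y' : Y | Compat w (f y')}.Countable := by
  by_contra hcon
  push Not at hcon
  choose w hw hwc using hcon
  obtain ⟨A, hA, hAc, hAp⟩ := hP.exists_max {d : P × Y | d.1 = w d.2}
  apply hY
  rw [← Set.countable_univ_iff]
  refine (Set.Countable.biUnion hAc (t := fun a _ => {y' : Y | Compat (w a.2) (f y')})
    fun a _ => hwc a.2).mono ?_
  intro y _
  obtain ⟨a, ha, s, h1, h2⟩ := hAp (w y, y) rfl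
  refine Set.mem_biUnion ha ⟨s, ?_, h1.trans (hw y)⟩
  have h3 : a.1 = w a.2 := hA ha
  rw [← h3]
  exact h2

end Pool.Agent.H409_AG.Ccc
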