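import Mathlib
import Pool.Agent.H409_AG.Ccc

/-!
# The conditions
-/

set_option autoImplicit false

namespace Pool.Agent.H409_AG.Gr

set_option linter.unusedVariables false

open Pool.Agent.H409_AG.Ccc

/-! ### Lists -/

theorem pre_len {s s' u : List ℕ} (h : s <+: u) (h' : s' <+: u) (hl : s.length = s'.length) :
    s = s' :=
  (List.prefix_of_prefix_length_le h h' hl.le).eq_of_length hl

theorem getD_pre {s u : List ℕ} (h : s <+: u) {i : ℕ} (hi : i < s.length) :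
    s.getD i 0 = u.getD i 0 := by
  obtain ⟨v, rfl⟩ := h
  rw [List.getD_append _ _ _ _ hi]

theorem getD_mem {s : List ℕ} {i : ℕ} (hi : i < s.length) : s.getD i 0 ∈ s := by
  rw [List.getD_eq_getElem _ _ hi]
  exact List.getElem_mem hi

theorem getD_rep {s : List ℕ} {k c : ℕ} (hk : 0 < k) :
    (s ++ List.replicate k c).getD s.length 0 = c := by
  rw [List.getD_append_right _ _ _ _ le_rfl]
  simp [List.getD_eq_getElem?_getD, hk]

/-- the common neighbours of `s` and `s'` -/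
def Common (T : Set (List ℕ × List ℕ)) (s s' : List ℕ) : Set (List ℕ) :=
  {σ | (s, σ) ∈ T ∧ (s', σ) ∈ T}

/-! ### Conditions -/

/-- The conditions: finite sets of names of vertices with finite sequences, finitely many edges,
and a finite part of the tree of the closed graph. -/
@[ext]
structure Cond {L : Type} (A : L → L → Prop) where
  n : ℕ
  X : Set (L × List ℕ)
  Y : Set ((L × ℕ) × List ℕ)
  e : Set (L × (L × ℕ))
  T : Set (List ℕ × List ℕ)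
  finX : X.Finite
  finY : Y.Finite
  finT : T.Finite
  Xlen : ∀ δ s, (δ, s) ∈ X → s.length = n
  Ylen : ∀ β s, (β, s) ∈ Y → s.length = n
  Xfun : ∀ δ s s', (δ, s) ∈ X → (δ, s') ∈ X → s = s'
  Yfun : ∀ β s s', (β, s) ∈ Y → (β, s') ∈ Y → s = s'
  Yinj : ∀ β β' s, (β, s) ∈ Y → (β', s) ∈ Y → β = β'
  eX : ∀ δ β, (δ, β) ∈ e → ∃ s, (δ, s) ∈ X
  eY : ∀ δ β, (δ, β) ∈ e → ∃ σ, (β, σ) ∈ Y
  eA : ∀ δ β, (δ, β) ∈ e → A δ β.1
  Tlen : ∀ s σ, (s, σ) ∈ T → s.length = σ.length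
  Tle : ∀ s σ, (s, σ) ∈ T → s.length ≤ n
  Tcl : ∀ s σ s' σ', (s, σ) ∈ T → s' <+: s → σ' <+: σ → s'.length = σ'.length → (s', σ') ∈ T
  Te : ∀ δ β s σ, (δ, β) ∈ e → (δ, s) ∈ X → (β, σ) ∈ Y → (s, σ) ∈ T
  B : ∀ (t : List ℕ) (a b : ℕ) (s s' : List ℕ), a ≠ b → (t ++ [a]) <+: s → (t ++ [b]) <+: s' →
    s.length = s'.length → (Common T s s').encard ≤ ((max a b : ℕ) : ℕ∞)

variable {L : Type} {A : L → L → Prop}

instance : Preorder (Cond A) where
  le q p := p.n ≤ q.n ∧ (∀ δ s, (δ, s) ∈ p.X → ∃ s', s <+: s' ∧ (δ, s') ∈ q.X) ∧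
    (∀ β s, (β, s) ∈ p.Y → ∃ s', s <+: s' ∧ (β, s') ∈ q.Y) ∧ p.e ⊆ q.e ∧ p.T ⊆ q.T
  le_refl p := ⟨le_rfl, fun _ s h => ⟨s, List.prefix_rfl, h⟩,
    fun _ s h => ⟨s, List.prefix_rfl, h⟩, subset_rfl, subset_rfl⟩
  le_trans r q p hrq hqp := by
    refine ⟨hqp.1.trans hrq.1, ?_, ?_, hqp.2.2.2.1.trans hrq.2.2.2.1,
      hqp.2.2.2.2.trans hrq.2.2.2.2⟩
    · intro δ s h
      obtain ⟨s1, h1, h2⟩ := hqp.2.1 δ s h
      obtain ⟨s2, h3, h4⟩ := hrq.2.1 δ s1 h2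
      exact ⟨s2, h1.trans h3, h4⟩
    · intro δ s h
      obtain ⟨s1, h1, h2⟩ := hqp.2.2.1 δ s h
      obtain ⟨s2, h3, h4⟩ := hrq.2.2.1 δ s1 h2
      exact ⟨s2, h1.trans h3, h4⟩

theorem le_def {q p : Cond A} : q ≤ p ↔
    p.n ≤ q.n ∧ (∀ δ s, (δ, s) ∈ p.X → ∃ s', s <+: s' ∧ (δ, s') ∈ q.X) ∧
    (∀ β s, (β, s) ∈ p.Y → ∃ s', s <+: s' ∧ (β, s') ∈ q.Y) ∧ p.e ⊆ q.e ∧ p.T ⊆ q.T := Iff.rfl

/-- the support of `p` is contained in `U` -/
def On (p : Cond A) (U : Set L) : Prop :=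
  (∀ δ s, (δ, s) ∈ p.X → δ ∈ U) ∧ (∀ β s, (β, s) ∈ p.Y → β.1 ∈ U)

theorem On.mono {p : Cond A} {U V : Set L} (h : On p U) (hUV : U ⊆ V) : On p V :=
  ⟨fun δ s hs => hUV (h.1 δ s hs), fun β s hs => hUV (h.2 β s hs)⟩

/-- the restriction of `p` to `U` -/
def res (p : Cond A) (U : Set L) : Cond A where
  n := p.n
  X := {z | z ∈ p.X ∧ z.1 ∈ U}
  Y := {z | z ∈ p.Y ∧ z.1.1 ∈ U}
  e := {z | z ∈ p.e ∧ z.1 ∈ U ∧ z.2.1 ∈ U}
  T := p.T
  finX := p.finX.subset fun _ h => h.1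
  finY := p.finY.subset fun _ h => h.1
  finT := p.finT
  Xlen δ s h := p.Xlen δ s h.1
  Ylen δ s h := p.Ylen δ s h.1
  Xfun δ s s' h h' := p.Xfun δ s s' h.1 h'.1
  Yfun δ s s' h h' := p.Yfun δ s s' h.1 h'.1
  Yinj β β' s h h' := p.Yinj β β' s h.1 h'.1
  eX δ β h := by
    obtain ⟨s, hs⟩ := p.eX δ β h.1
    exact ⟨s, hs, h.2.1⟩
  eY δ β h := by
    obtain ⟨s, hs⟩ := p.eY δ β h.1
    exact ⟨s, hs, h.2.2⟩
  eA δ β h := p.eA δ β h.1
  Tlen := p.Tlen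
  Tle := p.Tle
  Tcl := p.Tcl
  Te δ β s σ h h1 h2 := p.Te δ β s σ h.1 h1.1 h2.1
  B := p.B

theorem res_on (p : Cond A) (U : Set L) : On (res p U) U :=
  ⟨fun _ _ h => h.2, fun _ _ h => h.2⟩

theorem le_res (p : Cond A) (U : Set L) : p ≤ res p U :=
  ⟨le_rfl, fun _ s h => ⟨s, List.prefix_rfl, h.1⟩, fun _ s h => ⟨s, List.prefix_rfl, h.1⟩,
    fun _ h => h.1, subset_rfl⟩

theorem res_mono {p q : Cond A} (h : q ≤ p) (U : Set L) : res q U ≤ res p U := by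
  refine ⟨h.1, ?_, ?_, ?_, h.2.2.2.2⟩
  · rintro δ s ⟨h1, h2⟩
    obtain ⟨s', h3, h4⟩ := h.2.1 δ s h1
    exact ⟨s', h3, h4, h2⟩
  · rintro δ s ⟨h1, h2⟩
    obtain ⟨s', h3, h4⟩ := h.2.2.1 δ s h1
    exact ⟨s', h3, h4, h2⟩
  · rintro z ⟨h1, h2⟩
    exact ⟨h.2.2.2.1 h1, h2⟩

theorem res_eq {p : Cond A} {U : Set L} (h : On p U) : res p U = p := by
  ext1
  · rfl
  · ext z
    exact ⟨fun hz => hz.1, fun hz => ⟨hz, h.1 z.1 z.2 hz⟩⟩
  · ext z
    exact ⟨fun hz => hz.1, fun hz => ⟨hz, h.2 z.1 z.2 hz⟩⟩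
  · ext z
    refine ⟨fun hz => hz.1, fun hz => ⟨hz, ?_, ?_⟩⟩
    · obtain ⟨s, hs⟩ := p.eX z.1 z.2 hz
      exact h.1 _ _ hs
    · obtain ⟨s, hs⟩ := p.eY z.1 z.2 hz
      exact h.2 _ _ hs
  · rfl

theorem res_le {p w : Cond A} {U : Set L} (h : p ≤ w) (hw : On w U) : res p U ≤ w := by
  have := res_mono h U
  rwa [res_eq hw] at this

theorem res_res (p : Cond A) (U V : Set L) : res (res p U) V = res p (U ∩ V) := by
  ext1
  · rfl
  · ext z
    exact ⟨fun h => ⟨h.1.1, h.1.2, h.2⟩, fun h => ⟨⟨h.1, h.2.1⟩, h.2.2⟩⟩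
  · ext z
    exact ⟨fun h => ⟨h.1.1, h.1.2, h.2⟩, fun h => ⟨⟨h.1, h.2.1⟩, h.2.2⟩⟩
  · ext z
    exact ⟨fun h => ⟨h.1.1, ⟨h.1.2.1, h.2.1⟩, ⟨h.1.2.2, h.2.2⟩⟩,
      fun h => ⟨⟨h.1, h.2.1.1, h.2.2.1⟩, h.2.1.2, h.2.2.2⟩⟩
  · rfl

/-- `U` is semi-closed -/
def SC (A : L → L → Prop) (U : Set L) : Prop :=
  ∀ δ ∈ U, ∀ δ' ∈ U, δ ≠ δ' → ∀ γ, A δ γ → A δ' γ → γ ∈ U

/-! ### Amalgamation -/

theorem exists_bound {S : Set (List ℕ)} (h : S.Finite) : ∃ M, ∀ s ∈ S, ∀ a ∈ s, a < M := by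
  have h1 : (⋃ s ∈ S, {a | a ∈ s}).Finite := by
    refine h.biUnion fun s _ => ?_
    exact List.finite_toSet s
  obtain ⟨M, hM⟩ := h1.bddAbove
  refine ⟨M + 1, fun s hs a ha => Nat.lt_succ_of_le (hM ?_)⟩
  simp only [Set.mem_iUnion]
  exact ⟨s, hs, ha⟩

section Core

variable (q w : Cond A) (U : Set L) (M : ℕ) (c : L → ℕ)

/-- sequences of the amalgam -/
def coreX : Set (L × List ℕ) :=
  w.X ∪ {z | ∃ δ s, (δ, s) ∈ q.X ∧ δ ∉ U ∧ z = (δ, s ++ List.replicate (w.n - q.n) (c δ))}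

/-- sequences of the amalgam -/
def coreY : Set ((L × ℕ) × List ℕ) :=
  w.Y ∪ {z | ∃ β s, (β, s) ∈ q.Y ∧ β.1 ∉ U ∧ z = (β, s ++ List.replicate (w.n - q.n) M)}

/-- tree of the amalgam -/
def coreT : Set (List ℕ × List ℕ) :=
  w.T ∪ {z | z.1.length = z.2.length ∧ ∃ δ β s σ, (δ, β) ∈ q.e ∧ (δ, s) ∈ coreX q w U c ∧
    (β, σ) ∈ coreY q w U M ∧ z.1 <+: s ∧ z.2 <+: σ}

variable {q w U M c}

/-- the assumptions on the amalgam -/
structure Hyp (q w : Cond A) (U : Set L) (M : ℕ) (c : L → ℕ) : Prop where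
  sc : SC A U
  on : On w U
  le : w ≤ res q U
  lt : q.n < w.n
  bX : ∀ δ s, (δ, s) ∈ w.X → ∀ a ∈ s, a < M
  bY : ∀ β s, (β, s) ∈ w.Y → ∀ a ∈ s, a < M
  bT : ∀ s σ, (s, σ) ∈ w.T → (∀ a ∈ s, a < M) ∧ ∀ a ∈ σ, a < M
  card : q.Y.encard ≤ M
  cinj : ∀ δ δ' s s', (δ, s) ∈ q.X → (δ', s') ∈ q.X → c δ = c δ' → δ = δ'
  cM : ∀ δ, M < c δ

theorem Hyp.xw (H : Hyp q w U M c) {δ : L} {s : List ℕ} (h : (δ, s) ∈ coreX q w U c)
    (hδ : δ ∈ U) : (δ, s) ∈ w.X := by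
  rcases h with h | ⟨δ', s', _, h2, h3⟩
  · exact h
  · rw [Prod.mk.injEq] at h3
    exact absurd (h3.1 ▸ hδ) h2

theorem Hyp.yw (H : Hyp q w U M c) {β : L × ℕ} {s : List ℕ} (h : (β, s) ∈ coreY q w U M)
    (hβ : β.1 ∈ U) : (β, s) ∈ w.Y := by
  rcases h with h | ⟨δ', s', _, h2, h3⟩
  · exact h
  · rw [Prod.mk.injEq] at h3
    exact absurd (h3.1 ▸ hβ) h2

theorem Hyp.xn (H : Hyp q w U M c) {δ : L} {s : List ℕ} (h : (δ, s) ∈ coreX q w U c)
    (hδ : δ ∉ U) : ∃ s', (δ, s') ∈ q.X ∧ s = s' ++ List.replicate (w.n - q.n) (c δ) := by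
  rcases h with h | ⟨δ', s', h1, _, h3⟩
  · exact absurd (H.on.1 _ _ h) hδ
  · rw [Prod.mk.injEq] at h3
    obtain ⟨rfl, h3⟩ := h3
    exact ⟨s', h1, h3⟩

theorem Hyp.yn (H : Hyp q w U M c) {β : L × ℕ} {s : List ℕ} (h : (β, s) ∈ coreY q w U M)
    (hβ : β.1 ∉ U) : ∃ s', (β, s') ∈ q.Y ∧ s = s' ++ List.replicate (w.n - q.n) M := by
  rcases h with h | ⟨δ', s', h1, _, h3⟩
  · exact absurd (H.on.2 _ _ h) hβ
  · rw [Prod.mk.injEq] at h3
    obtain ⟨rfl, h3⟩ := h3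
    exact ⟨s', h1, h3⟩

theorem Hyp.xpre (H : Hyp q w U M c) {δ : L} {s s' : List ℕ} (h : (δ, s) ∈ q.X)
    (h' : (δ, s') ∈ coreX q w U c) : s <+: s' := by
  by_cases hδ : δ ∈ U
  · obtain ⟨s1, h1, h2⟩ := H.le.2.1 δ s ⟨h, hδ⟩
    rw [w.Xfun δ s' s1 (H.xw h' hδ) h2]
    exact h1
  · obtain ⟨s1, h1, rfl⟩ := H.xn h' hδ
    rw [q.Xfun δ s s1 h h1]
    exact List.prefix_append _ _

theorem Hyp.ypre (H : Hyp q w U M c) {β : L × ℕ} {s s' : List ℕ} (h : (β, s) ∈ q.Y)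
    (h' : (β, s') ∈ coreY q w U M) : s <+: s' := by
  by_cases hδ : β.1 ∈ U
  · obtain ⟨s1, h1, h2⟩ := H.le.2.2.1 β s ⟨h, hδ⟩
    rw [w.Yfun β s' s1 (H.yw h' hδ) h2]
    exact h1
  · obtain ⟨s1, h1, rfl⟩ := H.yn h' hδ
    rw [q.Yfun β s s1 h h1]
    exact List.prefix_append _ _

theorem Hyp.xex (H : Hyp q w U M c) {δ : L} {s : List ℕ} (h : (δ, s) ∈ q.X) :
    ∃ s', (δ, s') ∈ coreX q w U c := by
  by_cases hδ : δ ∈ U
  · obtain ⟨s1, h1, h2⟩ := H.le.2.1 δ s ⟨h, hδ⟩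
    exact ⟨s1, Or.inl h2⟩
  · exact ⟨_, Or.inr ⟨δ, s, h, hδ, rfl⟩⟩

theorem Hyp.yex (H : Hyp q w U M c) {β : L × ℕ} {s : List ℕ} (h : (β, s) ∈ q.Y) :
    ∃ s', (β, s') ∈ coreY q w U M := by
  by_cases hδ : β.1 ∈ U
  · obtain ⟨s1, h1, h2⟩ := H.le.2.2.1 β s ⟨h, hδ⟩
    exact ⟨s1, Or.inl h2⟩
  · exact ⟨_, Or.inr ⟨β, s, h, hδ, rfl⟩⟩

theorem Hyp.xlen (H : Hyp q w U M c) {δ : L} {s : List ℕ} (h : (δ, s) ∈ coreX q w U c) :
    s.length = w.n := by
  by_cases hδ : δ ∈ U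
  · exact w.Xlen _ _ (H.xw h hδ)
  · obtain ⟨s1, h1, rfl⟩ := H.xn h hδ
    have := q.Xlen _ _ h1
    have := H.lt
    simp only [List.length_append, List.length_replicate]
    omega

theorem Hyp.ylen (H : Hyp q w U M c) {β : L × ℕ} {s : List ℕ} (h : (β, s) ∈ coreY q w U M) :
    s.length = w.n := by
  by_cases hδ : β.1 ∈ U
  · exact w.Ylen _ _ (H.yw h hδ)
  · obtain ⟨s1, h1, rfl⟩ := H.yn h hδ
    have := q.Ylen _ _ h1
    have := H.lt
    simp only [List.length_append, List.length_replicate]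
    omega

theorem Hyp.xfun (H : Hyp q w U M c) {δ : L} {s s' : List ℕ} (h : (δ, s) ∈ coreX q w U c)
    (h' : (δ, s') ∈ coreX q w U c) : s = s' := by
  by_cases hδ : δ ∈ U
  · exact w.Xfun _ _ _ (H.xw h hδ) (H.xw h' hδ)
  · obtain ⟨s1, h1, rfl⟩ := H.xn h hδ
    obtain ⟨s2, h2, rfl⟩ := H.xn h' hδ
    rw [q.Xfun _ _ _ h1 h2]

theorem Hyp.yfun (H : Hyp q w U M c) {β : L × ℕ} {s s' : List ℕ} (h : (β, s) ∈ coreY q w U M)
    (h' : (β, s') ∈ coreY q w U M) : s = s' := by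
  by_cases hδ : β.1 ∈ U
  · exact w.Yfun _ _ _ (H.yw h hδ) (H.yw h' hδ)
  · obtain ⟨s1, h1, rfl⟩ := H.yn h hδ
    obtain ⟨s2, h2, rfl⟩ := H.yn h' hδ
    rw [q.Yfun _ _ _ h1 h2]

/-- the digit at `q.n` of the sequences of the amalgam -/
theorem Hyp.xdig (H : Hyp q w U M c) {δ : L} {s : List ℕ} (h : (δ, s) ∈ coreX q w U c)
    (hδ : δ ∉ U) : s.getD q.n 0 = c δ := by
  obtain ⟨s1, h1, rfl⟩ := H.xn h hδ
  rw [← q.Xlen _ _ h1]
  exact getD_rep (by have := q.Xlen _ _ h1; have := H.lt; omega)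

theorem Hyp.xdig' (H : Hyp q w U M c) {δ : L} {s : List ℕ} (h : (δ, s) ∈ coreX q w U c)
    (hδ : δ ∈ U) : s.getD q.n 0 < M :=
  H.bX _ _ (H.xw h hδ) _ (getD_mem (by rw [H.xlen h]; exact H.lt))

theorem Hyp.ydig (H : Hyp q w U M c) {β : L × ℕ} {s : List ℕ} (h : (β, s) ∈ coreY q w U M)
    (hδ : β.1 ∉ U) : s.getD q.n 0 = M := by
  obtain ⟨s1, h1, rfl⟩ := H.yn h hδ
  rw [← q.Ylen _ _ h1]
  exact getD_rep (by have := q.Ylen _ _ h1; have := H.lt; omega)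

theorem Hyp.ydig' (H : Hyp q w U M c) {β : L × ℕ} {s : List ℕ} (h : (β, s) ∈ coreY q w U M)
    (hδ : β.1 ∈ U) : s.getD q.n 0 < M :=
  H.bY _ _ (H.yw h hδ) _ (getD_mem (by rw [H.ylen h]; exact H.lt))

theorem Hyp.yinj (H : Hyp q w U M c) {β β' : L × ℕ} {s : List ℕ} (h : (β, s) ∈ coreY q w U M)
    (h' : (β', s) ∈ coreY q w U M) : β = β' := by
  by_cases hδ : β.1 ∈ U
  · by_cases hδ' : β'.1 ∈ U
    · exact w.Yinj _ _ _ (H.yw h hδ) (H.yw h' hδ')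
    · exact absurd (H.ydig h' hδ') (H.ydig' h hδ).ne
  · by_cases hδ' : β'.1 ∈ U
    · exact absurd (H.ydig h hδ) (H.ydig' h' hδ').ne
    · obtain ⟨s1, h1, h3⟩ := H.yn h hδ
      obtain ⟨s2, h2, h4⟩ := H.yn h' hδ'
      have h5 : s1 = s2 := pre_len (u := s) (by rw [h3]; exact List.prefix_append _ _)
        (by rw [h4]; exact List.prefix_append _ _) (by rw [q.Ylen _ _ h1, q.Ylen _ _ h2])
      subst h5
      exact q.Yinj _ _ _ h1 h2

/-- prefixes of length at least `q.n` of sequences of `y`-vertices of `q` determine the vertex -/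
theorem Hyp.yinj_pre (H : Hyp q w U M c) {β β' : L × ℕ} {s s' σ : List ℕ} {t t' : List ℕ}
    (hq : (β, t) ∈ q.Y) (hq' : (β', t') ∈ q.Y)
    (h : (β, s) ∈ coreY q w U M)
    (h' : (β', s') ∈ coreY q w U M) (hs : σ <+: s) (hs' : σ <+: s') (hl : q.n ≤ σ.length) :
    β = β' := by
  have h1 : t <+: σ := List.prefix_of_prefix_length_le (H.ypre hq h) hs (by rw [q.Ylen _ _ hq]; exact hl)
  have h2 : t' <+: σ :=
    List.prefix_of_prefix_length_le (H.ypre hq' h') hs' (by rw [q.Ylen _ _ hq']; exact hl)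
  have h3 : t = t' := pre_len h1 h2 (by rw [q.Ylen _ _ hq, q.Ylen _ _ hq'])
  subst h3
  exact q.Yinj _ _ _ hq hq'

theorem Hyp.tlow (H : Hyp q w U M c) {s σ : List ℕ} (h : (s, σ) ∈ coreT q w U M c)
    (hs : s.length ≤ q.n) : (s, σ) ∈ w.T := by
  rcases h with h | ⟨h0, δ, β, s', σ', h1, h2, h3, h4, h5⟩
  · exact h
  · obtain ⟨s0, h6⟩ := q.eX _ _ h1
    obtain ⟨σ0, h7⟩ := q.eY _ _ h1
    have h8 := q.Te _ _ _ _ h1 h6 h7
    refine H.le.2.2.2.2 (q.Tcl _ _ _ _ h8 ?_ ?_ h0)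
    · exact List.prefix_of_prefix_length_le h4 (H.xpre h6 h2) (by rw [q.Xlen _ _ h6]; exact hs)
    · exact List.prefix_of_prefix_length_le h5 (H.ypre h7 h3) (by
        rw [q.Ylen _ _ h7]; rw [← h0]; exact hs)

theorem Hyp.tU (H : Hyp q w U M c) {δ : L} {β : L × ℕ} {s σ s' σ' : List ℕ}
    (h1 : (δ, β) ∈ q.e) (h2 : (δ, s') ∈ coreX q w U c) (h3 : (β, σ') ∈ coreY q w U M)
    (h4 : s <+: s') (h5 : σ <+: σ') (h0 : s.length = σ.length) (hδ : δ ∈ U) (hβ : β.1 ∈ U) :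
    (s, σ) ∈ w.T := by
  have h6 : (δ, β) ∈ w.e := H.le.2.2.2.1 ⟨h1, hδ, hβ⟩
  exact w.Tcl _ _ _ _ (w.Te _ _ _ _ h6 (H.xw h2 hδ) (H.yw h3 hβ)) h4 h5 h0

/-- the case of a new sequence -/
theorem Hyp.bound_new (H : Hyp q w U M c) {δ : L} (hδ : δ ∉ U) {s s1 s' : List ℕ} (h1 : (δ, s1) ∈ coreX q w U c)
    (hs1 : s <+: s1) (hn : q.n < s.length) (hl : s.length = s'.length) {t : List ℕ} {a b : ℕ}
    (hab : a ≠ b) (ha : (t ++ [a]) <+: s) (hb : (t ++ [b]) <+: s') :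
    (Common (coreT q w U M c) s s').encard ≤ ((max a b : ℕ) : ℕ∞) := by
  -- the digit of `s`
  have hdig : s.getD q.n 0 = c δ := by
    rw [getD_pre hs1 hn]
    exact H.xdig h1 hδ
  obtain ⟨s0, hs0, -⟩ := H.xn h1 hδ
  -- all common neighbours are restrictions of sequences of `q`
  have hform : ∀ z : List ℕ, z.getD q.n 0 = c δ → q.n < z.length → ∀ σ,
      (z, σ) ∈ coreT q w U M c → z.length = σ.length ∧ ∃ β z' σ' σ0, (β, σ0) ∈ q.Y ∧
        (δ, z') ∈ coreX q w U c ∧ (β, σ') ∈ coreY q w U M ∧ z <+: z' ∧ σ <+: σ' := by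
    intro z hz hzn σ hσ
    rcases hσ with h | ⟨h0, δ', β, z', σ', h2, h3, h4, h5, h6⟩
    · exfalso
      have := (H.bT _ _ h).1 _ (getD_mem hzn)
      rw [hz] at this
      exact absurd (H.cM δ) (not_lt.2 this.le)
    · have hδ' : δ' ∉ U := by
        intro hU
        have := H.xdig' h3 hU
        rw [← getD_pre h5 hzn, hz] at this
        exact absurd (H.cM δ) (not_lt.2 this.le)
      have h7 : c δ' = c δ := by
        rw [← H.xdig h3 hδ', ← getD_pre h5 hzn, hz]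
      obtain ⟨z0, hz0, -⟩ := H.xn h3 hδ'
      have h8 : δ' = δ := H.cinj _ _ _ _ hz0 hs0 h7
      subst h8
      obtain ⟨σ0, hσ0⟩ := q.eY _ _ h2
      exact ⟨h0, β, z', σ', σ0, hσ0, h3, h4, h5, h6⟩
  have hinj : Set.InjOn (fun σ : List ℕ => σ.take q.n) (Common (coreT q w U M c) s s') := by
    intro σ hσ τ hτ hστ
    obtain ⟨e1, β, z1, σ1, σ0, h2, h3, h4, h5, h6⟩ := hform s hdig hn σ hσ.1
    obtain ⟨e2, β', z2, τ1, τ0, h2', h3', h4', h5', h6'⟩ := hform s hdig hn τ hτ.1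
    have e3 : σ0 = σ.take q.n := by
      refine pre_len (u := σ1) (H.ypre h2 h4) ((List.take_prefix _ _).trans h6) ?_
      rw [q.Ylen _ _ h2, List.length_take, ← e1]
      omega
    have e4 : τ0 = τ.take q.n := by
      refine pre_len (u := τ1) (H.ypre h2' h4') ((List.take_prefix _ _).trans h6') ?_
      rw [q.Ylen _ _ h2', List.length_take, ← e2]
      omega
    have e5 : σ0 = τ0 := by rw [e3, e4]; exact hστ
    subst e5
    have e6 : β = β' := q.Yinj _ _ _ h2 h2'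
    subst e6
    have e7 : σ1 = τ1 := H.yfun h4 h4'
    subst e7
    exact pre_len h6 h6' (by rw [← e1, ← e2])
  rcases lt_trichotomy t.length q.n with hlt | heq | hgt
  · -- the first difference is below `q.n`
    have h2 : (Common (coreT q w U M c) s s').encard ≤
        (Common w.T (s.take q.n) (s'.take q.n)).encard := by
      refine Set.encard_le_encard_of_injOn (f := fun σ : List ℕ => σ.take q.n) ?_ hinj
      intro σ hσ
      have e1 := (hform s hdig hn σ hσ.1).1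
      have : ∀ z : List ℕ, z.length = s.length → (z, σ) ∈ coreT q w U M c →
          (z.take q.n, σ.take q.n) ∈ w.T := by
        intro z hz h
        refine H.tlow (s := z.take q.n) (σ := σ.take q.n) ?_ (by rw [List.length_take]; omega)
        rcases h with h | ⟨h0, δ', β, z', σ', h2, h3, h4, h5, h6⟩
        · refine Or.inl (w.Tcl _ _ _ _ h (List.take_prefix _ _) (List.take_prefix _ _) ?_)
          rw [List.length_take, List.length_take, hz, e1]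
        · refine Or.inr ⟨?_, δ', β, z', σ', h2, h3, h4, (List.take_prefix _ _).trans h5,
            (List.take_prefix _ _).trans h6⟩
          simp only [List.length_take]
          simp only at h0
          rw [h0]
      exact ⟨this s rfl hσ.1, this s' hl.symm hσ.2⟩
    refine h2.trans (w.B t a b _ _ hab ?_ ?_ ?_)
    · exact List.prefix_of_prefix_length_le ha (List.take_prefix _ _) (by
        simp only [List.length_append, List.length_singleton, List.length_take]; omega)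
    · exact List.prefix_of_prefix_length_le hb (List.take_prefix _ _) (by
        simp only [List.length_append, List.length_singleton, List.length_take]; omega)
    · simp only [List.length_take]
      rw [hl]
  · -- the first difference is `q.n`
    have h2 : a = c δ := by
      rw [← hdig, ← getD_pre ha (by simp [heq]), ← heq]
      simp
    have h3 : (Common (coreT q w U M c) s s').encard ≤ q.Y.encard := by
      have h4 : (Prod.snd '' q.Y : Set (List ℕ)).encard ≤ q.Y.encard := Set.encard_image_le _ _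
      refine le_trans ?_ h4
      refine Set.encard_le_encard_of_injOn (f := fun σ : List ℕ => σ.take q.n) ?_ hinj
      intro σ hσ
      obtain ⟨e1, β, z1, σ1, σ0, h2, h3, h4, h5, h6⟩ := hform s hdig hn σ hσ.1
      refine ⟨(β, σ0), h2, ?_⟩
      refine pre_len (u := σ1) (H.ypre h2 h4) ((List.take_prefix _ _).trans h6) ?_
      rw [q.Ylen _ _ h2, List.length_take, ← e1]
      omega
    refine h3.trans (H.card.trans ?_)
    have := H.cM δ
    exact_mod_cast (show M ≤ max a b by rw [h2]; exact this.le.trans (le_max_left _ _))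
  · -- impossible
    have h2 : Common (coreT q w U M c) s s' = ∅ := by
      rw [Set.eq_empty_iff_forall_notMem]
      intro σ hσ
      have hta : t <+: s := (List.prefix_append _ _).trans ha
      have htb : t <+: s' := (List.prefix_append _ _).trans hb
      have h3 : s'.getD q.n 0 = c δ := by
        rw [← getD_pre htb hgt, getD_pre hta hgt, hdig]
      obtain ⟨-, -, z1, -, -, -, h4, -, h5, -⟩ := hform s hdig hn σ hσ.1
      obtain ⟨-, -, z2, -, -, -, h4', -, h5', -⟩ := hform s' h3 (by omega) σ hσ.2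
      have h6 := H.xfun h4 h4'
      subst h6
      have h7 : s = s' := pre_len h5 h5' hl
      subst h7
      have h8 : t ++ [a] = t ++ [b] := pre_len ha hb (by simp)
      rw [List.append_cancel_left_eq] at h8
      exact hab (List.singleton_injective h8)
    rw [h2]
    simp

theorem Hyp.bound (H : Hyp q w U M c) {s s' : List ℕ} (hl : s.length = s'.length) {t : List ℕ}
    {a b : ℕ} (hab : a ≠ b) (ha : (t ++ [a]) <+: s) (hb : (t ++ [b]) <+: s') :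
    (Common (coreT q w U M c) s s').encard ≤ ((max a b : ℕ) : ℕ∞) := by
  rcases le_or_gt s.length q.n with hn | hn
  · refine (Set.encard_le_encard ?_).trans (w.B t a b s s' hab ha hb hl)
    intro σ hσ
    exact ⟨H.tlow hσ.1 hn, H.tlow hσ.2 (by omega)⟩
  by_cases h1 : ∃ δ s1, δ ∉ U ∧ (δ, s1) ∈ coreX q w U c ∧ s <+: s1
  · obtain ⟨δ, s1, hδ, h2, h3⟩ := h1
    exact H.bound_new hδ h2 h3 hn hl hab ha hb
  by_cases h1' : ∃ δ s1, δ ∉ U ∧ (δ, s1) ∈ coreX q w U c ∧ s' <+: s1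
  · obtain ⟨δ, s1, hδ, h2, h3⟩ := h1'
    have h4 : Common (coreT q w U M c) s s' = Common (coreT q w U M c) s' s := by
      ext σ; exact and_comm
    rw [h4, max_comm]
    exact H.bound_new hδ h2 h3 (by omega) hl.symm hab.symm hb ha
  push Not at h1 h1'
  refine (Set.encard_le_encard ?_).trans (w.B t a b s s' hab ha hb hl)
  intro σ hσ
  -- one of the pairs is in `w.T` iff the other is
  have key : ∀ z z' : List ℕ, z.length = z'.length → z ≠ z' → q.n < z.length →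
      (∀ δ s1, δ ∉ U → (δ, s1) ∈ coreX q w U c → ¬ z <+: s1) →
      (∀ δ s1, δ ∉ U → (δ, s1) ∈ coreX q w U c → ¬ z' <+: s1) →
      (z, σ) ∈ coreT q w U M c → (z', σ) ∈ coreT q w U M c → (z, σ) ∈ w.T := by
    intro z z' hzl hzz hzn h1 h1' h2 h2'
    rcases h2 with h | ⟨h0, δ, β, z1, σ1, h2, h3, h4, h5, h6⟩
    · exact h
    by_contra hcon
    simp only at h0 h5 h6
    have hδ : δ ∈ U := by
      by_contra hδ
      exact h1 δ z1 hδ h3 h5
    have hβ : β.1 ∉ U := fun hβ => hcon (H.tU h2 h3 h4 h5 h6 h0 hδ hβ)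
    have hσM : σ.getD q.n 0 = M := by
      rw [getD_pre h6 (by omega)]
      exact H.ydig h4 hβ
    rcases h2' with h | ⟨h0', δ', β', z2, σ2, h2', h3', h4', h5', h6'⟩
    · have := (H.bT _ _ h).2 _ (getD_mem (i := q.n) (by omega))
      omega
    · simp only at h0' h5' h6'
      have hδ' : δ' ∈ U := by
        by_contra hδ'
        exact h1' δ' z2 hδ' h3' h5'
      obtain ⟨σ0, hσ0⟩ := q.eY _ _ h2
      obtain ⟨σ0', hσ0'⟩ := q.eY _ _ h2'
      have h7 : β = β' := H.yinj_pre hσ0 hσ0' h4 h4' h6 h6' (by omega)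
      subst h7
      have h8 : δ ≠ δ' := by
        rintro rfl
        have h9 := H.xfun h3 h3'
        subst h9
        exact hzz (pre_len h5 h5' hzl)
      exact hβ (H.sc δ hδ δ' hδ' h8 _ (q.eA _ _ h2) (q.eA _ _ h2'))
  have hne : s ≠ s' := by
    rintro rfl
    have h8 : t ++ [a] = t ++ [b] := pre_len ha hb (by simp)
    rw [List.append_cancel_left_eq] at h8
    exact hab (List.singleton_injective h8)
  exact ⟨key s s' hl hne hn h1 h1' hσ.1 hσ.2,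
    key s' s hl.symm hne.symm (by omega) h1' h1 hσ.2 hσ.1⟩

end Core

end Pool.Agent.H409_AG.Gr
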