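import Mathlib
import Pool.Agent.H409_AG.Cond

/-!
# Amalgamation of conditions
-/

set_option autoImplicit false

namespace Pool.Agent.H409_AG.Gr

open Pool.Agent.H409_AG.Ccc

variable {L : Type} {A : L → L → Prop}

/-- the amalgam -/
def core {q w : Cond A} {U : Set L} {M : ℕ} {c : L → ℕ} (H : Hyp q w U M c) : Cond A where
  n := w.n
  X := coreX q w U c
  Y := coreY q w U M
  e := w.e ∪ q.e
  T := coreT q w U M c
  finX := by
    refine w.finX.union ((q.finX.image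
      (fun z => (z.1, z.2 ++ List.replicate (w.n - q.n) (c z.1)))).subset ?_)
    rintro _ ⟨δ, s, h1, -, rfl⟩
    exact ⟨(δ, s), h1, rfl⟩
  finY := by
    refine w.finY.union ((q.finY.image
      (fun z => (z.1, z.2 ++ List.replicate (w.n - q.n) M))).subset ?_)
    rintro _ ⟨δ, s, h1, -, rfl⟩
    exact ⟨(δ, s), h1, rfl⟩
  finT := by
    have fX : (coreX q w U c).Finite := by
      refine w.finX.union ((q.finX.image
        (fun z => (z.1, z.2 ++ List.replicate (w.n - q.n) (c z.1)))).subset ?_)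
      rintro _ ⟨δ, s, h1, -, rfl⟩
      exact ⟨(δ, s), h1, rfl⟩
    have fY : (coreY q w U M).Finite := by
      refine w.finY.union ((q.finY.image
        (fun z => (z.1, z.2 ++ List.replicate (w.n - q.n) M))).subset ?_)
      rintro _ ⟨δ, s, h1, -, rfl⟩
      exact ⟨(δ, s), h1, rfl⟩
    refine w.finT.union ?_
    have h1 : (⋃ z ∈ coreX q w U c, {s : List ℕ | s <+: z.2}).Finite := by
      refine fX.biUnion fun z _ => ?_
      refine (List.finite_toSet z.2.inits).subset ?_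
      intro s hs
      exact (List.mem_inits _ _).2 hs
    have h2 : (⋃ z ∈ coreY q w U M, {s : List ℕ | s <+: z.2}).Finite := by
      refine fY.biUnion fun z _ => ?_
      refine (List.finite_toSet z.2.inits).subset ?_
      intro s hs
      exact (List.mem_inits _ _).2 hs
    refine (h1.prod h2).subset ?_
    rintro ⟨s, σ⟩ ⟨-, δ, β, s', σ', -, h3, h4, h5, h6⟩
    refine ⟨Set.mem_biUnion h3 h5, Set.mem_biUnion h4 h6⟩
  Xlen δ s h := H.xlen h
  Ylen δ s h := H.ylen h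
  Xfun δ s s' h h' := H.xfun h h'
  Yfun δ s s' h h' := H.yfun h h'
  Yinj β β' s h h' := H.yinj h h'
  eX := by
    rintro δ β (h | h)
    · obtain ⟨s, hs⟩ := w.eX _ _ h
      exact ⟨s, Or.inl hs⟩
    · obtain ⟨s, hs⟩ := q.eX _ _ h
      exact H.xex hs
  eY := by
    rintro δ β (h | h)
    · obtain ⟨s, hs⟩ := w.eY _ _ h
      exact ⟨s, Or.inl hs⟩
    · obtain ⟨s, hs⟩ := q.eY _ _ h
      exact H.yex hs
  eA := by
    rintro δ β (h | h)
    · exact w.eA _ _ h
    · exact q.eA _ _ h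
  Tlen := by
    rintro s σ (h | h)
    · exact w.Tlen _ _ h
    · exact h.1
  Tle := by
    rintro s σ (h | ⟨-, δ, β, s', σ', -, h3, h4, h5, h6⟩)
    · exact w.Tle _ _ h
    · exact h5.length_le.trans (H.xlen h3).le
  Tcl := by
    rintro s σ s' σ' (h | ⟨-, δ, β, s1, σ1, h2, h3, h4, h5, h6⟩) h7 h8 h9
    · exact Or.inl (w.Tcl _ _ _ _ h h7 h8 h9)
    · exact Or.inr ⟨h9, δ, β, s1, σ1, h2, h3, h4, h7.trans h5, h8.trans h6⟩
  Te := by
    rintro δ β s σ (h | h) h1 h2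
    · obtain ⟨s0, hs0⟩ := w.eX _ _ h
      obtain ⟨σ0, hσ0⟩ := w.eY _ _ h
      have e1 := H.xfun h1 (Or.inl hs0)
      have e2 := H.yfun h2 (Or.inl hσ0)
      subst e1 e2
      exact Or.inl (w.Te _ _ _ _ h hs0 hσ0)
    · exact Or.inr ⟨by simp only [H.xlen h1, H.ylen h2], δ, β, s, σ, h, h1, h2,
        List.prefix_rfl, List.prefix_rfl⟩
  B := fun t a b s s' hab ha hb hl => H.bound hl hab ha hb

theorem core_le_w {q w : Cond A} {U : Set L} {M : ℕ} {c : L → ℕ} (H : Hyp q w U M c) :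
    core H ≤ w :=
  ⟨le_rfl, fun _ s h => ⟨s, List.prefix_rfl, Or.inl h⟩,
    fun _ s h => ⟨s, List.prefix_rfl, Or.inl h⟩, Set.subset_union_left, Set.subset_union_left⟩

theorem core_le_q {q w : Cond A} {U : Set L} {M : ℕ} {c : L → ℕ} (H : Hyp q w U M c) :
    core H ≤ q := by
  refine ⟨H.lt.le, ?_, ?_, Set.subset_union_right, ?_⟩
  · intro δ s h
    obtain ⟨s', h'⟩ := H.xex h
    exact ⟨s', H.xpre h h', h'⟩
  · intro δ s h
    obtain ⟨s', h'⟩ := H.yex h
    exact ⟨s', H.ypre h h', h'⟩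
  · exact H.le.2.2.2.2.trans Set.subset_union_left

/-- existence of the parameters of the amalgam -/
theorem exists_hyp {q w : Cond A} {U : Set L} (sc : SC A U) (on : On w U) (le : w ≤ res q U)
    (lt : q.n < w.n) : ∃ M c, Hyp q w U M c := by
  obtain ⟨M1, hM1⟩ := exists_bound (w.finX.image Prod.snd)
  obtain ⟨M2, hM2⟩ := exists_bound (w.finY.image Prod.snd)
  obtain ⟨M3, hM3⟩ := exists_bound (w.finT.image Prod.fst)
  obtain ⟨M4, hM4⟩ := exists_bound (w.finT.image Prod.snd)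
  obtain ⟨f, hf⟩ := Set.countable_iff_exists_injOn.1 (q.finX.image Prod.fst).countable
  let M := M1 + M2 + M3 + M4 + q.Y.ncard
  refine ⟨M, fun δ => M + 1 + f δ, ⟨sc, on, le, lt, ?_, ?_, ?_, ?_, ?_, ?_⟩⟩
  · intro δ s h a ha
    have := hM1 s ⟨(δ, s), h, rfl⟩ a ha
    omega
  · intro δ s h a ha
    have := hM2 s ⟨(δ, s), h, rfl⟩ a ha
    omega
  · intro s σ h
    refine ⟨fun a ha => ?_, fun a ha => ?_⟩
    · have := hM3 s ⟨(s, σ), h, rfl⟩ a ha
      omega
    · have := hM4 σ ⟨(s, σ), h, rfl⟩ a ha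
      omega
  · rw [← q.finY.cast_ncard_eq]
    exact_mod_cast (show q.Y.ncard ≤ M by omega)
  · intro δ δ' s s' h h' hc
    exact hf ⟨(δ, s), h, rfl⟩ ⟨(δ', s'), h', rfl⟩ (by simpa using hc)
  · intro δ
    omega

/-- raising the level of a condition with empty support -/
def bump (p : Cond A) : Cond A where
  n := p.n + 1
  X := ∅
  Y := ∅
  e := ∅
  T := p.T
  finX := Set.finite_empty
  finY := Set.finite_empty
  finT := p.finT
  Xlen _ _ h := absurd h (Set.notMem_empty _)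
  Ylen _ _ h := absurd h (Set.notMem_empty _)
  Xfun _ _ _ h := absurd h (Set.notMem_empty _)
  Yfun _ _ _ h := absurd h (Set.notMem_empty _)
  Yinj _ _ _ h := absurd h (Set.notMem_empty _)
  eX _ _ h := absurd h (Set.notMem_empty _)
  eY _ _ h := absurd h (Set.notMem_empty _)
  eA _ _ h := absurd h (Set.notMem_empty _)
  Tlen := p.Tlen
  Tle s σ h := (p.Tle s σ h).trans (Nat.le_succ _)
  Tcl := p.Tcl
  Te _ _ _ _ h := absurd h (Set.notMem_empty _)
  B := p.B

/-- every condition can be extended by one level -/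
theorem exists_ext (p : Cond A) : ∃ r ≤ p, r.n = p.n + 1 ∧
    (∀ δ s, (δ, s) ∈ r.X → ∃ s', (δ, s') ∈ p.X) ∧ (∀ β s, (β, s) ∈ r.Y → ∃ s', (β, s') ∈ p.Y) ∧
    (∀ δ δ' s s', (δ, s) ∈ r.X → (δ', s') ∈ r.X → δ ≠ δ' → s ≠ s') ∧
    (∀ δ β s σ, (δ, s) ∈ r.X → (β, σ) ∈ r.Y → s ≠ σ) := by
  obtain ⟨M, c, H⟩ := exists_hyp (q := p) (w := bump p) (U := ∅)
    (fun δ h => absurd h (Set.notMem_empty _))
    ⟨fun _ _ h => absurd h (Set.notMem_empty _), fun _ _ h => absurd h (Set.notMem_empty _)⟩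
    ⟨Nat.le_succ _, fun _ _ h => absurd h.2 (Set.notMem_empty _),
      fun _ _ h => absurd h.2 (Set.notMem_empty _),
      fun _ h => absurd h.2.1 (Set.notMem_empty _), subset_rfl⟩ (Nat.lt_succ_self _)
  refine ⟨core H, core_le_q H, rfl, ?_, ?_, ?_, ?_⟩
  · intro δ s h
    obtain ⟨s', h1, -⟩ := H.xn h (Set.notMem_empty _)
    exact ⟨s', h1⟩
  · intro δ s h
    obtain ⟨s', h1, -⟩ := H.yn h (Set.notMem_empty _)
    exact ⟨s', h1⟩
  · rintro δ δ' s s' h h' hne rfl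
    obtain ⟨s0, h1, -⟩ := H.xn h (Set.notMem_empty _)
    obtain ⟨s1, h2, -⟩ := H.xn h' (Set.notMem_empty _)
    refine hne (H.cinj _ _ _ _ h1 h2 ?_)
    rw [← H.xdig h (Set.notMem_empty _), ← H.xdig h' (Set.notMem_empty _)]
  · rintro δ β s σ h h' rfl
    have h1 := H.xdig h (Set.notMem_empty _)
    have h2 := H.ydig h' (Set.notMem_empty _)
    have := H.cM δ
    omega

/-- The reduction lemma. -/
theorem red {q w : Cond A} {U : Set L} (sc : SC A U) (on : On w U) (le : w ≤ res q U) :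
    ∃ r, r ≤ w ∧ r ≤ q := by
  obtain ⟨w', h1, h2, h3, h4, -, -⟩ := exists_ext w
  have on' : On w' U := by
    refine ⟨fun δ s h => ?_, fun β s h => ?_⟩
    · obtain ⟨s', h'⟩ := h3 δ s h
      exact on.1 _ _ h'
    · obtain ⟨s', h'⟩ := h4 β s h
      exact on.2 _ _ h'
  obtain ⟨M, c, H⟩ := exists_hyp (q := q) (w := w') (U := U) sc on' (h1.trans le) (by
    have := le.1
    have e : (res q U).n = q.n := rfl
    omega)
  exact ⟨core H, (core_le_w H).trans h1, core_le_q H⟩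

/-! ### Based sentences -/

open Pool.Agent.Helper669.Forcing

/-- The sentence only depends on the restriction to `U`. -/
structure Bsd (U : Set L) (φ : Set (Cond A)) : Prop where
  down : Down φ
  based : ∀ p ∈ φ, res p U ∈ φ

theorem Bsd.iff {U : Set L} {φ : Set (Cond A)} (h : Bsd U φ) (p : Cond A) :
    p ∈ φ ↔ res p U ∈ φ :=
  ⟨h.based p, fun h' => h.down _ h' _ (le_res p U)⟩

theorem bsd_fnot {U : Set L} (sc : SC A U) {φ : Set (Cond A)} (h : Bsd U φ) : Bsd U (fnot φ) := by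
  refine ⟨down_fnot _, fun p hp q hq hqφ => ?_⟩
  obtain ⟨r, h1, h2⟩ := red sc (res_on q U) (res_le hq (res_on p U))
  exact hp r h2 (h.down _ (h.based q hqφ) r h1)

theorem bsd_fand {U : Set L} {φ ψ : Set (Cond A)} (h : Bsd U φ) (h' : Bsd U ψ) :
    Bsd U (fand φ ψ) :=
  ⟨down_fand h.down h'.down, fun p hp => ⟨h.based p hp.1, h'.based p hp.2⟩⟩

theorem bsd_fall {U : Set L} {ι : Sort*} {φ : ι → Set (Cond A)} (h : ∀ i, Bsd U (φ i)) :
    Bsd U (fall φ) :=
  ⟨down_fall fun i => (h i).down, fun p hp i => (h i).based p (hp i)⟩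

theorem bsd_fex {U : Set L} (sc : SC A U) {ι : Sort*} {φ : ι → Set (Cond A)}
    (h : ∀ i, Bsd U (φ i)) : Bsd U (fex φ) :=
  bsd_fnot sc (bsd_fall fun i => bsd_fnot sc (h i))

theorem bsd_fimp {U : Set L} (sc : SC A U) {φ ψ : Set (Cond A)} (h : Bsd U φ) (h' : Bsd U ψ) :
    Bsd U (fimp φ ψ) :=
  bsd_fnot sc (bsd_fand h (bsd_fnot sc h'))

theorem bsd_fground {U : Set L} (h : Prop) : Bsd U (fground (P := Cond A) h) :=
  ⟨down_fground h, fun _ hp => hp⟩

theorem bsd_meets {U : Set L} (sc : SC A U) {N : Set (Cond A)}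
    (h : ∀ p q, q ∈ N → p ≤ q → ∃ q' ∈ N, res p U ≤ q') : Bsd U (meets N) := by
  refine ⟨down_meets _, fun p hp q hq => ?_⟩
  obtain ⟨r, h1, h2⟩ := red sc (res_on q U) (res_le hq (res_on p U))
  obtain ⟨r', h3, s, hs, h4⟩ := hp r h2
  obtain ⟨s', hs', h5⟩ := h r' s hs h4
  have h6 : res r' U ≤ res q U := res_le (h3.trans h1) (res_on q U)
  obtain ⟨r'', h7, h8⟩ := red sc (res_on r' U) h6
  exact ⟨r'', h8, s', hs', h7.trans h5⟩

theorem bsd_meets_on {U : Set L} (sc : SC A U) {N : Set (Cond A)} (h : ∀ q ∈ N, On q U) :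
    Bsd U (meets N) :=
  bsd_meets sc fun _ q hq hle => ⟨q, hq, res_le hle (h q hq)⟩

end Pool.Agent.H409_AG.Gr
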