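import Mathlib
import Pool.Agent.H409_AG.Red
import Pool.Agent.Helper669.KDelta

/-!
# The countable chain condition, and counting conditions
-/

set_option autoImplicit false

namespace Pool.Agent.H409_AG.Gr

open Cardinal Pool.Agent.H409_AG.Ccc Pool.Agent.Helper669

variable {L : Type} {A : L → L → Prop}

/-- the support -/
def supp (p : Cond A) : Set L :=
  {δ | ∃ s, (δ, s) ∈ p.X} ∪ {γ | ∃ k s, ((γ, k), s) ∈ p.Y}

theorem supp_finite (p : Cond A) : (supp p).Finite := by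
  refine Set.Finite.union ((p.finX.image Prod.fst).subset ?_)
    ((p.finY.image fun z => z.1.1).subset ?_)
  · rintro δ ⟨s, hs⟩
    exact ⟨_, hs, rfl⟩
  · rintro γ ⟨k, s, hs⟩
    exact ⟨_, hs, rfl⟩

theorem on_iff {p : Cond A} {U : Set L} : On p U ↔ supp p ⊆ U := by
  constructor
  · rintro ⟨h1, h2⟩ x (⟨s, hs⟩ | ⟨k, s, hs⟩)
    · exact h1 _ _ hs
    · exact h2 _ _ hs
  · intro h
    exact ⟨fun δ s hs => h (Or.inl ⟨s, hs⟩), fun β s hs => h (Or.inr ⟨β.2, s, hs⟩)⟩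

theorem res_congr (p : Cond A) {U V : Set L} (h : ∀ x ∈ supp p, x ∈ U ↔ x ∈ V) :
    res p U = res p V := by
  have h1 : ∀ δ s, (δ, s) ∈ p.X → (δ ∈ U ↔ δ ∈ V) := fun δ s hs => h _ (Or.inl ⟨s, hs⟩)
  have h2 : ∀ β s, (β, s) ∈ p.Y → (β.1 ∈ U ↔ β.1 ∈ V) :=
    fun β s hs => h _ (Or.inr ⟨β.2, s, hs⟩)
  ext1
  · rfl
  · ext z
    exact ⟨fun hz => ⟨hz.1, (h1 _ _ hz.1).1 hz.2⟩, fun hz => ⟨hz.1, (h1 _ _ hz.1).2 hz.2⟩⟩
  · ext z
    exact ⟨fun hz => ⟨hz.1, (h2 _ _ hz.1).1 hz.2⟩, fun hz => ⟨hz.1, (h2 _ _ hz.1).2 hz.2⟩⟩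
  · ext z
    constructor
    · rintro ⟨h3, h4, h5⟩
      obtain ⟨s, hs⟩ := p.eX _ _ h3
      obtain ⟨σ, hσ⟩ := p.eY _ _ h3
      exact ⟨h3, (h1 _ _ hs).1 h4, (h2 _ _ hσ).1 h5⟩
    · rintro ⟨h3, h4, h5⟩
      obtain ⟨s, hs⟩ := p.eX _ _ h3
      obtain ⟨σ, hσ⟩ := p.eY _ _ h3
      exact ⟨h3, (h1 _ _ hs).2 h4, (h2 _ _ hσ).2 h5⟩
  · rfl

theorem fine (p : Cond A) : p.e.Finite := by
  refine ((p.finX.image Prod.fst).prod (p.finY.image Prod.fst)).subset ?_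
  rintro ⟨δ, β⟩ h
  obtain ⟨s, hs⟩ := p.eX _ _ h
  obtain ⟨σ, hσ⟩ := p.eY _ _ h
  exact ⟨⟨_, hs, rfl⟩, ⟨_, hσ, rfl⟩⟩

/-! ### Counting -/

theorem mk_finset_le {α : Type} {κ : Cardinal.{0}} (hκ : ℵ₀ ≤ κ) (h : #α ≤ κ) :
    #(Finset α) ≤ κ := by
  classical
  refine (Cardinal.mk_le_of_surjective (f := List.toFinset) List.toFinset_surjective).trans ?_
  exact (Cardinal.mk_list_le_max α).trans (max_le hκ h)

theorem mk_prod_le {α β : Type} {κ : Cardinal.{0}} (hκ : ℵ₀ ≤ κ) (h : #α ≤ κ) (h' : #β ≤ κ) :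
    #(α × β) ≤ κ := by
  rw [Cardinal.mk_prod, Cardinal.lift_id, Cardinal.lift_id]
  exact (mul_le_mul' h h').trans (Cardinal.mul_eq_self hκ).le

theorem mk_countable_le {α : Type} [Countable α] {κ : Cardinal.{0}} (hκ : ℵ₀ ≤ κ) : #α ≤ κ :=
  Cardinal.mk_le_aleph0.trans hκ

/-- there are few conditions with support in a small set -/
theorem mk_on_le {U : Set L} {κ : Cardinal.{0}} (hκ : ℵ₀ ≤ κ) (hU : #U ≤ κ) :
    #{p : Cond A // On p U} ≤ κ := by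
  let fX : U × List ℕ → L × List ℕ := fun z => (z.1.1, z.2)
  let fY : (U × ℕ) × List ℕ → (L × ℕ) × List ℕ := fun z => ((z.1.1.1, z.1.2), z.2)
  let fe : U × (U × ℕ) → L × (L × ℕ) := fun z => (z.1.1, (z.2.1.1, z.2.2))
  have iX : Function.Injective fX := by
    rintro ⟨a, b⟩ ⟨a', b'⟩ h
    simp only [fX, Prod.mk.injEq] at h
    exact Prod.ext (Subtype.ext h.1) h.2
  have iY : Function.Injective fY := by
    rintro ⟨⟨a, b⟩, c⟩ ⟨⟨a', b'⟩, c'⟩ h
    simp only [fY, Prod.mk.injEq] at h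
    exact Prod.ext (Prod.ext (Subtype.ext h.1.1) h.1.2) h.2
  have ie : Function.Injective fe := by
    rintro ⟨a, ⟨b, c⟩⟩ ⟨a', ⟨b', c'⟩⟩ h
    simp only [fe, Prod.mk.injEq] at h
    exact Prod.ext (Subtype.ext h.1) (Prod.ext (Subtype.ext h.2.1) h.2.2)
  let code : {p : Cond A // On p U} → ℕ × Finset (U × List ℕ) × Finset ((U × ℕ) × List ℕ) ×
      Finset (U × (U × ℕ)) × Finset (List ℕ × List ℕ) := fun p =>
    (p.1.n, (p.1.finX.preimage (f := fX) iX.injOn).toFinset,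
      (p.1.finY.preimage (f := fY) iY.injOn).toFinset,
      ((fine p.1).preimage (f := fe) ie.injOn).toFinset, p.1.finT.toFinset)
  have hinj : Function.Injective code := by
    rintro ⟨p, hp⟩ ⟨q, hq⟩ h
    simp only [code, Prod.mk.injEq, Set.Finite.toFinset_inj] at h
    obtain ⟨h1, h2, h3, h4, h5⟩ := h
    refine Subtype.ext ?_
    simp only
    ext1
    · exact h1
    · ext ⟨δ, s⟩
      constructor
      · intro hz
        have : (⟨⟨δ, hp.1 _ _ hz⟩, s⟩ : U × List ℕ) ∈ fX ⁻¹' p.X := hz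
        rw [h2] at this
        exact this
      · intro hz
        have : (⟨⟨δ, hq.1 _ _ hz⟩, s⟩ : U × List ℕ) ∈ fX ⁻¹' q.X := hz
        rw [← h2] at this
        exact this
    · ext ⟨⟨γ, k⟩, s⟩
      constructor
      · intro hz
        have : (⟨⟨⟨γ, hp.2 _ _ hz⟩, k⟩, s⟩ : (U × ℕ) × List ℕ) ∈ fY ⁻¹' p.Y := hz
        rw [h3] at this
        exact this
      · intro hz
        have : (⟨⟨⟨γ, hq.2 _ _ hz⟩, k⟩, s⟩ : (U × ℕ) × List ℕ) ∈ fY ⁻¹' q.Y := hz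
        rw [← h3] at this
        exact this
    · ext ⟨δ, ⟨γ, k⟩⟩
      constructor
      · intro hz
        obtain ⟨s, hs⟩ := p.eX _ _ hz
        obtain ⟨σ, hσ⟩ := p.eY _ _ hz
        have : (⟨⟨δ, hp.1 _ _ hs⟩, ⟨⟨γ, hp.2 _ _ hσ⟩, k⟩⟩ : U × (U × ℕ)) ∈ fe ⁻¹' p.e := hz
        rw [h4] at this
        exact this
      · intro hz
        obtain ⟨s, hs⟩ := q.eX _ _ hz
        obtain ⟨σ, hσ⟩ := q.eY _ _ hz
        have : (⟨⟨δ, hq.1 _ _ hs⟩, ⟨⟨γ, hq.2 _ _ hσ⟩, k⟩⟩ : U × (U × ℕ)) ∈ fe ⁻¹' q.e := hz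
        rw [← h4] at this
        exact this
    · exact h5
  refine (Cardinal.mk_le_of_injective hinj).trans ?_
  refine mk_prod_le hκ (mk_countable_le hκ) (mk_prod_le hκ (mk_finset_le hκ ?_)
    (mk_prod_le hκ (mk_finset_le hκ ?_) (mk_prod_le hκ (mk_finset_le hκ ?_)
      (mk_finset_le hκ (mk_countable_le hκ)))))
  · exact mk_prod_le hκ hU (mk_countable_le hκ)
  · exact mk_prod_le hκ (mk_prod_le hκ hU (mk_countable_le hκ)) (mk_countable_le hκ)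
  · exact mk_prod_le hκ hU (mk_prod_le hκ hU (mk_countable_le hκ))

theorem countable_on {U : Set L} (hU : U.Countable) : {p : Cond A | On p U}.Countable :=
  Cardinal.mk_le_aleph0_iff.1 (mk_on_le (U := U) le_rfl (Cardinal.mk_le_aleph0_iff.2 hU))

/-! ### Semi-closure -/

/-- almost disjointness -/
def AD (A : L → L → Prop) : Prop := ∀ δ δ', δ ≠ δ' → {γ | A δ γ ∧ A δ' γ}.Countable

theorem exists_sc (hA : AD A) {V : Set L} (hV : V.Countable) :
    ∃ U, V ⊆ U ∧ U.Countable ∧ SC A U := by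
  let stp : Set L → Set L := fun W => W ∪ ⋃ z ∈ W ×ˢ W, {γ | z.1 ≠ z.2 ∧ A z.1 γ ∧ A z.2 γ}
  have hstp : ∀ W : Set L, W.Countable → (stp W).Countable := by
    intro W hW
    refine hW.union (Set.Countable.biUnion (hW.prod hW) fun z _ => ?_)
    by_cases h : z.1 = z.2
    · simp [h]
    · exact (hA _ _ h).mono fun γ hγ => hγ.2
  let F : ℕ → Set L := fun n => stp^[n] V
  have hF : ∀ n, F (n + 1) = stp (F n) := fun n => Function.iterate_succ_apply' _ _ _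
  have hmono : Monotone F := monotone_nat_of_le_succ fun n => by
    rw [hF]
    exact Set.subset_union_left
  refine ⟨⋃ n, F n, Set.subset_iUnion F 0, Set.countable_iUnion fun n => ?_, ?_⟩
  · induction n with
    | zero => exact hV
    | succ n ih =>
      rw [hF]
      exact hstp _ ih
  · intro δ hδ δ' hδ' hne γ h1 h2
    obtain ⟨n, hn⟩ := Set.mem_iUnion.1 hδ
    obtain ⟨m, hm⟩ := Set.mem_iUnion.1 hδ'
    refine Set.mem_iUnion.2 ⟨max n m + 1, ?_⟩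
    rw [hF]
    refine Or.inr (Set.mem_biUnion (x := (δ, δ')) ?_ ⟨hne, h1, h2⟩)
    exact ⟨hmono (le_max_left _ _) hn, hmono (le_max_right _ _) hm⟩

theorem ccc (hA : AD A) : CCC (Cond A) := by
  classical
  intro S hS
  by_contra hcon
  have hE : ¬ #S ≤ ℵ₀ := fun h => hcon (Cardinal.mk_le_aleph0_iff.1 h)
  obtain ⟨T, R, hT, hR, hTR⟩ := KDelta.weak_delta (E := S) (K := L) le_rfl hE
    (fun b => supp b.1) (fun b => (supp_finite b.1).lt_aleph0)
  have hRc : R.Countable := Cardinal.mk_le_aleph0_iff.1 hR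
  have hTc : ¬ T.Countable := fun h => hT (Cardinal.mk_le_aleph0_iff.2 h)
  -- constant trace
  have h1 : ∃ w : Cond A, ¬ {b | b ∈ T ∧ res b.1 R = w}.Countable := by
    by_contra h
    push Not at h
    apply hTc
    refine ((countable_on (A := A) hRc).biUnion
      (t := fun w _ => {b : S | b ∈ T ∧ res b.1 R = w}) fun w _ => h w).mono ?_
    intro b hb
    exact Set.mem_biUnion (x := res b.1 R) (res_on b.1 R) ⟨hb, rfl⟩
  obtain ⟨w, hw⟩ := h1
  have hne : {b : S | b ∈ T ∧ res b.1 R = w}.Nonempty := by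
    by_contra h
    rw [Set.not_nonempty_iff_eq_empty] at h
    rw [h] at hw
    exact hw Set.countable_empty
  obtain ⟨p, hpT, hpw⟩ := hne
  obtain ⟨U, hU1, hU2, hU3⟩ := exists_sc hA ((supp_finite p.1).countable.union hRc)
  have h2 : ¬ ({b | b ∈ T ∧ res b.1 R = w} ⊆ {p} ∪ {b | b ∈ T ∧ ¬ supp b.1 ∩ U ⊆ R}) := by
    intro hsub
    refine hw (Set.Countable.mono hsub ((Set.countable_singleton p).union ?_))
    have h3 : ∀ b : {b : S | b ∈ T ∧ ¬ supp b.1 ∩ U ⊆ R},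
        ∃ x : U, x.1 ∈ supp b.1.1 ∧ x.1 ∉ R := by
      rintro ⟨b, _, hb⟩
      rw [Set.not_subset] at hb
      obtain ⟨x, hx, hxR⟩ := hb
      exact ⟨⟨x, hx.2⟩, hx.1, hxR⟩
    choose f hf1 hf3 using h3
    have hUc : Countable U := hU2.to_subtype
    refine Function.Injective.countable (f := f) ?_
    intro b b' hbb
    by_contra hne
    refine hf3 b (hTR b.1 b.2.1 b'.1 b'.2.1 (fun h => hne (Subtype.ext h)) ⟨hf1 b, ?_⟩)
    rw [hbb]
    exact hf1 b'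
  rw [Set.not_subset] at h2
  obtain ⟨b, ⟨hbT, hbw⟩, hb2⟩ := h2
  have hbp : b ≠ p := fun h => hb2 (Or.inl h)
  have hbU : supp b.1 ∩ U ⊆ R := by
    by_contra h
    exact hb2 (Or.inr ⟨hbT, h⟩)
  have h4 : res b.1 U = res p.1 R := by
    rw [hpw, ← hbw]
    refine res_congr _ fun x hx => ⟨fun hxU => hbU ⟨hx, hxU⟩, fun hxR => hU1 (Or.inr hxR)⟩
  obtain ⟨r, hr1, hr2⟩ := red hU3 (w := p.1) (q := b.1)
    (on_iff.2 (Set.subset_union_left.trans hU1)) (by rw [h4]; exact le_res _ _)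
  exact hS p.1 p.2 b.1 b.2 (fun h => hbp (Subtype.ext h.symm)) ⟨r, hr1, hr2⟩

end Pool.Agent.H409_AG.Gr
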