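import Mathlib
import Pool.Agent.Helper669.Forcing

/-!
# Analytic groups and incompact closed graphs: the statements

The propositions `ContinuumHyp`, `Ladder`, `Incompact` and their translations `ContinuumLe`,
`LadderN`, `IncompactN` into the forcing language of `Pool.Agent.Helper669.Forcing` (a sentence is
the set of the conditions which force it; a name for a subset of a ground model set `X` is a map
sending `x : X` to the set of the conditions attached to `x`).
-/

set_option autoImplicit false

namespace Pool.Agent.H409_AG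

open Cardinal Pool.Agent.Helper669.Forcing

/-! ### Closed graphs on the Baire space -/

section Graph

/-- The finite sequence `s` is an initial segment of `x`. -/
def IsInit (s : List ℕ) (x : ℕ → ℕ) : Prop := ∀ i, i < s.length → x i = s.getD i 0

/-- The closed relation on the Baire space given by the set `T` of pairs of finite sequences: all
pairs of initial segments of `x` and `y` of the same length are in `T`. -/
def RT (T : List ℕ → List ℕ → Prop) (x y : ℕ → ℕ) : Prop :=
  ∀ s t : List ℕ, s.length = t.length → IsInit s x ∧ IsInit t y → T s t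

/-- The graph `RT T` on the family `z` has an orientation with countable outdegrees. -/
def Orient {I : Type} (T : List ℕ → List ℕ → Prop) (z : I → ℕ → ℕ) : Prop :=
  ∃ f : I → ℕ → I, ∀ i j, RT T (z i) (z j) →
    (∃ m, z (f i m) = z j) ∨ (∃ m, z (f j m) = z i)

/-- There is a closed graph on the Baire space which has an orientation with countable outdegrees
on each family of fewer than `ℵ_ω` points, but not on all families. -/
def Incompact : Prop :=
  ∃ T : List ℕ → List ℕ → Prop,
    (∀ (n : ℕ) (z : (ℵ_ n : Cardinal.{0}).out → ℕ → ℕ), Orient T z) ∧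
      ∃ (K : Type) (z : K → ℕ → ℕ), ¬ Orient T z

end Graph

/-! ### Analytic groups -/

section Groups

/-- The graph of the multiplication of `G` is an analytic subset of `ℝ × ℝ × ℝ`. -/
def IsAnalyticGroup (G : Group ℝ) : Prop :=
  MeasureTheory.AnalyticSet {p : ℝ × ℝ × ℝ | G.mul p.1 p.2.1 = p.2.2}

/-- Every subgroup of `G` of cardinality less than `κ` is free. -/
def IsKappaFree (κ : Cardinal.{0}) (G : Group ℝ) : Prop :=
  ∀ H : Subgroup ℝ, #H < κ → IsFreeGroup H

end Groups

/-! ### Ladder systems -/

section LadderSec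

/-- The well-ordered set of the ordinals below `ℵ_{ω+1}`. -/
abbrev Lam : Type := (ℵ_ (Ordinal.omega0 + 1) : Cardinal.{0}).ord.ToType

/-- `S` is covered by the values of a function on `Y`. -/
def CoveredBy (Y : Type) (S : Lam → Prop) : Prop := ∃ e : Y → Lam, ∀ γ, S γ → ∃ i, e i = γ

/-- `A δ ⊆ δ` is a set of size at most `ℵ₁`, for all `δ < ℵ_{ω+1}`; for each `α < ℵ_{ω+1}` one can
remove countable sets from the sets `A δ`, `δ < α`, to make them pairwise disjoint; and the set of
all `δ` for which `A δ` is uncountable is stationary: for every function `c` there is such a `δ`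
which is closed under `c`. -/
def IsLadder (A : Lam → Lam → Prop) : Prop :=
  (∀ δ γ, A δ γ → γ < δ) ∧
  (∀ δ, CoveredBy (ℵ₁ : Cardinal.{0}).out (A δ)) ∧
  (∀ α, ∃ g : Lam → Lam → Prop, (∀ δ, CoveredBy ℕ (g δ)) ∧
    ∀ δ δ', δ < α ∧ δ' < α ∧ δ ≠ δ' → ∀ γ, ¬ ((A δ γ ∧ ¬ g δ γ) ∧ (A δ' γ ∧ ¬ g δ' γ))) ∧
  (∀ c : Lam → Lam, ∃ δ, ¬ CoveredBy ℕ (A δ) ∧ ∀ γ, γ < δ → c γ < δ)

/-- There is a ladder system on a stationary subset of `ℵ_{ω+1}` which is free on each bounded
part. -/
def Ladder : Prop := ∃ A : Lam → Lam → Prop, IsLadder A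

/-- The continuum hypothesis: there is a map from `ω₁` onto the Baire space. -/
def ContinuumHyp : Prop := ∃ E : (ℵ₁ : Cardinal.{0}).out → ℕ → ℕ, ∀ x, ∃ i, x = E i

end LadderSec

/-! ### The translations into the forcing language -/

section Names

variable {P : Type} [Preorder P]

/-- `φ or ψ`. -/
def for' (φ ψ : Set P) : Set P := fnot (fand (fnot φ) (fnot ψ))

/-- Forcing version of `RT`. -/
def RTN (T : List ℕ → List ℕ → Set P) (x y : ℕ → ℕ → Set P) : Set P :=
  fall fun s : List ℕ => fall fun t : List ℕ => fall fun _ : s.length = t.length =>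
    fimp (fand (InitSeg s x) (InitSeg t y)) (meets (T s t))

/-- Forcing version of `Orient`. -/
def OrientN {I : Type} (T : List ℕ → List ℕ → Set P) (z : I → ℕ → ℕ → Set P) : Set P :=
  fex fun f : I → ℕ → I → Set P => fand (fall fun i => IsFun (f i))
    (fall fun i => fall fun j => fimp (RTN T (z i) (z j))
      (for' (fex fun m => fex fun k => fand (meets (f i m k)) (SameReal (z k) (z j)))
        (fex fun m => fex fun k => fand (meets (f j m k)) (SameReal (z k) (z i)))))

/-- Forcing version of `Incompact`. -/
def IncompactN (P : Type) [Preorder P] : Set P :=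
  fex fun T : List ℕ → List ℕ → Set P =>
    fand (fall fun n : ℕ => fall fun z : (ℵ_ n : Cardinal.{0}).out → ℕ → ℕ → Set P =>
        fimp (fall fun i => IsFun (z i)) (OrientN T z))
      (fex fun K : Type => fex fun z : K → ℕ → ℕ → Set P =>
        fand (fall fun i => IsFun (z i)) (fnot (OrientN T z)))

/-- Forcing version of `CoveredBy`. -/
def CoveredByN (Y : Type) (S : Lam → Set P) : Set P :=
  fex fun e : Y → Lam → Set P => fand (IsFun e)
    (fall fun γ => fimp (meets (S γ)) (fex fun i => meets (e i γ)))

/-- Forcing version of `IsLadder`. -/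
def IsLadderN (A : Lam → Lam → Set P) : Set P :=
  fand (fall fun δ => fall fun γ => fimp (meets (A δ γ)) (fground (γ < δ)))
  (fand (fall fun δ => CoveredByN (ℵ₁ : Cardinal.{0}).out (A δ))
  (fand (fall fun α => fex fun g : Lam → Lam → Set P => fand (fall fun δ => CoveredByN ℕ (g δ))
      (fall fun δ => fall fun δ' => fimp (fground (δ < α ∧ δ' < α ∧ δ ≠ δ')) (fall fun γ =>
        fnot (fand (fand (meets (A δ γ)) (fnot (meets (g δ γ))))
          (fand (meets (A δ' γ)) (fnot (meets (g δ' γ))))))))
    (fall fun c : Lam → Lam → Set P => fimp (IsFun c) (fex fun δ =>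
      fand (fnot (CoveredByN ℕ (A δ)))
        (fall fun γ => fimp (fground (γ < δ))
          (fall fun ξ => fimp (meets (c γ ξ)) (fground (ξ < δ))))))))

/-- Forcing version of `Ladder`. -/
def LadderN (P : Type) [Preorder P] : Set P := fex fun A : Lam → Lam → Set P => IsLadderN A

/-- Every uncountable cardinal of the ground model up to `κ` is a cardinal of the extension. -/
def CardinalsPreservedTo (P : Type) [Preorder P] (κ : Cardinal.{0}) : Set P :=
  fall fun μ : Cardinal.{0} => fall fun ν : Cardinal.{0} => fall fun _ : μ < ν =>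
    fall fun _ : ℵ₀ < ν => fall fun _ : ν ≤ κ =>
      fnot (fex fun R : μ.out → ν.out → Set P => fand (IsFun R) (IsOnto R))

end Names

end Pool.Agent.H409_AG
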