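import Mathlib
import Pool.Agent.H409_AG.CccG
import Pool.Agent.H409_AG.Defs

/-!
# Density arguments, and the generic points
-/

set_option autoImplicit false

namespace Pool.Agent.H409_AG.Gr

open Cardinal Pool.Agent.H409_AG.Ccc Pool.Agent.H409_AG Pool.Agent.Helper669.Forcing

variable {L : Type} {A : L → L → Prop}

theorem mem_replicate_lt {k M a : ℕ} (h : a ∈ List.replicate k M) : a = M :=
  List.eq_of_mem_replicate h

/-- adding an `x`-vertex -/
theorem exists_addX (p : Cond A) (δ : L) :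
    ∃ q ≤ p, q.n = p.n ∧ (∃ s, (δ, s) ∈ q.X) ∧ q.Y = p.Y := by
  by_cases h : ∃ s, (δ, s) ∈ p.X
  · exact ⟨p, le_rfl, rfl, h, rfl⟩
  refine ⟨{ p with
    X := p.X ∪ {(δ, List.replicate p.n 0)}
    finX := p.finX.union (Set.finite_singleton _)
    Xlen := ?_
    Xfun := ?_
    eX := ?_
    Te := ?_ }, ⟨le_rfl, fun _ s h => ⟨s, List.prefix_rfl, Or.inl h⟩,
      fun _ s h => ⟨s, List.prefix_rfl, h⟩, subset_rfl, subset_rfl⟩, rfl,
      ⟨_, Or.inr rfl⟩, rfl⟩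
  · rintro δ' s (hs | hs)
    · exact p.Xlen _ _ hs
    · rw [Set.mem_singleton_iff, Prod.mk.injEq] at hs
      rw [hs.2]
      simp
  · rintro δ' s s' (hs | hs) (hs' | hs')
    · exact p.Xfun _ _ _ hs hs'
    · rw [Set.mem_singleton_iff, Prod.mk.injEq] at hs'
      exact absurd ⟨s, hs'.1 ▸ hs⟩ h
    · rw [Set.mem_singleton_iff, Prod.mk.injEq] at hs
      exact absurd ⟨s', hs.1 ▸ hs'⟩ h
    · rw [Set.mem_singleton_iff, Prod.mk.injEq] at hs hs'
      rw [hs.2, hs'.2]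
  · intro δ' β he
    obtain ⟨s, hs⟩ := p.eX _ _ he
    exact ⟨s, Or.inl hs⟩
  · rintro δ' β s σ he (hs | hs) hσ
    · exact p.Te _ _ _ _ he hs hσ
    · rw [Set.mem_singleton_iff, Prod.mk.injEq] at hs
      obtain ⟨s', hs'⟩ := p.eX _ _ he
      exact absurd ⟨s', hs.1 ▸ hs'⟩ h

/-- adding a new `y`-vertex, connected to an `x`-vertex -/
theorem exists_addE (p : Cond A) {δ : L} {s0 : List ℕ} (hs0 : (δ, s0) ∈ p.X) (hn : 0 < p.n)
    {β : L × ℕ} (hβ : ∀ s, (β, s) ∉ p.Y) (hA : A δ β.1) : ∃ q ≤ p, (δ, β) ∈ q.e := by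
  obtain ⟨M1, hM1⟩ := exists_bound (p.finY.image Prod.snd)
  obtain ⟨M2, hM2⟩ := exists_bound (p.finT.image Prod.snd)
  let M := M1 + M2
  have hM1 : ∀ β s, (β, s) ∈ p.Y → ∀ a ∈ s, a < M := fun β s h a ha => by
    have := hM1 s ⟨_, h, rfl⟩ a ha
    omega
  have hM2 : ∀ s σ, (s, σ) ∈ p.T → ∀ a ∈ σ, a < M := fun s σ h a ha => by
    have := hM2 σ ⟨_, h, rfl⟩ a ha
    omega
  let y : List ℕ := List.replicate p.n M
  have hy : y.length = p.n := List.length_replicate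
  have hyd : ∀ σ : List ℕ, σ <+: y → 0 < σ.length → M ∈ σ := by
    intro σ hσ h0
    have h1 : σ.getD 0 0 = M := by
      rw [getD_pre hσ h0]
      simp [y, List.getD_eq_getElem?_getD, hn]
    rw [← h1]
    exact getD_mem h0
  let T' : Set (List ℕ × List ℕ) := p.T ∪ {z | z.1.length = z.2.length ∧ z.1 <+: s0 ∧ z.2 <+: y}
  have hTn : ∀ s σ, (s, σ) ∈ T' → 0 < s.length → M ∉ σ → (s, σ) ∈ p.T := by
    rintro s σ (h | ⟨h0, h1, h2⟩) h3 h4
    · exact h
    · exact absurd (hyd σ h2 (by simp only at h0; omega)) h4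
  have hTm : ∀ s σ, (s, σ) ∈ T' → M ∈ σ → s <+: s0 := by
    rintro s σ (h | ⟨h0, h1, h2⟩) h3
    · exact absurd (hM2 _ _ h _ h3) (lt_irrefl _)
    · exact h1
  refine ⟨{ p with
    Y := p.Y ∪ {(β, y)}
    e := p.e ∪ {(δ, β)}
    T := T'
    finY := p.finY.union (Set.finite_singleton _)
    finT := ?_
    Ylen := ?_
    Yfun := ?_
    Yinj := ?_
    eX := ?_
    eY := ?_
    eA := ?_
    Tlen := ?_
    Tle := ?_
    Tcl := ?_
    Te := ?_
    B := ?_ }, ⟨le_rfl, fun _ s h => ⟨s, List.prefix_rfl, h⟩,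
      fun _ s h => ⟨s, List.prefix_rfl, Or.inl h⟩, Set.subset_union_left,
      Set.subset_union_left⟩, Or.inr rfl⟩
  · refine p.finT.union (((List.finite_toSet s0.inits).prod
      (List.finite_toSet y.inits)).subset ?_)
    rintro ⟨s, σ⟩ ⟨-, h1, h2⟩
    exact ⟨(List.mem_inits _ _).2 h1, (List.mem_inits _ _).2 h2⟩
  · rintro β' s (hs | hs)
    · exact p.Ylen _ _ hs
    · rw [Set.mem_singleton_iff, Prod.mk.injEq] at hs
      rw [hs.2, hy]
  · rintro β' s s' (hs | hs) (hs' | hs')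
    · exact p.Yfun _ _ _ hs hs'
    · rw [Set.mem_singleton_iff, Prod.mk.injEq] at hs'
      exact absurd (hs'.1 ▸ hs) (hβ s)
    · rw [Set.mem_singleton_iff, Prod.mk.injEq] at hs
      exact absurd (hs.1 ▸ hs') (hβ s')
    · rw [Set.mem_singleton_iff, Prod.mk.injEq] at hs hs'
      rw [hs.2, hs'.2]
  · rintro β1 β2 s (hs | hs) (hs' | hs')
    · exact p.Yinj _ _ _ hs hs'
    · rw [Set.mem_singleton_iff, Prod.mk.injEq] at hs'
      have h1 := hyd s (by rw [hs'.2]) (by rw [hs'.2, hy]; exact hn)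
      exact absurd (hM1 _ _ hs _ h1) (lt_irrefl _)
    · rw [Set.mem_singleton_iff, Prod.mk.injEq] at hs
      have h1 := hyd s (by rw [hs.2]) (by rw [hs.2, hy]; exact hn)
      exact absurd (hM1 _ _ hs' _ h1) (lt_irrefl _)
    · rw [Set.mem_singleton_iff, Prod.mk.injEq] at hs hs'
      rw [hs.1, hs'.1]
  · rintro δ' β' (he | he)
    · exact p.eX _ _ he
    · rw [Set.mem_singleton_iff, Prod.mk.injEq] at he
      rw [he.1]
      exact ⟨s0, hs0⟩
  · rintro δ' β' (he | he)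
    · obtain ⟨s, hs⟩ := p.eY _ _ he
      exact ⟨s, Or.inl hs⟩
    · rw [Set.mem_singleton_iff, Prod.mk.injEq] at he
      rw [he.2]
      exact ⟨y, Or.inr rfl⟩
  · rintro δ' β' (he | he)
    · exact p.eA _ _ he
    · rw [Set.mem_singleton_iff, Prod.mk.injEq] at he
      rw [he.1, he.2]
      exact hA
  · rintro s σ (h | h)
    · exact p.Tlen _ _ h
    · exact h.1
  · rintro s σ (h | ⟨h0, h1, h2⟩)
    · exact p.Tle _ _ h
    · exact h1.length_le.trans (p.Xlen _ _ hs0).le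
  · rintro s σ s' σ' (h | ⟨h0, h1, h2⟩) h3 h4 h5
    · exact Or.inl (p.Tcl _ _ _ _ h h3 h4 h5)
    · exact Or.inr ⟨h5, h3.trans h1, h4.trans h2⟩
  · rintro δ' β' s σ (he | he) hs (hσ | hσ)
    · exact Or.inl (p.Te _ _ _ _ he hs hσ)
    · rw [Set.mem_singleton_iff, Prod.mk.injEq] at hσ
      obtain ⟨σ', hσ'⟩ := p.eY _ _ he
      exact absurd (hσ.1 ▸ hσ') (hβ σ')
    · rw [Set.mem_singleton_iff, Prod.mk.injEq] at he
      exact absurd (he.2 ▸ hσ) (hβ σ)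
    · rw [Set.mem_singleton_iff, Prod.mk.injEq] at he hσ
      have h1 : s = s0 := p.Xfun δ _ _ (he.1 ▸ hs) hs0
      refine Or.inr ⟨?_, ?_, ?_⟩
      · simp only
        rw [p.Xlen _ _ hs, hσ.2, hy]
      · simp only
        rw [h1]
      · simp only
        rw [hσ.2]
  · intro t a b s s' hab ha hb hl
    have hpos : 0 < s.length := by
      have := ha.length_le
      simp only [List.length_append, List.length_singleton] at this
      omega
    have hne : s ≠ s' := by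
      rintro rfl
      have h8 : t ++ [a] = t ++ [b] := pre_len ha hb (by simp)
      rw [List.append_cancel_left_eq] at h8
      exact hab (List.singleton_injective h8)
    refine (Set.encard_le_encard ?_).trans (p.B t a b s s' hab ha hb hl)
    rintro σ ⟨h1, h2⟩
    have hMσ : M ∉ σ := by
      intro hMσ
      exact hne (pre_len (hTm _ _ h1 hMσ) (hTm _ _ h2 hMσ) hl)
    exact ⟨hTn _ _ h1 hpos hMσ, hTn _ _ h2 (by omega) hMσ⟩

theorem exists_level (p : Cond A) (N : ℕ) : ∃ q ≤ p, N ≤ q.n := by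
  induction N with
  | zero => exact ⟨p, le_rfl, Nat.zero_le _⟩
  | succ N ih =>
    obtain ⟨q, hq, hN⟩ := ih
    obtain ⟨r, hr, hn, -⟩ := exists_ext q
    exact ⟨r, hr.trans hq, by omega⟩

/-- new edges -/
theorem exists_edge (p : Cond A) {δ γ : L} (hA : A δ γ) : ∃ q ≤ p, ∃ k, (δ, (γ, k)) ∈ q.e := by
  obtain ⟨p1, h1, hn⟩ := exists_level p 1
  obtain ⟨p2, h2, hn2, ⟨s, hs⟩, -⟩ := exists_addX p1 δ
  have hfin : {k | ∃ s, ((γ, k), s) ∈ p2.Y}.Finite := by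
    refine (p2.finY.image fun z => z.1.2).subset ?_
    rintro k ⟨s, hs⟩
    exact ⟨_, hs, rfl⟩
  obtain ⟨k, hk⟩ := hfin.exists_notMem
  obtain ⟨q, hq, he⟩ := exists_addE p2 hs (by omega) (β := (γ, k))
    (fun s hs => hk ⟨s, hs⟩) hA
  exact ⟨q, hq.trans (h2.trans h1), k, he⟩

/-- adding a `y`-vertex -/
theorem exists_addY (p : Cond A) (β : L × ℕ) : ∃ q ≤ p, ∃ s, (β, s) ∈ q.Y := by
  obtain ⟨p, h0, hn⟩ := exists_level p 1
  by_cases h : ∃ s, (β, s) ∈ p.Y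
  · exact ⟨p, h0, h⟩
  obtain ⟨M, hM⟩ := exists_bound (p.finY.image Prod.snd)
  have hyd : M ∈ List.replicate p.n M := by
    rw [List.mem_replicate]
    exact ⟨by omega, rfl⟩
  suffices hsuf : ∃ q ≤ p, ∃ s, (β, s) ∈ q.Y by
    obtain ⟨q, h1, h2⟩ := hsuf
    exact ⟨q, h1.trans h0, h2⟩
  refine ⟨{ p with
    Y := p.Y ∪ {(β, List.replicate p.n M)}
    finY := p.finY.union (Set.finite_singleton _)
    Ylen := ?_
    Yfun := ?_
    Yinj := ?_
    eY := ?_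
    Te := ?_ }, ⟨le_rfl, fun _ s h => ⟨s, List.prefix_rfl, h⟩,
      fun _ s h => ⟨s, List.prefix_rfl, Or.inl h⟩, subset_rfl, subset_rfl⟩,
      ⟨_, Or.inr rfl⟩⟩
  · rintro δ' s (hs | hs)
    · exact p.Ylen _ _ hs
    · rw [Set.mem_singleton_iff, Prod.mk.injEq] at hs
      rw [hs.2]
      simp
  · rintro δ' s s' (hs | hs) (hs' | hs')
    · exact p.Yfun _ _ _ hs hs'
    · rw [Set.mem_singleton_iff, Prod.mk.injEq] at hs'
      exact absurd ⟨s, hs'.1 ▸ hs⟩ h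
    · rw [Set.mem_singleton_iff, Prod.mk.injEq] at hs
      exact absurd ⟨s', hs.1 ▸ hs'⟩ h
    · rw [Set.mem_singleton_iff, Prod.mk.injEq] at hs hs'
      rw [hs.2, hs'.2]
  · rintro β1 β2 s (hs | hs) (hs' | hs')
    · exact p.Yinj _ _ _ hs hs'
    · rw [Set.mem_singleton_iff, Prod.mk.injEq] at hs'
      exact absurd (hM s ⟨_, hs, rfl⟩ M (by rw [hs'.2]; exact hyd)) (lt_irrefl _)
    · rw [Set.mem_singleton_iff, Prod.mk.injEq] at hs
      exact absurd (hM s ⟨_, hs', rfl⟩ M (by rw [hs.2]; exact hyd)) (lt_irrefl _)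
    · rw [Set.mem_singleton_iff, Prod.mk.injEq] at hs hs'
      rw [hs.1, hs'.1]
  · intro δ' β he
    obtain ⟨s, hs⟩ := p.eY _ _ he
    exact ⟨s, Or.inl hs⟩
  · rintro δ' β s σ he hs (hσ | hσ)
    · exact p.Te _ _ _ _ he hs hσ
    · rw [Set.mem_singleton_iff, Prod.mk.injEq] at hσ
      obtain ⟨s', hs'⟩ := p.eY _ _ he
      exact absurd ⟨s', hσ.1 ▸ hs'⟩ h

/-! ### The generic points -/

/-- the name of the tree -/
def TN (s σ : List ℕ) : Set (Cond A) := {p | (s, σ) ∈ p.T}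

/-- the sequence of `p` at the index `i` -/
def At (p : Cond A) (i : L ⊕ (L × ℕ)) (s : List ℕ) : Prop :=
  match i with
  | Sum.inl δ => (δ, s) ∈ p.X
  | Sum.inr β => (β, s) ∈ p.Y

/-- the names of the points -/
def ZN (i : L ⊕ (L × ℕ)) : ℕ → ℕ → Set (Cond A) := fun k a =>
  {p | ∃ s, At p i s ∧ k < s.length ∧ s.getD k 0 = a}

theorem mem_ZN {i : L ⊕ (L × ℕ)} {k a : ℕ} {p : Cond A} :
    p ∈ ZN i k a ↔ ∃ s, At p i s ∧ k < s.length ∧ s.getD k 0 = a := Iff.rfl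

theorem At.len {p : Cond A} {i : L ⊕ (L × ℕ)} {s : List ℕ} (h : At p i s) : s.length = p.n := by
  rcases i with δ | β
  · exact p.Xlen _ _ h
  · exact p.Ylen _ _ h

theorem At.uniq {p : Cond A} {i : L ⊕ (L × ℕ)} {s s' : List ℕ} (h : At p i s) (h' : At p i s') :
    s = s' := by
  rcases i with δ | β
  · exact p.Xfun _ _ _ h h'
  · exact p.Yfun _ _ _ h h'

theorem At.mono {p q : Cond A} {i : L ⊕ (L × ℕ)} {s : List ℕ} (h : At p i s) (hq : q ≤ p) :
    ∃ s', s <+: s' ∧ At q i s' := by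
  rcases i with δ | β
  · exact hq.2.1 _ _ h
  · exact hq.2.2.1 _ _ h

theorem exists_at (p : Cond A) (i : L ⊕ (L × ℕ)) : ∃ q ≤ p, ∃ s, At q i s := by
  rcases i with δ | β
  · obtain ⟨q, h1, -, h2, -⟩ := exists_addX p δ
    exact ⟨q, h1, h2⟩
  · obtain ⟨q, h1, h2⟩ := exists_addY p β
    exact ⟨q, h1, h2⟩

theorem exists_at_level (p : Cond A) (i : L ⊕ (L × ℕ)) (N : ℕ) :
    ∃ q ≤ p, N ≤ q.n ∧ ∃ s, At q i s := by
  obtain ⟨q, h1, s, h2⟩ := exists_at p i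
  obtain ⟨r, h3, h4⟩ := exists_level q N
  obtain ⟨s', _, h5⟩ := h2.mono h3
  exact ⟨r, h3.trans h1, h4, s', h5⟩

theorem down_ZN (i : L ⊕ (L × ℕ)) (k a : ℕ) : Down (ZN (A := A) i k a) := by
  rintro p ⟨s, h1, h2, h3⟩ q hq
  obtain ⟨s', h4, h5⟩ := At.mono (i := i) h1 hq
  exact ⟨s', h5, h2.trans_le h4.length_le, by rw [← getD_pre h4 h2]; exact h3⟩

theorem down_TN (s σ : List ℕ) : Down (TN (A := A) s σ) := fun _ hp _ hq => hq.2.2.2.2 hp

/-- the digits of the generic points -/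
theorem At.digit {p : Cond A} {i : L ⊕ (L × ℕ)} {s : List ℕ} (h : At p i s) {k a : ℕ}
    (hk : k < s.length) (h' : p ∈ meets (ZN i k a)) : s.getD k 0 = a := by
  obtain ⟨q, hq, hqa⟩ := exists_of_meets (down_ZN i k a) h'
  obtain ⟨s1, h1, h2⟩ := h.mono hq
  obtain ⟨s2, h3, h4, h5⟩ := mem_ZN.1 hqa
  have := h2.uniq h3
  subst this
  rw [getD_pre h1 hk]
  exact h5

theorem isFun_ZN (i : L ⊕ (L × ℕ)) (p : Cond A) : p ∈ IsFun (ZN i) := by
  refine ⟨fun k => mem_fex.2 fun q _ => ?_, fun k a b => mem_fimp.2 fun q _ hq => ?_⟩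
  · obtain ⟨r, h1, h2, s, h3⟩ := exists_at_level q i (k + 1)
    exact ⟨r, h1, s.getD k 0, meets_of_mem ⟨s, h3, by rw [h3.len]; omega, rfl⟩⟩
  · obtain ⟨r, h1, h2, s, h3⟩ := exists_at_level q i (k + 1)
    refine ⟨r, h1, ?_⟩
    have hk : k < s.length := by rw [h3.len]; omega
    have e1 := h3.digit hk (down_meets _ _ hq.1 _ h1)
    have e2 := h3.digit hk (down_meets _ _ hq.2 _ h1)
    exact e1.symm.trans e2

/-- digits of a list -/
theorem pre_of_digits {s u : List ℕ} (hl : s.length ≤ u.length)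
    (h : ∀ i, i < s.length → u.getD i 0 = s.getD i 0) : s <+: u := by
  rw [List.prefix_iff_eq_take]
  refine List.ext_getElem ?_ ?_
  · rw [List.length_take]
    omega
  · intro i h1 h2
    have := h i h1
    rw [List.getD_eq_getElem _ _ h1, List.getD_eq_getElem _ _ (h1.trans_le hl)] at this
    rw [List.getElem_take]
    exact this.symm

theorem At.initSeg {p : Cond A} {i : L ⊕ (L × ℕ)} {u : List ℕ} (h : At p i u) {s : List ℕ}
    (hs : s.length ≤ p.n) (h' : p ∈ InitSeg s (ZN i)) : s <+: u := by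
  refine pre_of_digits (by rw [h.len]; exact hs) fun k hk => ?_
  exact h.digit (by rw [h.len]; omega) (h' k hk)

theorem rtn_of_edge {p : Cond A} {δ : L} {β : L × ℕ} (h : (δ, β) ∈ p.e) :
    p ∈ RTN TN (ZN (Sum.inl δ)) (ZN (Sum.inr β)) := by
  intro s σ hl
  refine mem_fimp.2 fun q hq hi => ?_
  obtain ⟨r, hr, hN⟩ := exists_level q s.length
  refine ⟨r, hr, meets_of_mem ?_⟩
  obtain ⟨x, hx⟩ := p.eX _ _ h
  obtain ⟨y, hy⟩ := p.eY _ _ h
  obtain ⟨x', hx1, hx2⟩ := At.mono (i := Sum.inl δ) hx (hr.trans hq)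
  obtain ⟨y', hy1, hy2⟩ := At.mono (i := Sum.inr β) hy (hr.trans hq)
  have h1 := hx2.initSeg (s := s) hN (down_InitSeg _ _ _ hi.1 _ hr)
  have h2 := hy2.initSeg (s := σ) (by omega) (down_InitSeg _ _ _ hi.2 _ hr)
  exact r.Tcl _ _ _ _ (r.Te _ _ _ _ ((hr.trans hq).2.2.2.1 h) hx2 hy2) h1 h2 hl

theorem ne_ZN {i j : L ⊕ (L × ℕ)} (hij : i ≠ j) (p : Cond A) : p ∉ SameReal (ZN i) (ZN j) := by
  intro h
  obtain ⟨q, hq, s, hs⟩ := exists_at p i
  obtain ⟨q', hq', s', hs'⟩ := exists_at q j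
  obtain ⟨r, hr, hn, -, -, hx, hxy⟩ := exists_ext q'
  obtain ⟨s1, -, h1⟩ := hs.mono (hr.trans hq')
  obtain ⟨s2, -, h2⟩ := hs'.mono hr
  have hl : s1.length = s2.length := by rw [h1.len, h2.len]
  have heq : s1 = s2 := by
    refine List.ext_getElem hl fun k hk hk' => ?_
    have h3 : r ∈ meets (ZN i k (s1.getD k 0)) := meets_of_mem ⟨s1, h1, hk, rfl⟩
    have h4 : r ∈ meets (ZN j k (s2.getD k 0)) := meets_of_mem ⟨s2, h2, hk', rfl⟩
    have h5 := SameReal.eq (down_SameReal _ _ _ h _ (hr.trans (hq'.trans hq))) h3 h4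
    rwa [List.getD_eq_getElem _ _ hk, List.getD_eq_getElem _ _ hk'] at h5
  subst heq
  rcases i with δ | β <;> rcases j with δ' | β'
  · exact hx _ _ _ _ h1 h2 (fun h => hij (by rw [h])) rfl
  · exact hxy _ _ _ _ h1 h2 rfl
  · exact hxy _ _ _ _ h2 h1 rfl
  · exact hij (by rw [r.Yinj _ _ _ h1 h2])

end Pool.Agent.H409_AG.Gr
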