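import Mathlib
import Pool.Agent.H409_AG.Dens

/-!
# Names of reals with small support
-/

set_option autoImplicit false

namespace Pool.Agent.H409_AG.Gr

open Cardinal Pool.Agent.H409_AG.Ccc Pool.Agent.H409_AG Pool.Agent.Helper669.Forcing

variable {L : Type} {A : L → L → Prop}

/-- names of reals -/
abbrev Nm (A : L → L → Prop) : Type := ℕ → ℕ → Set (Cond A)

/-- countable names of reals with support in `U` -/
def NU (A : L → L → Prop) (U : Set L) : Set (Nm A) :=
  {υ | ∀ k a, (υ k a).Countable ∧ ∀ p ∈ υ k a, On p U}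

theorem NU.mono {U V : Set L} (h : U ⊆ V) {υ : Nm A} (hυ : υ ∈ NU A U) : υ ∈ NU A V :=
  fun k a => ⟨(hυ k a).1, fun p hp => ((hυ k a).2 p hp).mono h⟩

/-! ### Initial segments -/

theorem initSeg_append {P : Type} [Preorder P] {τ : ℕ → ℕ → Set P} {s : List ℕ} {a : ℕ} {p : P}
    (h : p ∈ InitSeg s τ) (h' : p ∈ meets (τ s.length a)) : p ∈ InitSeg (s ++ [a]) τ := by
  intro i hi
  rw [List.length_append, List.length_singleton] at hi
  rcases Nat.lt_succ_iff_lt_or_eq.1 hi with h1 | h1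
  · rw [List.getD_append _ _ _ _ h1]
    exact h i h1
  · subst h1
    rw [List.getD_append_right _ _ _ _ le_rfl]
    simpa using h'

theorem decide_seg {P : Type} [Preorder P] {τ : ℕ → ℕ → Set P} {p : P} (h : p ∈ IsFun τ)
    (N : ℕ) : ∃ q ≤ p, ∃ s : List ℕ, s.length = N ∧ q ∈ InitSeg s τ := by
  induction N with
  | zero =>
    refine ⟨p, le_rfl, [], rfl, fun i hi => ?_⟩
    exact absurd hi (Nat.not_lt_zero _)
  | succ N ih =>
    obtain ⟨q, hq, s, hs, hqs⟩ := ih
    obtain ⟨r, hr, a, ha⟩ := IsFun.total (down_IsFun _ _ h _ hq) N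
    refine ⟨r, hr.trans hq, s ++ [a], by simp [hs], ?_⟩
    exact initSeg_append (down_InitSeg _ _ _ hqs _ hr) (by rw [hs]; exact ha)

theorem initSeg_pre {P : Type} [Preorder P] {τ : ℕ → ℕ → Set P} {p : P} (h : p ∈ IsFun τ)
    {s t : List ℕ} (hs : p ∈ InitSeg s τ) (ht : p ∈ InitSeg t τ) (hl : s.length ≤ t.length) :
    s <+: t :=
  pre_of_digits hl fun i hi => IsFun.unique h (ht i (hi.trans_le hl)) (hs i hi)

/-- refining a decision -/
theorem decide_seg_ge {P : Type} [Preorder P] {τ : ℕ → ℕ → Set P} {p : P} (h : p ∈ IsFun τ)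
    {s : List ℕ} (hs : p ∈ InitSeg s τ) {N : ℕ} (hN : s.length ≤ N) :
    ∃ q ≤ p, ∃ t : List ℕ, t.length = N ∧ s <+: t ∧ q ∈ InitSeg t τ := by
  obtain ⟨q, hq, t, ht, hqt⟩ := decide_seg h N
  exact ⟨q, hq, t, ht, initSeg_pre (down_IsFun _ _ h _ hq) (down_InitSeg _ _ _ hs _ hq) hqt
    (by omega), hqt⟩

theorem getD_eq_of_initSeg {P : Type} [Preorder P] {τ : ℕ → ℕ → Set P} {p : P}
    (h : p ∈ IsFun τ) {s : List ℕ} (hs : p ∈ InitSeg s τ) {k a : ℕ} (hk : k < s.length)
    (ha : p ∈ meets (τ k a)) : s.getD k 0 = a := IsFun.unique h (hs k hk) ha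

/-- distinct sequences of the same length have a first difference -/
theorem exists_first_diff : ∀ {s s' : List ℕ}, s.length = s'.length → s ≠ s' →
    ∃ (t : List ℕ) (a b : ℕ), a ≠ b ∧ (t ++ [a]) <+: s ∧ (t ++ [b]) <+: s'
  | [], [], _, h => absurd rfl h
  | [], _ :: _, h, _ => by simp at h
  | _ :: _, [], h, _ => by simp at h
  | c :: s, c' :: s', hl, hne => by
    by_cases hc : c = c'
    · subst hc
      have h1 : s ≠ s' := fun h => hne (by rw [h])
      obtain ⟨t, a, b, hab, h2, h3⟩ := exists_first_diff (s := s) (s' := s') (by simpa using hl) h1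
      refine ⟨c :: t, a, b, hab, ?_, ?_⟩
      · simpa using h2
      · simpa using h3
    · exact ⟨[], c, c', hc, by simp, by simp⟩

/-! ### Based sentences -/

section Based

variable {U : Set L}

theorem bsd_name (sc : SC A U) {υ : Nm A} (hυ : υ ∈ NU A U) (k a : ℕ) : Bsd U (meets (υ k a)) :=
  bsd_meets_on sc (hυ k a).2

theorem bsd_IsFun (sc : SC A U) {υ : Nm A} (hυ : υ ∈ NU A U) : Bsd U (IsFun υ) :=
  bsd_fand (bsd_fall fun k => bsd_fex sc fun a => bsd_name sc hυ k a)
    (bsd_fall fun k => bsd_fall fun a => bsd_fall fun b =>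
      bsd_fimp sc (bsd_fand (bsd_name sc hυ k a) (bsd_name sc hυ k b)) (bsd_fground _))

theorem bsd_SameReal (sc : SC A U) {υ τ : Nm A} (hυ : υ ∈ NU A U) (hτ : τ ∈ NU A U) :
    Bsd U (SameReal υ τ) :=
  bsd_fall fun k => bsd_fall fun a => bsd_fall fun b =>
    bsd_fimp sc (bsd_fand (bsd_name sc hυ k a) (bsd_name sc hτ k b)) (bsd_fground _)

theorem bsd_InitSeg (sc : SC A U) {υ : Nm A} (hυ : υ ∈ NU A U) (s : List ℕ) :
    Bsd U (InitSeg s υ) :=
  bsd_fall fun k => bsd_fall fun _ => bsd_name sc hυ k _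

theorem bsd_RTN (sc : SC A U) {Θ : List ℕ → List ℕ → Set (Cond A)}
    (hΘ : ∀ s σ, Bsd U (Θ s σ)) {υ τ : Nm A} (hυ : υ ∈ NU A U) (hτ : τ ∈ NU A U) :
    Bsd U (RTN Θ τ υ) :=
  bsd_fall fun s => bsd_fall fun t => bsd_fall fun _ =>
    bsd_fimp sc (bsd_fand (bsd_InitSeg sc hτ s) (bsd_InitSeg sc hυ t))
      (bsd_meets sc fun p q hq hle => ⟨res q U, (hΘ s t).based q hq, res_mono hle U⟩)

theorem bsd_TN (s σ : List ℕ) : Bsd (A := A) U (TN s σ) :=
  ⟨down_TN s σ, fun _ hp => hp⟩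

end Based

/-! ### Deciding names -/

/-- some condition below `p` forces `τ` to be given by a name with support in `U` -/
def Near (U : Set L) (τ : Nm A) (p : Cond A) : Prop :=
  ∃ q ≤ p, ∃ υ ∈ NU A U, q ∈ IsFun υ ∧ q ∈ SameReal τ υ

theorem Near.mono {U : Set L} {τ : Nm A} {p q : Cond A} (h : Near U τ q) (hq : q ≤ p) :
    Near U τ p := by
  obtain ⟨r, hr, h⟩ := h
  exact ⟨r, hr.trans hq, h⟩

theorem dec (hA : AD A) {U : Set L} {τ : Nm A} {p : Cond A} (hp : p ∈ IsFun τ)
    (hfar : ¬ Near U τ p) : ∃ q1 q2 w, q1 ≤ p ∧ q2 ≤ p ∧ On w U ∧ w ≤ res q1 U ∧ w ≤ res q2 U ∧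
      ∃ k a b, a ≠ b ∧ q1 ∈ meets (τ k a) ∧ q2 ∈ meets (τ k b) := by
  by_contra hcon
  have key : ∀ q1 q2 w, q1 ≤ p → q2 ≤ p → On w U → w ≤ res q1 U → w ≤ res q2 U →
      ∀ k a b, q1 ∈ meets (τ k a) → q2 ∈ meets (τ k b) → a = b := by
    intro q1 q2 w h1 h2 h3 h4 h5 k a b h6 h7
    by_contra hab
    exact hcon ⟨q1, q2, w, h1, h2, h3, h4, h5, k, a, b, hab, h6, h7⟩
  apply hfar
  choose C hC hCc hCm using fun k : ℕ =>
    (ccc hA).exists_max {d : Cond A × ℕ | d.1 ≤ p ∧ d.1 ∈ meets (τ k d.2)}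
  let υ : Nm A := fun k a => {w | ∃ d ∈ C k, d.2 = a ∧ w = res d.1 U}
  have hυ : υ ∈ NU A U := by
    intro k a
    refine ⟨((hCc k).image fun d => res d.1 U).mono ?_, ?_⟩
    · rintro w ⟨d, hd, -, rfl⟩
      exact ⟨d, hd, rfl⟩
    · rintro w ⟨d, hd, -, rfl⟩
      exact res_on _ _
  refine ⟨p, le_rfl, υ, hυ, ⟨?_, ?_⟩, ?_⟩
  · intro k
    refine mem_fex.2 fun r hr => ?_
    obtain ⟨r', hr', a, ha⟩ := IsFun.total (down_IsFun _ _ hp _ hr) k
    obtain ⟨d, hd, s, hs1, hs2⟩ := hCm k (r', a) ⟨hr'.trans hr, ha⟩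
    exact ⟨s, hs1.trans hr', d.2, meets_of_le ⟨d, hd, rfl, rfl⟩ (hs2.trans (le_res _ _))⟩
  · intro k a b
    refine mem_fimp.2 fun r hr hrab => ⟨r, le_rfl, ?_⟩
    obtain ⟨s, hs, _, ⟨d, hd, rfl, rfl⟩, h1⟩ := hrab.1 r le_rfl
    obtain ⟨s', hs', _, ⟨d', hd', rfl, rfl⟩, h2⟩ := hrab.2 s hs
    exact key d.1 d'.1 (res s' U) (hC k hd).1 (hC k hd').1 (res_on _ _)
      (res_le (hs'.trans h1) (res_on _ _)) (res_le h2 (res_on _ _)) k _ _ (hC k hd).2 (hC k hd').2
  · intro k a b
    refine mem_fimp.2 fun r hr hrab => ⟨r, le_rfl, ?_⟩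
    obtain ⟨s, hs, _, ⟨d, hd, rfl, rfl⟩, h1⟩ := hrab.2 r le_rfl
    exact key s d.1 (res s U) (hs.trans hr) (hC k hd).1 (res_on _ _) le_rfl
      (res_le h1 (res_on _ _)) k _ _ (down_meets _ _ hrab.1 _ hs) (hC k hd).2

/-- extending finitely many conditions over a common part -/
theorem iter {U : Set L} (sc : SC A U) {ι : Type} [Fintype ι] (w : Cond A) (on : On w U)
    (q : ι → Cond A) (hq : ∀ i, w ≤ res (q i) U) (D : ι → Set (Cond A))
    (hD : ∀ i, ∀ r, r ≤ q i → r ≤ w → ∃ r' ≤ r, r' ∈ D i) :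
    ∃ w' ≤ w, On w' U ∧ ∃ q' : ι → Cond A, (∀ i, q' i ≤ q i) ∧ (∀ i, w' ≤ res (q' i) U) ∧
      (∀ i, q' i ≤ w) ∧ ∀ i, q' i ∈ D i := by
  classical
  suffices h : ∀ s : Finset ι, ∃ w' ≤ w, On w' U ∧ ∃ q' : ι → Cond A, (∀ i, q' i ≤ q i) ∧
      (∀ i, w' ≤ res (q' i) U) ∧ ∀ i ∈ s, q' i ≤ w ∧ q' i ∈ D i by
    obtain ⟨w', h1, h2, q', h3, h4, h5⟩ := h Finset.univ
    exact ⟨w', h1, h2, q', h3, h4, fun i => (h5 i (Finset.mem_univ i)).1,
      fun i => (h5 i (Finset.mem_univ i)).2⟩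
  intro s
  induction s using Finset.induction_on with
  | empty => exact ⟨w, le_rfl, on, q, fun _ => le_rfl, hq, fun i hi => by simp at hi⟩
  | insert i s hi ih =>
    obtain ⟨w', h1, h2, q', h3, h4, h5⟩ := ih
    obtain ⟨r, hr1, hr2⟩ := red sc h2 (h4 i)
    obtain ⟨r', hr', hr'D⟩ := hD i r (hr2.trans (h3 i)) (hr1.trans h1)
    have h6 : res r' U ≤ w' := res_le (hr'.trans hr1) h2
    refine ⟨res r' U, h6.trans h1, res_on _ _, Function.update q' i r', ?_, ?_, ?_⟩
    · intro j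
      by_cases hj : j = i
      · subst hj
        rw [Function.update_self]
        exact hr'.trans (hr2.trans (h3 j))
      · rw [Function.update_of_ne hj]
        exact h3 j
    · intro j
      by_cases hj : j = i
      · subst hj
        rw [Function.update_self]
      · rw [Function.update_of_ne hj]
        exact h6.trans (h4 j)
    · intro j hj
      by_cases hji : j = i
      · subst hji
        rw [Function.update_self]
        exact ⟨hr'.trans (hr1.trans h1), hr'D⟩
      · rw [Function.update_of_ne hji]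
        exact h5 j (Finset.mem_of_mem_insert_of_ne hj hji)

theorem split (hA : AD A) {U : Set L} (sc : SC A U) {τ : Nm A} {p : Cond A} (hp : p ∈ IsFun τ)
    (hfar : ¬ Near U τ p) (j : ℕ) : ∃ (ι : Type) (_ : Fintype ι) (w : Cond A) (q : ι → Cond A)
      (N : ℕ) (s : ι → List ℕ), Fintype.card ι = j + 1 ∧ On w U ∧ (∀ i, q i ≤ p) ∧
      (∀ i, w ≤ res (q i) U) ∧ (∀ i, (s i).length = N) ∧ (∀ i, q i ∈ InitSeg (s i) τ) ∧
      Function.Injective s := by
  classical
  induction j with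
  | zero =>
    refine ⟨Unit, inferInstance, res p U, fun _ => p, 0, fun _ => [], by simp, res_on _ _,
      fun _ => le_rfl, fun _ => le_rfl, fun _ => rfl, fun _ i hi => ?_, fun _ _ _ => rfl⟩
    exact absurd hi (Nat.not_lt_zero _)
  | succ j ih =>
    obtain ⟨ι, _, w, q, N, s, hcard, on, hqp, hwq, hsN, hqs, hinj⟩ := ih
    have hne : Nonempty ι := Fintype.card_pos_iff.1 (by omega)
    obtain ⟨i0⟩ := hne
    obtain ⟨r, hr1, hr2⟩ := red sc on (hwq i0)
    have hrp : r ≤ p := hr2.trans (hqp i0)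
    obtain ⟨q1, q2, w1, hq1, hq2, on1, hw1, hw2, k, a, b, hab, ha, hb⟩ :=
      dec hA (down_IsFun _ _ hp _ hrp) (fun h => hfar (h.mono hrp))
    have hw1w : w1 ≤ w := hw1.trans (res_le (hq1.trans hr1) on)
    let q' : Option ι → Cond A := fun o => o.elim q2 fun i => if i = i0 then q1 else q i
    have hq'0 : q' none = q2 := rfl
    have hq'1 : q' (some i0) = q1 := by simp [q']
    have hq'2 : ∀ i, i ≠ i0 → q' (some i) = q i := fun i hi => by simp [q', hi]
    have hq'p : ∀ o, q' o ≤ p := by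
      rintro (_ | i)
      · exact hq2.trans hrp
      · by_cases hi : i = i0
        · subst hi
          rw [hq'1]
          exact hq1.trans hrp
        · rw [hq'2 i hi]
          exact hqp i
    -- the old decision
    let s' : Option ι → List ℕ := fun o => o.elim (s i0) s
    have hq's : ∀ o, q' o ∈ InitSeg (s' o) τ := by
      rintro (_ | i)
      · exact down_InitSeg _ _ _ (hqs i0) _ (hq2.trans hr2)
      · by_cases hi : i = i0
        · subst hi
          rw [hq'1]
          exact down_InitSeg _ _ _ (hqs _) _ (hq1.trans hr2)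
        · rw [hq'2 i hi]
          exact hqs i
    have hs'N : ∀ o, (s' o).length = N := by
      rintro (_ | i)
      · exact hsN i0
      · exact hsN i
    obtain ⟨w2, hw2w, on2, q'', hq'', hwq'', -, hD⟩ := iter sc w1 on1 q' (by
      rintro (_ | i)
      · exact hw2
      · by_cases hi : i = i0
        · subst hi
          rw [hq'1]
          exact hw1
        · rw [hq'2 i hi]
          exact hw1w.trans (hwq i))
      (fun _ => {r | ∃ t : List ℕ, t.length = max N (k + 1) ∧ r ∈ InitSeg t τ})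
      (fun o r hr _ => by
        obtain ⟨r', hr', t, ht, h⟩ := decide_seg (down_IsFun _ _ hp _ (hr.trans (hq'p o)))
          (max N (k + 1))
        exact ⟨r', hr', t, ht, h⟩)
    choose t ht hqt using hD
    have hfun : ∀ o, q'' o ∈ IsFun τ := fun o => down_IsFun _ _ hp _ ((hq'' o).trans (hq'p o))
    have hst : ∀ o, s' o <+: t o := fun o =>
      initSeg_pre (hfun o) (down_InitSeg _ _ _ (hq's o) _ (hq'' o)) (hqt o)
        (by rw [hs'N, ht]; exact le_max_left _ _)
    have hdiff : ∀ o o', s' o ≠ s' o' → t o ≠ t o' := by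
      intro o o' h h'
      exact h (pre_len (hst o) (by rw [h']; exact hst o') (by rw [hs'N, hs'N]))
    refine ⟨Option ι, inferInstance, w2, q'', max N (k + 1), t, ?_, on2,
      fun o => (hq'' o).trans (hq'p o), hwq'', ht, hqt, ?_⟩
    · rw [Fintype.card_option, hcard]
    · -- injectivity
      have h0 : ∀ i, t none ≠ t (some i) := by
        intro i
        by_cases hi : i = i0
        · subst hi
          intro h
          have e1 : (t none).getD k 0 = b := getD_eq_of_initSeg (hfun none) (hqt none)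
            (by rw [ht]; exact lt_of_lt_of_le (Nat.lt_succ_self _) (le_max_right _ _))
            (down_meets _ _ hb _ (hq'' none))
          have e2 : (t (some i)).getD k 0 = a := getD_eq_of_initSeg (hfun (some i)) (hqt _)
            (by rw [ht]; exact lt_of_lt_of_le (Nat.lt_succ_self _) (le_max_right _ _))
            (down_meets _ _ ha _ (by
              have := hq'' (some i)
              rwa [hq'1] at this))
          rw [h, e2] at e1
          exact hab e1
        · exact hdiff none (some i) (fun h => hi (hinj h.symm))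
      rintro (_ | i) (_ | i') h
      · rfl
      · exact absurd h (h0 i')
      · exact absurd h.symm (h0 i)
      · by_contra hne
        refine hdiff (some i) (some i') (fun h' => hne ?_) h
        rw [hinj h']

end Pool.Agent.H409_AG.Gr
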