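import Mathlib
import Pool.Agent.H409_AG.Dens

/-!
# The generic family has no orientation with countable outdegrees
-/

set_option autoImplicit false

namespace Pool.Agent.H409_AG.Gr

open Cardinal Pool.Agent.H409_AG.Ccc Pool.Agent.H409_AG Pool.Agent.Helper669.Forcing

variable {L : Type} {A : L → L → Prop}

/-- the possible values of a name of a function -/
theorem countable_values (hA : AD A) {X Y : Type} {f : X → Y → Set (Cond A)} {q : Cond A}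
    (hf : q ∈ IsFun f) (x : X) : {y | ∃ r ≤ q, r ∈ meets (f x y)}.Countable := by
  by_contra hcon
  have hcon' : ¬ Countable {y | ∃ r ≤ q, r ∈ meets (f x y)} := hcon
  choose r hr hry using fun y : {y | ∃ r ≤ q, r ∈ meets (f x y)} => y.2
  obtain ⟨y, y', hne, s, h1, h2⟩ := (ccc hA).family r hcon'
  apply hne
  apply Subtype.ext
  exact IsFun.unique (down_IsFun _ _ hf _ (h1.trans (hr y)))
    (down_meets _ _ (hry y) _ h1) (down_meets _ _ (hry y') _ h2)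

theorem mem_for' {P : Type} [Preorder P] {φ ψ : Set P} {p : P} :
    p ∈ for' φ ψ ↔ ∀ q ≤ p, ∃ r ≤ q, r ∈ φ ∨ r ∈ ψ := by
  constructor
  · intro h q hq
    by_contra hcon
    push Not at hcon
    exact h q hq ⟨fun r hr => (hcon r hr).1, fun r hr => (hcon r hr).2⟩
  · rintro h q hq ⟨h1, h2⟩
    obtain ⟨r, hr, h3 | h3⟩ := h q hq
    · exact h1 r hr h3
    · exact h2 r hr h3

theorem not_orient [LinearOrder L] (hA : AD A) (hlt : ∀ δ γ, A δ γ → γ < δ)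
    (hbd : ∀ S : Set L, S.Countable → ∃ b, ∀ x ∈ S, x < b)
    (hst : ∀ c : L → L, ∃ δ, ¬ {γ | A δ γ}.Countable ∧ ∀ γ < δ, c γ < δ) (p : Cond A) :
    p ∈ fnot (OrientN (P := Cond A) TN (ZN (L := L))) := by
  intro q0 _ hq0
  obtain ⟨q, _, f, hf, hor⟩ := mem_fex.1 hq0 q0 le_rfl
  -- the bounds
  have hV : ∀ (i : L ⊕ (L × ℕ)) (m : ℕ), {j | ∃ r ≤ q, r ∈ meets (f i m j)}.Countable :=
    fun i m => countable_values hA (hf i) m
  have hB : ∀ γ : L, ∃ b : L, ∀ k m δ, (∃ r ≤ q, r ∈ meets (f (Sum.inr (γ, k)) m (Sum.inl δ))) →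
      δ < b := by
    intro γ
    obtain ⟨b, hb⟩ := hbd (⋃ k, ⋃ m, {δ | ∃ r ≤ q, r ∈ meets (f (Sum.inr (γ, k)) m (Sum.inl δ))})
      (Set.countable_iUnion fun k => Set.countable_iUnion fun m =>
        (hV (Sum.inr (γ, k)) m).preimage Sum.inl_injective)
    exact ⟨b, fun k m δ h => hb δ (Set.mem_iUnion.2 ⟨k, Set.mem_iUnion.2 ⟨m, h⟩⟩)⟩
  choose c hc using hB
  obtain ⟨δ, hδ1, hδ2⟩ := hst c
  have hW : (⋃ k : ℕ, ⋃ m, {γ | ∃ r ≤ q, r ∈ meets (f (Sum.inl δ) m (Sum.inr (γ, k)))}).Countable :=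
    Set.countable_iUnion fun k => Set.countable_iUnion fun m =>
      (hV (Sum.inl δ) m).preimage (f := fun γ => Sum.inr (γ, k)) fun a b h => by
        simpa using h
  have h1 : ¬ {γ | A δ γ} ⊆
      ⋃ k : ℕ, ⋃ m, {γ | ∃ r ≤ q, r ∈ meets (f (Sum.inl δ) m (Sum.inr (γ, k)))} :=
    fun h => hδ1 (hW.mono h)
  rw [Set.not_subset] at h1
  obtain ⟨γ, hγ, hγW⟩ := h1
  obtain ⟨r, hr, k, hk⟩ := exists_edge q hγ
  obtain ⟨r', hr', h2⟩ := mem_fimp.1 (hor (Sum.inl δ) (Sum.inr (γ, k))) r hr (rtn_of_edge hk)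
  obtain ⟨r2, hr2, h3⟩ := mem_for'.1 h2 r' le_rfl
  have key : ∀ i j : L ⊕ (L × ℕ), r2 ∈ (fex fun m => fex fun k =>
      fand (meets (f i m k)) (SameReal (ZN k) (ZN (A := A) j))) → ∃ m, ∃ s ≤ q, s ∈ meets (f i m j) := by
    intro i j h
    obtain ⟨r3, hr3, m, h4⟩ := mem_fex.1 h r2 le_rfl
    obtain ⟨r4, hr4, k', h5, h6⟩ := mem_fex.1 h4 r3 le_rfl
    have h7 : k' = j := by
      by_contra hne
      exact ne_ZN hne _ h6
    subst h7
    exact ⟨m, r4, hr4.trans (hr3.trans (hr2.trans (hr'.trans hr))), h5⟩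
  rcases h3 with h3 | h3
  · obtain ⟨m, s, hs, h4⟩ := key _ _ h3
    exact hγW (Set.mem_iUnion.2 ⟨k, Set.mem_iUnion.2 ⟨m, s, hs, h4⟩⟩)
  · obtain ⟨m, s, hs, h4⟩ := key _ _ h3
    have h5 := hc γ k m δ ⟨s, hs, h4⟩
    have h6 := hδ2 γ (hlt _ _ hγ)
    exact absurd (h5.trans h6) (lt_irrefl _)

end Pool.Agent.H409_AG.Gr
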