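import Mathlib
import Pool.Agent.H409_AG.Names
import Pool.Agent.H409_AG.NonOr

/-!
# The remaining pieces of PART C (statements only), and their common definitions
-/

set_option autoImplicit false

namespace Pool.Agent.H409_AG.Gr

open Cardinal Pool.Agent.H409_AG.Ccc Pool.Agent.H409_AG Pool.Agent.Helper669.Forcing

section

variable {L : Type}

/-- strong closure of a set of indices inside `B` -/
structure Good (A : L → L → Prop) (B U : Set L) : Prop where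
  sub : U ⊆ B
  closed : ∀ δ ∈ U, ∀ γ, A δ γ → γ ∈ U
  good : ∀ δ ∈ B, δ ∉ U → {γ | γ ∈ U ∧ A δ γ}.Countable

theorem Good.sc {A : L → L → Prop} {B U : Set L} (h : Good A B U) : SC A U :=
  fun δ hδ _ _ _ γ h1 _ => h.closed δ hδ γ h1

/-- (d-prime) and (d-second): the neighbours in `NU A U` of a name which is far from `U`. -/
def Captures (A : L → L → Prop) (B : Set L) : Prop :=
  ∀ U, Good A B U → ∀ Z : Set L, Z.Countable → Z ⊆ B → ∀ τ ∈ NU A Z,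
    ∃ Nb ⊆ NU A U, Nb.Countable ∧ ∀ υ ∈ NU A U, ∀ p : Cond A, p ∈ IsFun τ → p ∈ IsFun υ →
      (p ∈ RTN TN τ υ ∨ p ∈ RTN TN υ τ) → ¬ Near U τ p →
        ∃ q ≤ p, ∃ υ' ∈ Nb, q ∈ IsFun υ' ∧ q ∈ SameReal υ υ'

/-- a ground model orientation of the names with support in `U` -/
def Cap (A : L → L → Prop) (U : Set L) : Prop :=
  ∃ Φ : Nm A → Set (Nm A), (∀ τ, (Φ τ).Countable ∧ Φ τ ⊆ NU A U) ∧
    ∀ τ ∈ NU A U, ∀ υ ∈ NU A U, ∀ p : Cond A, p ∈ IsFun τ → p ∈ IsFun υ → p ∈ RTN TN τ υ →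
      (∃ q ≤ p, ∃ υ' ∈ Φ τ, q ∈ IsFun υ' ∧ q ∈ SameReal υ υ') ∨
      (∃ q ≤ p, ∃ τ' ∈ Φ υ, q ∈ IsFun τ' ∧ q ∈ SameReal τ τ')

/-- PIECE C34 (helper409), file CapD.lean: `captures`. -/
def C34 : Prop := ∀ (A : L → L → Prop) (B : Set L), AD A →
  (∀ δ ∈ B, ∀ γ, A δ γ → γ ∈ B) → Captures A B

/-- PIECE C5 (helper571), file CapInd.lean: `exists_cap`.
Induction over `n`. Base `n ≤ 1`: `NU A U` has size `≤ ℵ₁` (`mk_on_le` and CH), so take initial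
segments of an enumeration. Step: `U = ⋃ x ∈ S, cl x`, `#S ≤ ℵ_{n+1}`, initial segments
`U_ζ = ⋃ x ∈ S, r x < ζ, cl x` (all `Good`); rank of a name below a condition = least `ζ` such that
some `q` forces it equal to (`IsFun υ`, `SameReal τ υ`) some `υ ∈ NU A U_ζ`. -/
def C5 : Prop := ∀ (A : L → L → Prop) (B : Set L), AD A → Captures A B →
  #(ℕ → ℕ) ≤ (ℵ₁ : Cardinal.{0}) →
  ∀ cl : L → Set L, (∀ x, #(cl x) ≤ (ℵ₁ : Cardinal.{0})) → (∀ x ∈ B, x ∈ cl x) →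
    (∀ S ⊆ B, Good A B (⋃ x ∈ S, cl x)) →
    ∀ (n : ℕ) (S : Set L), S ⊆ B → #S ≤ (ℵ_ (n : ℕ) : Cardinal.{0}) → ∃ U, S ⊆ U ∧ Cap A U

/-- PIECE C6 (helper636), file CapOr.lean: `orientN_of_cap`.
Replace each `z i` by a countable name (ccc), take `U` containing all supports, then for each `i` and
each `υ' ∈ Φ (z' i)` a countable maximal antichain of conditions forcing `z j = υ'` for some `j`;
the orientation is a function of the ground model. -/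
def C6 : Prop := ∀ (A : L → L → Prop), AD A → ∀ (I : Type) [Nonempty I],
  (∀ S : Set L, #S ≤ max ℵ₀ #I → ∃ U, S ⊆ U ∧ Cap A U) → ∀ (z : I → Nm A) (p : Cond A),
    (∀ i, p ∈ IsFun (z i)) → p ∈ OrientN TN z

end

/-- PIECE C7 (helper697), file PartC.lean: these lemmas, then `graph_forced : Stmts.TaskC`. -/
def C7a : Prop := ∀ A : Lam → Lam → Prop, IsLadder A → AD A

/-- `cl x` = closure of `x` under `A δ` and under `γ ↦` the `δ < α` with `γ ∈ A δ \ g δ`. -/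
def C7b : Prop := ∀ A : Lam → Lam → Prop, IsLadder A → ∀ α : Lam,
  ∃ cl : Lam → Set Lam, (∀ x, #(cl x) ≤ (ℵ₁ : Cardinal.{0})) ∧
    (∀ x ∈ Set.Iio α, x ∈ cl x) ∧ ∀ S ⊆ Set.Iio α, Good A (Set.Iio α) (⋃ x ∈ S, cl x)

/-- bounded sets, and the assumptions of `not_orient` -/
def C7c : Prop := (∀ S : Set Lam, #S ≤ (ℵ_ Ordinal.omega0 : Cardinal.{0}) → ∃ b, ∀ x ∈ S, x < b) ∧
  ∀ A : Lam → Lam → Prop, IsLadder A →
    ∀ c : Lam → Lam, ∃ δ, ¬ {γ | A δ γ}.Countable ∧ ∀ γ < δ, c γ < δ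

end Pool.Agent.H409_AG.Gr
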