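import Mathlib
import Pool.Agent.H409_AG.StmtsC

/-!
# Uncountable families of names with a constant outer part
-/

set_option autoImplicit false

namespace Pool.Agent.H409_AG.Gr

open Cardinal Pool.Agent.H409_AG.Ccc Pool.Agent.H409_AG Pool.Agent.Helper669.Forcing

variable {L : Type} {A : L → L → Prop}

/-- the part outside `U` -/
def outc (U : Set L) (p : Cond A) : ℕ × Set (L × List ℕ) × Set ((L × ℕ) × List ℕ) ×
    Set (L × (L × ℕ)) × Set (List ℕ × List ℕ) :=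
  (p.n, {z | z ∈ p.X ∧ z.1 ∉ U}, {z | z ∈ p.Y ∧ z.1.1 ∉ U},
    {z | z ∈ p.e ∧ ¬ (z.1 ∈ U ∧ z.2.1 ∈ U)}, p.T)

theorem join {U : Set L} {p p' r : Cond A} (h : outc U p = outc U p') (hp : r ≤ p)
    (hp' : r ≤ res p' U) : r ≤ p' := by
  simp only [outc, Prod.mk.injEq] at h
  obtain ⟨h1, h2, h3, h4, h5⟩ := h
  refine ⟨h1 ▸ hp.1, ?_, ?_, ?_, h5 ▸ hp.2.2.2.2⟩
  · intro δ s hs
    by_cases hδ : δ ∈ U
    · exact hp'.2.1 δ s ⟨hs, hδ⟩
    · have : (δ, s) ∈ {z | z ∈ p'.X ∧ z.1 ∉ U} := ⟨hs, hδ⟩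
      rw [← h2] at this
      exact hp.2.1 δ s this.1
  · intro δ s hs
    by_cases hδ : δ.1 ∈ U
    · exact hp'.2.2.1 δ s ⟨hs, hδ⟩
    · have : (δ, s) ∈ {z | z ∈ p'.Y ∧ z.1.1 ∉ U} := ⟨hs, hδ⟩
      rw [← h3] at this
      exact hp.2.2.1 δ s this.1
  · intro z hz
    by_cases hδ : z.1 ∈ U ∧ z.2.1 ∈ U
    · exact hp'.2.2.2.1 ⟨hz, hδ⟩
    · have : z ∈ {z | z ∈ p'.e ∧ ¬ (z.1 ∈ U ∧ z.2.1 ∈ U)} := ⟨hz, hδ⟩
      rw [← h4] at this
      exact hp.2.2.2.1 this.1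

/-- adding a semi-closed set to a closed set -/
theorem Good.sc_union {B U Z : Set L} (h : Good A B U) (hZ : SC A Z) : SC A (U ∪ Z) := by
  intro δ hδ δ' hδ' hne γ h1 h2
  rcases hδ with hδ | hδ
  · exact Or.inl (h.closed δ hδ γ h1)
  rcases hδ' with hδ' | hδ'
  · exact Or.inl (h.closed δ' hδ' γ h2)
  exact Or.inr (hZ δ hδ δ' hδ' hne γ h1 h2)

/-- there are countably many outer parts -/
theorem Good.countable_out {B U Z : Set L} (h : Good A B U) (hZ : Z.Countable) (hZB : Z ⊆ B) :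
    (outc U '' {p : Cond A | On p (U ∪ Z)}).Countable := by
  let CX : Set (L × List ℕ) := Z ×ˢ Set.univ
  let CY : Set ((L × ℕ) × List ℕ) := (Z ×ˢ Set.univ) ×ˢ Set.univ
  let G : Set L := Z ∪ ⋃ δ ∈ Z \ U, {γ | γ ∈ U ∧ A δ γ}
  let CE : Set (L × (L × ℕ)) := Z ×ˢ (G ×ˢ Set.univ)
  have hCX : CX.Countable := hZ.prod Set.countable_univ
  have hCY : CY.Countable := (hZ.prod Set.countable_univ).prod Set.countable_univ
  have hG : G.Countable := hZ.union (Set.Countable.biUnion (hZ.mono Set.sdiff_subset)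
    fun δ hδ => h.good δ (hZB hδ.1) hδ.2)
  have hCE : CE.Countable := hZ.prod (hG.prod Set.countable_univ)
  have h1 := Set.countable_ofPred_finite_subset hCX
  have h2 := Set.countable_ofPred_finite_subset hCY
  have h3 := Set.countable_ofPred_finite_subset hCE
  have h4 := Set.countable_ofPred_finite_subset (Set.countable_univ (α := List ℕ × List ℕ))
  refine ((Set.countable_univ (α := ℕ)).prod (h1.prod (h2.prod (h3.prod h4)))).mono ?_
  rintro _ ⟨p, hp, rfl⟩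
  refine ⟨Set.mem_univ _, ⟨p.finX.subset fun _ h => h.1, ?_⟩, ⟨p.finY.subset fun _ h => h.1, ?_⟩,
    ⟨(fine p).subset fun _ h => h.1, ?_⟩, ⟨p.finT, Set.subset_univ _⟩⟩
  · rintro ⟨δ, s⟩ ⟨h5, h6⟩
    exact ⟨(hp.1 _ _ h5).resolve_left h6, Set.mem_univ _⟩
  · rintro ⟨β, s⟩ ⟨h5, h6⟩
    exact ⟨⟨(hp.2 _ _ h5).resolve_left h6, Set.mem_univ _⟩, Set.mem_univ _⟩
  · rintro ⟨δ, ⟨γ, k⟩⟩ ⟨h5, h6⟩
    obtain ⟨s, hs⟩ := p.eX _ _ h5
    obtain ⟨σ, hσ⟩ := p.eY _ _ h5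
    have hA := p.eA _ _ h5
    have h7 : δ ∉ U := fun h8 => h6 ⟨h8, h.closed δ h8 γ hA⟩
    have h8 : δ ∈ Z := (hp.1 _ _ hs).resolve_left h7
    refine ⟨h8, ?_, Set.mem_univ _⟩
    by_cases h9 : γ ∈ U
    · exact Or.inr (Set.mem_biUnion (x := δ) ⟨h8, h7⟩ ⟨h9, hA⟩)
    · exact Or.inl ((hp.2 _ _ hσ).resolve_left h9)

/-- Either the names in a family are captured by countably many, or there is an uncountable
family of different names with the same outer part. -/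
theorem dichotomy (hA : AD A) {B U Z : Set L} (hU : Good A B U) (hZ : Z.Countable)
    (hZB : Z ⊆ B) (hZs : SC A Z)
    (φ : Nm A → Set (Cond A)) (hφ : ∀ υ ∈ NU A U, Bsd (U ∪ Z) (φ υ))
    (hφf : ∀ υ, ∀ p ∈ φ υ, p ∈ IsFun υ) :
    (∃ Nb ⊆ NU A U, Nb.Countable ∧ ∀ υ ∈ NU A U, ∀ p ∈ φ υ, ∃ q ≤ p, ∃ υ' ∈ Nb, q ∈ φ υ' ∧
      q ∈ SameReal υ υ') ∨
    (∃ (Y : Type) (p : Y → Cond A) (υ : Y → Nm A) (y0 : Y), (∀ y, υ y ∈ NU A U) ∧
      (∀ y, p y ∈ φ (υ y)) ∧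
      (∀ y y', y ≠ y' → ∀ q, q ≤ p y → q ≤ p y' → q ∉ SameReal (υ y) (υ y')) ∧
      (∀ y y', outc U (p y) = outc U (p y')) ∧
      ∀ w ≤ res (p y0) U, ¬ {y | Compat w (res (p y) U)}.Countable) := by
  have hsc : SC A (U ∪ Z) := hU.sc_union hZs
  let Base : Set (Cond A × Nm A) := {d | On d.1 (U ∪ Z) ∧ d.2 ∈ NU A U ∧ d.1 ∈ φ d.2}
  let R : Cond A × Nm A → Cond A × Nm A → Prop := fun d d' =>
    ∀ q, q ≤ d.1 → q ≤ d'.1 → q ∉ SameReal d.2 d'.2
  obtain ⟨M, hM⟩ := zorn_subset {M : Set (Cond A × Nm A) | M ⊆ Base ∧ M.Pairwise R} (by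
    intro c hc hchain
    refine ⟨⋃₀ c, ⟨Set.sUnion_subset fun s hs => (hc hs).1, ?_⟩,
      fun s hs => Set.subset_sUnion_of_mem hs⟩
    exact (Set.pairwise_sUnion hchain.directedOn).2 fun s hs => (hc hs).2)
  by_cases hMc : M.Countable
  · left
    refine ⟨Prod.snd '' M, ?_, hMc.image _, ?_⟩
    · rintro _ ⟨d, hd, rfl⟩
      exact (hM.prop.1 hd).2.1
    · intro υ hυ p hp
      have hp' : res p (U ∪ Z) ∈ φ υ := (hφ υ hυ).based p hp
      -- it suffices to work with the restriction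
      suffices h : ∃ q ≤ res p (U ∪ Z), ∃ d ∈ M, q ≤ d.1 ∧ q ∈ SameReal υ d.2 by
        obtain ⟨q, hq, d, hd, hqd, hqs⟩ := h
        have hd' := hM.prop.1 hd
        have h1 : res q (U ∪ Z) ∈ SameReal υ d.2 :=
          (bsd_SameReal hsc (NU.mono Set.subset_union_left hυ)
            (NU.mono Set.subset_union_left hd'.2.1)).based _ hqs
        obtain ⟨r, hr1, hr2⟩ := red hsc (res_on q _) (res_le hq (res_on _ _))
        refine ⟨r, hr2, d.2, ⟨d, hd, rfl⟩, ?_, down_SameReal _ _ _ h1 _ hr1⟩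
        exact (hφ _ hd'.2.1).down _ hd'.2.2 _ (hr1.trans (res_le hqd hd'.1))
      by_contra hcon
      push Not at hcon
      have hmem : insert (res p (U ∪ Z), υ) M ∈
          {M : Set (Cond A × Nm A) | M ⊆ Base ∧ M.Pairwise R} := by
        refine ⟨Set.insert_subset ⟨res_on _ _, hυ, hp'⟩ hM.prop.1, ?_⟩
        rw [Set.pairwise_insert]
        refine ⟨hM.prop.2, fun d hd _ => ⟨?_, ?_⟩⟩
        · intro q hq1 hq2 hqs
          exact hcon q hq1 d hd hq2 hqs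
        · intro q hq1 hq2 hqs
          refine hcon q hq2 d hd hq1 fun n a b => mem_fimp.2 fun r hr hrab => ?_
          obtain ⟨r', hr', h⟩ := mem_fimp.1 (hqs n b a) r hr ⟨hrab.2, hrab.1⟩
          exact ⟨r', hr', Eq.symm h⟩
      have hin : (res p (U ∪ Z), υ) ∈ M := hM.le_of_ge hmem (Set.subset_insert _ M)
        (Set.mem_insert _ M)
      exact hcon (res p (U ∪ Z)) le_rfl _ hin le_rfl (hφf _ _ hp').2
  · right
    have h1 : ∃ c, ¬ {d | d ∈ M ∧ outc U d.1 = c}.Countable := by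
      by_contra h
      push Not at h
      apply hMc
      refine ((hU.countable_out hZ hZB).biUnion
        (t := fun c _ => {d | d ∈ M ∧ outc U d.1 = c}) fun c _ => h c).mono ?_
      intro d hd
      exact Set.mem_biUnion (x := outc U d.1) ⟨d.1, (hM.prop.1 hd).1, rfl⟩ ⟨hd, rfl⟩
    obtain ⟨c, hc⟩ := h1
    have hc' : ¬ Countable {d | d ∈ M ∧ outc U d.1 = c} := hc
    obtain ⟨y0, hy0⟩ := (ccc hA).exists_heavy
      (fun y : {d | d ∈ M ∧ outc U d.1 = c} => res y.1.1 U) hc'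
    refine ⟨{d | d ∈ M ∧ outc U d.1 = c}, fun y => y.1.1, fun y => y.1.2, y0,
      fun y => (hM.prop.1 y.2.1).2.1, fun y => (hM.prop.1 y.2.1).2.2, ?_, ?_, hy0⟩
    · intro y y' hne q hq1 hq2
      exact hM.prop.2 y.2.1 y'.2.1 (fun h => hne (Subtype.ext h)) q hq1 hq2
    · intro y y'
      rw [y.2.2, y'.2.2]

end Pool.Agent.H409_AG.Gr
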