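import Mathlib
import Pool.Agent.H409_AG.Dich

/-!
# The neighbours in an intermediate model of a point outside it
-/

set_option autoImplicit false

namespace Pool.Agent.H409_AG.Gr

open Cardinal Pool.Agent.H409_AG.Ccc Pool.Agent.H409_AG Pool.Agent.Helper669.Forcing

/-! ### Generalities -/

theorem dense_finset {P : Type} [Preorder P] {ι : Type} (s : Finset ι) (D : ι → Set P) (r : P)
    (hd : ∀ i ∈ s, Down (D i)) (hD : ∀ i ∈ s, ∀ q ≤ r, ∃ q' ≤ q, q' ∈ D i) :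
    ∃ q ≤ r, ∀ i ∈ s, q ∈ D i := by
  classical
  induction s using Finset.induction_on with
  | empty => exact ⟨r, le_rfl, fun i hi => by simp at hi⟩
  | insert i s hi ih =>
    obtain ⟨q, hq, h⟩ := ih (fun j hj => hd j (Finset.mem_insert_of_mem hj))
      (fun j hj => hD j (Finset.mem_insert_of_mem hj))
    obtain ⟨q', hq', h'⟩ := hD i (Finset.mem_insert_self _ _) q hq
    refine ⟨q', hq'.trans hq, fun j hj => ?_⟩
    rcases Finset.mem_insert.1 hj with rfl | hj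
    · exact h'
    · exact hd j (Finset.mem_insert_of_mem hj) _ (h j hj) _ hq'

/-- a condition none of whose extensions forces two functions to be equal has an extension
deciding a difference -/
theorem exists_diff {P : Type} [Preorder P] {τ υ : ℕ → ℕ → Set P} {r : P}
    (h : r ∉ SameReal τ υ) :
    ∃ q ≤ r, ∃ k a b, a ≠ b ∧ q ∈ meets (τ k a) ∧ q ∈ meets (υ k b) := by
  by_contra hcon
  push Not at hcon
  apply h
  intro k a b
  refine mem_fimp.2 fun q hq hab => ⟨q, le_rfl, ?_⟩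
  by_contra hne
  exact hcon q hq k a b hne hab.1 hab.2

theorem decide_distinct {P : Type} [Preorder P] {Y : Type} (S : Finset Y)
    (υ : Y → ℕ → ℕ → Set P) (r : P) (hf : ∀ y ∈ S, r ∈ IsFun (υ y))
    (hne : ∀ y ∈ S, ∀ y' ∈ S, y ≠ y' → ∀ q ≤ r, q ∉ SameReal (υ y) (υ y')) (N0 : ℕ) :
    ∃ r' ≤ r, ∃ N, N0 ≤ N ∧ ∃ σ : Y → List ℕ, (∀ y ∈ S, (σ y).length = N) ∧
      (∀ y ∈ S, r' ∈ InitSeg (σ y) (υ y)) ∧ Set.InjOn σ S := by
  classical
  obtain ⟨q, hq, hqD⟩ := dense_finset S.offDiag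
    (fun z => {q : P | ∃ k a b, a ≠ b ∧ q ∈ meets (υ z.1 k a) ∧ q ∈ meets (υ z.2 k b)}) r
    (fun z _ p hp q hq => by
      obtain ⟨k, a, b, hab, h1, h2⟩ := hp
      exact ⟨k, a, b, hab, down_meets _ _ h1 _ hq, down_meets _ _ h2 _ hq⟩)
    (fun z hz q hq => by
      obtain ⟨h1, h2, h3⟩ := Finset.mem_offDiag.1 hz
      exact exists_diff (hne _ h1 _ h2 h3 q hq))
  choose! k a b hab h1 h2 using hqD
  let N := N0 + S.offDiag.sup fun z => k z + 1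
  obtain ⟨q', hq', hqD'⟩ := dense_finset S
    (fun y => {q : P | ∃ s : List ℕ, s.length = N ∧ q ∈ InitSeg s (υ y)}) q
    (fun y _ p hp q hq => by
      obtain ⟨s, hs, h⟩ := hp
      exact ⟨s, hs, down_InitSeg _ _ _ h _ hq⟩)
    (fun y hy r' hr' => decide_seg (down_IsFun _ _ (hf y hy) _ (hr'.trans hq)) N)
  choose! σ hσ1 hσ2 using hqD'
  refine ⟨q', hq'.trans hq, N, Nat.le_add_right _ _, σ, hσ1, hσ2, ?_⟩
  intro y hy y' hy' heq
  by_contra hyy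
  have hz : (y, y') ∈ S.offDiag := Finset.mem_offDiag.2 ⟨hy, hy', hyy⟩
  have hk : k (y, y') < N := by
    have : k (y, y') + 1 ≤ S.offDiag.sup fun z => k z + 1 :=
      Finset.le_sup (f := fun z => k z + 1) hz
    omega
  have e1 := getD_eq_of_initSeg (down_IsFun _ _ (hf y hy) _ (hq'.trans hq)) (hσ2 y hy)
    (by rw [hσ1 y hy]; exact hk) (down_meets _ _ (h1 _ hz) _ hq')
  have e2 := getD_eq_of_initSeg (down_IsFun _ _ (hf y' hy') _ (hq'.trans hq)) (hσ2 y' hy')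
    (by rw [hσ1 y' hy']; exact hk) (down_meets _ _ (h2 _ hz) _ hq')
  rw [heq, e2] at e1
  exact hab _ hz e1.symm

variable {L : Type} {A : L → L → Prop}

theorem choose_heavy {U : Set L} {Y : Type} (P : Y → Cond A) (hP : ∀ y, On (P y) U)
    {w0 : Cond A} (hw0 : ∀ w ≤ w0, ¬ {y | Compat w (P y)}.Countable) {w : Cond A}
    (hw : w ≤ w0) (on : On w U) (b : ℕ) :
    ∃ S : Finset Y, S.card = b ∧ ∃ w' ≤ w, On w' U ∧ ∀ y ∈ S, w' ≤ P y := by
  classical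
  induction b with
  | zero => exact ⟨∅, rfl, w, le_rfl, on, fun y hy => by simp at hy⟩
  | succ b ih =>
    obtain ⟨S, hS, w', hw', on', hSw⟩ := ih
    have h1 : ¬ {y | Compat w' (P y)} ⊆ S := fun h =>
      hw0 w' (hw'.trans hw) (S.finite_toSet.countable.mono h)
    rw [Set.not_subset] at h1
    obtain ⟨y, ⟨s, hs1, hs2⟩, hyS⟩ := h1
    refine ⟨insert y S, ?_, res s U, (res_le hs1 on').trans hw', res_on _ _, ?_⟩
    · rw [Finset.card_insert_of_notMem (by simpa using hyS), hS]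
    · intro z hz
      rcases Finset.mem_insert.1 hz with rfl | hz
      · exact res_le hs2 (hP z)
      · exact (res_le hs1 on').trans (hSw z hz)

/-- the final extension -/
theorem final {U : Set L} (sc : SC A U) {Θ : List ℕ → List ℕ → Set (Cond A)}
    (hΘ : ∀ s σ, Bsd U (Θ s σ)) {ι : Type} [Fintype ι] {w : Cond A} (on : On w U)
    (q : ι → Cond A) (hq : ∀ i, w ≤ res (q i) U) {τ : Nm A} {s : ι → List ℕ} {N : ℕ}
    (hs : ∀ i, q i ∈ InitSeg (s i) τ) (hsN : ∀ i, (s i).length ≤ N) {Y : Type} (S : Finset Y)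
    (υ : Y → Nm A) (σ : Y → List ℕ) (hσN : ∀ y ∈ S, (σ y).length = N)
    (hσ : ∀ y ∈ S, w ∈ InitSeg (σ y) (υ y))
    (hrel : ∀ i r, r ≤ q i → r ≤ w → r ∈ IsFun τ ∧ ∀ y ∈ S, r ∈ RTN Θ τ (υ y)) :
    ∃ w' ≤ w, On w' U ∧ ∃ s' : ι → List ℕ, (∀ i, (s' i).length = N) ∧ (∀ i, s i <+: s' i) ∧
      ∀ i, ∀ y ∈ S, w' ∈ Θ (s' i) (σ y) := by
  obtain ⟨w', hw', on', q', hq', hwq', hqw, hD⟩ := iter sc w on q hq
    (fun i => {r | ∃ t : List ℕ, t.length = N ∧ s i <+: t ∧ ∀ y ∈ S, r ∈ Θ t (σ y)})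
    (fun i r hr1 hr2 => by
      obtain ⟨hf, hR⟩ := hrel i r hr1 hr2
      obtain ⟨r1, hr1', t, ht, hst, hrt⟩ := decide_seg_ge hf
        (down_InitSeg _ _ _ (hs i) _ hr1) (hsN i)
      obtain ⟨r2, hr2', h⟩ := dense_finset S (fun y => Θ t (σ y)) r1
        (fun y _ => (hΘ _ _).down)
        (fun y hy u hu => by
          obtain ⟨u', hu', h'⟩ := mem_fimp.1 (hR y hy t (σ y) (by rw [ht, hσN y hy])) u
            (hu.trans hr1') ⟨down_InitSeg _ _ _ hrt _ hu,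
              down_InitSeg _ _ _ (hσ y hy) _ (hu.trans (hr1'.trans hr2))⟩
          obtain ⟨u2, hu2, h2⟩ := exists_of_meets (hΘ t (σ y)).down h'
          exact ⟨u2, hu2.trans hu', h2⟩)
      exact ⟨r2, hr2'.trans hr1', t, ht, hst, h⟩)
  choose t ht hst htD using hD
  exact ⟨w', hw', on', t, ht, hst, fun i y hy =>
    (hΘ _ _).down _ ((hΘ _ _).based _ (htD i y hy)) _ (hwq' i)⟩

/-- the setting of the contradiction -/
structure Bad (A : L → L → Prop) (U : Set L) (Θ : List ℕ → List ℕ → Set (Cond A)) (τ : Nm A)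
    {Y : Type} (p : Y → Cond A) (υ : Y → Nm A) (y0 : Y) : Prop where
  nu : ∀ y, υ y ∈ NU A U
  funτ : ∀ y, p y ∈ IsFun τ
  funυ : ∀ y, p y ∈ IsFun (υ y)
  rel : ∀ y, p y ∈ RTN Θ τ (υ y)
  far : ∀ y, ¬ Near U τ (p y)
  ne : ∀ y y', y ≠ y' → ∀ q, q ≤ p y → q ≤ p y' → q ∉ SameReal (υ y) (υ y')
  out : ∀ y y', outc U (p y) = outc U (p y')
  heavy : ∀ w ≤ res (p y0) U, ¬ {y | Compat w (res (p y) U)}.Countable

theorem down_RTN {P : Type} [Preorder P] (T : List ℕ → List ℕ → Set P) (x y : ℕ → ℕ → Set P) :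
    Down (RTN T x y) :=
  down_fall fun _ => down_fall fun _ => down_fall fun _ => down_fimp _ _

theorem contra1 (hA : AD A) {U : Set L} (sc : SC A U) {τ : Nm A} {Y : Type} {p : Y → Cond A}
    {υ : Y → Nm A} {y0 : Y} (H : Bad A U TN τ p υ y0) : False := by
  classical
  obtain ⟨ι, _, w1, q, N1, s, hcard, on1, hqp, hwq, hsN, hqs, hinj⟩ :=
    split hA sc (H.funτ y0) (H.far y0) 1
  obtain ⟨i0, i1, hi⟩ := Fintype.one_lt_card_iff.1 (show 1 < Fintype.card ι by omega)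
  obtain ⟨t, a, b, hab, ha, hb⟩ := exists_first_diff (s := s i0) (s' := s i1)
    (by rw [hsN, hsN]) (fun h => hi (hinj h))
  have hw1 : w1 ≤ res (p y0) U := (hwq i0).trans (res_mono (hqp i0) U)
  obtain ⟨S, hS, w2, hw2, on2, hSw⟩ := choose_heavy (fun y => res (p y) U)
    (fun y => res_on _ _) H.heavy hw1 on1 (max a b + 1)
  -- below both, all the conditions of the family
  have hle : ∀ i r, r ≤ q i → r ≤ w2 → ∀ y ∈ S, r ≤ p y := fun i r h1 h2 y hy =>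
    join (H.out y0 y) (h1.trans (hqp i)) (h2.trans (hSw y hy))
  obtain ⟨r, hr1, hr2⟩ := red sc on2 (hw2.trans (hwq i0))
  have hrp := hle i0 r hr2 hr1
  obtain ⟨r', hr', N, hN, σ, hσN, hσ, hσi⟩ := decide_distinct S υ r
    (fun y hy => down_IsFun _ _ (H.funυ y) _ (hrp y hy))
    (fun y hy y' hy' hne q hq => H.ne y y' hne q (hq.trans (hrp y hy)) (hq.trans (hrp y' hy'))) N1
  have hw3 : res r' U ≤ w2 := res_le (hr'.trans hr1) on2
  obtain ⟨w4, hw4, on4, s', hs'N, hss', hT⟩ := final sc (fun s σ => bsd_TN s σ) (res_on r' U) q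
    (fun i => hw3.trans (hw2.trans (hwq i))) hqs (fun i => by rw [hsN]; exact hN) S υ σ hσN
    (fun y hy => (bsd_InitSeg sc (H.nu y) _).based _ (hσ y hy))
    (fun i r'' h1 h2 => ⟨down_IsFun _ _ (H.funτ y0) _ (h1.trans (hqp i)), fun y hy =>
      down_RTN _ _ _ _ (H.rel y) _ (hle i r'' h1 (h2.trans hw3) y hy)⟩)
  have hB := w4.B t a b (s' i0) (s' i1) hab (ha.trans (hss' i0)) (hb.trans (hss' i1))
    (by rw [hs'N, hs'N])
  have h5 : ((S.image σ : Finset (List ℕ)) : Set (List ℕ)) ⊆ Common w4.T (s' i0) (s' i1) := by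
    intro z hz
    obtain ⟨y, hy, rfl⟩ := Finset.mem_image.1 (Finset.mem_coe.1 hz)
    exact ⟨hT i0 y hy, hT i1 y hy⟩
  have h6 := (Set.encard_le_encard h5).trans hB
  rw [Set.encard_coe_eq_coe_finsetCard, Finset.card_image_of_injOn hσi, hS] at h6
  have h7 : max a b + 1 ≤ max a b := by exact_mod_cast h6
  omega

theorem contra2 (hA : AD A) {U : Set L} (sc : SC A U) {τ : Nm A} {Y : Type} {p : Y → Cond A}
    {υ : Y → Nm A} {y0 : Y} (H : Bad A U (fun s σ => TN σ s) τ p υ y0) : False := by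
  classical
  obtain ⟨S, hS, w1, hw1, on1, hSw⟩ := choose_heavy (fun y => res (p y) U)
    (fun y => res_on _ _) H.heavy le_rfl (res_on _ _) 2
  obtain ⟨y1, y2, hy12, rfl⟩ := Finset.card_eq_two.1 hS
  have hle : ∀ r, r ≤ p y0 → r ≤ w1 → ∀ y ∈ ({y1, y2} : Finset Y), r ≤ p y :=
    fun r h1 h2 y hy => join (H.out y0 y) h1 (h2.trans (hSw y hy))
  obtain ⟨r, hr1, hr2⟩ := red sc on1 hw1
  have hrp := hle r hr2 hr1
  obtain ⟨r1, hr1', N1, -, σ1, hσN1, hσ1, hσi1⟩ := decide_distinct ({y1, y2} : Finset Y) υ r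
    (fun y hy => down_IsFun _ _ (H.funυ y) _ (hrp y hy))
    (fun y hy y' hy' hne q hq => H.ne y y' hne q (hq.trans (hrp y hy)) (hq.trans (hrp y' hy'))) 0
  have m1 : y1 ∈ ({y1, y2} : Finset Y) := by simp
  have m2 : y2 ∈ ({y1, y2} : Finset Y) := by simp
  obtain ⟨t, a, b, hab, ha, hb⟩ := exists_first_diff (s := σ1 y1) (s' := σ1 y2)
    (by rw [hσN1 _ m1, hσN1 _ m2]) (fun h => hy12 (hσi1 m1 m2 h))
  have hr1p : r1 ≤ p y0 := hr1'.trans hr2
  have hr1w : r1 ≤ w1 := hr1'.trans hr1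
  obtain ⟨ι, _, w2, q, N2, s, hcard, on2, hqr, hwq, hsN, hqs, hinj⟩ :=
    split hA sc (down_IsFun _ _ (H.funτ y0) _ hr1p) (fun h => H.far y0 (h.mono hr1p)) (max a b)
  have hne : Nonempty ι := Fintype.card_pos_iff.1 (by omega)
  obtain ⟨i0⟩ := hne
  have hw2w1 : w2 ≤ w1 := (hwq i0).trans ((res_mono (hqr i0) U).trans (res_le hr1w on1))
  -- decide more of the two names
  obtain ⟨r2, hr2a, hr2b⟩ := red sc on2 (hwq i0)
  obtain ⟨r3, hr3, hr3D⟩ := dense_finset ({y1, y2} : Finset Y)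
    (fun y => {u | ∃ v : List ℕ, v.length = max N1 N2 ∧ σ1 y <+: v ∧ u ∈ InitSeg v (υ y)}) r2
    (fun y _ u hu u' hu' => by
      obtain ⟨v, h1, h2, h3⟩ := hu
      exact ⟨v, h1, h2, down_InitSeg _ _ _ h3 _ hu'⟩)
    (fun y hy u hu => by
      have hur1 : u ≤ r1 := hu.trans (hr2b.trans (hqr i0))
      obtain ⟨u', hu', v, h1, h2, h3⟩ := decide_seg_ge (N := max N1 N2)
        (down_IsFun _ _ (H.funυ y) _ ((hur1.trans hr1').trans (hrp y hy)))
        (down_InitSeg _ _ _ (hσ1 y hy) _ hur1) (by rw [hσN1 y hy]; exact le_max_left _ _)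
      exact ⟨u', hu', v, h1, h2, h3⟩)
  choose! σ hσN hσσ hσ using hr3D
  have hw3 : res r3 U ≤ w2 := res_le (hr3.trans hr2a) on2
  obtain ⟨w4, hw4, on4, s', hs'N, hss', hT⟩ := final sc (Θ := fun s σ => TN σ s)
    (fun s σ => bsd_TN σ s) (res_on r3 U) q
    (fun i => hw3.trans (hwq i)) hqs (fun i => by rw [hsN]; exact le_max_right _ _)
    ({y1, y2} : Finset Y) υ σ hσN
    (fun y hy => (bsd_InitSeg sc (H.nu y) _).based _ (hσ y hy))
    (fun i r'' h1 h2 => ⟨down_IsFun _ _ (H.funτ y0) _ ((h1.trans (hqr i)).trans hr1p),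
      fun y hy => down_RTN _ _ _ _ (H.rel y) _
        (hle r'' ((h1.trans (hqr i)).trans hr1p) (h2.trans (hw3.trans hw2w1)) y hy)⟩)
  have hB := w4.B t a b (σ y1) (σ y2) hab (ha.trans (hσσ _ m1)) (hb.trans (hσσ _ m2))
    (by rw [hσN _ m1, hσN _ m2])
  have hs'i : Function.Injective s' := by
    intro i j hij
    exact hinj (pre_len (hss' i) (by rw [hij]; exact hss' j) (by rw [hsN, hsN]))
  have h5 : ((Finset.univ.image s' : Finset (List ℕ)) : Set (List ℕ)) ⊆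
      Common w4.T (σ y1) (σ y2) := by
    intro z hz
    obtain ⟨i, -, rfl⟩ := Finset.mem_image.1 (Finset.mem_coe.1 hz)
    exact ⟨hT i y1 m1, hT i y2 m2⟩
  have h6 := (Set.encard_le_encard h5).trans hB
  rw [Set.encard_coe_eq_coe_finsetCard, Finset.card_image_of_injective _ hs'i, Finset.card_univ,
    hcard] at h6
  have h7 : max a b + 1 ≤ max a b := by exact_mod_cast h6
  omega

/-- semi-closure inside `B` -/
theorem exists_sc_in (hA : AD A) {B : Set L} (hB : ∀ δ ∈ B, ∀ γ, A δ γ → γ ∈ B) {V : Set L}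
    (hV : V.Countable) (hVB : V ⊆ B) : ∃ U, V ⊆ U ∧ U.Countable ∧ U ⊆ B ∧ SC A U := by
  obtain ⟨U, h1, h2, h3⟩ := exists_sc hA hV
  refine ⟨U ∩ B, Set.subset_inter h1 hVB, h2.mono Set.inter_subset_left, Set.inter_subset_right,
    ?_⟩
  intro δ hδ δ' hδ' hne γ h4 h5
  exact ⟨h3 δ hδ.1 δ' hδ'.1 hne γ h4 h5, hB δ hδ.2 γ h4⟩

/-- the two directions -/
theorem captures_aux (hA : AD A) {B : Set L} (hB : ∀ δ ∈ B, ∀ γ, A δ γ → γ ∈ B) {U : Set L}
    (hU : Good A B U) {Z : Set L} (hZ : Z.Countable) (hZB : Z ⊆ B) {τ : Nm A} (hτ : τ ∈ NU A Z)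
    (Θ : List ℕ → List ℕ → Set (Cond A)) (hΘ : ∀ V s σ, Bsd V (Θ s σ))
    (hcon : ∀ {Y : Type} {p : Y → Cond A} {υ : Y → Nm A} {y0 : Y}, ¬ Bad A U Θ τ p υ y0) :
    ∃ Nb ⊆ NU A U, Nb.Countable ∧ ∀ υ ∈ NU A U, ∀ p : Cond A, p ∈ IsFun τ → p ∈ IsFun υ →
      p ∈ RTN Θ τ υ → ¬ Near U τ p → ∃ q ≤ p, ∃ υ' ∈ Nb, q ∈ IsFun υ' ∧ q ∈ SameReal υ υ' := by
  obtain ⟨W, hZW, hWc, hWB, hWs⟩ := exists_sc_in hA hB hZ hZB
  have hsc : SC A (U ∪ W) := hU.sc_union hWs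
  have hτW : τ ∈ NU A (U ∪ W) := NU.mono (hZW.trans Set.subset_union_right) hτ
  let Far : Set (Cond A) := fall fun υ' : NU A U => fnot (fand (IsFun υ'.1) (SameReal τ υ'.1))
  have hFar : ∀ p, p ∈ Far ↔ ¬ Near U τ p := by
    intro p
    constructor
    · rintro h ⟨q, hq, υ, hυ, h1, h2⟩
      exact h ⟨υ, hυ⟩ q hq ⟨h1, h2⟩
    · intro h υ q hq h1
      exact h ⟨q, hq, υ.1, υ.2, h1.1, h1.2⟩
  have hU' : ∀ υ ∈ NU A U, υ ∈ NU A (U ∪ W) := fun υ hυ => NU.mono Set.subset_union_left hυ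
  let φ : Nm A → Set (Cond A) := fun υ => fand (IsFun τ) (fand (IsFun υ) (fand (RTN Θ τ υ) Far))
  rcases dichotomy hA hU hWc hWB hWs φ (fun υ hυ => bsd_fand (bsd_IsFun hsc hτW)
    (bsd_fand (bsd_IsFun hsc (hU' υ hυ)) (bsd_fand (bsd_RTN hsc (hΘ _) (hU' υ hυ) hτW)
      (bsd_fall fun υ' => bsd_fnot hsc (bsd_fand (bsd_IsFun hsc (hU' _ υ'.2))
        (bsd_SameReal hsc hτW (hU' _ υ'.2)))))))
    (fun υ p hp => hp.2.1) with ⟨Nb, h1, h2, h3⟩ | ⟨Y, p, υ, y0, h1, h2, h3, h4, h5⟩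
  · refine ⟨Nb, h1, h2, fun υ hυ p hp1 hp2 hp3 hp4 => ?_⟩
    obtain ⟨q, hq, υ', hυ', h6, h7⟩ := h3 υ hυ p ⟨hp1, hp2, hp3, (hFar p).2 hp4⟩
    exact ⟨q, hq, υ', hυ', h6.2.1, h7⟩
  · exact absurd ⟨h1, fun y => (h2 y).1, fun y => (h2 y).2.1, fun y => (h2 y).2.2.1,
      fun y => (hFar _).1 (h2 y).2.2.2, h3, h4, h5⟩ (hcon (p := p) (υ := υ) (y0 := y0))

theorem rtn_swap {P : Type} [Preorder P] {T : List ℕ → List ℕ → Set P} {x y : ℕ → ℕ → Set P}
    {p : P} (h : p ∈ RTN T y x) : p ∈ RTN (fun s σ => T σ s) x y := by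
  intro s t hst
  refine mem_fimp.2 fun q hq hi => ?_
  exact mem_fimp.1 (h t s hst.symm) q hq ⟨hi.2, hi.1⟩

theorem captures : C34 (L := L) := by
  intro A B hA hB U hU Z hZ hZB τ hτ
  obtain ⟨N1, h1, h2, h3⟩ := captures_aux hA hB hU hZ hZB hτ TN (fun V s σ => bsd_TN s σ)
    (fun H => contra1 hA hU.sc H)
  obtain ⟨N2, h4, h5, h6⟩ := captures_aux hA hB hU hZ hZB hτ (fun s σ => TN σ s)
    (fun V s σ => bsd_TN σ s) (fun H => contra2 hA hU.sc H)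
  refine ⟨N1 ∪ N2, Set.union_subset h1 h4, h2.union h5, fun υ hυ p hp1 hp2 hp3 hp4 => ?_⟩
  rcases hp3 with hp3 | hp3
  · obtain ⟨q, hq, υ', hυ', h7⟩ := h3 υ hυ p hp1 hp2 hp3 hp4
    exact ⟨q, hq, υ', Or.inl hυ', h7⟩
  · obtain ⟨q, hq, υ', hυ', h7⟩ := h6 υ hυ p hp1 hp2 (rtn_swap hp3) hp4
    exact ⟨q, hq, υ', Or.inr hυ', h7⟩

end Pool.Agent.H409_AG.Gr
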