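import Pool.Agent.H409_AG.StmtsC
import Pool.Agent.H409_AG.C6a
import Pool.Agent.H409_AG.CapBase

/-!
# Part C, piece C5: the induction which gives the orientation of the names
-/

set_option autoImplicit false

namespace Pool.Agent.H409_AG.Gr

open Cardinal Pool.Agent.H409_AG.Ccc Pool.Agent.H409_AG Pool.Agent.Helper669.Forcing

section

variable {L : Type} {A : L → L → Prop}

theorem mem_biUnion_cl {cl : L → Set L} {S : Set L} {y : L} :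
    y ∈ (⋃ x ∈ S, cl x) ↔ ∃ x ∈ S, y ∈ cl x := by
  simp

/-- the support of a countable name is countable -/
theorem NU.exists_supp {U : Set L} {τ : Nm A} (hτ : τ ∈ NU A U) :
    ∃ Z ⊆ U, Z.Countable ∧ τ ∈ NU A Z := by
  refine ⟨⋃ k : ℕ, ⋃ a : ℕ, ⋃ p ∈ τ k a, supp p, ?_, ?_, ?_⟩
  · refine Set.iUnion_subset fun k => Set.iUnion_subset fun a => Set.iUnion₂_subset fun p hp => ?_
    exact on_iff.1 ((hτ k a).2 p hp)
  · exact Set.countable_iUnion fun k => Set.countable_iUnion fun a =>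
      (hτ k a).1.biUnion fun p _ => (supp_finite p).countable
  · intro k a
    refine ⟨(hτ k a).1, fun p hp => on_iff.2 fun x hx => ?_⟩
    exact Set.mem_iUnion.2 ⟨k, Set.mem_iUnion.2 ⟨a, Set.mem_biUnion hp hx⟩⟩

/-- a countable name with support in `⋃ x ∈ S, cl x` only needs countably many `x` -/
theorem NU.exists_cl {cl : L → Set L} {S : Set L} {τ : Nm A} (hτ : τ ∈ NU A (⋃ x ∈ S, cl x)) :
    ∃ X ⊆ S, X.Countable ∧ τ ∈ NU A (⋃ x ∈ X, cl x) := by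
  obtain ⟨Z, hZ, hZc, hτZ⟩ := NU.exists_supp hτ
  have h : ∀ z : Z, ∃ x ∈ S, z.1 ∈ cl x := fun z => mem_biUnion_cl.1 (hZ z.2)
  choose f hf hf' using h
  have : Countable Z := hZc.to_subtype
  refine ⟨Set.range f, ?_, Set.countable_range f, NU.mono ?_ hτZ⟩
  · rintro _ ⟨z, rfl⟩
    exact hf z
  · intro z hz
    exact mem_biUnion_cl.2 ⟨_, ⟨⟨z, hz⟩, rfl⟩, hf' ⟨z, hz⟩⟩

theorem card_Iio_lt' {c : Cardinal.{0}} (i : c.ord.ToType) : #(Set.Iio i) < c := by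
  simpa using mk_Iio_lt i

/-- `NU A U` in `ω₁` steps -/
theorem cap_of_mk_le {U : Set L} (h : #(NU A U) ≤ (ℵ₁ : Cardinal.{0})) : Cap A U := by
  classical
  let K := (ℵ₁ : Cardinal.{0}).ord.ToType
  have hK : #K = ℵ₁ := by simp [K]
  rw [← hK, Cardinal.le_def] at h
  obtain ⟨g⟩ := h
  have hIic : ∀ i : K, (Set.Iic i).Countable := by
    intro i
    have h1 : (Set.Iio i).Countable := by
      rw [← Cardinal.le_aleph0_iff_set_countable, ← Order.lt_succ_iff,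
        ← Cardinal.aleph_zero, Cardinal.succ_aleph, zero_add]
      exact card_Iio_lt' i
    have h2 : Set.Iic i = Set.Iio i ∪ {i} := by
      ext x
      simp [le_iff_lt_or_eq]
    rw [h2]
    exact h1.union (Set.countable_singleton i)
  refine ⟨fun τ => {υ | ∃ (h1 : υ ∈ NU A U) (h2 : τ ∈ NU A U), g ⟨υ, h1⟩ ≤ g ⟨τ, h2⟩},
    fun τ => ⟨?_, ?_⟩, fun τ hτ υ hυ p h1 h2 _ => ?_⟩
  · by_cases hτ : τ ∈ NU A U
    · have h3 : (g ⁻¹' (Set.Iic (g ⟨τ, hτ⟩))).Countable :=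
        (hIic _).preimage_of_injOn g.injective.injOn
      refine (h3.image Subtype.val).mono ?_
      rintro υ ⟨h1, h2, h4⟩
      exact ⟨⟨υ, h1⟩, h4, rfl⟩
    · refine Set.Countable.mono ?_ Set.countable_empty
      rintro υ ⟨-, h2, -⟩
      exact hτ h2
  · rintro υ ⟨h1, -, -⟩
    exact h1
  · rcases le_total (g ⟨υ, hυ⟩) (g ⟨τ, hτ⟩) with h | h
    · exact Or.inl ⟨p, le_rfl, υ, ⟨hυ, hτ, h⟩, h2, C6.sameReal_self h2⟩
    · exact Or.inr ⟨p, le_rfl, τ, ⟨hτ, hυ, h⟩, h1, C6.sameReal_self h1⟩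

/-- the step of the induction -/
theorem cap_step (hA : AD A) {B : Set L} (hcap : Captures A B) {cl : L → Set L}
    (hcl : ∀ S ⊆ B, Good A B (⋃ x ∈ S, cl x)) {S : Set L} (hS : S ⊆ B)
    {K : Type} [LinearOrder K] [WellFoundedLT K] (r : L → K)
    (hK : ∀ X : Set K, X.Countable → ∃ b, ∀ x ∈ X, x < b)
    (ih : ∀ ζ, Cap A (⋃ x ∈ {x | x ∈ S ∧ r x < ζ}, cl x)) : Cap A (⋃ x ∈ S, cl x) := by
  classical
  set Sz : K → Set L := fun ζ => {x | x ∈ S ∧ r x < ζ} with hSz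
  set Uz : K → Set L := fun ζ => ⋃ x ∈ Sz ζ, cl x with hUz
  set U : Set L := ⋃ x ∈ S, cl x with hU
  have hSzS : ∀ ζ, Sz ζ ⊆ S := fun ζ x hx => hx.1
  have hUzU : ∀ ζ, Uz ζ ⊆ U := fun ζ y hy => by
    obtain ⟨x, hx, h⟩ := mem_biUnion_cl.1 hy
    exact mem_biUnion_cl.2 ⟨x, hx.1, h⟩
  have hmono : ∀ ξ ζ, ξ ≤ ζ → Uz ξ ⊆ Uz ζ := fun ξ ζ h y hy => by
    obtain ⟨x, hx, h'⟩ := mem_biUnion_cl.1 hy
    exact mem_biUnion_cl.2 ⟨x, ⟨hx.1, hx.2.trans_le h⟩, h'⟩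
  have hGood : ∀ ζ, Good A B (Uz ζ) := fun ζ => hcl _ ((hSzS ζ).trans hS)
  have hGoodU : Good A B U := hcl S hS
  choose Φ hΦ1 hΦ2 using ih
  -- the sets of the conditions which put `τ` into the level `ζ`
  let E : Nm A → K → Set (Cond A × Nm A) := fun τ ζ =>
    {d | d.2 ∈ NU A (Uz ζ) ∧ d.1 ∈ IsFun d.2 ∧ d.1 ∈ SameReal τ d.2}
  choose C hC1 hC2 hC3 using fun (τ : Nm A) (ζ : K) => (ccc hA).exists_max (E τ ζ)
  let Rk : Nm A → Set K := fun τ => {ζ | ∃ d ∈ E τ ζ, ∀ ξ < ζ, ¬ Near (Uz ξ) τ d.1}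
  have hRk : ∀ τ, (Rk τ).Countable := by
    intro τ
    by_contra hcon
    have hcon' : ¬ Countable (Rk τ) := hcon
    have hch : ∀ ζ : Rk τ, ∃ d ∈ E τ ζ.1, ∀ ξ < ζ.1, ¬ Near (Uz ξ) τ d.1 := fun ζ => ζ.2
    choose d hd hd' using hch
    obtain ⟨ζ, ζ', hne, s, hs, hs'⟩ := (ccc hA).family (fun ζ => (d ζ).1) hcon'
    have key : ∀ ζ ζ' : Rk τ, ζ.1 < ζ'.1 → s ≤ (d ζ).1 → s ≤ (d ζ').1 → False := by
      intro ζ ζ' hlt hs hs'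
      refine hd' ζ' ζ.1 hlt ⟨s, hs', (d ζ).2, (hd ζ).1, ?_, ?_⟩
      · exact down_IsFun _ _ (hd ζ).2.1 _ hs
      · exact down_SameReal _ _ _ (hd ζ).2.2 _ hs
    rcases lt_trichotomy ζ.1 ζ'.1 with h | h | h
    · exact key ζ ζ' h hs hs'
    · exact hne (Subtype.ext h)
    · exact key ζ' ζ h hs' hs
  have hD : ∀ (τ : Nm A) (ζ : K), ∃ D : Set K, D.Countable ∧ (∀ c ∈ D, c < ζ) ∧
      (ζ ∈ Rk τ → ∀ ξ < ζ, ∃ c ∈ D, ξ ≤ c) := by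
    intro τ ζ
    by_cases hζ : ζ ∈ Rk τ
    · obtain ⟨d, hd, hd'⟩ := hζ
      obtain ⟨X, hX, hXc, hXd⟩ := NU.exists_cl hd.1
      refine ⟨r '' X, hXc.image _, ?_, fun _ ξ hξ => ?_⟩
      · rintro _ ⟨x, hx, rfl⟩
        exact (hX hx).2
      · by_contra hcon
        push Not at hcon
        refine hd' ξ hξ ⟨d.1, le_rfl, d.2, NU.mono (fun y hy => ?_) hXd, hd.2.1, hd.2.2⟩
        obtain ⟨x, hx, h⟩ := mem_biUnion_cl.1 hy
        exact mem_biUnion_cl.2 ⟨x, ⟨(hX hx).1, hcon _ ⟨x, hx, rfl⟩⟩, h⟩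
    · exact ⟨∅, Set.countable_empty, fun c hc => absurd hc (Set.notMem_empty _),
        fun h => absurd h hζ⟩
  choose D hD1 hD2 hD3 using hD
  have hNb : ∀ (τ : Nm A) (c : K), ∃ Nb ⊆ NU A (Uz c), Nb.Countable ∧ (τ ∈ NU A U →
      ∀ υ ∈ NU A (Uz c), ∀ p : Cond A, p ∈ IsFun τ → p ∈ IsFun υ →
      (p ∈ RTN TN τ υ ∨ p ∈ RTN TN υ τ) → ¬ Near (Uz c) τ p →
        ∃ q ≤ p, ∃ υ' ∈ Nb, q ∈ IsFun υ' ∧ q ∈ SameReal υ υ') := by
    intro τ c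
    by_cases hτ : τ ∈ NU A U
    · obtain ⟨Z, hZ, hZc, hτZ⟩ := NU.exists_supp hτ
      obtain ⟨Nb, h1, h2, h3⟩ := hcap (Uz c) (hGood c) Z hZc (hZ.trans hGoodU.sub) τ hτZ
      exact ⟨Nb, h1, h2, fun _ => h3⟩
    · exact ⟨∅, Set.empty_subset _, Set.countable_empty, fun h => absurd h hτ⟩
  choose Nb hNb1 hNb2 hNb3 using hNb
  let F : Nm A → Set (Nm A) := fun τ => ⋃ ζ ∈ Rk τ,
    ((⋃ d ∈ C τ ζ, Φ ζ d.2) ∪ ⋃ c ∈ D τ ζ, Nb τ c)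
  have hF1 : ∀ τ, (F τ).Countable := fun τ => (hRk τ).biUnion fun ζ _ =>
    Set.Countable.union ((hC2 τ ζ).biUnion fun d _ => (hΦ1 ζ d.2).1)
      ((hD1 τ ζ).biUnion fun c _ => hNb2 τ c)
  have hF2 : ∀ τ, F τ ⊆ NU A U := by
    intro τ υ hυ
    simp only [F, Set.mem_iUnion, Set.mem_union] at hυ
    obtain ⟨ζ, -, ⟨d, -, h⟩ | ⟨c, -, h⟩⟩ := hυ
    · exact NU.mono (hUzU ζ) ((hΦ1 ζ d.2).2 h)
    · exact NU.mono (hUzU c) (hNb1 τ c h)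
  -- the rank below a condition
  have P1 : ∀ τ ∈ NU A U, ∀ p, p ∈ IsFun τ → ∃ ζ, ∃ q ≤ p, ∃ υ ∈ NU A (Uz ζ), q ∈ IsFun υ ∧
      q ∈ SameReal τ υ ∧ (∀ ξ < ζ, ¬ Near (Uz ξ) τ q) ∧ Φ ζ υ ⊆ F τ := by
    intro τ hτ p hp
    have hne : {ζ | Near (Uz ζ) τ p}.Nonempty := by
      obtain ⟨X, hX, hXc, hXd⟩ := NU.exists_cl hτ
      obtain ⟨b, hb⟩ := hK (r '' X) (hXc.image _)
      refine ⟨b, p, le_rfl, τ, NU.mono (fun y hy => ?_) hXd, hp, C6.sameReal_self hp⟩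
      obtain ⟨x, hx, h⟩ := mem_biUnion_cl.1 hy
      exact mem_biUnion_cl.2 ⟨x, ⟨hX hx, hb _ ⟨x, hx, rfl⟩⟩, h⟩
    let ζ := wellFounded_lt.min _ hne
    have hζ : Near (Uz ζ) τ p := wellFounded_lt.min_mem _ hne
    have hζ' : ∀ ξ < ζ, ¬ Near (Uz ξ) τ p := fun ξ hξ h =>
      wellFounded_lt.not_lt_min {ζ | Near (Uz ζ) τ p} h hξ
    obtain ⟨q, hq, υ, hυ, h1, h2⟩ := hζ
    have hfar : ∀ ξ < ζ, ¬ Near (Uz ξ) τ q := fun ξ hξ h => hζ' ξ hξ (h.mono hq)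
    obtain ⟨a, ha, s, hs1, hs2⟩ := hC3 τ ζ (q, υ) ⟨hυ, h1, h2⟩
    have haE := hC1 τ ζ ha
    refine ⟨ζ, s, hs1.trans hq, a.2, haE.1, down_IsFun _ _ haE.2.1 _ hs2,
      down_SameReal _ _ _ haE.2.2 _ hs2, fun ξ hξ h => hfar ξ hξ (h.mono hs1), ?_⟩
    intro x hx
    simp only [F, Set.mem_iUnion, Set.mem_union]
    exact ⟨ζ, ⟨(q, υ), ⟨hυ, h1, h2⟩, hfar⟩, Or.inl ⟨a, ha, hx⟩⟩
  have P2 : ∀ τ ∈ NU A U, ∀ ζ q, q ∈ IsFun τ → (∃ υ ∈ NU A (Uz ζ), q ∈ IsFun υ ∧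
      q ∈ SameReal τ υ) → (∀ ξ < ζ, ¬ Near (Uz ξ) τ q) → ∀ ξ < ζ, ∀ υ ∈ NU A (Uz ξ),
      q ∈ IsFun υ → (q ∈ RTN TN τ υ ∨ q ∈ RTN TN υ τ) →
        ∃ q' ≤ q, ∃ υ' ∈ F τ, q' ∈ IsFun υ' ∧ q' ∈ SameReal υ υ' := by
    rintro τ hτ ζ q hqτ ⟨υ0, h0, h0', h0''⟩ hfar ξ hξ υ hυ hqυ hR
    have hζ : ζ ∈ Rk τ := ⟨(q, υ0), ⟨h0, h0', h0''⟩, hfar⟩
    obtain ⟨c, hc, hξc⟩ := hD3 τ ζ hζ ξ hξ
    obtain ⟨q', hq', υ', hυ', h⟩ := hNb3 τ c hτ υ (NU.mono (hmono ξ c hξc) hυ) q hqτ hqυ hR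
      (hfar c (hD2 τ ζ c hc))
    refine ⟨q', hq', υ', ?_, h⟩
    simp only [F, Set.mem_iUnion, Set.mem_union]
    exact ⟨ζ, hζ, Or.inr ⟨c, hc, hυ'⟩⟩
  refine ⟨F, fun τ => ⟨hF1 τ, hF2 τ⟩, fun τ1 hτ1 τ2 hτ2 p hp1 hp2 hR => ?_⟩
  obtain ⟨ζ1, q1, hq1, υ1, hυ1, h11, h12, h13, h14⟩ := P1 τ1 hτ1 p hp1
  obtain ⟨ζ2, q, hq2, υ2, hυ2, h21, h22, h23, h24⟩ := P1 τ2 hτ2 q1 (down_IsFun _ _ hp2 _ hq1)
  have hqp : q ≤ p := hq2.trans hq1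
  have f1 := down_IsFun _ _ hp1 _ hqp
  have f2 := down_IsFun _ _ hp2 _ hqp
  have g1 := down_IsFun _ _ h11 _ hq2
  have e1 := down_SameReal _ _ _ h12 _ hq2
  have hRq : q ∈ RTN TN τ1 τ2 := C6.down_RTN _ _ _ _ hR _ hqp
  rcases lt_trichotomy ζ1 ζ2 with h | h | h
  · right
    obtain ⟨q', hq', υ', hυ', h1, h2⟩ := P2 τ2 hτ2 ζ2 q f2 ⟨υ2, hυ2, h21, h22⟩ h23 ζ1 h υ1 hυ1 g1
      (Or.inr (C6.rtn_of_sameReal f1 f2 e1 (C6.sameReal_self f2) hRq))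
    exact ⟨q', hq'.trans hqp, υ', hυ', h1, C6.sameReal_trans (down_IsFun _ _ g1 _ hq')
      (down_SameReal _ _ _ e1 _ hq') h2⟩
  · subst h
    have hR' := C6.rtn_of_sameReal f1 f2 e1 h22 hRq
    rcases hΦ2 ζ1 υ1 hυ1 υ2 hυ2 q g1 h21 hR' with ⟨q', hq', υ', hυ', h1, h2⟩ |
      ⟨q', hq', υ', hυ', h1, h2⟩
    · exact Or.inl ⟨q', hq'.trans hqp, υ', h14 hυ', h1,
        C6.sameReal_trans (down_IsFun _ _ h21 _ hq') (down_SameReal _ _ _ h22 _ hq') h2⟩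
    · exact Or.inr ⟨q', hq'.trans hqp, υ', h24 hυ', h1,
        C6.sameReal_trans (down_IsFun _ _ g1 _ hq') (down_SameReal _ _ _ e1 _ hq') h2⟩
  · left
    obtain ⟨q', hq', υ', hυ', h1, h2⟩ := P2 τ1 hτ1 ζ1 q f1 ⟨υ1, hυ1, g1, e1⟩
      (fun ξ hξ hn => h13 ξ hξ (hn.mono hq2)) ζ2 h υ2 hυ2 h21
      (Or.inl (C6.rtn_of_sameReal f1 f2 (C6.sameReal_self f1) h22 hRq))
    exact ⟨q', hq'.trans hqp, υ', hυ', h1, C6.sameReal_trans (down_IsFun _ _ h21 _ hq')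
      (down_SameReal _ _ _ h22 _ hq') h2⟩

/-- the induction -/
theorem cap_union {B : Set L} (hA : AD A) (hcap : Captures A B)
    (hCH : #(ℕ → ℕ) ≤ (ℵ₁ : Cardinal.{0})) (cl : L → Set L)
    (hcl1 : ∀ x, #(cl x) ≤ (ℵ₁ : Cardinal.{0})) (hcl3 : ∀ S ⊆ B, Good A B (⋃ x ∈ S, cl x)) :
    ∀ n : ℕ, ∀ S ⊆ B, #S ≤ (ℵ_ (n : ℕ) : Cardinal.{0}) → Cap A (⋃ x ∈ S, cl x) := by
  classical
  have hbase : ∀ S : Set L, #S ≤ (ℵ₁ : Cardinal.{0}) → Cap A (⋃ x ∈ S, cl x) := by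
    intro S h
    refine cap_base hCH ?_
    rw [Set.biUnion_eq_iUnion]
    refine (mk_iUnion_le _).trans ?_
    have h2 : (⨆ i : S, #(cl i.1)) ≤ (ℵ₁ : Cardinal.{0}) := ciSup_le' fun i => hcl1 i.1
    refine (mul_le_mul' h h2).trans ?_
    rw [mul_eq_self (Cardinal.aleph0_le_aleph 1)]
  intro n
  induction n with
  | zero =>
    intro S _ h
    refine hbase S (h.trans ?_)
    rw [Cardinal.aleph_le_aleph]
    simp
  | succ n ih =>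
    intro S hS h
    by_cases hn : n = 0
    · subst hn
      refine hbase S (h.trans ?_)
      rw [Cardinal.aleph_le_aleph]
      simp
    · have hcard : (ℵ_ ((n + 1 : ℕ) : Ordinal.{0}) : Cardinal.{0}) =
          Order.succ (ℵ_ (n : Ordinal.{0})) := by
        rw [Cardinal.succ_aleph, Nat.cast_succ]
      let K := (ℵ_ ((n + 1 : ℕ) : Ordinal.{0}) : Cardinal.{0}).ord.ToType
      have hK : #K = ℵ_ ((n + 1 : ℕ) : Ordinal.{0}) := by simp [K]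
      have hreg : (ℵ_ ((n + 1 : ℕ) : Ordinal.{0}) : Cardinal.{0}).IsRegular := by
        rw [Nat.cast_succ]
        exact Cardinal.isRegular_aleph_add_one _
      have hKne : Nonempty K := by
        rw [← Cardinal.mk_ne_zero_iff, hK]
        exact (Cardinal.aleph_pos _).ne'
      rw [← hK, Cardinal.le_def] at h
      obtain ⟨g⟩ := h
      let r : L → K := Function.extend Subtype.val g fun _ => Classical.choice hKne
      have hr : ∀ x : S, r x.1 = g x := fun x => Subtype.val_injective.extend_apply _ _ _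
      refine cap_step hA hcap hcl3 hS r (fun X hX => ?_) fun ζ => ?_
      · by_contra hcon
        push Not at hcon
        have h2 : IsCofinal X := fun x => by
          obtain ⟨y, hy, h⟩ := hcon x
          exact ⟨y, hy, h⟩
        have h3 := Order.cof_le h2
        rw [Ordinal.cof_toType, hreg.cof_ord] at h3
        have h4 : (ℵ_ ((n + 1 : ℕ) : Ordinal.{0}) : Cardinal.{0}) ≤ ℵ₀ := h3.trans hX.le_aleph0
        rw [← Cardinal.aleph_zero, Cardinal.aleph_le_aleph] at h4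
        simp at h4
      · refine ih _ (fun x hx => hS hx.1) ?_
        have h1 : #{x | x ∈ S ∧ r x < ζ} ≤ #(Set.Iio ζ) := by
          refine Cardinal.mk_le_of_injective
            (f := fun x : {x | x ∈ S ∧ r x < ζ} => (⟨r x.1, x.2.2⟩ : Set.Iio ζ)) ?_
          intro x y hxy
          have h2 : r x.1 = r y.1 := congrArg Subtype.val hxy
          rw [hr ⟨x.1, x.2.1⟩, hr ⟨y.1, y.2.1⟩] at h2
          have h3 := g.injective h2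
          exact Subtype.ext (Subtype.mk.inj h3)
        refine h1.trans ?_
        rw [← Order.lt_succ_iff, ← hcard]
        exact card_Iio_lt' ζ

/-- C5. -/
theorem exists_cap : C5 (L := L) := by
  intro A B hA hcap hCH cl hcl1 hcl2 hcl3 n S hS hn
  exact ⟨_, fun x hx => mem_biUnion_cl.2 ⟨x, hx, hcl2 x (hS hx)⟩,
    cap_union hA hcap hCH cl hcl1 hcl3 n S hS hn⟩

end

end Pool.Agent.H409_AG.Gr
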