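import Pool.Agent.H409_AG.StmtsC
import Pool.Agent.H409_AG.C6a

/-!
# Part C, piece C6: from a ground model orientation of names to the orientation in the extension
-/

set_option autoImplicit false

namespace Pool.Agent.H409_AG.Gr

open Cardinal Pool.Agent.H409_AG.Ccc Pool.Agent.H409_AG Pool.Agent.Helper669.Forcing

section

variable {L : Type}

/-- each name for a real is equal to a countable name with countable support -/
theorem exists_small_name {A : L → L → Prop} (hA : AD A) {z : Nm A} {p : Cond A}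
    (hp : p ∈ IsFun z) : ∃ S : Set L, S.Countable ∧ ∃ τ ∈ NU A S, p ∈ IsFun τ ∧
      p ∈ SameReal z τ := by
  choose C hC hCc hCm using fun k : ℕ =>
    (ccc hA).exists_max {d : Cond A × ℕ | d.1 ≤ p ∧ d.1 ∈ meets (z k d.2)}
  let τ : Nm A := fun k a => {w | ∃ d ∈ C k, d.2 = a ∧ w = d.1}
  let S : Set L := ⋃ k : ℕ, ⋃ d ∈ C k, supp d.1
  refine ⟨S, Set.countable_iUnion fun k => (hCc k).biUnion fun d _ =>
    (supp_finite d.1).countable, τ, ?_, ⟨?_, ?_⟩, ?_⟩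
  · intro k a
    refine ⟨((hCc k).image fun d => d.1).mono ?_, ?_⟩
    · rintro w ⟨d, hd, -, rfl⟩
      exact ⟨d, hd, rfl⟩
    · rintro w ⟨d, hd, -, rfl⟩
      rw [on_iff]
      intro x hx
      exact Set.mem_iUnion.2 ⟨k, Set.mem_biUnion hd hx⟩
  · intro k
    refine mem_fex.2 fun r hr => ?_
    obtain ⟨r', hr', a, ha⟩ := IsFun.total (down_IsFun _ _ hp _ hr) k
    obtain ⟨d, hd, s, hs1, hs2⟩ := hCm k (r', a) ⟨hr'.trans hr, ha⟩
    exact ⟨s, hs1.trans hr', d.2, meets_of_le ⟨d, hd, rfl, rfl⟩ hs2⟩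
  · intro k a b
    refine mem_fimp.2 fun r hr hrab => ⟨r, le_rfl, ?_⟩
    obtain ⟨s, hs, _, ⟨d, hd, rfl, rfl⟩, h1⟩ := hrab.1 r le_rfl
    obtain ⟨s', hs', _, ⟨d', hd', rfl, rfl⟩, h2⟩ := hrab.2 s hs
    exact IsFun.unique (down_IsFun _ _ hp _ ((hs'.trans hs).trans hr))
      (down_meets _ _ (hC k hd).2 _ (hs'.trans h1)) (down_meets _ _ (hC k hd').2 _ h2)
  · intro k a b
    refine mem_fimp.2 fun r hr hrab => ⟨r, le_rfl, ?_⟩
    obtain ⟨s, hs, _, ⟨d, hd, rfl, rfl⟩, h1⟩ := hrab.2 r le_rfl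
    exact IsFun.unique (down_IsFun _ _ hp _ (hs.trans hr)) (down_meets _ _ hrab.1 _ hs)
      (down_meets _ _ (hC k hd).2 _ h1)

/-- C6. -/
theorem orientN_of_cap : C6 (L := L) := by
  intro A hA I _ hU z p hz
  choose S hS τ hτ hτf hτz using fun i => exists_small_name hA (hz i)
  obtain ⟨U, hSU, Φ, hΦ, hcap⟩ := hU (⋃ i, S i) (by
    refine (mk_iUnion_le _).trans ?_
    have h2 : (⨆ i, #(S i)) ≤ ℵ₀ := ciSup_le' fun i => (hS i).le_aleph0
    refine (mul_le_mul' (le_max_right ℵ₀ #I) (h2.trans (le_max_left ℵ₀ #I))).trans ?_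
    rw [mul_eq_self (le_max_left _ _)])
  have hτU : ∀ i, τ i ∈ NU A U := fun i =>
    NU.mono ((Set.subset_iUnion S i).trans hSU) (hτ i)
  -- enumerate
  have hen : ∀ i, ∃ f : ℕ → Nm A, Φ (τ i) ⊆ Set.range f := by
    intro i
    obtain ⟨f, hf⟩ := ((hΦ (τ i)).1.union (Set.countable_singleton (τ i))).exists_eq_range
      ⟨_, Or.inr rfl⟩
    exact ⟨f, by rw [← hf]; exact Set.subset_union_left⟩
  choose f hf using hen
  refine C6.orientN_of (fun i m => f i m) fun q hq i j hR => ?_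
  have hR' : q ∈ RTN TN (τ i) (τ j) :=
    C6.rtn_of_sameReal (down_IsFun _ _ (hz i) _ hq) (down_IsFun _ _ (hz j) _ hq)
      (down_SameReal _ _ _ (hτz i) _ hq) (down_SameReal _ _ _ (hτz j) _ hq) hR
  have hfi := down_IsFun _ _ (hτf i) _ hq
  have hfj := down_IsFun _ _ (hτf j) _ hq
  rcases hcap (τ i) (hτU i) (τ j) (hτU j) q hfi hfj hR' with h | h
  · obtain ⟨r, hr, υ, hυ, h1, h2⟩ := h
    obtain ⟨m, hm⟩ := hf i hυ
    refine ⟨r, hr, Or.inl ⟨m, by simp only [hm]; exact h1, ?_⟩⟩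
    simp only [hm]
    exact C6.sameReal_symm (C6.sameReal_trans (down_IsFun _ _ hfj _ hr)
      (down_SameReal _ _ _ (hτz j) _ (hr.trans hq)) h2)
  · obtain ⟨r, hr, υ, hυ, h1, h2⟩ := h
    obtain ⟨m, hm⟩ := hf j hυ
    refine ⟨r, hr, Or.inr ⟨m, by simp only [hm]; exact h1, ?_⟩⟩
    simp only [hm]
    exact C6.sameReal_symm (C6.sameReal_trans (down_IsFun _ _ hfi _ hr)
      (down_SameReal _ _ _ (hτz i) _ (hr.trans hq)) h2)

end

end Pool.Agent.H409_AG.Gr
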