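import Pool.Agent.H409_AG.Defs
import Pool.Agent.W352.CHF

/-!
# Part A: the continuum hypothesis can be forced
-/

set_option autoImplicit false

namespace Pool.Agent.H409_AG

open Cardinal Pool.Agent.Helper669.Forcing

/-- `ContinuumLe` only gets weaker along a map onto `Y`. -/
theorem continuumLe_of_surj {P : Type} [Preorder P] {Y Z : Type} (f : Z → Y)
    (hf : Function.Surjective f) {p : P} (h : p ∈ ContinuumLe P Y) : p ∈ ContinuumLe P Z := by
  refine mem_fex.2 fun q hq => ?_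
  obtain ⟨r, hr, E, hE, hE'⟩ := mem_fex.1 h q hq
  refine ⟨r, hr, fun z => E (f z), fun z => hE (f z), fun x => mem_fimp.2 fun s hs hx => ?_⟩
  obtain ⟨t, ht, h1⟩ := mem_fimp.1 (hE' x) s hs hx
  refine ⟨t, ht, mem_fex.2 fun u hu => ?_⟩
  obtain ⟨v, hv, y, hy⟩ := mem_fex.1 h1 u hu
  obtain ⟨z, rfl⟩ := hf y
  exact ⟨v, hv, z, hy⟩

/-- The continuum hypothesis can be forced. -/
theorem ch_forced : ∃ (Q : Type) (_ : Preorder Q), Nonempty Q ∧ ∀ q : Q,
    q ∈ ContinuumLe Q (ℵ₁ : Cardinal.{0}).out := by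
  obtain ⟨Q, hQ, hne, h⟩ := Pool.Agent.W352.CHF.exists_forcing
  refine ⟨Q, hQ, hne, fun q => ?_⟩
  have hcard : #(ℵ₁ : Cardinal.{0}).out = #Pool.Agent.W684.FM.Om1 := by
    rw [Cardinal.mk_out, Cardinal.mk_ord_toType]
  obtain ⟨e⟩ := Cardinal.eq.1 hcard
  exact continuumLe_of_surj e e.surjective (h q).2

end Pool.Agent.H409_AG
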