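import Pool.Agent.H409_AG.Stmts

/-!
# Part B: forcing a ladder system

Conditions are initial parts of ladder systems. The forcing notion adds no new functions from
`ℵ_ω` to the ground model, and the generic ladder system is a ladder system on a stationary set.
-/

set_option autoImplicit false

namespace Pool.Agent.H409_AG.PartB

open Cardinal Pool.Agent.Helper669.Forcing Pool.Agent.H409_AG

section
variable {Z : Type} [LinearOrder Z]

/-- conditions: initial parts of ladder systems -/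
structure Cond (Z : Type) [LinearOrder Z] where
  top : Z
  A : Z → Set Z
  lt : ∀ δ, ∀ γ ∈ A δ, γ < δ
  le_top : ∀ δ, ∀ γ ∈ A δ, δ ≤ top
  card : ∀ δ, #(A δ) ≤ ℵ₁
  count : ∀ δ, ∀ γ < δ, {ξ | ξ ∈ A δ ∧ ξ ≤ γ}.Countable
  free : ∃ g : Z → Set Z, (∀ δ, (g δ).Countable) ∧
    ∀ δ δ', δ < δ' → ∀ γ, γ ∈ A δ → γ ∈ A δ' → γ ∈ g δ ∨ γ ∈ g δ'

instance : Preorder (Cond Z) where
  le q p := p.top ≤ q.top ∧ ∀ δ ≤ p.top, q.A δ = p.A δ
  le_refl p := ⟨le_rfl, fun _ _ => rfl⟩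
  le_trans a b c h1 h2 := ⟨h2.1.trans h1.1, fun δ hδ => (h1.2 δ (hδ.trans h2.1)).trans
    (h2.2 δ hδ)⟩

/-- raising the top -/
def Cond.up (p : Cond Z) (z : Z) (hz : p.top < z) : Cond Z where
  top := z
  A := p.A
  lt := p.lt
  le_top δ γ h := (p.le_top δ γ h).trans hz.le
  card := p.card
  count := p.count
  free := p.free

theorem Cond.up_le (p : Cond Z) (z : Z) (hz : p.top < z) : p.up z hz ≤ p :=
  ⟨hz.le, fun _ _ => rfl⟩

theorem Cond.exists_top_ge (p : Cond Z) (z : Z) : ∃ q ≤ p, z ≤ q.top := by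
  rcases le_or_gt z p.top with h | h
  · exact ⟨p, le_rfl, h⟩
  · exact ⟨p.up z h, p.up_le z h, le_rfl⟩

/-- conditions with a closed set of marks, at which nothing is put -/
structure PS (Z : Type) [LinearOrder Z] where
  p : Cond Z
  c : Set Z
  top_mem : p.top ∈ c
  c_le : ∀ γ ∈ c, γ ≤ p.top
  closed : ∀ α ≤ p.top, (∃ δ, δ < α) → (∀ δ < α, ∃ γ, δ < γ ∧ γ < α ∧ γ ∈ c) → α ∈ c
  disj : ∀ γ ∈ c, p.A γ = ∅

instance : Preorder (PS Z) where
  le r q := r.p ≤ q.p ∧ ∀ α ≤ q.p.top, (α ∈ r.c ↔ α ∈ q.c)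
  le_refl p := ⟨le_rfl, fun _ _ => Iff.rfl⟩
  le_trans a b c h1 h2 := ⟨h1.1.trans h2.1, fun α hα => (h1.2 α (hα.trans h2.1.1)).trans
    (h2.2 α hα)⟩

/-- freeness is checked on the blocks given by a closed set `c` -/
theorem free_of_blocks [WellFoundedLT Z] {A : Z → Set Z} {c : Set Z}
    (h1 : ∀ δ, ∀ γ ∈ A δ, γ < δ) (h2 : ∀ δ, (A δ).Nonempty → δ ∉ c)
    (h3 : ∀ δ, (A δ).Nonempty → ∃ δ' < δ, ∀ γ, δ' < γ → γ < δ → γ ∉ c)
    (h4 : ∀ δ, ∀ γ < δ, {ξ | ξ ∈ A δ ∧ ξ ≤ γ}.Countable)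
    (h5 : ∀ δ, (A δ).Nonempty → ∃ β ∈ c, δ < β)
    (h6 : ∀ β ∈ c, ∃ g : Z → Set Z, (∀ δ, (g δ).Countable) ∧
      ∀ δ δ', δ < δ' → δ' < β → ∀ γ, γ ∈ A δ → γ ∈ A δ' → γ ∈ g δ ∨ γ ∈ g δ') :
    ∃ g : Z → Set Z, (∀ δ, (g δ).Countable) ∧
      (∀ δ δ', δ < δ' → ∀ γ, γ ∈ A δ → γ ∈ A δ' → γ ∈ g δ ∨ γ ∈ g δ') ∧
      ∀ δ, ∀ γ ∈ A δ, γ ∈ c → γ ∈ g δ := by
  classical
  choose! G hG1 hG2 using h6
  let b : Z → Z := fun δ => if h : (A δ).Nonempty then
    wellFounded_lt.min {β | β ∈ c ∧ δ < β} (h5 δ h) else δ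
  have hb : ∀ δ, (A δ).Nonempty → b δ ∈ c ∧ δ < b δ ∧ ∀ β ∈ c, δ < β → b δ ≤ β := by
    intro δ h
    have hbδ : b δ = wellFounded_lt.min {β | β ∈ c ∧ δ < β} (h5 δ h) := dif_pos h
    have h7 := wellFounded_lt.min_mem {β | β ∈ c ∧ δ < β} (h5 δ h)
    rw [← hbδ] at h7
    refine ⟨h7.1, h7.2, fun β h8 h9 => ?_⟩
    rw [hbδ]
    exact not_lt.1 (wellFounded_lt.not_lt_min {β | β ∈ c ∧ δ < β}
      (show β ∈ {β | β ∈ c ∧ δ < β} from ⟨h8, h9⟩))
  refine ⟨fun δ => {γ | (A δ).Nonempty ∧ γ ∈ G (b δ) δ} ∪ {γ | γ ∈ A δ ∧ ∃ β ∈ c, β < δ ∧ γ ≤ β},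
    fun δ => ?_, fun δ δ' hlt γ hγ hγ' => ?_, fun δ γ hγ hγc => ?_⟩
  · by_cases hne : (A δ).Nonempty
    · refine Set.Countable.union ((hG1 _ (hb δ hne).1 δ).mono fun γ h => h.2) ?_
      obtain ⟨δ', h7, h8⟩ := h3 δ hne
      refine (h4 δ δ' h7).mono ?_
      rintro γ ⟨h9, β, h10, h11, h12⟩
      refine ⟨h9, h12.trans ?_⟩
      by_contra hcon
      exact h8 β (not_le.1 hcon) h11 h10
    · refine Set.Countable.mono (s₂ := ∅) ?_ Set.countable_empty
      rintro γ (h | h)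
      · exact hne h.1
      · exact hne ⟨γ, h.1⟩
  · by_contra hcon
    rw [not_or] at hcon
    obtain ⟨hc1, hc2⟩ := hcon
    simp only [Set.mem_union, Set.mem_ofPred_eq, not_or, not_and, not_exists] at hc1 hc2
    have hne : (A δ).Nonempty := ⟨γ, hγ⟩
    have hne' : (A δ').Nonempty := ⟨γ, hγ'⟩
    obtain ⟨b1, b2, b3⟩ := hb δ hne
    obtain ⟨b1', b2', b3'⟩ := hb δ' hne'
    have hlt' : δ' < b δ := by
      by_contra hcon
      rcases (not_lt.1 hcon).lt_or_eq with h | h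
      · exact hc2.2 hγ' (b δ) b1 h ((h1 δ γ hγ).trans b2).le
      · exact h2 δ' hne' (h ▸ b1)
    have heq : b δ = b δ' := le_antisymm (b3 _ b1' (hlt.trans b2')) (b3' _ b1 hlt')
    rcases hG2 (b δ) b1 δ δ' hlt hlt' γ hγ hγ' with h | h
    · exact hc1.1 hne h
    · exact hc2.1 hne' (heq ▸ h)
  · exact Or.inr ⟨hγ, γ, hγc, h1 δ γ hγ, le_rfl⟩

theorem PS.not_mem (r : PS Z) {δ : Z} (h : (r.p.A δ).Nonempty) : δ ∉ r.c := fun hc =>
  Set.not_nonempty_empty (r.disj δ hc ▸ h)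

theorem PS.gap (r : PS Z) {δ : Z} (h : (r.p.A δ).Nonempty) :
    ∃ δ' < δ, ∀ γ, δ' < γ → γ < δ → γ ∉ r.c := by
  obtain ⟨γ, hγ⟩ := h
  by_contra hcon
  push Not at hcon
  refine r.not_mem ⟨γ, hγ⟩ (r.closed δ (r.p.le_top δ γ hγ) ⟨γ, r.p.lt δ γ hγ⟩ fun δ' hδ' => ?_)
  obtain ⟨ξ, h1, h2, h3⟩ := hcon δ' hδ'
  exact ⟨ξ, h1, h2, h3⟩

theorem PS.lt_top (r : PS Z) {δ : Z} (h : (r.p.A δ).Nonempty) : δ < r.p.top := by
  obtain ⟨γ, hγ⟩ := h
  refine lt_of_le_of_ne (r.p.le_top δ γ hγ) ?_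
  rintro rfl
  exact r.not_mem ⟨γ, hγ⟩ r.top_mem

/-- the removed sets can be taken such that the rest avoids the marks -/
theorem PS.free [WellFoundedLT Z] (r : PS Z) : ∃ g : Z → Set Z, (∀ δ, (g δ).Countable) ∧
    (∀ δ δ', δ < δ' → ∀ γ, γ ∈ r.p.A δ → γ ∈ r.p.A δ' → γ ∈ g δ ∨ γ ∈ g δ') ∧
      ∀ δ, ∀ γ ∈ r.p.A δ, γ ∈ r.c → γ ∈ g δ := by
  refine free_of_blocks r.p.lt (fun δ h => r.not_mem h) (fun δ h => r.gap h) r.p.count
    (fun δ h => ⟨_, r.top_mem, r.lt_top h⟩) fun β _ => ?_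
  obtain ⟨g, hg1, hg2⟩ := r.p.free
  exact ⟨g, hg1, fun δ δ' h _ => hg2 δ δ' h⟩

/-- lower bounds of chains -/
theorem PS.glb [WellFoundedLT Z] {J : Type} [LinearOrder J] [Nonempty J] (q : J → PS Z)
    (hq : ∀ i j, i ≤ j → q j ≤ q i) (hb : ∃ b, ∀ j, (q j).p.top ≤ b) :
    ∃ r, (∀ j, r ≤ q j) ∧ ∀ x < r.p.top, ∃ j, x < (q j).p.top := by
  classical
  let δ := wellFounded_lt.min {b : Z | ∀ j, (q j).p.top ≤ b} hb
  have hδ : ∀ j, (q j).p.top ≤ δ := wellFounded_lt.min_mem {b : Z | ∀ j, (q j).p.top ≤ b} hb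
  have hδ' : ∀ x < δ, ∃ j, x < (q j).p.top := by
    intro x hx
    by_contra hcon
    push Not at hcon
    exact wellFounded_lt.not_lt_min {b : Z | ∀ j, (q j).p.top ≤ b}
      (show x ∈ {b : Z | ∀ j, (q j).p.top ≤ b} from hcon) hx
  let A : Z → Set Z := fun α => {γ | ∃ j, γ ∈ (q j).p.A α}
  let c' : Set Z := {α | ∃ j, α ∈ (q j).c}
  have hA : ∀ j, ∀ α ≤ (q j).p.top, A α = (q j).p.A α := by
    intro j α hα
    ext γ
    constructor
    · rintro ⟨i, hi⟩
      rcases le_total i j with h | h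
      · rw [(hq i j h).1.2 α ((q i).p.le_top α γ hi)]
        exact hi
      · rw [← (hq j i h).1.2 α hα]
        exact hi
    · intro h
      exact ⟨j, h⟩
  have hA' : ∀ α, (A α).Nonempty → ∃ j, α ≤ (q j).p.top := by
    rintro α ⟨γ, j, hj⟩
    exact ⟨j, (q j).p.le_top α γ hj⟩
  have hc : ∀ j, ∀ α ≤ (q j).p.top, (α ∈ c' ↔ α ∈ (q j).c) := by
    intro j α hα
    constructor
    · rintro ⟨i, hi⟩
      rcases le_total i j with h | h
      · exact ((hq i j h).2 α ((q i).c_le α hi)).2 hi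
      · exact ((hq j i h).2 α hα).1 hi
    · intro h
      exact ⟨j, h⟩
  have hcl : ∀ α < δ, (∃ δ, δ < α) → (∀ δ < α, ∃ γ, δ < γ ∧ γ < α ∧ γ ∈ c') → α ∈ c' := by
    intro α hα h1 h2
    obtain ⟨j, hj⟩ := hδ' α hα
    refine (hc j α hj.le).2 ((q j).closed α hj.le h1 fun δ hδ => ?_)
    obtain ⟨γ, h3, h4, h5⟩ := h2 δ hδ
    exact ⟨γ, h3, h4, (hc j γ (h4.le.trans hj.le)).1 h5⟩
  have hdisj : ∀ γ ∈ c', A γ = ∅ := by
    rintro γ ⟨j, hj⟩
    rw [hA j γ ((q j).c_le γ hj)]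
    exact (q j).disj γ hj
  have hcle : ∀ γ ∈ c', γ ≤ δ := by
    rintro γ ⟨j, hj⟩
    exact ((q j).c_le γ hj).trans (hδ j)
  have hlt : ∀ α, ∀ γ ∈ A α, γ < α := by
    rintro α γ ⟨j, hj⟩
    exact (q j).p.lt α γ hj
  have hne : ∀ α, (A α).Nonempty → α ∉ c' := fun α h h' => Set.not_nonempty_empty
    (hdisj α h' ▸ h)
  have hδA : A δ = ∅ := by
    rw [← Set.not_nonempty_iff_eq_empty]
    intro h
    obtain ⟨j, hj⟩ := hA' δ h
    have h2 : (q j).p.top = δ := le_antisymm (hδ j) hj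
    exact hne δ h ⟨j, by rw [← h2]; exact (q j).top_mem⟩
  have hcount : ∀ α, ∀ γ < α, {ξ | ξ ∈ A α ∧ ξ ≤ γ}.Countable := by
    intro α γ hγ
    by_cases hn : (A α).Nonempty
    · obtain ⟨j, hj⟩ := hA' α hn
      rw [hA j α hj]
      exact (q j).p.count α γ hγ
    · refine Set.Countable.mono (s₂ := ∅) ?_ Set.countable_empty
      rintro ξ ⟨h, -⟩
      exact hn ⟨ξ, h⟩
  let r : PS Z :=
    { p :=
        { top := δ
          A := A
          lt := hlt
          le_top := by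
            rintro α γ ⟨j, hj⟩
            exact ((q j).p.le_top α γ hj).trans (hδ j)
          card := by
            intro α
            by_cases hn : (A α).Nonempty
            · obtain ⟨j, hj⟩ := hA' α hn
              rw [hA j α hj]
              exact (q j).p.card α
            · rw [Set.not_nonempty_iff_eq_empty.1 hn]
              simp
          count := hcount
          free := by
            obtain ⟨g, hg1, hg2, -⟩ := free_of_blocks (A := A) (c := c') hlt hne (by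
              intro α hn
              obtain ⟨j, hj⟩ := hA' α hn
              obtain ⟨δ', h1, h2⟩ := (q j).gap (hA j α hj ▸ hn)
              refine ⟨δ', h1, fun γ h3 h4 h5 => h2 γ h3 h4 ?_⟩
              exact (hc j γ (h4.le.trans hj)).1 h5) hcount (by
              intro α hn
              obtain ⟨j, hj⟩ := hA' α hn
              exact ⟨_, ⟨j, (q j).top_mem⟩, (q j).lt_top (hA j α hj ▸ hn)⟩) (by
              rintro β ⟨j, hj⟩
              obtain ⟨g, hg1, hg2⟩ := (q j).p.free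
              refine ⟨g, hg1, fun α α' h h' γ hγ hγ' => hg2 α α' h γ ?_ ?_⟩
              · rw [← hA j α ((h.trans h').le.trans ((q j).c_le β hj))]
                exact hγ
              · rw [← hA j α' (h'.le.trans ((q j).c_le β hj))]
                exact hγ')
            exact ⟨g, hg1, hg2⟩ }
      c := {α | α ∈ c' ∨ α = δ}
      top_mem := Or.inr rfl
      c_le := by
        rintro γ (h | h)
        · exact hcle γ h
        · exact h.le
      closed := by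
        intro α hα h1 h2
        rcases hα.lt_or_eq with h | h
        · left
          refine hcl α h h1 fun x hx => ?_
          obtain ⟨γ, h3, h4, h5 | h5⟩ := h2 x hx
          · exact ⟨γ, h3, h4, h5⟩
          · exact absurd (h4.trans h) (by rw [h5]; exact lt_irrefl _)
        · exact Or.inr h
      disj := by
        rintro γ (h | h)
        · exact hdisj γ h
        · rw [h]; exact hδA }
  refine ⟨r, fun j => ⟨⟨hδ j, hA j⟩, fun α hα => ?_⟩, hδ'⟩
  constructor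
  · rintro (h | h)
    · exact (hc j α hα).1 h
    · have h2 : (q j).p.top = α := le_antisymm ((hδ j).trans h.ge) hα
      rw [← h2]
      exact (q j).top_mem
  · intro h
    exact Or.inl ((hc j α hα).2 h)

theorem PS.exists_le (r : PS Z) (hno : ∀ z : Z, ∃ z', z < z') {p' : Cond Z} (h : p' ≤ r.p)
    (y : Z) : ∃ r' ≤ r, r'.p ≤ p' ∧ p'.top < r'.p.top ∧ y < r'.p.top := by
  obtain ⟨z, hz'⟩ := hno (max p'.top y)
  have hz : p'.top < z := (le_max_left _ _).trans_lt hz'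
  have hrz : ∀ γ ∈ r.c, γ < z := fun γ hγ => ((r.c_le γ hγ).trans h.1).trans_lt hz
  refine ⟨PS.mk (p'.up z hz) {α | α ∈ r.c ∨ α = z} (Or.inr rfl) ?_ ?_ ?_,
    ⟨(p'.up_le z hz).trans h, fun α hα => ?_⟩, p'.up_le z hz, hz, (le_max_right _ _).trans_lt hz'⟩
  · rintro γ (hγ | hγ)
    · exact (hrz γ hγ).le
    · exact hγ.le
  · intro α hα h1 h2
    left
    have h3 : ∀ δ < α, ∃ γ, δ < γ ∧ γ < α ∧ γ ∈ r.c := by
      intro δ hδ
      obtain ⟨γ, h3, h4, h5 | h5⟩ := h2 δ hδ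
      · exact ⟨γ, h3, h4, h5⟩
      · have : z < α := by rw [← h5]; exact h4
        exact absurd this (not_lt.2 hα)
    refine r.closed α ?_ h1 h3
    by_contra hcon
    rw [not_le] at hcon
    obtain ⟨γ, h4, -, h5⟩ := h3 _ hcon
    exact absurd (r.c_le γ h5) (not_le.2 h4)
  · rintro γ (hγ | hγ)
    · show p'.A γ = ∅
      rw [h.2 γ (r.c_le γ hγ)]
      exact r.disj γ hγ
    · show p'.A γ = ∅
      rw [← Set.not_nonempty_iff_eq_empty]
      rintro ⟨ξ, hξ⟩
      rw [hγ] at hξ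
      exact absurd (p'.le_top z ξ hξ) (not_le.2 hz)
  · constructor
    · rintro (hγ | hγ)
      · exact hγ
      · rw [hγ] at hα
        exact absurd (hα.trans h.1) (not_le.2 hz)
    · intro hγ
      exact Or.inl hγ

theorem PS.exists_start (p : Cond Z) (hno : ∀ z : Z, ∃ z', z < z') : ∃ r : PS Z, r.p ≤ p := by
  obtain ⟨z, hz⟩ := hno p.top
  refine ⟨PS.mk (p.up z hz) {z} rfl ?_ ?_ ?_, p.up_le z hz⟩
  · rintro γ rfl
    exact le_rfl
  · rintro α hα ⟨δ, hδ⟩ h2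
    obtain ⟨γ, -, h4, rfl⟩ := h2 δ hδ
    exact absurd h4 (not_lt.2 hα)
  · rintro γ rfl
    show p.A γ = ∅
    rw [← Set.not_nonempty_iff_eq_empty]
    rintro ⟨ξ, hξ⟩
    exact absurd (p.le_top _ ξ hξ) (not_le.2 hz)

/-- transfinite sequences of positions -/
theorem exists_chain [WellFoundedLT Z] {κ : Cardinal.{0}}
    (hbd : ∀ (J : Type) (f : J → Z), #J ≤ κ → ∃ b, ∀ j, f j ≤ b)
    {K : Type} [LinearOrder K] [WellFoundedLT K] (hK : #K ≤ κ) (r0 : PS Z)
    (good : K → PS Z → PS Z → Prop) (hg : ∀ ξ, ∀ r ≤ r0, ∃ r' ≤ r, good ξ r r') :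
    ∃ R : K → PS Z, (∀ i j, i ≤ j → R j ≤ R i) ∧ ∀ x, R x ≤ r0 ∧
      ∃ r, (∀ y < x, r ≤ R y) ∧ R x ≤ r ∧ good x r (R x) := by
  classical
  let Good : (x : K) → ((y : K) → y < x → PS Z) → PS Z → Prop := fun x f r' =>
    r' ≤ r0 ∧ ∃ r, (∀ (y : K) (hy : y < x), r ≤ f y hy) ∧ r' ≤ r ∧ good x r r'
  let R : K → PS Z := wellFounded_lt.fix fun x f =>
    if h : ∃ r, Good x f r then h.choose else r0
  have hR : ∀ x, R x = if h : ∃ r, Good x (fun y _ => R y) r then h.choose else r0 := fun x =>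
    wellFounded_lt.fix_eq _ x
  have hgood : ∀ x, Good x (fun y _ => R y) (R x) := by
    intro x
    refine wellFounded_lt.induction (C := fun x => Good x (fun y _ => R y) (R x)) x ?_
    intro x ih
    have hex : ∃ r, Good x (fun y _ => R y) r := by
      by_cases hne : Nonempty (Set.Iio x)
      · obtain ⟨r1, hr1, -⟩ := PS.glb (J := Set.Iio x) (fun y => R y.1) (by
          intro i j hij
          rcases hij.lt_or_eq with h | h
          · obtain ⟨r, h1, h2, -⟩ := (ih j.1 j.2).2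
            exact h2.trans (h1 i.1 h)
          · rw [h]) (hbd _ _ ((Cardinal.mk_set_le _).trans hK))
        have hr10 : r1 ≤ r0 := (hr1 (Classical.choice hne)).trans
          (ih (Classical.choice hne).1 (Classical.choice hne).2).1
        obtain ⟨r', h1, h2⟩ := hg x r1 hr10
        exact ⟨r', h1.trans hr10, r1, fun y hy => hr1 ⟨y, hy⟩, h1, h2⟩
      · obtain ⟨r', h1, h2⟩ := hg x r0 le_rfl
        exact ⟨r', h1, r0, fun y hy => absurd ⟨⟨y, hy⟩⟩ hne, h1, h2⟩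
    rw [hR x, dif_pos hex]
    exact hex.choose_spec
  refine ⟨R, fun i j hij => ?_, fun x => hgood x⟩
  rcases hij.lt_or_eq with h | h
  · obtain ⟨r, h1, h2, -⟩ := (hgood j).2
    exact h2.trans (h1 i h)
  · rw [h]

/-- distributivity -/
theorem decide_all [WellFoundedLT Z] {κ : Cardinal.{0}} (hno : ∀ z : Z, ∃ z', z < z')
    (hbd : ∀ (J : Type) (f : J → Z), #J ≤ κ → ∃ b, ∀ j, f j ≤ b)
    {K : Type} (hK : #K ≤ κ) (D : K → Set (Cond Z)) (p : Cond Z)
    (hD : ∀ ξ, ∀ q ≤ p, ∃ r ≤ q, r ∈ D ξ) (hdown : ∀ ξ, Down (D ξ)) :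
    ∃ q ≤ p, ∀ ξ, q ∈ D ξ := by
  classical
  obtain ⟨_, _⟩ := exists_wellFoundedLT K
  obtain ⟨r0, hr0⟩ := PS.exists_start p hno
  obtain ⟨R, hR1, hR2⟩ := exists_chain hbd hK r0 (fun ξ _ r' => r'.p ∈ D ξ) (by
    intro ξ r hr
    obtain ⟨q, hq, hqD⟩ := hD ξ r.p (hr.1.trans hr0)
    obtain ⟨r', h1, h2, -⟩ := r.exists_le hno hq p.top
    exact ⟨r', h1, hdown ξ _ hqD _ h2⟩)
  by_cases hne : Nonempty K
  · obtain ⟨r1, hr1, -⟩ := PS.glb (J := K) R hR1 (hbd _ _ hK)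
    have hr10 : r1 ≤ r0 := (hr1 (Classical.choice hne)).trans (hR2 (Classical.choice hne)).1
    refine ⟨r1.p, hr10.1.trans hr0, fun ξ => ?_⟩
    obtain ⟨-, r, -, -, h⟩ := hR2 ξ
    exact hdown ξ _ h _ (hr1 ξ).1
  · exact ⟨p, le_rfl, fun ξ => absurd ⟨ξ⟩ hne⟩

/-- named functions on `K` are decided -/
theorem decide_fun [WellFoundedLT Z] {κ : Cardinal.{0}} {K Y : Type}
    (hno : ∀ z : Z, ∃ z', z < z')
    (hbd : ∀ (J : Type) (f : J → Z), #J ≤ κ → ∃ b, ∀ j, f j ≤ b) (hK : #K ≤ κ)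
    (R : K → Y → Set (Cond Z)) (p : Cond Z) (hp : ∀ q ≤ p, ∀ ξ, ∃ r ≤ q, ∃ y, r ∈ meets (R ξ y)) :
    ∃ q ≤ p, ∃ g : K → Y, ∀ ξ, q ∈ meets (R ξ (g ξ)) := by
  obtain ⟨q, hq, h⟩ := decide_all hno hbd hK (fun ξ => {q | ∃ y, q ∈ meets (R ξ y)}) p (by
      intro ξ q hq
      exact hp q hq ξ) (by
      rintro ξ q ⟨y, h⟩ r hr
      exact ⟨y, down_meets _ _ h _ hr⟩)
  choose g hg using h
  exact ⟨q, hq, g, hg⟩

end

section General
variable {P : Type} [Preorder P]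

theorem mem_meets_fground {h : Prop} {p : P} : p ∈ meets (fground (P := P) h) ↔ h := by
  constructor
  · intro hp
    obtain ⟨r, -, s, hs, -⟩ := hp p le_rfl
    exact hs
  · intro hh
    exact meets_of_mem hh

theorem isFun_ground {X Y : Type} (e : X → Y) (p : P) :
    p ∈ IsFun (P := P) (fun x y => fground (e x = y)) := by
  refine ⟨fun x => ?_, fun x y y' => ?_⟩
  · exact mem_fex_of_mem (e x) (down_meets _) (mem_meets_fground.2 rfl)
  · refine mem_fimp.2 fun q _ hh => ⟨q, le_rfl, ?_⟩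
    exact (mem_meets_fground.1 hh.1).symm.trans (mem_meets_fground.1 hh.2)

/-- a set which is covered by the values of a ground model function -/
theorem coveredByN_of {Y : Type} {S : Lam → Set P} {p : P} (e : Y → Lam)
    (h : ∀ γ, ∀ q ≤ p, q ∈ meets (S γ) → ∃ i, e i = γ) : p ∈ CoveredByN Y S := by
  refine mem_fex_of_mem (fun i γ => fground (e i = γ)) ?_ ⟨isFun_ground e p, fun γ => ?_⟩
  · exact down_fand (down_IsFun _) (down_fall fun _ => down_fimp _ _)
  · refine mem_fimp.2 fun q hq hS => ⟨q, le_rfl, ?_⟩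
    obtain ⟨i, hi⟩ := h γ q hq hS
    exact mem_fex_of_mem i (down_meets _) (mem_meets_fground.2 hi)

theorem exists_cover {Y Z : Type} [Nonempty Z] (S : Set Z) (h : #S ≤ #Y) :
    ∃ e : Y → Z, ∀ γ ∈ S, ∃ i, e i = γ := by
  obtain ⟨f⟩ := (Cardinal.le_def _ _).1 h
  refine ⟨Function.extend f (fun s => s.1) (fun _ => Classical.arbitrary Z), fun γ hγ => ?_⟩
  exact ⟨f ⟨γ, hγ⟩, f.injective.extend_apply _ _ _⟩

end General

section
variable {Z : Type} [LinearOrder Z]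

/-- the name of the generic ladder system -/
def An (δ γ : Z) : Set (Cond Z) := {q | γ ∈ q.A δ}

theorem mem_of_meets_An {δ γ : Z} {p : Cond Z} (hδ : δ ≤ p.top) (h : p ∈ meets (An δ γ)) :
    γ ∈ p.A δ := by
  obtain ⟨r, hr, t, ht, hrt⟩ := h p le_rfl
  have h1 : δ ≤ t.top := t.le_top δ γ ht
  rw [← hr.2 δ hδ, hrt.2 δ h1]
  exact ht

theorem lt_of_meets_An {δ γ : Z} {p : Cond Z} (h : p ∈ meets (An δ γ)) : γ < δ := by
  obtain ⟨r, -, t, ht, -⟩ := h p le_rfl
  exact t.lt δ γ ht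

theorem card_Iio_lt {c : Cardinal.{0}} (i : c.ord.ToType) : #(Set.Iio i) < c := by
  simpa using mk_Iio_lt i

/-- the main step: a condition with a large new ladder -/
theorem exists_ladder [WellFoundedLT Z] {κ : Cardinal.{0}} (hκ : ℵ₁ ≤ κ)
    (hno : ∀ z : Z, ∃ z', z < z')
    (hbd : ∀ (J : Type) (f : J → Z), #J ≤ κ → ∃ b, ∀ j, f j ≤ b)
    (hIio : ∀ z : Z, #(Set.Iio z) ≤ κ) (c : Z → Z → Set (Cond Z)) (q : Cond Z)
    (hq : q ∈ IsFun c) : ∃ r ≤ q, ¬ (r.A r.top).Countable ∧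
      ∀ γ < r.top, ∃ ξ < r.top, r ∈ meets (c γ ξ) := by
  classical
  obtain ⟨r0, hr0⟩ := PS.exists_start q hno
  let K := (ℵ₁ : Cardinal.{0}).ord.ToType
  have hK : #K = ℵ₁ := by simp [K]
  have hKno : ∀ i : K, ∃ j, i < j := by
    intro i
    have h1 : NoMaxOrder K := by
      have h2 : (ℵ₀ : Cardinal.{0}) ≤ ℵ₁ := Cardinal.aleph0_le_aleph 1
      exact Cardinal.noMaxOrder h2
    exact exists_gt i
  obtain ⟨R, hR1, hR2⟩ := exists_chain (K := K) hbd (hK.le.trans hκ) r0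
    (fun _ r r' => r.p.top < r'.p.top ∧ ∀ γ < r.p.top, ∃ ξ < r'.p.top, r'.p ∈ meets (c γ ξ)) (by
    intro _ r hr
    obtain ⟨q', hq', g, hg⟩ := decide_fun (K := Set.Iio r.p.top) hno hbd (hIio r.p.top)
      (fun γ => c γ.1) r.p (fun q' hq' γ =>
        IsFun.total (down_IsFun c _ hq _ (hq'.trans (hr.1.trans hr0))) γ.1)
    obtain ⟨b, hb⟩ := hbd _ g (hIio r.p.top)
    obtain ⟨r', h1, h2, h3, h4⟩ := r.exists_le hno hq' b
    refine ⟨r', h1, hq'.1.trans_lt h3, fun γ hγ => ⟨g ⟨γ, hγ⟩, (hb ⟨γ, hγ⟩).trans_lt h4, ?_⟩⟩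
    exact down_meets _ _ (hg ⟨γ, hγ⟩) _ h2)
  have hKne : Nonempty K := by
    rw [← Cardinal.mk_ne_zero_iff, hK]
    exact (Cardinal.aleph_pos 1).ne'
  obtain ⟨r, hr1, hr2⟩ := PS.glb (J := K) R hR1 (hbd _ _ (hK.le.trans hκ))
  have hlt : ∀ i j, i < j → (R i).p.top < (R j).p.top := by
    intro i j hij
    obtain ⟨-, r', h1, h2, h3, -⟩ := hR2 j
    exact (h1 i hij).1.1.trans_lt h3
  have hlt' : ∀ j, (R j).p.top < r.p.top := by
    intro j
    obtain ⟨j', hj'⟩ := hKno j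
    exact (hlt j j' hj').trans_le (hr1 j').1.1
  have hrc : ∀ j, (R j).p.top ∈ r.c := fun j => ((hr1 j).2 _ le_rfl).2 (R j).top_mem
  have hrA : r.p.A r.p.top = ∅ := r.disj _ r.top_mem
  obtain ⟨g, hg1, hg2, hg3⟩ := r.free
  let S : Set Z := Set.range fun j => (R j).p.top
  have hinj : Function.Injective fun j => (R j).p.top :=
    StrictMono.injective (fun i j h => hlt i j h)
  have hA1 : Function.update r.p.A r.p.top S r.p.top = S := Function.update_self _ _ _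
  have hA2 : ∀ δ, δ ≠ r.p.top → Function.update r.p.A r.p.top S δ = r.p.A δ := fun δ h =>
    Function.update_of_ne h _ _
  let f : Cond Z :=
    { top := r.p.top
      A := Function.update r.p.A r.p.top S
      lt := by
        intro δ γ h
        by_cases hδ : δ = r.p.top
        · subst hδ
          rw [hA1] at h
          obtain ⟨j, rfl⟩ := h
          exact hlt' j
        · rw [hA2 δ hδ] at h
          exact r.p.lt δ γ h
      le_top := by
        intro δ γ h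
        by_cases hδ : δ = r.p.top
        · exact hδ.le
        · rw [hA2 δ hδ] at h
          exact r.p.le_top δ γ h
      card := by
        intro δ
        by_cases hδ : δ = r.p.top
        · subst hδ
          rw [hA1]
          exact Cardinal.mk_range_le.trans hK.le
        · rw [hA2 δ hδ]
          exact r.p.card δ
      count := by
        intro δ γ h
        by_cases hδ : δ = r.p.top
        · subst hδ
          rw [hA1]
          obtain ⟨j, hj⟩ := hr2 γ h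
          have h1 : (Set.Iio j).Countable := by
            rw [← Cardinal.le_aleph0_iff_set_countable, ← Order.lt_succ_iff,
              ← Cardinal.aleph_zero, Cardinal.succ_aleph, zero_add]
            exact (card_Iio_lt j)
          refine (h1.image fun j => (R j).p.top).mono ?_
          rintro _ ⟨⟨i, rfl⟩, hi⟩
          refine ⟨i, ?_, rfl⟩
          by_contra hcon
          rw [Set.mem_Iio, not_lt] at hcon
          have h2 : (R j).p.top ≤ (R i).p.top := (hR1 j i hcon).1.1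
          exact absurd (h2.trans hi) (not_le.2 hj)
        · rw [hA2 δ hδ]
          exact r.p.count δ γ h
      free := by
        refine ⟨g, hg1, fun δ δ' h γ hγ hγ' => ?_⟩
        by_cases hδ' : δ' = r.p.top
        · subst hδ'
          rw [hA1] at hγ'
          rw [hA2 δ h.ne] at hγ
          obtain ⟨j, rfl⟩ := hγ'
          exact Or.inl (hg3 δ _ hγ (hrc j))
        · rw [hA2 δ' hδ'] at hγ'
          by_cases hδ : δ = r.p.top
          · subst hδ
            exact absurd h (not_lt.2 (r.p.le_top δ' γ hγ'))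
          · rw [hA2 δ hδ] at hγ
            exact hg2 δ δ' h γ hγ hγ' }
  have hf : ∀ j, f ≤ (R j).p := by
    intro j
    refine ⟨(hlt' j).le, fun δ hδ => ?_⟩
    show Function.update r.p.A r.p.top S δ = _
    rw [hA2 δ (hδ.trans_lt (hlt' j)).ne]
    exact (hr1 j).1.2 δ hδ
  have j0 : K := Classical.choice hKne
  refine ⟨f, (hf j0).trans ((hR2 j0).1.1.trans hr0), ?_, fun γ hγ => ?_⟩
  · show ¬ (Function.update r.p.A r.p.top S r.p.top).Countable
    rw [hA1, ← Cardinal.le_aleph0_iff_set_countable, Cardinal.mk_range_eq _ hinj, hK, not_le]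
    exact Cardinal.aleph0_lt_aleph_one
  · obtain ⟨j, hj⟩ := hr2 γ hγ
    obtain ⟨j', hj'⟩ := hKno j
    obtain ⟨-, r', h1, h2, h3, h4⟩ := hR2 j'
    obtain ⟨ξ, h5, h6⟩ := h4 γ (hj.trans_le (h1 j hj').1.1)
    exact ⟨ξ, h5.trans (hlt' j'), down_meets _ _ h6 _ (hf j')⟩

end

section Lam

theorem lam_isRegular : (ℵ_ (Ordinal.omega0 + 1) : Cardinal.{0}).IsRegular :=
  Cardinal.isRegular_aleph_add_one _

theorem lam_bdd (J : Type) (f : J → Lam) (hJ : #J ≤ ℵ_ Ordinal.omega0) :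
    ∃ b, ∀ j, f j ≤ b := by
  have h1 : #(Set.range f) < ℵ_ (Ordinal.omega0 + 1) := by
    refine (Cardinal.mk_range_le.trans hJ).trans_lt ?_
    rw [← Order.succ_eq_add_one, Cardinal.aleph_lt_aleph]
    exact Order.lt_succ _
  by_contra hcon
  push Not at hcon
  have h2 : IsCofinal (Set.range f) := by
    intro x
    obtain ⟨j, hj⟩ := hcon x
    exact ⟨_, ⟨j, rfl⟩, hj.le⟩
  have h3 := Order.cof_le h2
  rw [Ordinal.cof_toType, lam_isRegular.cof_ord] at h3
  exact absurd h1 (not_lt.2 h3)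

theorem lam_noMax (z : Lam) : ∃ z', z < z' := by
  have h1 : NoMaxOrder Lam := Cardinal.noMaxOrder lam_isRegular.aleph0_le
  exact exists_gt z

theorem lam_Iio (z : Lam) : #(Set.Iio z) ≤ ℵ_ Ordinal.omega0 := by
  rw [← Order.lt_succ_iff, Cardinal.succ_aleph]
  exact card_Iio_lt z

instance : Nonempty Lam := by
  rw [← Cardinal.mk_ne_zero_iff, Cardinal.mk_ord_toType]
  exact (Cardinal.aleph_pos _).ne'

end Lam

section Final

/-- the conditions for the ladder system -/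
abbrev Q0 : Type := Cond Lam

/-- the empty ladder system -/
noncomputable def bot0 : Q0 where
  top := Classical.arbitrary Lam
  A _ := ∅
  lt _ _ h := absurd h (by simp)
  le_top _ _ h := absurd h (by simp)
  card _ := by simp
  count _ _ _ := by simp
  free := ⟨fun _ => ∅, fun _ => Set.countable_empty, fun _ _ _ _ h => absurd h (by simp)⟩

theorem aleph_one_le : (ℵ₁ : Cardinal.{0}) ≤ ℵ_ Ordinal.omega0 :=
  Cardinal.aleph_le_aleph.2 Ordinal.one_lt_omega0.le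

theorem nat_le : #ℕ ≤ ℵ_ Ordinal.omega0 := by
  rw [Cardinal.mk_nat]
  exact Cardinal.aleph0_le_aleph _

theorem decide_fun' {K Y : Type} (hK : #K ≤ ℵ_ Ordinal.omega0)
    (R : K → Y → Set Q0) (p : Q0) (hp : p ∈ IsFun R) :
    ∃ q ≤ p, ∃ g : K → Y, ∀ ξ, q ∈ meets (R ξ (g ξ)) :=
  decide_fun lam_noMax lam_bdd hK R p fun _ hq ξ => IsFun.total (down_IsFun R _ hp _ hq) ξ

theorem forces_continuumLe (hCH : ContinuumHyp) (p : Q0) :
    p ∈ ContinuumLe Q0 (ℵ₁ : Cardinal.{0}).out := by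
  obtain ⟨E, hE⟩ := hCH
  refine mem_fex_of_mem (fun i n m => fground (E i n = m)) ?_
    ⟨fun i => isFun_ground (E i) p, fun x => ?_⟩
  · exact down_fand (down_fall fun _ => down_IsFun _) (down_fall fun _ => down_fimp _ _)
  · refine mem_fimp.2 fun q _ hx => ?_
    obtain ⟨r, hr, g, hg⟩ := decide_fun' nat_le x q hx
    obtain ⟨i, hi⟩ := hE g
    refine ⟨r, hr, mem_fex_of_mem i (down_SameReal _ _) fun n a b => ?_⟩
    refine mem_fimp.2 fun s hs hh => ⟨s, le_rfl, ?_⟩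
    have h1 : a = g n := IsFun.unique (down_IsFun x _ hx _ (hs.trans hr)) hh.1
      (down_meets _ _ (hg n) _ hs)
    have h2 : E i n = b := mem_meets_fground.1 hh.2
    show a = b
    rw [h1, ← h2, hi]

theorem forces_cardinals (p : Q0) :
    p ∈ CardinalsPreservedTo Q0 (ℵ_ (Ordinal.omega0 + 1)) := by
  intro μ ν hμν _ hν q _ hq
  obtain ⟨r, hr, R, hR⟩ := mem_fex.1 hq q le_rfl
  have hμ : #μ.out ≤ ℵ_ Ordinal.omega0 := by
    rw [Cardinal.mk_out, ← Order.lt_succ_iff, Cardinal.succ_aleph]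
    exact hμν.trans_le hν
  obtain ⟨r1, hr1, g, hg⟩ := decide_fun' hμ R r hR.1
  have hg' : ¬ Function.Surjective g := by
    intro hs
    have h2 := Cardinal.mk_le_of_surjective hs
    rw [Cardinal.mk_out, Cardinal.mk_out] at h2
    exact absurd hμν (not_lt.2 h2)
  obtain ⟨z, hz⟩ := not_forall.1 hg'
  obtain ⟨r2, hr2, ξ, h⟩ := mem_fex.1 (hR.2 z) r1 hr1
  exact hz ⟨ξ, (IsFun.unique (down_IsFun R _ hR.1 _ (hr2.trans hr1)) h
    (down_meets _ _ (hg ξ) _ hr2)).symm⟩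

theorem down_CoveredByN {P : Type} [Preorder P] (Y : Type) (S : Lam → Set P) :
    Down (CoveredByN Y S) := down_fex _

theorem down_IsLadderN {P : Type} [Preorder P] (A : Lam → Lam → Set P) : Down (IsLadderN A) :=
  down_fand (down_fall fun _ => down_fall fun _ => down_fimp _ _)
    (down_fand (down_fall fun _ => down_fex _)
      (down_fand (down_fall fun _ => down_fex _) (down_fall fun _ => down_fimp _ _)))

theorem forces_ladder (p : Q0) : p ∈ LadderN Q0 := by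
  classical
  refine mem_fex_of_mem (An (Z := Lam)) (down_IsLadderN _)
    ⟨fun δ γ => ?_, fun δ => ?_, fun α => ?_, fun c => ?_⟩
  · exact mem_fimp.2 fun q _ h => ⟨q, le_rfl, lt_of_meets_An h⟩
  · refine mem_fex.2 fun q _ => ?_
    obtain ⟨r, hr, hr'⟩ := q.exists_top_ge δ
    obtain ⟨e, he⟩ := exists_cover (Y := (ℵ₁ : Cardinal.{0}).out) (r.A δ) (by
      rw [Cardinal.mk_out]; exact r.card δ)
    have h := coveredByN_of (S := An δ) (p := r) e fun γ s hs hγ => he γ (by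
      have h1 := mem_of_meets_An (hr'.trans hs.1) hγ
      rwa [hs.2 δ hr'] at h1)
    obtain ⟨s, hs, f, hf⟩ := mem_fex.1 h r le_rfl
    exact ⟨s, hs.trans hr, f, hf⟩
  · refine mem_fex.2 fun q _ => ?_
    obtain ⟨r, hr, hr'⟩ := q.exists_top_ge α
    obtain ⟨g, hg1, hg2⟩ := r.free
    refine ⟨r, hr, fun δ γ => fground (γ ∈ g δ), fun δ => ?_, fun δ δ' => ?_⟩
    · obtain ⟨e, he⟩ := exists_cover (Y := ℕ) (g δ) (by
        rw [Cardinal.mk_nat]; exact Cardinal.le_aleph0_iff_set_countable.2 (hg1 δ))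
      exact coveredByN_of e fun γ s _ hγ => he γ (mem_meets_fground.1 hγ)
    · refine mem_fimp.2 fun s hs hδ => ⟨s, le_rfl, fun γ t ht h => ?_⟩
      obtain ⟨h1, h2, hne⟩ : δ < α ∧ δ' < α ∧ δ ≠ δ' := hδ
      have htr : t ≤ r := ht.trans hs
      have h3 : γ ∈ r.A δ := by
        have := mem_of_meets_An ((h1.le.trans hr').trans htr.1) h.1.1
        rwa [htr.2 δ (h1.le.trans hr')] at this
      have h4 : γ ∈ r.A δ' := by
        have := mem_of_meets_An ((h2.le.trans hr').trans htr.1) h.2.1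
        rwa [htr.2 δ' (h2.le.trans hr')] at this
      have h5 : γ ∉ g δ := fun h' => h.1.2 t le_rfl (mem_meets_fground.2 h')
      have h6 : γ ∉ g δ' := fun h' => h.2.2 t le_rfl (mem_meets_fground.2 h')
      rcases lt_or_gt_of_ne hne with hl | hl
      · rcases hg2 δ δ' hl γ h3 h4 with h | h
        · exact h5 h
        · exact h6 h
      · rcases hg2 δ' δ hl γ h4 h3 with h | h
        · exact h6 h
        · exact h5 h
  · refine mem_fimp.2 fun q _ hc => ?_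
    obtain ⟨r, hr, h1, h2⟩ := exists_ladder aleph_one_le lam_noMax lam_bdd lam_Iio c q hc
    refine ⟨r, hr, mem_fex_of_mem r.top ?_ ⟨?_, fun γ => ?_⟩⟩
    · exact down_fand (down_fnot _) (down_fall fun _ => down_fimp _ _)
    · intro s hs hcov
      obtain ⟨t, ht, e, he⟩ := mem_fex.1 hcov s le_rfl
      obtain ⟨t1, ht1, e0, he0⟩ := decide_fun' nat_le e t he.1
      obtain ⟨γ, hγ, hγ'⟩ : ∃ γ ∈ r.A r.top, γ ∉ Set.range e0 := by
        by_contra hcon
        push Not at hcon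
        exact h1 ((Set.countable_range e0).mono hcon)
      have h3 : t1 ∈ meets (An r.top γ) :=
        down_meets _ _ (meets_of_mem (N := An r.top γ) hγ) _ ((ht1.trans ht).trans hs)
      obtain ⟨t2, ht2, h4⟩ := mem_fimp.1 (he.2 γ) t1 ht1 h3
      obtain ⟨t3, ht3, i, h5⟩ := mem_fex.1 h4 t2 le_rfl
      have h6 := IsFun.unique (down_IsFun e _ he.1 _ ((ht3.trans ht2).trans ht1)) h5
        (down_meets _ _ (he0 i) _ (ht3.trans ht2))
      exact hγ' ⟨i, h6.symm⟩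
    · refine mem_fimp.2 fun s hs hγ => ⟨s, le_rfl, fun ξ => mem_fimp.2 fun t ht h => ⟨t, le_rfl, ?_⟩⟩
      obtain ⟨ξ', h3, h4⟩ := h2 γ hγ
      have h5 := IsFun.unique (down_IsFun c _ hc _ ((ht.trans hs).trans hr)) h
        (down_meets _ _ h4 _ (ht.trans hs))
      show ξ < r.top
      rw [h5]
      exact h3

end Final

end Pool.Agent.H409_AG.PartB

namespace Pool.Agent.H409_AG

/-- TASK B -/
theorem ladder_forced : Stmts.TaskB := fun hCH =>
  ⟨PartB.Q0, inferInstance, ⟨PartB.bot0⟩, fun q =>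
    ⟨PartB.forces_continuumLe hCH q, PartB.forces_cardinals q, PartB.forces_ladder q⟩⟩

end Pool.Agent.H409_AG
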