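import Pool.Agent.H409_AG.PartC7
import Pool.Agent.H409_AG.CapD
import Pool.Agent.H409_AG.CapInd
import Pool.Agent.H409_AG.CapOr

/-!
# PART C: the forcing notion which forces an incompact closed graph
-/

set_option autoImplicit false

namespace Pool.Agent.H409_AG

theorem graph_forced : Stmts.TaskC := Gr.graph_forced_of Gr.captures Gr.exists_cap Gr.orientN_of_cap

end Pool.Agent.H409_AG
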