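import Pool.Agent.H409_AG.Defs

/-!
# The four parts of the project (statements only)
-/

set_option autoImplicit false

namespace Pool.Agent.H409_AG.Stmts

open Cardinal Pool.Agent.Helper669.Forcing Pool.Agent.H409_AG

/-- TASK A: `Pool/Agent/H409_AG/PartA.lean`, theorem `Pool.Agent.H409_AG.ch_forced` -/
def TaskA : Prop := ∃ (Q : Type) (_ : Preorder Q), Nonempty Q ∧ ∀ q : Q,
  q ∈ ContinuumLe Q (ℵ₁ : Cardinal.{0}).out

/-- TASK B: `Pool/Agent/H409_AG/PartB.lean`, theorem `Pool.Agent.H409_AG.ladder_forced` -/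
def TaskB : Prop := ContinuumHyp → ∃ (Q : Type) (_ : Preorder Q), Nonempty Q ∧ ∀ q : Q,
  q ∈ ContinuumLe Q (ℵ₁ : Cardinal.{0}).out ∧
    q ∈ CardinalsPreservedTo Q (ℵ_ (Ordinal.omega0 + 1)) ∧ q ∈ LadderN Q

/-- TASK C (helper409): `Pool/Agent/H409_AG/PartC.lean`, theorem
`Pool.Agent.H409_AG.graph_forced` -/
def TaskC : Prop := ContinuumHyp → Ladder → ∃ (Q : Type) (_ : Preorder Q), Nonempty Q ∧
  ∀ q : Q, q ∈ CardinalsPreserved.{0, 0} Q ∧ q ∈ IncompactN Q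

/-- TASK D: `Pool/Agent/H409_AG/PartD.lean`, theorem `Pool.Agent.H409_AG.group_of_incompact` -/
def TaskD : Prop := Incompact → ∃ G : Group ℝ, IsAnalyticGroup G ∧
  IsKappaFree (ℵ_ Ordinal.omega0) G ∧ ¬ IsFreeGroup ℝ

end Pool.Agent.H409_AG.Stmts
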