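import Pool.Agent.H409_AG.StmtsC
import Pool.Agent.H409_AG.Stmts

/-!
# PART C: from the ladder system to the assumptions of the forcing theorem, and the assembly
-/

set_option autoImplicit false

namespace Pool.Agent.H409_AG.Gr

open Cardinal Pool.Agent.H409_AG.Ccc Pool.Agent.H409_AG Pool.Agent.Helper669.Forcing

theorem coveredBy_nat {S : Lam → Prop} (h : CoveredBy ℕ S) : {γ | S γ}.Countable := by
  obtain ⟨e, he⟩ := h
  exact (Set.countable_range e).mono fun γ hγ => he γ hγ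

theorem coveredBy_nat_of_countable {S : Lam → Prop} (hne : Nonempty Lam)
    (h : {γ | S γ}.Countable) : CoveredBy ℕ S := by
  rcases Set.eq_empty_or_nonempty {γ | S γ} with h0 | h0
  · refine ⟨fun _ => Classical.choice hne, fun γ hγ => ?_⟩
    exact absurd (show γ ∈ {γ | S γ} from hγ) (h0 ▸ Set.notMem_empty γ)
  · obtain ⟨e, he⟩ := h.exists_eq_range h0
    refine ⟨e, fun γ hγ => ?_⟩
    have : γ ∈ Set.range e := he ▸ hγ
    exact this

theorem coveredBy_aleph {κ : Cardinal.{0}} {S : Lam → Prop} (h : CoveredBy κ.out S) :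
    #{γ | S γ} ≤ κ := by
  obtain ⟨e, he⟩ := h
  have h1 : {γ | S γ} ⊆ Set.range e := fun γ hγ => he γ hγ
  refine (Cardinal.mk_le_mk_of_subset h1).trans (Cardinal.mk_range_le.trans ?_)
  rw [Cardinal.mk_out]

theorem regular_lam : (ℵ_ (Ordinal.omega0 + 1) : Cardinal.{0}).IsRegular :=
  Cardinal.isRegular_aleph_add_one _

theorem exists_bound_lam (S : Set Lam) (hS : #S ≤ (ℵ_ Ordinal.omega0 : Cardinal.{0})) :
    ∃ b, ∀ x ∈ S, x < b := by
  by_contra hcon
  push Not at hcon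
  have hcof : IsCofinal S := fun b => hcon b
  have h1 := Order.cof_le hcof
  have h2 : Order.cof Lam = ℵ_ (Ordinal.omega0 + 1) := by
    rw [Ordinal.cof_toType, regular_lam.cof_ord]
  rw [h2] at h1
  have h3 : (ℵ_ Ordinal.omega0 : Cardinal.{0}) < ℵ_ (Ordinal.omega0 + 1) := by
    rw [← Cardinal.succ_aleph]
    exact Order.lt_succ _
  exact absurd (h1.trans hS) (not_le.2 h3)

theorem nonempty_lam : Nonempty Lam := by
  obtain ⟨b, _⟩ := exists_bound_lam ∅ (by simp)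
  exact ⟨b⟩

theorem c7a : C7a := by
  rintro A ⟨_, _, h3, _⟩ δ δ' hne
  obtain ⟨α, hα⟩ := exists_bound_lam {δ, δ'} (by
    refine (Cardinal.mk_le_aleph0_iff.2 ?_).trans (Cardinal.aleph0_le_aleph _)
    exact (Set.toFinite _).countable)
  obtain ⟨g, hg1, hg2⟩ := h3 α
  refine ((coveredBy_nat (hg1 δ)).union (coveredBy_nat (hg1 δ'))).mono ?_
  rintro γ ⟨h1, h2⟩
  by_contra hcon
  rw [Set.mem_union, not_or] at hcon
  exact hg2 δ δ' ⟨hα δ (by simp), hα δ' (by simp), hne⟩ γ ⟨⟨h1, hcon.1⟩, ⟨h2, hcon.2⟩⟩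

section Closure

variable {V : Type}

/-- The points reached from `u` in `n` steps. -/
def lev (out : V → Set V) (u : V) : ℕ → Set V
  | 0 => {u}
  | n + 1 => ⋃ a ∈ lev out u n, out a

/-- The points reached from `u`. -/
def cl (out : V → Set V) (u : V) : Set V := ⋃ n, lev out u n

theorem self_mem_cl (out : V → Set V) (u : V) : u ∈ cl out u :=
  Set.mem_iUnion.2 ⟨0, rfl⟩

theorem out_sub_cl {out : V → Set V} {u a b : V} (ha : a ∈ cl out u) (hb : b ∈ out a) :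
    b ∈ cl out u := by
  obtain ⟨n, hn⟩ := Set.mem_iUnion.1 ha
  exact Set.mem_iUnion.2 ⟨n + 1, Set.mem_biUnion hn hb⟩

theorem cl_induction {out : V → Set V} {u : V} {C : V → Prop} (h0 : C u)
    (h : ∀ a b, C a → b ∈ out a → C b) {a : V} (ha : a ∈ cl out u) : C a := by
  obtain ⟨n, hn⟩ := Set.mem_iUnion.1 ha
  induction n generalizing a with
  | zero =>
    rw [lev, Set.mem_singleton_iff] at hn
    rw [hn]
    exact h0
  | succ n ih =>
    obtain ⟨b, hb, hab⟩ := Set.mem_iUnion₂.1 hn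
    exact h b a (ih (Set.mem_iUnion.2 ⟨n, hb⟩) hb) hab

theorem mk_lev_le {κ : Cardinal.{0}} (hκ : ℵ₀ ≤ κ) {out : V → Set V} (h : ∀ v, #(out v) ≤ κ)
    (u : V) (n : ℕ) : #(lev out u n) ≤ κ := by
  induction n with
  | zero =>
    rw [lev, Cardinal.mk_singleton]
    exact Cardinal.one_le_aleph0.trans hκ
  | succ n ih =>
    refine (Cardinal.mk_biUnion_le _ _).trans ?_
    calc _ ≤ κ * κ := mul_le_mul' ih (ciSup_le' fun a => h _)
      _ = κ := Cardinal.mul_eq_self hκ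

theorem mk_cl_le {κ : Cardinal.{0}} (hκ : ℵ₀ ≤ κ) {out : V → Set V} (h : ∀ v, #(out v) ≤ κ)
    (u : V) : #(cl out u) ≤ κ := by
  refine (Cardinal.mk_iUnion_le _).trans ?_
  calc _ ≤ κ * κ := mul_le_mul' (by rw [Cardinal.mk_nat]; exact hκ)
        (ciSup_le' fun n => mk_lev_le hκ h u n)
    _ = κ := Cardinal.mul_eq_self hκ

end Closure

theorem c7b : C7b := by
  rintro A ⟨h1, h2, h3, _⟩ α
  obtain ⟨g, hg1, hg2⟩ := h3 α
  let out : Lam → Set Lam := fun x => {y | A x y} ∪ {y | y < α ∧ A y x ∧ ¬ g y x}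
  have hout : ∀ x, #(out x) ≤ (ℵ₁ : Cardinal.{0}) := by
    intro x
    refine (Cardinal.mk_union_le _ _).trans ?_
    refine Cardinal.add_le_of_le (Cardinal.aleph0_le_aleph _) (coveredBy_aleph (h2 x)) ?_
    refine (Cardinal.mk_le_aleph0_iff.2 ?_).trans (Cardinal.aleph0_le_aleph _)
    refine Set.Subsingleton.countable ?_
    rintro y ⟨hy1, hy2, hy3⟩ y' ⟨hy1', hy2', hy3'⟩
    by_contra hne
    exact hg2 y y' ⟨hy1, hy1', hne⟩ x ⟨⟨hy2, hy3⟩, ⟨hy2', hy3'⟩⟩
  refine ⟨cl out, mk_cl_le (Cardinal.aleph0_le_aleph _) hout, fun x _ => self_mem_cl out x, ?_⟩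
  intro S hS
  refine ⟨?_, ?_, ?_⟩
  · intro a ha
    obtain ⟨x, hx, ha⟩ := Set.mem_iUnion₂.1 ha
    refine cl_induction (C := fun a => a < α) (hS hx) ?_ ha
    rintro b c hb (hc | hc)
    · exact (h1 _ _ hc).trans hb
    · exact hc.1
  · intro δ hδ γ hγ
    obtain ⟨x, hx, hδ⟩ := Set.mem_iUnion₂.1 hδ
    exact Set.mem_iUnion₂.2 ⟨x, hx, out_sub_cl hδ (Or.inl hγ)⟩
  · intro δ hδ hδU
    refine (coveredBy_nat (hg1 δ)).mono ?_
    rintro γ ⟨hγU, hγ⟩
    by_contra hcon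
    obtain ⟨x, hx, hγx⟩ := Set.mem_iUnion₂.1 hγU
    exact hδU (Set.mem_iUnion₂.2 ⟨x, hx, out_sub_cl hγx (Or.inr ⟨hδ, hγ, hcon⟩)⟩)

theorem c7c : C7c := by
  refine ⟨exists_bound_lam, ?_⟩
  rintro A ⟨_, _, _, h4⟩ c
  obtain ⟨δ, hδ1, hδ2⟩ := h4 c
  exact ⟨δ, fun h => hδ1 (coveredBy_nat_of_countable nonempty_lam h), hδ2⟩

/-- The empty condition. -/
def emptyCond {L : Type} (A : L → L → Prop) : Cond A where
  n := 0
  X := ∅
  Y := ∅
  e := ∅
  T := ∅
  finX := Set.finite_empty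
  finY := Set.finite_empty
  finT := Set.finite_empty
  Xlen _ _ h := absurd h (Set.notMem_empty _)
  Ylen _ _ h := absurd h (Set.notMem_empty _)
  Xfun _ _ _ h := absurd h (Set.notMem_empty _)
  Yfun _ _ _ h := absurd h (Set.notMem_empty _)
  Yinj _ _ _ h := absurd h (Set.notMem_empty _)
  eX _ _ h := absurd h (Set.notMem_empty _)
  eY _ _ h := absurd h (Set.notMem_empty _)
  eA _ _ h := absurd h (Set.notMem_empty _)
  Tlen _ _ h := absurd h (Set.notMem_empty _)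
  Tle _ _ h := absurd h (Set.notMem_empty _)
  Tcl _ _ _ _ h := absurd h (Set.notMem_empty _)
  Te _ _ _ _ h := absurd h (Set.notMem_empty _)
  B t a b s s' _ _ _ _ := by
    have : Common ∅ s s' = ∅ := by
      ext σ
      simp [Common]
    rw [this]
    simp

/-- The assembly. -/
theorem graph_forced_of (h34 : C34 (L := Lam)) (h5 : C5 (L := Lam)) (h6 : C6 (L := Lam)) :
    Stmts.TaskC := by
  rintro ⟨E, hE⟩ ⟨A, hA⟩
  have hCH : #(ℕ → ℕ) ≤ (ℵ₁ : Cardinal.{0}) := by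
    have h := Cardinal.mk_le_of_surjective (f := E) fun x => by
      obtain ⟨i, hi⟩ := hE x
      exact ⟨i, hi.symm⟩
    rwa [Cardinal.mk_out] at h
  have hAD : AD A := c7a A hA
  have hcap : ∀ (n : ℕ) (S : Set Lam), #S ≤ (ℵ_ (n : ℕ) : Cardinal.{0}) →
      ∃ U, S ⊆ U ∧ Cap A U := by
    intro n S hS
    obtain ⟨α, hα⟩ := exists_bound_lam S (hS.trans
      (Cardinal.aleph_le_aleph.2 (Ordinal.natCast_lt_omega0 n).le))
    obtain ⟨cl, hcl1, hcl2, hcl3⟩ := c7b A hA α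
    have hcapt : Captures A (Set.Iio α) := h34 A (Set.Iio α) hAD
      fun δ hδ γ hγ => (hA.1 δ γ hγ).trans hδ
    exact h5 A (Set.Iio α) hAD hcapt hCH cl hcl1 hcl2 hcl3 n S (fun x hx => hα x hx) hS
  refine ⟨Cond A, inferInstance, ⟨emptyCond A⟩, fun q => ⟨(ccc hAD).cardinalsPreserved q, ?_⟩⟩
  refine mem_fex_of_mem (φ := fun T : List ℕ → List ℕ → Set (Cond A) =>
    fand (fall fun n : ℕ => fall fun z : (ℵ_ n : Cardinal.{0}).out → ℕ → ℕ → Set (Cond A) =>
        fimp (fall fun i => IsFun (z i)) (OrientN T z))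
      (fex fun K : Type => fex fun z : K → ℕ → ℕ → Set (Cond A) =>
        fand (fall fun i => IsFun (z i)) (fnot (OrientN T z)))) TN
    (down_fand (down_fall fun _ => down_fall fun _ => down_fimp _ _) (down_fex _)) ⟨?_, ?_⟩
  · intro n z
    refine mem_fimp.2 fun r hr hz => ⟨r, le_rfl, ?_⟩
    have hne : Nonempty (ℵ_ (n : Ordinal.{0}) : Cardinal.{0}).out := by
      rw [← Cardinal.mk_ne_zero_iff, Cardinal.mk_out]
      exact (Cardinal.aleph0_pos.trans_le (Cardinal.aleph0_le_aleph _)).ne'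
    refine h6 A hAD _ (fun S hS => hcap n S ?_) z r hz
    rw [Cardinal.mk_out, max_eq_right (Cardinal.aleph0_le_aleph _)] at hS
    exact hS
  · refine mem_fex_of_mem (φ := fun K : Type => fex fun z : K → ℕ → ℕ → Set (Cond A) =>
        fand (fall fun i => IsFun (z i)) (fnot (OrientN TN z))) (Lam ⊕ (Lam × ℕ)) (down_fex _) ?_
    refine mem_fex_of_mem (φ := fun z : Lam ⊕ (Lam × ℕ) → ℕ → ℕ → Set (Cond A) =>
        fand (fall fun i => IsFun (z i)) (fnot (OrientN TN z))) ZN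
        (down_fand (down_fall fun _ => down_IsFun _) (down_fnot _)) ?_
    refine ⟨fun i => isFun_ZN i q, ?_⟩
    refine not_orient hAD hA.1 (fun S hS => exists_bound_lam S ?_) (c7c.2 A hA) q
    exact (Cardinal.mk_le_aleph0_iff.2 hS).trans (Cardinal.aleph0_le_aleph _)

end Pool.Agent.H409_AG.Gr
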