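import Pool.Agent.H409_AG.Stmts

/-!
# Part C: the definitions

The forcing notion which adds a closed graph on the Baire space from a ladder system `A`.
-/

set_option autoImplicit false

namespace Pool.Agent.H409_AG.PC

open Cardinal Pool.Agent.Helper669.Forcing Pool.Agent.H409_AG

/-- the indices of the generic reals: `inl δ` for `x_δ`, `inr (γ, k)` for `y_{γ,k}` -/
abbrev Vtx (L : Type) : Type := L ⊕ (L × ℕ)

/-- the place of an index -/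
def idx {L : Type} : Vtx L → L
  | Sum.inl δ => δ
  | Sum.inr β => β.1

/-- conditions; `val` only matters on `dom` -/
structure Cd {L : Type} (A : L → L → Prop) where
  n : ℕ
  dom : Finset (Vtx L)
  val : Vtx L → List ℕ
  e : Finset (L × (L × ℕ))
  T : Finset (List ℕ × List ℕ)
  len : ∀ v ∈ dom, (val v).length = n
  inj : ∀ β β' : L × ℕ, Sum.inr β ∈ dom → Sum.inr β' ∈ dom →
    val (Sum.inr β) = val (Sum.inr β') → β = β'
  e_left : ∀ δ β, (δ, β) ∈ e → Sum.inl δ ∈ dom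
  e_right : ∀ δ β, (δ, β) ∈ e → Sum.inr β ∈ dom
  e_A : ∀ δ β, (δ, β) ∈ e → A δ β.1
  T_len : ∀ s σ, (s, σ) ∈ T → s.length = σ.length
  T_le : ∀ s σ, (s, σ) ∈ T → s.length ≤ n
  T_take : ∀ s σ, (s, σ) ∈ T → ∀ l, (s.take l, σ.take l) ∈ T
  T_e : ∀ δ β, (δ, β) ∈ e → (val (Sum.inl δ), val (Sum.inr β)) ∈ T
  bound : ∀ (u s s' : List ℕ) (a b : ℕ), a ≠ b → ∀ S : Finset (List ℕ),
    (∀ σ ∈ S, (u ++ a :: s, σ) ∈ T ∧ (u ++ b :: s', σ) ∈ T) → S.card ≤ max a b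

section
variable {L : Type} {A : L → L → Prop}

instance : Preorder (Cd A) where
  le q p := p.n ≤ q.n ∧ p.dom ⊆ q.dom ∧ (∀ v ∈ p.dom, p.val v <+: q.val v) ∧ p.e ⊆ q.e ∧ p.T ⊆ q.T
  le_refl p := ⟨le_rfl, subset_rfl, fun _ _ => List.prefix_rfl, subset_rfl, subset_rfl⟩
  le_trans a b c h1 h2 := ⟨h2.1.trans h1.1, h2.2.1.trans h1.2.1,
    fun v hv => (h2.2.2.1 v hv).trans (h1.2.2.1 v (h2.2.1 hv)), h2.2.2.2.1.trans h1.2.2.2.1,
    h2.2.2.2.2.trans h1.2.2.2.2⟩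

theorem Cd.le_def {q p : Cd A} : q ≤ p ↔ p.n ≤ q.n ∧ p.dom ⊆ q.dom ∧
    (∀ v ∈ p.dom, p.val v <+: q.val v) ∧ p.e ⊆ q.e ∧ p.T ⊆ q.T := Iff.rfl

/-- `p ∈ P_U` -/
def In (U : Set L) (p : Cd A) : Prop := ∀ v ∈ p.dom, idx v ∈ U

open Classical in
/-- the restriction `p|U` -/
noncomputable def Cd.restr (p : Cd A) (U : Set L) : Cd A where
  n := p.n
  dom := p.dom.filter fun v => idx v ∈ U
  val := p.val
  e := p.e.filter fun a => a.1 ∈ U ∧ a.2.1 ∈ U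
  T := p.T
  len v hv := p.len v (Finset.mem_filter.1 hv).1
  inj β β' h h' := p.inj β β' (Finset.mem_filter.1 h).1 (Finset.mem_filter.1 h').1
  e_left δ β h := Finset.mem_filter.2
    ⟨p.e_left δ β (Finset.mem_filter.1 h).1, (Finset.mem_filter.1 h).2.1⟩
  e_right δ β h := Finset.mem_filter.2
    ⟨p.e_right δ β (Finset.mem_filter.1 h).1, (Finset.mem_filter.1 h).2.2⟩
  e_A δ β h := p.e_A δ β (Finset.mem_filter.1 h).1
  T_len := p.T_len
  T_le := p.T_le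
  T_take := p.T_take
  T_e δ β h := p.T_e δ β (Finset.mem_filter.1 h).1
  bound := p.bound

/-- `U` is semi-closed: `A δ ∩ A δ' ⊆ U` for `δ ≠ δ'` in `U` -/
def SemiClosed (A : L → L → Prop) (U : Set L) : Prop :=
  ∀ δ ∈ U, ∀ δ' ∈ U, δ ≠ δ' → ∀ γ, A δ γ → A δ' γ → γ ∈ U

/-- `U` is closed: `A δ ⊆ U` for `δ` in `U` -/
def Closed (A : L → L → Prop) (U : Set L) : Prop := ∀ δ ∈ U, ∀ γ, A δ γ → γ ∈ U

/-- `U` is good in `W`: `A δ ∩ U` is countable for `δ ∈ W \ U` -/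
def Good (A : L → L → Prop) (W U : Set L) : Prop :=
  ∀ δ ∈ W, δ ∉ U → {γ | A δ γ ∧ γ ∈ U}.Countable

/-- the name of the generic graph -/
def Tn (A : L → L → Prop) (s σ : List ℕ) : Set (Cd A) := {p | (s, σ) ∈ p.T}

/-- the name of the generic real with index `v` -/
def Xn (A : L → L → Prop) (v : Vtx L) (i a : ℕ) : Set (Cd A) :=
  {p | v ∈ p.dom ∧ i < p.n ∧ (p.val v).getD i 0 = a}

/-- names of elements of the Baire space -/
abbrev RN (A : L → L → Prop) : Type := ℕ → ℕ → Set (Cd A)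

/-- `x` is a `P_U`-name of an element of the Baire space (forced by all conditions) -/
def Nm (A : L → L → Prop) (U : Set L) : Set (RN A) :=
  {x | (∀ l a, ∀ r ∈ x l a, In U r) ∧ ∀ p, p ∈ IsFun x}

end

/-! ### The statements of the pieces -/

section
variable (L : Type) [LinearOrder L] [WellFoundedLT L] (A : L → L → Prop)

/-- general hypotheses on the ladder system -/
structure Lad : Prop where
  lt : ∀ δ γ, A δ γ → γ < δ
  inter : ∀ δ δ', δ ≠ δ' → {γ | A δ γ ∧ A δ' γ}.Countable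

/-- C1a: RED -/
def S_red : Prop := ∀ (U : Set L), SemiClosed A U → ∀ w q : Cd A, In U w → w ≤ q.restr U →
  ∃ r, r ≤ w ∧ r ≤ q

/-- C1b: semi-closure of countable sets -/
def S_semi : Prop := Lad L A → ∀ (Z : Set L), Z.Countable → ∃ Z' : Set L, Z ⊆ Z' ∧ Z'.Countable ∧
  SemiClosed A Z' ∧ (∀ γ ∈ Z', ∃ δ ∈ Z, γ ≤ δ) ∧ ∀ U, SemiClosed A U → Z ⊆ U → Z' ⊆ U

/-- C1c: the countable chain condition -/
def S_ccc : Prop := Lad L A → ∀ (Y : Type) (f : Y → Cd A), ¬ Countable Y →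
  ∃ y y', y ≠ y' ∧ ∃ s, s ≤ f y ∧ s ≤ f y'

/-- C2: the generic graph is not orientable -/
def S_notOrient : Prop := Lad L A → (∀ f : ℕ → L, ∃ b, ∀ j, f j < b) →
  (∀ c : L → L, ∃ δ, ¬ {γ | A δ γ}.Countable ∧ ∀ γ, γ < δ → c γ < δ) →
  ∀ p : Cd A, p ∈ fex fun K : Type => fex fun z : K → ℕ → ℕ → Set (Cd A) =>
        fand (fall fun i => IsFun (z i)) (fnot (OrientN (Tn A) z))

/-- C3 (d'): countably many neighbours on the right -/
def S_right : Prop := Lad L A → ∀ (U W : Set L), Closed A U → Closed A W → U ⊆ W → Good A W U →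
  ∀ τ ∈ Nm A W, ∃ Nb : Set (RN A), Nb.Countable ∧ ∀ υ ∈ Nm A U, ∀ p ∈ RTN (Tn A) τ υ,
    ∃ q ≤ p, (∃ υ' ∈ Nm A U, q ∈ SameReal τ υ') ∨ (∃ υ' ∈ Nb, q ∈ SameReal υ υ')

/-- C4 (d''): countably many neighbours on the left -/
def S_left : Prop := Lad L A → ∀ (U W : Set L), Closed A U → Closed A W → U ⊆ W → Good A W U →
  ∀ τ ∈ Nm A W, ∃ Nb : Set (RN A), Nb.Countable ∧ ∀ υ ∈ Nm A U, ∀ p ∈ RTN (Tn A) υ τ,
    ∃ q ≤ p, (∃ υ' ∈ Nm A U, q ∈ SameReal τ υ') ∨ (∃ υ' ∈ Nb, q ∈ SameReal υ υ')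

/-- an orientation, in the ground model, of the names in `N` -/
def GOrient (N : Set (RN A)) : Prop := ∃ F : RN A → Set (RN A), (∀ υ, (F υ).Countable) ∧
  ∀ υ ∈ N, ∀ υ' ∈ N, ∀ p ∈ RTN (Tn A) υ υ', ∃ q ≤ p,
    (∃ x ∈ F υ, q ∈ SameReal x υ') ∨ (∃ x ∈ F υ', q ∈ SameReal x υ)

/-- countable supports: each name is equivalent to one with a countable support -/
def S_supp : Prop := Lad L A → ∀ (W : Set L), SemiClosed A W → ∀ τ ∈ Nm A W, ∃ Z ⊆ W, Z.Countable ∧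
  ∃ τ' ∈ Nm A Z, (∀ l a, (τ' l a).Countable) ∧ ∀ p, p ∈ SameReal τ τ'

/-- C5a: the base of the induction (under CH) -/
def S_base : Prop := ContinuumHyp → Lad L A → ∀ (W : Set L), SemiClosed A W → #W ≤ ℵ₁ →
  GOrient L A (Nm A W)

/-- C5b: the step of the induction: `C i`, `i : K`, are closed and good, and so are the unions of
them, and `K` is well-ordered -/
def S_step : Prop := Lad L A → ∀ (K : Type) [LinearOrder K] [WellFoundedLT K] (C : K → Set L),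
  (∀ f : ℕ → K, ∃ b, ∀ j, f j < b) → (∀ i, Closed A (C i)) →
  (∀ i, Good A (⋃ j, C j) (⋃ j ∈ Set.Iio i, C j)) →
  (∀ i : K, GOrient L A (Nm A (⋃ j ∈ Set.Iio i, C j))) → GOrient L A (Nm A (⋃ j, C j))

/-- C5c: the result of the induction: for each bound `α` below which `A` is free -/
def S_ind : Prop := ContinuumHyp → Lad L A → (∀ δ, #{γ // A δ γ} ≤ ℵ₁) → ∀ α : L,
  (∃ g : L → Set L, (∀ δ, (g δ).Countable) ∧ ∀ δ δ', δ < α → δ' < α → δ ≠ δ' →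
    ∀ γ, A δ γ → A δ' γ → γ ∈ g δ ∨ γ ∈ g δ') →
  ∀ (n : ℕ) (W : Set L), #W ≤ ℵ_ n → (∀ γ ∈ W, γ < α) → ∃ W' : Set L, W ⊆ W' ∧ SemiClosed A W' ∧
    GOrient L A (Nm A W')

/-- C6: orientations of families of arbitrary names -/
def S_orient : Prop := ContinuumHyp → Lad L A → (∀ δ, #{γ // A δ γ} ≤ ℵ₁) →
  (∀ (n : ℕ) (f : (ℵ_ n : Cardinal.{0}).out → L), ∃ b, ∀ j, f j < b) →
  (∀ α : L, ∃ g : L → Set L, (∀ δ, (g δ).Countable) ∧ ∀ δ δ', δ < α → δ' < α → δ ≠ δ' →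
    ∀ γ, A δ γ → A δ' γ → γ ∈ g δ ∨ γ ∈ g δ') →
  ∀ (p : Cd A) (n : ℕ) (z : (ℵ_ n : Cardinal.{0}).out → ℕ → ℕ → Set (Cd A)),
    (∀ i, p ∈ IsFun (z i)) → p ∈ OrientN (Tn A) z

end

end Pool.Agent.H409_AG.PC
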