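import Pool.Agent.H409_AG.PartC_Defs

/-!
# Part C: general facts on names of reals, and on restrictions of conditions
-/

set_option autoImplicit false

namespace Pool.Agent.H409_AG.PC

open Cardinal Pool.Agent.Helper669.Forcing Pool.Agent.H409_AG

section General
variable {P : Type} [Preorder P]

theorem meets_of_dense {N : Set P} {p : P} (h : ∀ q ≤ p, ∃ r ≤ q, r ∈ meets N) : p ∈ meets N := by
  intro q hq
  obtain ⟨r, hr, h1⟩ := h q hq
  obtain ⟨r', hr', h2⟩ := h1 r le_rfl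
  exact ⟨r', hr'.trans hr, h2⟩

theorem mem_meets_fground {h : Prop} {p : P} : p ∈ meets (fground (P := P) h) ↔ h := by
  constructor
  · intro hp
    obtain ⟨r, -, s, hs, -⟩ := hp p le_rfl
    exact hs
  · intro hh
    exact meets_of_mem hh

/-- deciding one value -/
theorem exists_value {x : ℕ → ℕ → Set P} {p : P} (h : p ∈ IsFun x) (l : ℕ) :
    ∃ r ≤ p, ∃ a, r ∈ meets (x l a) := IsFun.total h l

theorem value_unique {x : ℕ → ℕ → Set P} {p : P} (h : p ∈ IsFun x) {l a b : ℕ}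
    (h1 : p ∈ meets (x l a)) (h2 : p ∈ meets (x l b)) : a = b := IsFun.unique h h1 h2

theorem sameReal_of {x y : ℕ → ℕ → Set P} {p : P}
    (h : ∀ q ≤ p, ∀ l a b, q ∈ meets (x l a) → q ∈ meets (y l b) → a = b) : p ∈ SameReal x y :=
  fun l a b => mem_fimp.2 fun q hq hh => ⟨q, le_rfl, h q hq l a b hh.1 hh.2⟩

theorem sameReal_refl {x : ℕ → ℕ → Set P} {p : P} (h : p ∈ IsFun x) : p ∈ SameReal x x :=
  sameReal_of fun _ hq _ _ _ h1 h2 => IsFun.unique (down_IsFun x _ h _ hq) h1 h2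

theorem sameReal_symm {x y : ℕ → ℕ → Set P} {p : P} (h : p ∈ SameReal x y) : p ∈ SameReal y x :=
  sameReal_of fun _ hq _ _ _ h1 h2 => (SameReal.eq (down_SameReal x y _ h _ hq) h2 h1).symm

theorem sameReal_meets {x y : ℕ → ℕ → Set P} {p : P} (hy : p ∈ IsFun y) (h : p ∈ SameReal x y)
    {l a : ℕ} (h1 : p ∈ meets (x l a)) : p ∈ meets (y l a) := by
  refine meets_of_dense fun q hq => ?_
  obtain ⟨r, hr, b, hb⟩ := IsFun.total (down_IsFun y _ hy _ hq) l
  have := SameReal.eq (down_SameReal x y _ h _ (hr.trans hq))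
    (down_meets _ _ h1 _ (hr.trans hq)) hb
  exact ⟨r, hr, this ▸ hb⟩

theorem sameReal_trans {x y z : ℕ → ℕ → Set P} {p : P} (hy : p ∈ IsFun y)
    (h : p ∈ SameReal x y) (h' : p ∈ SameReal y z) : p ∈ SameReal x z :=
  sameReal_of fun _ hq _ _ _ h1 h2 => SameReal.eq (down_SameReal y z _ h' _ hq)
    (sameReal_meets (down_IsFun y _ hy _ hq) (down_SameReal x y _ h _ hq) h1) h2

/-- two names which are not forced to be equal are forced to differ by a stronger condition -/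
theorem exists_differ {x y : ℕ → ℕ → Set P} {p : P} (h : p ∉ SameReal x y) :
    ∃ q ≤ p, ∃ l a b, a ≠ b ∧ q ∈ meets (x l a) ∧ q ∈ meets (y l b) := by
  by_contra hcon
  push Not at hcon
  refine h (sameReal_of fun q hq l a b h1 h2 => ?_)
  by_contra hne
  exact hcon q hq l a b hne h1 h2

theorem initSeg_congr {x y : ℕ → ℕ → Set P} {p : P} (hy : p ∈ IsFun y) (h : p ∈ SameReal x y)
    {s : List ℕ} (h1 : p ∈ InitSeg s x) : p ∈ InitSeg s y :=
  fun i hi => sameReal_meets hy h (h1 i hi)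

theorem mem_RTN {T : List ℕ → List ℕ → Set P} {x y : ℕ → ℕ → Set P} {p : P} :
    p ∈ RTN T x y ↔ ∀ q ≤ p, ∀ s t : List ℕ, s.length = t.length → q ∈ InitSeg s x →
      q ∈ InitSeg t y → q ∈ meets (T s t) := by
  constructor
  · intro h q hq s t hst h1 h2
    refine meets_of_dense fun r hr => ?_
    exact mem_fimp.1 (h s t hst) r (hr.trans hq)
      ⟨down_InitSeg s x _ h1 _ hr, down_InitSeg t y _ h2 _ hr⟩
  · intro h s t hst
    exact mem_fimp.2 fun q hq hh => ⟨q, le_rfl, h q hq s t hst hh.1 hh.2⟩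

theorem down_RTN (T : List ℕ → List ℕ → Set P) (x y : ℕ → ℕ → Set P) : Down (RTN T x y) :=
  down_fall fun _ => down_fall fun _ => down_fall fun _ => down_fimp _ _

theorem RTN_congr {T : List ℕ → List ℕ → Set P} {x y x' y' : ℕ → ℕ → Set P} {p : P}
    (hx : p ∈ IsFun x) (hy : p ∈ IsFun y) (h : p ∈ SameReal x x') (h' : p ∈ SameReal y y')
    (h1 : p ∈ RTN T x y) : p ∈ RTN T x' y' :=
  mem_RTN.2 fun q hq s t hst h2 h3 => mem_RTN.1 h1 q hq s t hst
    (initSeg_congr (down_IsFun x _ hx _ hq) (sameReal_symm (down_SameReal _ _ _ h _ hq)) h2)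
    (initSeg_congr (down_IsFun y _ hy _ hq) (sameReal_symm (down_SameReal _ _ _ h' _ hq)) h3)

/-- deciding an initial segment -/
theorem exists_initSeg {x : ℕ → ℕ → Set P} {p : P} (h : p ∈ IsFun x) (N : ℕ) :
    ∃ q ≤ p, ∃ s : List ℕ, s.length = N ∧ q ∈ InitSeg s x := by
  induction N with
  | zero => exact ⟨p, le_rfl, [], rfl, fun i hi => absurd hi (Nat.not_lt_zero i)⟩
  | succ N ih =>
    obtain ⟨q, hq, s, hs, h1⟩ := ih
    obtain ⟨r, hr, a, ha⟩ := IsFun.total (down_IsFun x _ h _ hq) N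
    refine ⟨r, hr.trans hq, s ++ [a], by simp [hs], fun i hi => ?_⟩
    rcases Nat.lt_or_ge i N with h2 | h2
    · rw [List.getD_append _ _ _ _ (by rw [hs]; exact h2)]
      exact down_meets _ _ (h1 i (by rw [hs]; exact h2)) _ hr
    · have h3 : i = N := by
        have : i < N + 1 := by simpa [hs] using hi
        omega
      subst h3
      rw [List.getD_append_right _ _ _ _ (by rw [hs])]
      simpa [hs] using ha

theorem initSeg_getD {x : ℕ → ℕ → Set P} {p : P} (h : p ∈ IsFun x) {s : List ℕ}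
    (hs : p ∈ InitSeg s x) {l a : ℕ} (hl : l < s.length) (ha : p ∈ meets (x l a)) :
    s.getD l 0 = a := IsFun.unique h (hs l hl) ha

/-- initial segments of the same name are comparable -/
theorem initSeg_prefix {x : ℕ → ℕ → Set P} {p : P} (h : p ∈ IsFun x) {s t : List ℕ}
    (hs : p ∈ InitSeg s x) (ht : p ∈ InitSeg t x) (hst : s.length ≤ t.length) :
    ∃ r, t = s ++ r := by
  have h1 : s <+: t := by
    rw [List.prefix_iff_eq_take]
    apply List.ext_getElem
    · simp [hst]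
    · intro i h2 h3
      have h4 : i < t.length := h2.trans_le hst
      have := IsFun.unique h (hs i h2) (ht i h4)
      rw [List.getD_eq_getElem _ _ h2, List.getD_eq_getElem _ _ h4] at this
      simpa using this
  obtain ⟨r, hr⟩ := h1
  exact ⟨r, hr.symm⟩

/-- the first difference of two lists -/
theorem exists_diff : ∀ {s t : List ℕ}, s.length = t.length → s ≠ t →
    ∃ u a b s' t', a ≠ b ∧ s = u ++ a :: s' ∧ t = u ++ b :: t'
  | [], [], _, h => absurd rfl h
  | [], _ :: _, h, _ => by simp at h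
  | _ :: _, [], h, _ => by simp at h
  | a :: s, b :: t, h, hne => by
    by_cases hab : a = b
    · subst hab
      obtain ⟨u, a', b', s', t', h1, h2, h3⟩ := exists_diff (s := s) (t := t) (by simpa using h)
        (fun h' => hne (by rw [h']))
      exact ⟨a :: u, a', b', s', t', h1, by rw [h2]; rfl, by rw [h3]; rfl⟩
    · exact ⟨[], a, b, s, t, hab, rfl, rfl⟩

/-- inside every set there is a countable set such that each member of the set is compatible
with one of them -/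
theorem exists_antichain
    (hP : ∀ (Y : Type) (f : Y → P), ¬ Countable Y → ∃ y y', y ≠ y' ∧ ∃ s, s ≤ f y ∧ s ≤ f y')
    (D : Set P) : ∃ B ⊆ D, B.Countable ∧ ∀ p ∈ D, ∃ a ∈ B, ∃ s, s ≤ a ∧ s ≤ p := by
  obtain ⟨B, hB⟩ := zorn_subset {B : Set P | B ⊆ D ∧ ∀ a ∈ B, ∀ b ∈ B,
      (∃ s, s ≤ a ∧ s ≤ b) → a = b}
    (by
      intro c hc hchain
      refine ⟨⋃₀ c, ⟨Set.sUnion_subset fun s hs => (hc hs).1, ?_⟩,
        fun s hs => Set.subset_sUnion_of_mem hs⟩
      rintro a ⟨s, hs, ha⟩ b ⟨t, ht, hb⟩ hab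
      rcases hchain.total hs ht with h | h
      · exact (hc ht).2 a (h ha) b hb hab
      · exact (hc hs).2 a ha b (h hb) hab)
  refine ⟨B, hB.prop.1, ?_, ?_⟩
  · by_contra hcount
    have hcount' : ¬ Countable B := hcount
    obtain ⟨y, y', hne, h⟩ := hP B (fun a : B => a.1) hcount'
    exact hne (Subtype.ext (hB.prop.2 y.1 y.2 y'.1 y'.2 h))
  · intro p hp
    by_contra hcon
    push Not at hcon
    have hmem : insert p B ∈ {B : Set P | B ⊆ D ∧ ∀ a ∈ B, ∀ b ∈ B,
        (∃ s, s ≤ a ∧ s ≤ b) → a = b} := by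
      refine ⟨Set.insert_subset hp hB.prop.1, ?_⟩
      rintro a (rfl | ha) b (rfl | hb) ⟨s, h1, h2⟩
      · rfl
      · exact absurd h1 (hcon b hb s h2)
      · exact absurd h2 (hcon a ha s h1)
      · exact hB.prop.2 a ha b hb ⟨s, h1, h2⟩
    exact hcon p (hB.le_of_ge hmem (Set.subset_insert p B) (Set.mem_insert p B)) p le_rfl le_rfl

/-- among uncountably many conditions there is one all of whose extensions are compatible with
uncountably many of them -/
theorem exists_refine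
    (hP : ∀ (Y : Type) (f : Y → P), ¬ Countable Y → ∃ y y', y ≠ y' ∧ ∃ s, s ≤ f y ∧ s ≤ f y')
    {Y : Type} (f : Y → P) (hY : ¬ Countable Y) :
    ∃ y, ∀ w ≤ f y, ¬ {y' | ∃ s, s ≤ w ∧ s ≤ f y'}.Countable := by
  by_contra hcon
  push Not at hcon
  choose g hg1 hg2 using hcon
  obtain ⟨B, hB1, hB2, hB3⟩ := exists_antichain hP (Set.range g)
  have hc : (⋃ b ∈ B, {y' | ∃ s, s ≤ b ∧ s ≤ f y'}).Countable := by
    refine hB2.biUnion fun b hb => ?_
    obtain ⟨y, rfl⟩ := hB1 hb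
    exact hg2 y
  refine hY (Set.countable_univ_iff.1 (hc.mono fun y _ => ?_))
  obtain ⟨b, hb, s, h1, h2⟩ := hB3 (g y) ⟨y, rfl⟩
  exact Set.mem_biUnion hb ⟨s, h1, h2.trans (hg1 y)⟩

end General

section Restr
variable {L : Type} {A : L → L → Prop}

theorem mem_restr_dom {p : Cd A} {U : Set L} {v : Vtx L} :
    v ∈ (p.restr U).dom ↔ v ∈ p.dom ∧ idx v ∈ U := by
  classical
  exact Finset.mem_filter

theorem mem_restr_e {p : Cd A} {U : Set L} {a : L × (L × ℕ)} :
    a ∈ (p.restr U).e ↔ a ∈ p.e ∧ a.1 ∈ U ∧ a.2.1 ∈ U := by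
  classical
  exact Finset.mem_filter

theorem Cd.le_restr (p : Cd A) (U : Set L) : p ≤ p.restr U :=
  ⟨le_rfl, fun _ hv => (mem_restr_dom.1 hv).1, fun _ _ => List.prefix_rfl,
    fun _ hv => (mem_restr_e.1 hv).1, subset_rfl⟩

theorem in_restr (p : Cd A) (U : Set L) : In U (p.restr U) :=
  fun _ hv => (mem_restr_dom.1 hv).2

theorem restr_mono {q p : Cd A} (h : q ≤ p) (U : Set L) : q.restr U ≤ p.restr U :=
  ⟨h.1, fun _ hv => mem_restr_dom.2 ⟨h.2.1 (mem_restr_dom.1 hv).1, (mem_restr_dom.1 hv).2⟩,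
    fun v hv => h.2.2.1 v (mem_restr_dom.1 hv).1,
    fun _ hv => mem_restr_e.2 ⟨h.2.2.2.1 (mem_restr_e.1 hv).1, (mem_restr_e.1 hv).2⟩, h.2.2.2.2⟩

theorem restr_le {p : Cd A} {U : Set L} (h : In U p) : p.restr U ≤ p :=
  ⟨le_rfl, fun _ hv => mem_restr_dom.2 ⟨hv, h _ hv⟩, fun _ _ => List.prefix_rfl,
    fun _ ha => mem_restr_e.2 ⟨ha, h _ (p.e_left _ _ ha), h _ (p.e_right _ _ ha)⟩,
    subset_rfl⟩

theorem restr_le_of_le {q p : Cd A} {U : Set L} (hp : In U p) (h : q ≤ p) : q.restr U ≤ p :=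
  (restr_mono h U).trans (restr_le hp)

theorem In.mono {U V : Set L} (h : U ⊆ V) {p : Cd A} (hp : In U p) : In V p :=
  fun v hv => h (hp v hv)

theorem Nm_mono {U V : Set L} (h : U ⊆ V) : Nm A U ⊆ Nm A V :=
  fun _ hx => ⟨fun l a r hr => (hx.1 l a r hr).mono h, hx.2⟩

theorem Closed.semi {U : Set L} (h : Closed A U) : SemiClosed A U :=
  fun δ hδ _ _ _ γ h1 _ => h δ hδ γ h1

/-- RED for `U` -/
def Red (A : L → L → Prop) (U : Set L) : Prop :=
  ∀ w q : Cd A, In U w → w ≤ q.restr U → ∃ r, r ≤ w ∧ r ≤ q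

theorem meets_restr {U : Set L} (hred : Red A U) {N : Set (Cd A)} (hN : ∀ r ∈ N, In U r)
    {p : Cd A} (h : p ∈ meets N) : p.restr U ∈ meets N := by
  intro q hq
  obtain ⟨r, h1, h2⟩ := hred (q.restr U) p (in_restr _ _) (restr_le_of_le (in_restr _ _) hq)
  obtain ⟨r', h3, s, hs, h4⟩ := h r h2
  obtain ⟨t, h5, h6⟩ := hred (r'.restr U) q (in_restr _ _)
    (restr_le_of_le (in_restr _ _) (h3.trans h1))
  exact ⟨t, h6, s, hs, h5.trans (restr_le_of_le (hN s hs) h4)⟩

theorem value_restr {U : Set L} (hred : Red A U) {x : RN A} (hx : x ∈ Nm A U) {p : Cd A}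
    {l a : ℕ} (h : p ∈ meets (x l a)) : p.restr U ∈ meets (x l a) :=
  meets_restr hred (hx.1 l a) h

theorem initSeg_restr {U : Set L} (hred : Red A U) {x : RN A} (hx : x ∈ Nm A U) {p : Cd A}
    {s : List ℕ} (h : p ∈ InitSeg s x) : p.restr U ∈ InitSeg s x :=
  fun i hi => value_restr hred hx (h i hi)

theorem sameReal_restr {U : Set L} (hred : Red A U) {x y : RN A} (hx : x ∈ Nm A U)
    (hy : y ∈ Nm A U) {p : Cd A} (h : p ∈ SameReal x y) : p.restr U ∈ SameReal x y :=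
  sameReal_of fun q hq l a b h1 h2 => by
    obtain ⟨t, h3, h4⟩ := hred (q.restr U) p (in_restr _ _) (restr_le_of_le (in_restr _ _) hq)
    exact SameReal.eq (down_SameReal _ _ _ h _ h4)
      (down_meets _ _ (value_restr hred hx h1) _ h3) (down_meets _ _ (value_restr hred hy h2) _ h3)

theorem mem_meets_Tn {s t : List ℕ} {p : Cd A} (h : p ∈ meets (Tn A s t)) :
    ∃ q ≤ p, (s, t) ∈ q.T := by
  obtain ⟨r, hr, s', hs', h1⟩ := h p le_rfl
  exact ⟨r, hr, h1.2.2.2.2 hs'⟩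

theorem meets_Tn_of_mem {s t : List ℕ} {p : Cd A} (h : (s, t) ∈ p.T) : p ∈ meets (Tn A s t) :=
  meets_of_mem h

theorem RTN_restr {U : Set L} (hred : Red A U) {x y : RN A} (hx : x ∈ Nm A U)
    (hy : y ∈ Nm A U) {p : Cd A} (h : p ∈ RTN (Tn A) x y) : p.restr U ∈ RTN (Tn A) x y := by
  refine mem_RTN.2 fun q hq s t hst h1 h2 => meets_of_dense fun q' hq' => ?_
  obtain ⟨r, h3, h4⟩ := hred (q'.restr U) p (in_restr _ _)
    (restr_le_of_le (in_restr _ _) (hq'.trans hq))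
  obtain ⟨r', h5, h6⟩ := mem_meets_Tn (mem_RTN.1 h r h4 s t hst
    (down_InitSeg _ _ _ (initSeg_restr hred hx (down_InitSeg _ _ _ h1 _ hq')) _ h3)
    (down_InitSeg _ _ _ (initSeg_restr hred hy (down_InitSeg _ _ _ h2 _ hq')) _ h3))
  obtain ⟨t', h7, h8⟩ := hred (r'.restr U) q' (in_restr _ _)
    (restr_le_of_le (in_restr _ _) (h5.trans h3))
  exact ⟨t', h8, meets_Tn_of_mem (h7.2.2.2.2 h6)⟩

end Restr

end Pool.Agent.H409_AG.PC
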