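import Pool.Agent.H409_AG.PartD_Base

/-!
# Part D: the group is Borel, and its transport to the real line
-/

set_option autoImplicit false

namespace Pool.Agent.H409_AG.D

open PiNat Cardinal Filter Topology
open scoped Pointwise

section Sigma

variable {G : Type*} [Group G] [TopologicalSpace G] [IsTopologicalGroup G]

theorem isCompact_pow {A : Set G} (hA : IsCompact A) (n : ℕ) : IsCompact (A ^ n) := by
  induction n with
  | zero => simp
  | succ n ih => rw [pow_succ]; exact ih.mul hA

/-- The subgroup generated by a sigma-compact set is sigma-compact. -/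
theorem isSigmaCompact_closure {s : Set G} (hs : IsSigmaCompact s) :
    IsSigmaCompact (Subgroup.closure s : Set G) := by
  obtain ⟨K, hK, rfl⟩ := hs
  set B : ℕ → Set G := fun n => ⋃ i ∈ Finset.range n, K i with hB
  set A : ℕ → Set G := fun n => B n ∪ (B n)⁻¹ ∪ {1} with hA
  have hBm : Monotone B := by
    intro m n h
    simp only [hB]
    exact Set.biUnion_subset_biUnion_left (fun i hi => by
      simp only [Finset.coe_range, Set.mem_Iio, Finset.mem_range] at *
      have : i < m := by simpa using hi
      simpa using lt_of_lt_of_le this h)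
  have hAm : Monotone A := by
    intro m n h
    simp only [hA]
    exact Set.union_subset_union_left _ (Set.union_subset_union (hBm h) (Set.inv_subset_inv.2 (hBm h)))
  have hBc : ∀ n, IsCompact (B n) := fun n => (Finset.range n).isCompact_biUnion fun i _ => hK i
  have hAc : ∀ n, IsCompact (A n) := fun n => ((hBc n).union (hBc n).inv).union isCompact_singleton
  have h1 : ∀ n, (1 : G) ∈ A n := fun n => Or.inr rfl
  have hAi : ∀ n, (A n)⁻¹ = A n := by
    intro n
    simp only [hA, Set.union_inv, inv_inv, Set.inv_singleton, inv_one]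
    rw [Set.union_comm (B n)⁻¹]
  refine ⟨fun n => A n ^ n, fun n => isCompact_pow (hAc n) n, ?_⟩
  apply Set.Subset.antisymm
  · refine Set.iUnion_subset fun n => ?_
    have key : A n ⊆ (Subgroup.closure (⋃ i, K i) : Set G) := by
      have hBn : B n ⊆ (Subgroup.closure (⋃ i, K i) : Set G) := by
        intro g hg
        simp only [hB, Set.mem_iUnion] at hg
        obtain ⟨i, _, hi⟩ := hg
        exact Subgroup.subset_closure (Set.mem_iUnion.2 ⟨i, hi⟩)
      rintro g ((hg | hg) | hg)
      · exact hBn hg
      · have := hBn (Set.mem_inv.1 hg)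
        simpa using (inv_mem this : (g⁻¹)⁻¹ ∈ Subgroup.closure (⋃ i, K i))
      · rw [Set.mem_singleton_iff] at hg
        subst hg
        exact one_mem _
    have : ∀ k, A n ^ k ⊆ (Subgroup.closure (⋃ i, K i) : Set G) := by
      intro k
      induction k with
      | zero =>
        intro g hg
        simp only [pow_zero, Set.mem_one] at hg
        subst hg
        exact one_mem _
      | succ k ih =>
        rw [pow_succ]
        rintro g ⟨a, ha, b, hb, rfl⟩
        exact mul_mem (ih ha) (key hb)
    exact this n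
  · intro g hg
    rw [SetLike.mem_coe] at hg
    induction hg using Subgroup.closure_induction with
    | mem g hg =>
      obtain ⟨i, hi⟩ := Set.mem_iUnion.1 hg
      refine Set.mem_iUnion.2 ⟨i + 1, ?_⟩
      have hg' : g ∈ A (i + 1) := by
        refine Or.inl (Or.inl ?_)
        simp only [hB, Set.mem_iUnion]
        exact ⟨i, by simp, hi⟩
      have := Set.pow_subset_pow_right (h1 (i + 1)) (show 1 ≤ i + 1 by omega)
      rw [pow_one] at this
      exact this hg'
    | one => exact Set.mem_iUnion.2 ⟨0, by simp⟩
    | mul a b _ _ iha ihb =>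
      obtain ⟨m, hm⟩ := Set.mem_iUnion.1 iha
      obtain ⟨n, hn⟩ := Set.mem_iUnion.1 ihb
      refine Set.mem_iUnion.2 ⟨m + n, ?_⟩
      refine (?_ : a * b ∈ A (m + n) ^ (m + n))
      rw [pow_add]
      exact Set.mul_mem_mul (Set.pow_subset_pow_left (hAm (by omega)) hm)
        (Set.pow_subset_pow_left (hAm (by omega)) hn)
    | inv a _ ih =>
      obtain ⟨n, hn⟩ := Set.mem_iUnion.1 ih
      refine Set.mem_iUnion.2 ⟨n, ?_⟩
      have : (A n ^ n)⁻¹ = A n ^ n := by rw [← inv_pow, hAi]
      refine (?_ : a⁻¹ ∈ A n ^ n)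
      rw [← this]
      simpa using hn

end Sigma

theorem eventually_res (x : Ca) (m : ℕ) : ∀ᶠ y in 𝓝 x, res y m = res x m := by
  have : ∀ᶠ y in 𝓝 x, ∀ i ∈ Finset.range m, y i = x i := by
    rw [Filter.eventually_all_finset]
    intro i _
    have h := (continuous_apply (A := fun _ : ℕ => Bool) i).continuousAt (x := x)
    have h2 : {x i} ∈ 𝓝 (x i) := by simp
    exact h.eventually h2
  filter_upwards [this] with y hy
  rw [res_eq_res]
  intro i hi
  exact hy i (by simpa using hi)

theorem continuous_of_res {m : ℕ} {f : Ca → Fr} (h : ∀ x y, res y m = res x m → f y = f x) :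
    Continuous f := by
  rw [continuous_iff_continuousAt]
  intro x
  rw [ContinuousAt, nhds_discrete Fr, Filter.tendsto_pure]
  filter_upwards [eventually_res x m] with y hy using h x y hy

theorem continuous_of_res₂ {m : ℕ} {f : Ca × Ca → Fr}
    (h : ∀ p q : Ca × Ca, res q.1 m = res p.1 m → res q.2 m = res p.2 m → f q = f p) :
    Continuous f := by
  rw [continuous_iff_continuousAt]
  intro p
  rw [ContinuousAt, nhds_discrete Fr, Filter.tendsto_pure]
  have h1 := (continuous_fst.continuousAt (x := p)).eventually (eventually_res p.1 m)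
  have h2 := (continuous_snd.continuousAt (x := p)).eventually (eventually_res p.2 m)
  filter_upwards [h1, h2] with q hq1 hq2 using h p q hq1 hq2

theorem continuous_let (b : Bool) (t : List Bool) : Continuous fun x : Ca => let' (b, x) t := by
  refine continuous_pi fun m => continuous_of_res (m := m) fun x y h => ?_
  simp only [let', h]

theorem res_mono {x y : Ca} {m n : ℕ} (h : res x m = res y m) (hn : n ≤ m) :
    res x n = res y n := by
  rw [res_eq_res] at *
  intro i hi
  exact h (lt_of_lt_of_le hi hn)

theorem zz_congr {x y x' y' : Ca} {m : ℕ} (hx : res x m = res x' m) (hy : res y m = res y' m)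
    (k : ℕ) : zz x y m k = zz x' y' m k := by
  induction k with
  | zero => rfl
  | succ k ih =>
    simp only [zz, ih, let', hx, hy, res_mono hx (Nat.sub_le m k), res_mono hy (Nat.sub_le m k)]

theorem continuous_z (n : ℕ) : Continuous fun p : Ca × Ca => z p.1 p.2 n := by
  refine continuous_pi fun m => continuous_of_res₂ (m := m) fun p q h1 h2 => ?_
  exact zz_congr h1 h2 _

theorem isSigmaCompact_Gen {R : Set (Ca × Ca)} (hR : IsClosed R) :
    IsSigmaCompact (Gen R Set.univ) := by
  have : Gen R Set.univ = (⋃ p : Bool × List Bool, Set.range fun x : Ca => let' (p.1, x) p.2) ∪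
      ⋃ n : ℕ, (fun p : Ca × Ca => z p.1 p.2 n) '' R := by
    ext g
    simp only [Gen, Set.mem_univ, true_and, Set.mem_ofPred_eq, Set.mem_union, Set.mem_iUnion,
      Set.mem_range, Set.mem_image, Prod.exists]
    constructor
    · rintro (⟨b, x, t, rfl⟩ | ⟨x, y, n, h, rfl⟩)
      · exact Or.inl ⟨b, t, x, rfl⟩
      · exact Or.inr ⟨n, x, y, h, rfl⟩
    · rintro (⟨b, t, x, rfl⟩ | ⟨n, x, y, h, rfl⟩)
      · exact Or.inl ⟨b, x, t, rfl⟩
      · exact Or.inr ⟨x, y, n, h, rfl⟩
  rw [this]
  rw [Set.union_eq_iUnion]
  refine isSigmaCompact_iUnion _ fun b => ?_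
  cases b
  · exact isSigmaCompact_iUnion_of_isCompact _ fun n => hR.isCompact.image (continuous_z n)
  · exact isSigmaCompact_iUnion_of_isCompact _ fun p => isCompact_range (continuous_let p.1 p.2)

instance : MeasurableSpace Fr := ⊤

instance : BorelSpace Fr := ⟨borel_eq_top_of_discrete.symm⟩

theorem measurableSet_GS {R : Set (Ca × Ca)} (hR : IsClosed R) :
    MeasurableSet (GS R Set.univ : Set Om) := by
  obtain ⟨K, hK, h⟩ := isSigmaCompact_closure (isSigmaCompact_Gen hR)
  rw [GS, ← h]
  exact MeasurableSet.iUnion fun n => (hK n).measurableSet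

theorem not_countable_GS (R : Set (Ca × Ca)) : ¬ Countable (GS R Set.univ) := by
  intro hc
  have hinj : Function.Injective fun x : Ca =>
      (⟨let' (false, x) [], Subgroup.subset_closure (Or.inl ⟨_, trivial, _, rfl⟩)⟩ :
        GS R Set.univ) := by
    intro x y h
    have h1 : let' (false, x) [] = let' (false, y) [] := congrArg Subtype.val h
    apply res_injective
    funext m
    have h2 := congrFun h1 m
    simp only [let', List.length_nil, zero_le, Fr.of] at h2
    have h3 := FreeGroup.of_injective h2
    simpa using h3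
  have : Countable Ca := hinj.countable
  have h1 := Cardinal.mk_le_aleph0 (α := Ca)
  simp only [Cardinal.mk_pi, Cardinal.mk_fintype, Fintype.card_bool, Nat.cast_ofNat,
    Cardinal.prod_const, Cardinal.lift_id, Cardinal.mk_nat] at h1
  exact absurd h1 (not_le.2 (Cardinal.cantor ℵ₀))

/-- Transport of a subgroup of `Om` to another type. -/
theorem transfer (H : Subgroup Om) {α : Type} (e : H ≃ α) :
    ∃ G : Group α, (∀ a b, G.mul a b = e (e.symm a * e.symm b)) ∧
      (IsFreeGroup α → IsFreeGroup H) ∧
      ∀ K : Subgroup α, ∃ K' : Subgroup Om, K' ≤ H ∧ #K' = #K ∧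
        (IsFreeGroup K' → IsFreeGroup K) := by
  let G : Group α := e.symm.group
  let f : α ≃* H := e.symm.mulEquiv
  refine ⟨G, fun a b => rfl, fun h => IsFreeGroup.ofMulEquiv f, fun K => ?_⟩
  let φ : α →* Om := H.subtype.comp f.toMonoidHom
  have hφ : Function.Injective φ := fun a b h => f.injective (Subtype.ext h)
  refine ⟨K.map φ, ?_, ?_, ?_⟩
  · rintro _ ⟨a, _, rfl⟩
    exact (f a).2
  · exact (Cardinal.mk_congr (K.equivMapOfInjective φ hφ).toEquiv).symm
  · intro h
    exact IsFreeGroup.ofMulEquiv (K.equivMapOfInjective φ hφ).symm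

/-- A group on the reals from a Borel subgroup of `Om`. -/
theorem exists_real_group (H : Subgroup Om) (hH : MeasurableSet (H : Set Om))
    (hc : ¬ Countable H) :
    ∃ G : Group ℝ, MeasurableSet {p : ℝ × ℝ × ℝ | G.mul p.1 p.2.1 = p.2.2} ∧
      (IsFreeGroup ℝ → IsFreeGroup H) ∧
      ∀ K : Subgroup ℝ, ∃ K' : Subgroup Om, K' ≤ H ∧ #K' = #K ∧
        (IsFreeGroup K' → IsFreeGroup K) := by
  have : StandardBorelSpace H := hH.standardBorel
  let e : H ≃ᵐ ℝ := PolishSpace.measurableEquivOfNotCountable hc
    (fun h => Cardinal.not_countable_real (Set.countable_univ_iff.2 h))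
  obtain ⟨G, hG, h1, h2⟩ := transfer H e.toEquiv
  refine ⟨G, ?_, h1, h2⟩
  have : {p : ℝ × ℝ × ℝ | G.mul p.1 p.2.1 = p.2.2} =
      {p : ℝ × ℝ × ℝ | e (e.symm p.1 * e.symm p.2.1) = p.2.2} := by
    ext p
    simp only [Set.mem_ofPred_eq]
    rw [hG]
    rfl
  rw [this]
  refine measurableSet_eq_fun ?_ (by fun_prop)
  have hm : Measurable fun p : H × H => p.1 * p.2 := by
    refine Measurable.subtype_mk ?_
    exact (continuous_mul (M := Om)).measurable.comp (g := fun p : Om × Om => p.1 * p.2)
      (f := fun p : H × H => ((p.1 : Om), (p.2 : Om))) (by fun_prop)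
  exact e.measurable.comp (hm.comp
    ((e.symm.measurable.comp measurable_fst).prodMk
      (e.symm.measurable.comp (measurable_fst.comp measurable_snd))))

end Pool.Agent.H409_AG.D
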