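import Pool.Agent.H409_AG.Defs
import Pool.Agent.H409_AG.PartD_Meas

/-!
# Part D: from the Baire space to the Cantor space
-/

set_option autoImplicit false

namespace Pool.Agent.H409_AG.D

open PiNat Filter Topology Cardinal

/-- The position of the `k`-th mark. -/
def pos (x : ℕ → ℕ) : ℕ → ℕ
  | 0 => x 0
  | k + 1 => pos x k + 1 + x (k + 1)

theorem pos_strictMono (x : ℕ → ℕ) : StrictMono (pos x) :=
  strictMono_nat_of_lt_succ fun k => by simp only [pos]; omega

theorem pos_congr {x y : ℕ → ℕ} (k : ℕ) (h : ∀ i ≤ k, x i = y i) : pos x k = pos y k := by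
  induction k with
  | zero => exact h 0 le_rfl
  | succ k ih =>
    simp only [pos]
    rw [ih fun i hi => h i (by omega), h (k + 1) le_rfl]

open Classical in
/-- The embedding of the Baire space into the Cantor space. -/
noncomputable def io (x : ℕ → ℕ) : Ca := fun p => decide (∃ k, pos x k = p)

theorem io_eq_true {x : ℕ → ℕ} {p : ℕ} : io x p = true ↔ ∃ k, pos x k = p := by
  simp [io]

theorem io_congr {x y : ℕ → ℕ} {p : ℕ} (h : ∀ i ≤ p, x i = y i) : io x p = io y p := by
  have key : ∀ {x y : ℕ → ℕ}, (∀ i ≤ p, x i = y i) → io x p = true → io y p = true := by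
    intro x y h hx
    rw [io_eq_true] at *
    obtain ⟨k, hk⟩ := hx
    have hkp : k ≤ p := hk ▸ (pos_strictMono x).le_apply
    exact ⟨k, by rw [← hk]; exact (pos_congr k fun i hi => h i (hi.trans hkp)).symm⟩
  exact Bool.eq_iff_iff.2 ⟨key h, key fun i hi => (h i hi).symm⟩

theorem continuous_io : Continuous io := by
  refine continuous_pi fun p => ?_
  rw [continuous_iff_continuousAt]
  intro x
  rw [ContinuousAt, nhds_discrete Bool, Filter.tendsto_pure]
  have : ∀ᶠ y in 𝓝 x, ∀ i ∈ Finset.range (p + 1), y i = x i := by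
    rw [Filter.eventually_all_finset]
    intro i _
    have h := (continuous_apply (A := fun _ : ℕ => ℕ) i).continuousAt (x := x)
    have h2 : {x i} ∈ 𝓝 (x i) := by simp
    exact h.eventually h2
  filter_upwards [this] with y hy
  exact io_congr fun i hi => hy i (by simpa using Nat.lt_succ_of_le hi)

theorem io_rec {x y : ℕ → ℕ} {k : ℕ} (h : ∀ p ≤ pos y k, io x p = io y p) :
    ∀ i ≤ k, pos x i = pos y i := by
  intro i
  induction i using Nat.strong_induction_on with
  | _ i ih =>
    intro hi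
    have h1 : pos y i ≤ pos y k := (pos_strictMono y).monotone hi
    obtain ⟨k', hk'⟩ := io_eq_true.1 ((h (pos y i) h1).trans (io_eq_true.2 ⟨i, rfl⟩))
    have h2 : i ≤ k' := by
      by_contra hc
      have h3 : pos x k' = pos y k' := ih k' (by omega) (by omega)
      have h4 : pos y k' < pos y i := pos_strictMono y (by omega)
      omega
    have h5 : pos x i ≤ pos x k' := (pos_strictMono x).monotone h2
    obtain ⟨k'', hk''⟩ := io_eq_true.1
      ((h (pos x i) (by omega)).symm.trans (io_eq_true.2 ⟨i, rfl⟩))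
    have h6 : i ≤ k'' := by
      by_contra hc
      have h3 : pos x k'' = pos y k'' := ih k'' (by omega) (by omega)
      have h4 : pos x k'' < pos x i := pos_strictMono x (by omega)
      omega
    have h7 : pos y i ≤ pos y k'' := (pos_strictMono y).monotone h6
    omega

theorem io_rec' {x y : ℕ → ℕ} {k : ℕ} (h : ∀ p ≤ pos y k, io x p = io y p) : x k = y k := by
  have h1 := io_rec h
  cases k with
  | zero => exact h1 0 le_rfl
  | succ k =>
    have h2 := h1 k (by omega)
    have h3 := h1 (k + 1) le_rfl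
    simp only [pos] at h3
    omega

theorem io_injective : Function.Injective io := by
  intro x y h
  funext k
  exact io_rec' fun p _ => congrFun h p

theorem isInducing_io : IsInducing io := by
  rw [isInducing_iff_nhds]
  intro x
  apply le_antisymm
  · exact continuous_io.continuousAt.le_comap
  · have : Tendsto id (comap io (𝓝 (io x))) (𝓝 x) := by
      rw [tendsto_pi_nhds]
      intro k
      rw [nhds_discrete ℕ, Filter.tendsto_pure]
      have h1 := (eventually_res (io x) (pos x k + 1)).comap io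
      filter_upwards [h1] with y hy
      refine io_rec' fun p hp => ?_
      exact res_eq_res.1 hy (Nat.lt_succ_of_le hp)
    exact this

/-- The remainder. -/
def Q0 : Set Ca := (Set.range io)ᶜ

theorem mem_range_io {c : Ca} (hc : {p | c p = true}.Infinite) : c ∈ Set.range io := by
  have hs := Nat.nth_strictMono (p := fun p => c p = true) hc
  have hr := Nat.range_nth_of_infinite (p := fun p => c p = true) hc
  set ν := Nat.nth (fun p => c p = true) with hν
  let x : ℕ → ℕ := fun k => match k with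
    | 0 => ν 0
    | k + 1 => ν (k + 1) - ν k - 1
  have hpos : ∀ k, pos x k = ν k := by
    intro k
    induction k with
    | zero => rfl
    | succ k ih =>
      have h1 : ν k < ν (k + 1) := hs (Nat.lt_succ_self k)
      simp only [pos, ih, x]
      omega
  refine ⟨x, ?_⟩
  funext p
  rw [Bool.eq_iff_iff, io_eq_true]
  have h2 : (p ∈ Set.range ν) ↔ c p = true := by rw [hr]; rfl
  rw [← h2]
  simp only [hpos, Set.mem_range]

theorem Q0_countable : Q0.Countable := by
  have h1 : Q0 ⊆ Set.range fun F : Finset ℕ => fun p => decide (p ∈ F) := by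
    intro c hc
    have hfin : {p | c p = true}.Finite := by
      by_contra hinf
      exact hc (mem_range_io hinf)
    refine ⟨hfin.toFinset, ?_⟩
    funext p
    simp
  exact (Set.countable_range _).mono h1

theorem isOpen_isInit (s : List ℕ) : IsOpen {x : ℕ → ℕ | IsInit s x} := by
  have : {x : ℕ → ℕ | IsInit s x} = ⋂ i ∈ Finset.range s.length, {x | x i = s.getD i 0} := by
    ext x
    simp [IsInit]
  rw [this]
  refine isOpen_biInter_finset fun i _ => ?_
  exact (isOpen_discrete {s.getD i 0}).preimage (continuous_apply (A := fun _ : ℕ => ℕ) i)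

theorem isClosed_RT (T : List ℕ → List ℕ → Prop) :
    IsClosed {p : (ℕ → ℕ) × (ℕ → ℕ) | RT T p.1 p.2} := by
  have : {p : (ℕ → ℕ) × (ℕ → ℕ) | RT T p.1 p.2} =
      ⋂ s : List ℕ, ⋂ t : List ℕ, {p : (ℕ → ℕ) × (ℕ → ℕ) | s.length = t.length →
        IsInit s p.1 ∧ IsInit t p.2 → T s t} := by
    ext p
    simp [RT]
  rw [this]
  refine isClosed_iInter fun s => isClosed_iInter fun t => ?_
  by_cases h : s.length = t.length ∧ ¬ T s t
  · have h2 : {p : (ℕ → ℕ) × (ℕ → ℕ) | s.length = t.length →
        IsInit s p.1 ∧ IsInit t p.2 → T s t} =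
        ((Prod.fst ⁻¹' {x | IsInit s x}) ∩ (Prod.snd ⁻¹' {x | IsInit t x}))ᶜ := by
      ext p
      simp [h.1, h.2]
    rw [h2]
    exact (((isOpen_isInit s).preimage continuous_fst).inter
      ((isOpen_isInit t).preimage continuous_snd)).isClosed_compl
  · have h2 : {p : (ℕ → ℕ) × (ℕ → ℕ) | s.length = t.length →
        IsInit s p.1 ∧ IsInit t p.2 → T s t} = Set.univ := by
      ext p
      simp only [Set.mem_ofPred_eq, Set.mem_univ, iff_true]
      intro h3 _
      by_contra h4
      exact h ⟨h3, h4⟩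
    rw [h2]
    exact isClosed_univ

/-- The closed relation on the Cantor space. -/
def RC (T : List ℕ → List ℕ → Prop) : Set (Ca × Ca) :=
  closure (Prod.map io io '' {p : (ℕ → ℕ) × (ℕ → ℕ) | RT T p.1 p.2})

theorem mem_RC {T : List ℕ → List ℕ → Prop} {x y : ℕ → ℕ} : (io x, io y) ∈ RC T ↔ RT T x y := by
  have h1 := (isInducing_io.prodMap isInducing_io).closure_eq_preimage_closure_image
    {p : (ℕ → ℕ) × (ℕ → ℕ) | RT T p.1 p.2}
  rw [(isClosed_RT T).closure_eq] at h1
  have h2 : (x, y) ∈ {p : (ℕ → ℕ) × (ℕ → ℕ) | RT T p.1 p.2} ↔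
      (x, y) ∈ Prod.map io io ⁻¹' closure (Prod.map io io '' {p : (ℕ → ℕ) × (ℕ → ℕ) |
        RT T p.1 p.2}) := by rw [← h1]
  exact h2.symm

theorem countable_snd {A : Set Ca} (hA : A.Countable) : {w : Vx | w.2 ∈ A}.Countable := by
  have : {w : Vx | w.2 ∈ A} = Set.univ ×ˢ A := by
    ext w
    simp
  rw [this]
  exact Set.countable_univ.prod hA

/-- Small sets of vertices have an orientation with countable outdegrees. -/
theorem exists_out {T : List ℕ → List ℕ → Prop} {n : ℕ}
    (hT : ∀ z : (ℵ_ n : Cardinal.{0}).out → ℕ → ℕ, Orient T z) {S : Set Vx}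
    (hS : #S ≤ ℵ_ n) : ∃ out : Vx → Set Vx, (∀ v, (out v).Countable) ∧
      ∀ x y, (x, y) ∈ RC T → (false, x) ∈ S → (true, y) ∈ S →
        (true, y) ∈ out (false, x) ∨ (false, x) ∈ out (true, y) := by
  classical
  let U : Set (ℕ → ℕ) := io ⁻¹' (Prod.snd '' S) ∪ {0}
  have hU : #U ≤ #(ℵ_ n : Cardinal.{0}).out := by
    rw [Cardinal.mk_out]
    refine (Cardinal.mk_union_le _ _).trans ?_
    refine Cardinal.add_le_of_le (Cardinal.aleph0_le_aleph _) ?_ ?_
    · exact (Cardinal.mk_preimage_of_injective _ _ io_injective).trans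
        (Cardinal.mk_image_le.trans hS)
    · rw [Cardinal.mk_singleton]
      exact (Cardinal.one_le_aleph0).trans (Cardinal.aleph0_le_aleph _)
  obtain ⟨emb⟩ := hU
  have : Nonempty U := ⟨⟨0, Or.inr rfl⟩⟩
  let z : (ℵ_ n : Cardinal.{0}).out → ℕ → ℕ := fun i => (Function.invFun emb i).1
  have hz : ∀ u ∈ U, ∃ i, z i = u := fun u hu =>
    ⟨emb ⟨u, hu⟩, by simp [z, Function.leftInverse_invFun emb.injective ⟨u, hu⟩]⟩
  obtain ⟨f, hf⟩ := hT z
  let out : Vx → Set Vx := fun v =>
    {w | w.2 ∈ (if H : ∃ i, io (z i) = v.2 then Set.range fun m => io (z (f H.choose m)) else ∅) ∪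
      Q0}
  refine ⟨out, fun v => ?_, ?_⟩
  · refine countable_snd (Set.Countable.union ?_ Q0_countable)
    split_ifs
    · exact Set.countable_range _
    · exact Set.countable_empty
  · intro x y hR hx hy
    by_cases hx0 : x ∈ Q0
    · exact Or.inr (Or.inr hx0)
    by_cases hy0 : y ∈ Q0
    · exact Or.inl (Or.inr hy0)
    simp only [Q0, Set.mem_compl_iff, not_not] at hx0 hy0
    obtain ⟨u, rfl⟩ := hx0
    obtain ⟨u', rfl⟩ := hy0
    have H1 : ∃ i, io (z i) = io u := by
      obtain ⟨i, hi⟩ := hz u (Or.inl ⟨_, hx, rfl⟩)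
      exact ⟨i, by rw [hi]⟩
    have H2 : ∃ i, io (z i) = io u' := by
      obtain ⟨i, hi⟩ := hz u' (Or.inl ⟨_, hy, rfl⟩)
      exact ⟨i, by rw [hi]⟩
    have hR' := hR
    rw [← H1.choose_spec, ← H2.choose_spec, mem_RC] at hR'
    rcases hf _ _ hR' with ⟨m, hm⟩ | ⟨m, hm⟩
    · left
      refine Or.inl ?_
      rw [dif_pos H1]
      exact ⟨m, by simp only [hm]; exact H2.choose_spec⟩
    · right
      refine Or.inl ?_
      rw [dif_pos H2]
      exact ⟨m, by simp only [hm]; exact H1.choose_spec⟩

/-- There is no orientation of the whole graph with countable outdegrees. -/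
theorem not_exists_out {T : List ℕ → List ℕ → Prop} {K : Type} {z : K → ℕ → ℕ}
    (hz : ¬ Orient T z) (out : Vx → Set Vx) (hout : ∀ v, (out v).Countable) :
    ∃ x y, (x, y) ∈ RC T ∧ (true, y) ∉ out (false, x) ∧ (false, x) ∉ out (true, y) := by
  by_contra hcon
  push Not at hcon
  apply hz
  let B : K → Set (ℕ → ℕ) := fun i =>
    io ⁻¹' (Prod.snd '' (out (false, io (z i)))) ∪ io ⁻¹' (Prod.snd '' (out (true, io (z i))))
  have hB : ∀ i, (B i).Countable := fun i =>
    (((hout _).image _).preimage io_injective).union (((hout _).image _).preimage io_injective)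
  have hf : ∀ i, ∃ f : ℕ → K, ∀ j, z j ∈ B i → ∃ m, z (f m) = z j := by
    intro i
    by_cases hne : (B i ∩ Set.range z).Nonempty
    · obtain ⟨g, hg⟩ := ((hB i).mono Set.inter_subset_left).exists_eq_range hne
      have hg' : ∀ m, ∃ k, z k = g m := fun m => by
        have : g m ∈ B i ∩ Set.range z := hg ▸ ⟨m, rfl⟩
        exact this.2
      choose f hf using hg'
      refine ⟨f, fun j hj => ?_⟩
      have : z j ∈ Set.range g := hg ▸ ⟨hj, ⟨j, rfl⟩⟩
      obtain ⟨m, hm⟩ := this
      exact ⟨m, (hf m).trans hm⟩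
    · refine ⟨fun _ => i, fun j hj => ?_⟩
      exact absurd ⟨z j, hj, j, rfl⟩ hne
  choose f hf using hf
  refine ⟨f, fun i j hij => ?_⟩
  by_cases h : (true, io (z j)) ∈ out (false, io (z i))
  · exact Or.inl (hf i j (Or.inl ⟨_, h, rfl⟩))
  · exact Or.inr (hf j i (Or.inr ⟨_, hcon _ _ (mem_RC.2 hij) h, rfl⟩))

end Pool.Agent.H409_AG.D
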