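import Mathlib

/-!
# Part D: a well-ordering with countably many lower neighbours
-/

set_option autoImplicit false

namespace Pool.Agent.H409_AG.D

section

variable {V : Type}

/-- The points reached from `u` in `n` steps. -/
def lev (out : V → Set V) (u : V) : ℕ → Set V
  | 0 => {u}
  | n + 1 => ⋃ a ∈ lev out u n, out a

theorem lev_countable {out : V → Set V} (h : ∀ v, (out v).Countable) (u : V) (n : ℕ) :
    (lev out u n).Countable := by
  induction n with
  | zero => exact Set.countable_singleton u
  | succ n ih => exact ih.biUnion fun a _ => h a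

/-- The points reached from `u`. -/
def cl (out : V → Set V) (u : V) : Set V := ⋃ n, lev out u n

theorem cl_countable {out : V → Set V} (h : ∀ v, (out v).Countable) (u : V) :
    (cl out u).Countable := Set.countable_iUnion fun n => lev_countable h u n

theorem self_mem_cl (out : V → Set V) (u : V) : u ∈ cl out u :=
  Set.mem_iUnion.2 ⟨0, rfl⟩

theorem out_sub_cl {out : V → Set V} {u a b : V} (ha : a ∈ cl out u) (hb : b ∈ out a) :
    b ∈ cl out u := by
  obtain ⟨n, hn⟩ := Set.mem_iUnion.1 ha
  exact Set.mem_iUnion.2 ⟨n + 1, Set.mem_biUnion hn hb⟩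

/-- An orientation with countable outdegrees gives a well-ordering with countably many lower
neighbours. -/
theorem exists_wo (out : V → Set V) (h : ∀ v, (out v).Countable) :
    ∃ lt : V → V → Prop, WellFounded lt ∧ (∀ v w, v ≠ w → lt v w ∨ lt w v) ∧
      ∀ v, {w | lt w v ∧ (w ∈ out v ∨ v ∈ out w)}.Countable := by
  classical
  have wf : WellFounded (WellOrderingRel (α := V)) := WellOrderingRel.isWellOrder.wf
  have hne : ∀ v, {u | v ∈ cl out u}.Nonempty := fun v => ⟨v, self_mem_cl out v⟩
  let rho : V → V := fun v => wf.min {u | v ∈ cl out u} (hne v)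
  have hrho : ∀ v, v ∈ cl out (rho v) := fun v => wf.min_mem _ (hne v)
  have hmin : ∀ v u, v ∈ cl out u → ¬ WellOrderingRel u (rho v) := fun v u hu =>
    wf.not_lt_min {u | v ∈ cl out u} hu
  choose e he using fun u => Set.countable_iff_exists_injOn.1 (cl_countable h u)
  let rk : V → V × ℕ := fun v => (rho v, e (rho v) v)
  refine ⟨fun v w => Prod.Lex WellOrderingRel (· < ·) (rk v) (rk w),
    InvImage.wf rk (WellFounded.prod_lex wf wellFounded_lt), ?_, ?_⟩
  · intro v w hvw
    rcases trichotomous_of WellOrderingRel (rho v) (rho w) with hh | hh | hh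
    · exact Or.inl (Prod.Lex.left _ _ hh)
    · have h1 : e (rho v) v ≠ e (rho w) w := by
        intro h2
        rw [← hh] at h2
        exact hvw (he (rho v) (hrho v) (by rw [hh]; exact hrho w) h2)
      rcases lt_or_gt_of_ne h1 with h2 | h2
      · left
        exact Prod.lex_def.2 (Or.inr ⟨hh, h2⟩)
      · right
        exact Prod.lex_def.2 (Or.inr ⟨hh.symm, h2⟩)
    · exact Or.inr (Prod.Lex.left _ _ hh)
  · intro v
    refine ((h v).union (cl_countable h (rho v))).mono ?_
    rintro w ⟨hlt, hw | hw⟩
    · exact Or.inl hw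
    · right
      rcases (Prod.lex_def.1 hlt) with h1 | h1
      · exact absurd h1 (hmin v (rho w) (out_sub_cl (hrho w) hw))
      · have h2 : rho w = rho v := h1.1
        rw [← h2]
        exact hrho w

/-- Separating thresholds for a countable set of points. -/
theorem exists_thr (N : Set (ℕ → Bool)) (hN : N.Countable) :
    ∃ thr : (ℕ → Bool) → ℕ, ∀ x ∈ N, ∀ y ∈ N, x ≠ y → ∀ n, thr x ≤ n → thr y ≤ n →
      PiNat.res x n ≠ PiNat.res y n := by
  classical
  obtain ⟨e, he⟩ := Set.countable_iff_exists_injOn.1 hN
  let g : (ℕ → Bool) → ℕ → ℕ := fun x i =>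
    if h : ∃ y ∈ N, e y = i then PiNat.firstDiff x h.choose + 1 else 0
  let thr : (ℕ → Bool) → ℕ := fun x => (Finset.range (e x)).sup (g x)
  have key : ∀ x ∈ N, ∀ y ∈ N, e y < e x → ∀ n, thr x ≤ n → PiNat.res x n ≠ PiNat.res y n := by
    intro x hx y hy hlt n hn hres
    have hex : ∃ y' ∈ N, e y' = e y := ⟨y, hy, rfl⟩
    have h1 : hex.choose = y := he hex.choose_spec.1 hy hex.choose_spec.2
    have h2 : g x (e y) = PiNat.firstDiff x y + 1 := by
      simp only [g]
      rw [dif_pos hex, h1]
    have h3 : g x (e y) ≤ thr x := Finset.le_sup (f := g x) (Finset.mem_range.2 hlt)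
    have hne : x ≠ y := by
      rintro rfl
      exact lt_irrefl _ hlt
    exact PiNat.apply_firstDiff_ne hne (PiNat.res_eq_res.1 hres (by omega))
  refine ⟨thr, fun x hx y hy hne n h1 h2 => ?_⟩
  rcases lt_trichotomy (e x) (e y) with h | h | h
  · exact (key y hy x hx h n h2).symm
  · exact absurd (he hx hy h) hne
  · exact key x hx y hy h n h1

end

end Pool.Agent.H409_AG.D
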