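import Pool.Agent.H409_AG.PartD_Base
import Pool.Agent.H409_AG.PartD_Wo

/-!
# Part D: the small subgroups are free
-/

set_option autoImplicit false

namespace Pool.Agent.H409_AG.D

open PiNat Filter

/-- The index set of all generators. -/
abbrev Sy : Type := (Vx × List Bool) ⊕ (Ca × Ca × ℕ)

/-- The value of a generator. -/
def ev : Sy → Om
  | Sum.inl p => let' p.1 p.2
  | Sum.inr q => z q.1 q.2.1 q.2.2

/-- Adjacent vertices. -/
def adj (R : Set (Ca × Ca)) (v w : Vx) : Prop :=
  (v.1 = false ∧ w.1 = true ∧ (v.2, w.2) ∈ R) ∨ (v.1 = true ∧ w.1 = false ∧ (w.2, v.2) ∈ R)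

theorem adj.ne {R : Set (Ca × Ca)} {v w w' : Vx} (h : adj R v w) (h' : adj R v w') (hne : w ≠ w') :
    w.2 ≠ w'.2 := by
  intro h2
  apply hne
  refine Prod.ext ?_ h2
  rcases h with ⟨h3, h4, _⟩ | ⟨h3, h4, _⟩ <;> rcases h' with ⟨h5, h6, _⟩ | ⟨h5, h6, _⟩
  · rw [h4, h6]
  · rw [h3] at h5; exact absurd h5 (by simp)
  · rw [h3] at h5; exact absurd h5 (by simp)
  · rw [h4, h6]

section

variable (R : Set (Ca × Ca)) (S : Set Vx) (lt : Vx → Vx → Prop) (thr : Vx → Vx → ℕ)

/-- The lower neighbours of `v`. -/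
def Nb (v : Vx) : Set Vx := {w | w ∈ S ∧ adj R v w ∧ lt w v}

/-- The letter `t` of `v` is eliminated by `w`. -/
def Elim (v : Vx) (t : List Bool) (w : Vx) : Prop :=
  w ∈ Nb R S lt v ∧ thr v w ≤ t.length ∧ t = res w.2 t.length

open Classical in
/-- The threshold of an edge. -/
noncomputable def hh (x y : Ca) : ℕ :=
  if lt (true, y) (false, x) then thr (false, x) (true, y) else thr (true, y) (false, x)

/-- The basis. -/
def Bs : Set Sy
  | Sum.inl p => p.1 ∈ S ∧ ¬ ∃ w, Elim R S lt thr p.1 p.2 w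
  | Sum.inr q => (q.1, q.2.1) ∈ R ∧ (false, q.1) ∈ S ∧ (true, q.2.1) ∈ S ∧
      hh lt thr q.1 q.2.1 ≤ q.2.2

end

section

variable {R : Set (Ca × Ca)} {S : Set Vx} {lt : Vx → Vx → Prop} {thr : Vx → Vx → ℕ}

/-- The hypothesis on the thresholds. -/
def GoodThr (R : Set (Ca × Ca)) (S : Set Vx) (lt : Vx → Vx → Prop) (thr : Vx → Vx → ℕ) : Prop :=
  ∀ v ∈ S, ∀ w ∈ Nb R S lt v, ∀ w' ∈ Nb R S lt v, w ≠ w' → ∀ n, thr v w ≤ n → thr v w' ≤ n →
    res w.2 n ≠ res w'.2 n

theorem Elim.unique (hthr : GoodThr R S lt thr) {v : Vx} (hv : v ∈ S) {t : List Bool} {w w' : Vx}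
    (h : Elim R S lt thr v t w) (h' : Elim R S lt thr v t w') : w = w' := by
  by_contra hne
  exact hthr v hv w h.1 w' h'.1 hne t.length h.2.1 h'.2.1 (h.2.2.symm.trans h'.2.2)

theorem mem_inl {p : Vx × List Bool} : Sum.inl p ∈ Bs R S lt thr ↔
    p.1 ∈ S ∧ ¬ ∃ w, Elim R S lt thr p.1 p.2 w := Iff.rfl

theorem mem_inr {q : Ca × Ca × ℕ} : Sum.inr q ∈ Bs R S lt thr ↔
    (q.1, q.2.1) ∈ R ∧ (false, q.1) ∈ S ∧ (true, q.2.1) ∈ S ∧ hh lt thr q.1 q.2.1 ≤ q.2.2 :=
  Iff.rfl

/-- An edge is of one of two kinds. -/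
theorem edge_cases (htot : ∀ v w, v ≠ w → lt v w ∨ lt w v) {x y : Ca} {n : ℕ}
    (hR : (x, y) ∈ R) (hx : (false, x) ∈ S) (hy : (true, y) ∈ S) (hn : hh lt thr x y ≤ n) :
    Elim R S lt thr (false, x) (res y n) (true, y) ∨
      Elim R S lt thr (true, y) (res x n) (false, x) := by
  unfold hh at hn
  split_ifs at hn with h
  · left
    exact ⟨⟨hy, Or.inl ⟨rfl, rfl, hR⟩, h⟩, by rwa [res_length], by rw [res_length]⟩
  · right
    have h' : lt (false, x) (true, y) := by
      rcases htot (false, x) (true, y) (by simp) with h1 | h1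
      · exact h1
      · exact absurd h1 h
    exact ⟨⟨hx, Or.inr ⟨rfl, rfl, hR⟩, h'⟩, by rwa [res_length], by rw [res_length]⟩

/-- An eliminated letter comes from an edge. -/
theorem Elim.edge (hwf : WellFounded lt) {v : Vx} {t : List Bool} {w : Vx}
    (h : Elim R S lt thr v t w) :
    (∃ x y n, v = (false, x) ∧ w = (true, y) ∧ t = res y n ∧ (x, y) ∈ R ∧ hh lt thr x y ≤ n) ∨
      (∃ x y n, v = (true, y) ∧ w = (false, x) ∧ t = res x n ∧ (x, y) ∈ R ∧
        hh lt thr x y ≤ n) := by
  obtain ⟨⟨hwS, hadj, hlt⟩, hn, ht⟩ := h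
  obtain ⟨bv, v2⟩ := v
  obtain ⟨bw, w2⟩ := w
  rcases hadj with ⟨h1, h2, h3⟩ | ⟨h1, h2, h3⟩
  · simp only at h1 h2 h3
    subst h1 h2
    left
    refine ⟨v2, w2, t.length, rfl, rfl, ht, h3, ?_⟩
    unfold hh
    rw [if_pos hlt]
    exact hn
  · simp only at h1 h2 h3
    subst h1 h2
    right
    refine ⟨w2, v2, t.length, rfl, rfl, ht, h3, ?_⟩
    unfold hh
    rw [if_neg]
    · exact hn
    · exact fun h => hwf.asymmetric _ _ h hlt

/-- Generation. -/
theorem closure_Bs (hwf : WellFounded lt) :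
    Subgroup.closure (ev '' Bs R S lt thr) = GS R S := by
  apply le_antisymm
  · rw [Subgroup.closure_le]
    rintro _ ⟨i, hi, rfl⟩
    apply Subgroup.subset_closure
    rcases i with p | q
    · exact Or.inl ⟨p.1, (mem_inl.1 hi).1, p.2, rfl⟩
    · obtain ⟨h1, h2, h3, _⟩ := mem_inr.1 hi
      exact Or.inr ⟨_, _, _, h1, h2, h3, rfl⟩
  · set H := Subgroup.closure (ev '' Bs R S lt thr) with hH
    have hz : ∀ x y n, (x, y) ∈ R → (false, x) ∈ S → (true, y) ∈ S → hh lt thr x y ≤ n →
        z x y n ∈ H := fun x y n h1 h2 h3 h4 =>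
      Subgroup.subset_closure ⟨Sum.inr (x, y, n), mem_inr.2 ⟨h1, h2, h3, h4⟩, rfl⟩
    have hlet : ∀ v, v ∈ S → ∀ t, let' v t ∈ H := by
      intro v
      induction v using hwf.induction with
      | _ v ih =>
        intro hv t
        by_cases he : ∃ w, Elim R S lt thr v t w
        · obtain ⟨w, hw⟩ := he
          have hwS := hw.1.1
          have hlt := hw.1.2.2
          rcases hw.edge hwf with ⟨x, y, n, rfl, rfl, rfl, hR, hn⟩ | ⟨x, y, n, rfl, rfl, rfl, hR, hn⟩
          · have h1 := z_eq x y n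
            have h2 : let' (false, x) (res y n) =
                (z x y (n + 1) ^ 2)⁻¹ * z x y n * (let' (true, y) (res x n))⁻¹ := by
              rw [h1]; group
            rw [h2]
            exact mul_mem (mul_mem (inv_mem (pow_mem (hz x y (n + 1) hR hv hwS (by omega)) 2))
              (hz x y n hR hv hwS hn)) (inv_mem (ih _ hlt hwS _))
          · have h1 := z_eq x y n
            have h2 : let' (true, y) (res x n) =
                (z x y (n + 1) ^ 2 * let' (false, x) (res y n))⁻¹ * z x y n := by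
              rw [h1]; group
            rw [h2]
            exact mul_mem (inv_mem (mul_mem (pow_mem (hz x y (n + 1) hR hwS hv (by omega)) 2)
              (ih _ hlt hwS _))) (hz x y n hR hwS hv hn)
        · exact Subgroup.subset_closure ⟨Sum.inl (v, t), mem_inl.2 ⟨hv, he⟩, rfl⟩
    rw [GS, Subgroup.closure_le]
    rintro _ (⟨v, hv, t, rfl⟩ | ⟨x, y, n, hR, hx, hy, rfl⟩)
    · exact hlet v hv t
    · have key : ∀ k n, hh lt thr x y ≤ n + k → z x y n ∈ H := by
        intro k
        induction k with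
        | zero => exact fun n hn => hz x y n hR hx hy hn
        | succ k ih =>
          intro n hn
          rw [z_eq x y n]
          exact mul_mem (mul_mem (pow_mem (ih (n + 1) (by omega)) 2) (hlet _ hx _)) (hlet _ hy _)
      exact key (hh lt thr x y) n (by omega)

/-- The group in which the letters are evaluated. -/
abbrev KK : Type := FreeGroup Sy

/-- The square of the next `z`, cut off at `m`. -/
noncomputable def nx (m : ℕ) (x y : Ca) (n : ℕ) : KK :=
  if n < m then FreeGroup.of (Sum.inr (x, y, n + 1)) ^ 2 else 1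

/-- Values of the letters in the free group. -/
theorem exists_val (hwf : WellFounded lt) (htot : ∀ v w, v ≠ w → lt v w ∨ lt w v)
    (hthr : GoodThr R S lt thr) (m : ℕ) :
    ∃ val : Vx → List Bool → KK,
      (∀ v t, Sum.inl (v, t) ∈ Bs R S lt thr → val v t = FreeGroup.of (Sum.inl (v, t))) ∧
      ∀ x y n, Sum.inr (x, y, n) ∈ Bs R S lt thr →
        nx m x y n * val (false, x) (res y n) * val (true, y) (res x n) =
          FreeGroup.of (Sum.inr (x, y, n)) := by
  classical
  let step : (v : Vx) → ((w : Vx) → lt w v → List Bool → KK) → List Bool → KK := fun v rec t =>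
    if H : ∃ w, Elim R S lt thr v t w then
      if v.1 = false then
        (nx m v.2 H.choose.2 t.length)⁻¹ * FreeGroup.of (Sum.inr (v.2, H.choose.2, t.length)) *
          (rec H.choose H.choose_spec.1.2.2 (res v.2 t.length))⁻¹
      else
        (nx m H.choose.2 v.2 t.length * rec H.choose H.choose_spec.1.2.2 (res v.2 t.length))⁻¹ *
          FreeGroup.of (Sum.inr (H.choose.2, v.2, t.length))
    else FreeGroup.of (Sum.inl (v, t))
  let val : Vx → List Bool → KK := hwf.fix step
  have hval : ∀ v, val v = step v fun w _ => val w := fun v => hwf.fix_eq step v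
  have h1 : ∀ x y n, (false, x) ∈ S → Elim R S lt thr (false, x) (res y n) (true, y) →
      val (false, x) (res y n) = (nx m x y n)⁻¹ * FreeGroup.of (Sum.inr (x, y, n)) *
        (val (true, y) (res x n))⁻¹ := by
    intro x y n hx he
    have H : ∃ w, Elim R S lt thr (false, x) (res y n) w := ⟨_, he⟩
    have hc : H.choose = (true, y) := Elim.unique hthr hx H.choose_spec he
    rw [hval (false, x)]
    simp only [step]
    rw [dif_pos H, if_pos trivial, hc, res_length]
  have h2 : ∀ x y n, (true, y) ∈ S → Elim R S lt thr (true, y) (res x n) (false, x) →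
      val (true, y) (res x n) = (nx m x y n * val (false, x) (res y n))⁻¹ *
        FreeGroup.of (Sum.inr (x, y, n)) := by
    intro x y n hy he
    have H : ∃ w, Elim R S lt thr (true, y) (res x n) w := ⟨_, he⟩
    have hc : H.choose = (false, x) := Elim.unique hthr hy H.choose_spec he
    rw [hval (true, y)]
    simp only [step]
    rw [dif_pos H, if_neg (by simp), hc, res_length]
  refine ⟨val, ?_, ?_⟩
  · intro v t ht
    rw [hval v]
    simp only [step]
    rw [dif_neg (mem_inl.1 ht).2]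
  · intro x y n hn
    obtain ⟨hR, hx, hy, hn⟩ := mem_inr.1 hn
    rcases edge_cases htot hR hx hy hn with he | he
    · rw [h1 x y n hx he]; group
    · rw [h2 x y n hy he]; group

/-- The vertices involved in a generator. -/
def verts : Sy → List Vx
  | Sum.inl p => [p.1]
  | Sum.inr q => [(false, q.1), (true, q.2.1)]

/-- The height of a generator. -/
def height : Sy → ℕ
  | Sum.inl p => p.2.length
  | Sum.inr q => q.2.2

theorem eventually_sep (V0 : Finset Vx) : ∀ᶠ m in atTop, ∀ v ∈ V0, ∀ w ∈ V0, v.1 = w.1 →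
    res v.2 m = res w.2 m → v = w := by
  rw [Filter.eventually_all_finset]
  intro v _
  rw [Filter.eventually_all_finset]
  intro w _
  by_cases h : v.2 = w.2
  · exact Eventually.of_forall fun m h1 _ => Prod.ext h1 h
  · obtain ⟨i, hi⟩ := Function.ne_iff.1 h
    filter_upwards [eventually_gt_atTop i] with m hm _ hres
    exact absurd (res_eq_res.1 hres hm) hi

/-- Recovering finitely many generators from one coordinate. -/
theorem exists_theta (hwf : WellFounded lt) (htot : ∀ v w, v ≠ w → lt v w ∨ lt w v)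
    (hthr : GoodThr R S lt thr) (F : Finset Sy) (hF : (F : Set Sy) ⊆ Bs R S lt thr) :
    ∃ (m : ℕ) (θ : Fr →* KK), ∀ i ∈ F, θ (ev i m) = FreeGroup.of i := by
  classical
  let V0 : Finset Vx := F.biUnion fun i => (verts i).toFinset
  have hm1 := eventually_sep V0
  have hm2 : ∀ᶠ m in atTop, ∀ i ∈ F, height i ≤ m := by
    rw [Filter.eventually_all_finset]
    exact fun i _ => eventually_ge_atTop _
  obtain ⟨m, hm1, hm2⟩ := (hm1.and hm2).exists
  obtain ⟨val, hv1, hv2⟩ := exists_val hwf htot hthr m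
  let θ : Fr →* KK := (FreeGroup.lift fun s : Sym =>
    if H : ∃ v ∈ V0, v.1 = s.1 ∧ res v.2 m = s.2.1 then val H.choose s.2.2 else 1 :
      FreeGroup Sym →* KK)
  have hθ : ∀ v ∈ V0, ∀ t : List Bool, t.length ≤ m → θ (let' v t m) = val v t := by
    intro v hv t ht
    unfold let'
    rw [if_pos ht]
    have hl : θ (Fr.of (v.1, res v.2 m, t)) =
        if H : ∃ v' ∈ V0, v'.1 = v.1 ∧ res v'.2 m = res v.2 m then val H.choose t else 1 :=
      FreeGroup.lift_apply_of
    have H : ∃ v' ∈ V0, v'.1 = v.1 ∧ res v'.2 m = res v.2 m := ⟨v, hv, rfl, rfl⟩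
    rw [hl, dif_pos H]
    have hc : H.choose = v := hm1 _ H.choose_spec.1 v hv H.choose_spec.2.1 H.choose_spec.2.2
    rw [hc]
  have hθz : ∀ x y, (false, x) ∈ V0 → (true, y) ∈ V0 → ∀ k n, n + k = m →
      Sum.inr (x, y, n) ∈ Bs R S lt thr → θ (z x y n m) = FreeGroup.of (Sum.inr (x, y, n)) := by
    intro x y hx hy k
    induction k with
    | zero =>
      intro n hn hi
      rw [add_zero] at hn
      subst hn
      rw [z_eq x y n]
      simp only [Pi.mul_apply, Pi.pow_apply, map_mul, map_pow]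
      rw [z_of_lt x y (Nat.lt_succ_self n), map_one, one_pow, one_mul, hθ _ hx _ (by simp),
        hθ _ hy _ (by simp), ← hv2 x y n hi, nx, if_neg (lt_irrefl n), one_mul]
    | succ k ih =>
      intro n hn hi
      have hi' : Sum.inr (x, y, n + 1) ∈ Bs R S lt thr := by
        obtain ⟨h1, h2, h3, h4⟩ := mem_inr.1 hi
        exact mem_inr.2 ⟨h1, h2, h3, Nat.le_succ_of_le h4⟩
      rw [z_eq x y n]
      simp only [Pi.mul_apply, Pi.pow_apply, map_mul, map_pow]
      rw [ih (n + 1) (by omega) hi', hθ _ hx _ (by rw [res_length]; omega),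
        hθ _ hy _ (by rw [res_length]; omega), ← hv2 x y n hi, nx, if_pos (by omega)]
  refine ⟨m, θ, fun i hi => ?_⟩
  have hvert : ∀ v ∈ verts i, v ∈ V0 := fun v hv =>
    Finset.mem_biUnion.2 ⟨i, hi, List.mem_toFinset.2 hv⟩
  rcases i with p | q
  · have h1 : p.1 ∈ V0 := hvert _ (by simp [verts])
    exact (hθ p.1 h1 p.2 (hm2 _ hi)).trans (hv1 p.1 p.2 (hF hi))
  · have h1 : (false, q.1) ∈ V0 := hvert _ (by simp [verts])
    have h2 : (true, q.2.1) ∈ V0 := hvert _ (by simp [verts])
    have h3 : q.2.2 ≤ m := hm2 _ hi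
    exact hθz q.1 q.2.1 h1 h2 (m - q.2.2) q.2.2 (by omega) (hF hi)

theorem exists_finset_gen {ι : Type} (w : FreeGroup ι) :
    ∃ F : Finset ι, w ∈ Subgroup.closure (FreeGroup.of '' (F : Set ι)) := by
  classical
  induction w using FreeGroup.induction_on with
  | C1 => exact ⟨∅, one_mem _⟩
  | of i => exact ⟨{i}, Subgroup.subset_closure ⟨i, by simp, rfl⟩⟩
  | inv_of i h => obtain ⟨F, hF⟩ := h; exact ⟨F, inv_mem hF⟩
  | mul a b ha hb =>
    obtain ⟨F, hF⟩ := ha
    obtain ⟨F', hF'⟩ := hb
    refine ⟨F ∪ F', mul_mem ?_ ?_⟩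
    · exact Subgroup.closure_mono (Set.image_mono (by simp)) hF
    · exact Subgroup.closure_mono (Set.image_mono (by simp)) hF'

/-- The subgroup attached to a good set of vertices is free. -/
theorem free_of_good (hwf : WellFounded lt) (htot : ∀ v w, v ≠ w → lt v w ∨ lt w v)
    (hthr : GoodThr R S lt thr) : IsFreeGroup (GS R S) := by
  classical
  let φ : FreeGroup (Bs R S lt thr) →* Om := FreeGroup.lift fun i => ev i.1
  have hinj : Function.Injective φ := by
    rw [injective_iff_map_eq_one]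
    intro w hw
    obtain ⟨F, hF⟩ := exists_finset_gen w
    obtain ⟨m, θ, hθ⟩ := exists_theta hwf htot hthr (F.image Subtype.val) (by
      intro i hi
      simp only [Finset.coe_image, Set.mem_image] at hi
      obtain ⟨j, _, rfl⟩ := hi
      exact j.2)
    let f : FreeGroup (Bs R S lt thr) →* KK := θ.comp ((Pi.evalMonoidHom (fun _ => Fr) m).comp φ)
    let g : FreeGroup (Bs R S lt thr) →* KK := FreeGroup.map Subtype.val
    have hfg : f w = g w := by
      refine MonoidHom.eqOn_closure (f := f) (g := g) ?_ hF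
      rintro _ ⟨i, hi, rfl⟩
      have h1 : f (FreeGroup.of i) = θ (ev i.1 m) := by
        simp only [f, MonoidHom.comp_apply, φ, FreeGroup.lift_apply_of]
        rfl
      have h2 : g (FreeGroup.of i) = FreeGroup.of i.1 := by simp [g]
      rw [h1, h2]
      exact hθ i.1 (Finset.mem_image_of_mem _ hi)
    have hf : f w = 1 := by
      simp only [f, MonoidHom.comp_apply, hw, map_one]
    have hg : g w = 1 := hfg.symm.trans hf
    have hginj : Function.Injective g := FreeGroup.map_injective Subtype.val_injective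
    exact hginj (hg.trans (map_one g).symm)
  have hrange : φ.range = GS R S := by
    rw [← closure_Bs (thr := thr) hwf, FreeGroup.range_lift_eq_closure]
    congr 1
    ext g
    simp
  have e : FreeGroup (Bs R S lt thr) ≃* φ.range := MonoidHom.ofInjective hinj
  have : IsFreeGroup φ.range := IsFreeGroup.ofMulEquiv e
  rw [hrange] at this
  exact this

end

/-- The subgroup attached to a set of vertices is free, if the graph on this set has an
orientation with countable outdegrees. -/
theorem free_of_orient {R : Set (Ca × Ca)} {S : Set Vx} (out : Vx → Set Vx)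
    (hout : ∀ v, (out v).Countable)
    (h : ∀ x y, (x, y) ∈ R → (false, x) ∈ S → (true, y) ∈ S →
      (true, y) ∈ out (false, x) ∨ (false, x) ∈ out (true, y)) : IsFreeGroup (GS R S) := by
  classical
  obtain ⟨lt, hwf, htot, hc⟩ := exists_wo out hout
  have hN : ∀ v, v ∈ S → (Nb R S lt v).Countable := by
    intro v hv
    refine (hc v).mono ?_
    rintro w ⟨hw, hadj, hlt⟩
    refine ⟨hlt, ?_⟩
    obtain ⟨bv, v2⟩ := v
    obtain ⟨bw, w2⟩ := w
    rcases hadj with ⟨h1, h2, h3⟩ | ⟨h1, h2, h3⟩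
    · simp only at h1 h2 h3
      subst h1 h2
      exact h v2 w2 h3 hv hw
    · simp only at h1 h2 h3
      subst h1 h2
      exact (h w2 v2 h3 hw hv).symm
  have hthr : ∀ v, ∃ thr : Ca → ℕ, v ∈ S → ∀ w ∈ Nb R S lt v, ∀ w' ∈ Nb R S lt v, w ≠ w' →
      ∀ n, thr w.2 ≤ n → thr w'.2 ≤ n → res w.2 n ≠ res w'.2 n := by
    intro v
    by_cases hv : v ∈ S
    · obtain ⟨thr, ht⟩ := exists_thr (Prod.snd '' Nb R S lt v) ((hN v hv).image _)
      refine ⟨thr, fun _ w hw w' hw' hne n h1 h2 => ?_⟩
      exact ht w.2 ⟨w, hw, rfl⟩ w'.2 ⟨w', hw', rfl⟩ (hw.2.1.ne hw'.2.1 hne) n h1 h2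
    · exact ⟨fun _ => 0, fun h => absurd h hv⟩
  choose thr hthr using hthr
  exact free_of_good (thr := fun v w => thr v w.2) hwf htot fun v hv => hthr v hv

end Pool.Agent.H409_AG.D
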