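import Pool.Agent.H409_AG.PartD_Base

/-!
# Part D: the group is not free
-/

set_option autoImplicit false

namespace Pool.Agent.H409_AG.D

open PiNat Filter Multiplicative

/-- The exponent sum of the symbol `s`. -/
def ex (s : Sym) : Fr →* Multiplicative ℚ :=
  (FreeGroup.lift fun s' => if s' = s then ofAdd (1 : ℚ) else 1 : FreeGroup Sym →* _)

theorem ex_of (s s' : Sym) : toAdd (ex s (Fr.of s')) = if s' = s then 1 else 0 := by
  have : ex s (Fr.of s') = if s' = s then ofAdd (1 : ℚ) else 1 := FreeGroup.lift_apply_of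
  rw [this]
  split_ifs <;> simp

/-- The homomorphism `Psi x y` detecting the elements `z x y n`. -/
def Psi (x y : Ca) : Om →* Multiplicative (ℕ → ℚ) where
  toFun g := ofAdd fun m => ((2 : ℚ) ^ m)⁻¹ * toAdd (ex (false, res x m, res y m) (g m))
  map_one' := by
    apply toAdd.injective
    funext m
    simp
  map_mul' g h := by
    apply toAdd.injective
    funext m
    simp [mul_add]

theorem Psi_apply (x y : Ca) (g : Om) (m : ℕ) : toAdd (Psi x y g) m =
    ((2 : ℚ) ^ m)⁻¹ * toAdd (ex (false, res x m, res y m) (g m)) := rfl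

theorem ex_let {x y : Ca} {m : ℕ} {v : Vx} {t : List Bool} (h : t.length ≠ m) :
    toAdd (ex (false, res x m, res y m) (let' v t m)) = 0 := by
  unfold let'
  split_ifs with h1
  · rw [ex_of, if_neg]
    intro h2
    have h3 : t = res y m := congrArg (fun s : Sym => s.2.2) h2
    exact h (by rw [h3, res_length])
  · simp

theorem ex_let_true {x y y' : Ca} {m : ℕ} {t : List Bool} :
    toAdd (ex (false, res x m, res y m) (let' (true, y') t m)) = 0 := by
  unfold let'
  split_ifs with h1
  · rw [ex_of, if_neg]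
    intro h2
    have h3 : true = false := congrArg (fun s : Sym => s.1) h2
    exact absurd h3 (by simp)
  · simp

theorem ex_let_ne {x y x' y' : Ca} {m j : ℕ} (h : ¬ (res x' m = res x m ∧ res y' m = res y m)) :
    toAdd (ex (false, res x m, res y m) (let' (false, x') (res y' j) m)) = 0 := by
  by_cases hj : j = m
  · subst hj
    unfold let'
    split_ifs with h1
    · rw [ex_of, if_neg]
      intro h2
      exact h ⟨congrArg (fun s : Sym => s.2.1) h2, congrArg (fun s : Sym => s.2.2) h2⟩
    · simp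
  · exact ex_let (by rwa [res_length])

theorem ex_zz_succ (s : Sym) (x y : Ca) (m k : ℕ) : toAdd (ex s (zz x y m (k + 1))) =
    2 * toAdd (ex s (zz x y m k)) + toAdd (ex s (let' (false, x) (res y (m - k)) m)) +
      toAdd (ex s (let' (true, y) (res x (m - k)) m)) := by
  simp only [zz, map_mul, map_pow, toAdd_mul, toAdd_pow, nsmul_eq_mul, Nat.cast_ofNat]

theorem ex_zz_ne {x y x' y' : Ca} {m : ℕ} (h : ¬ (res x' m = res x m ∧ res y' m = res y m))
    (k : ℕ) : toAdd (ex (false, res x m, res y m) (zz x' y' m k)) = 0 := by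
  induction k with
  | zero => simp [zz]
  | succ k ih => rw [ex_zz_succ, ih, ex_let_ne h, ex_let_true]; simp

theorem ex_zz_self {x y : Ca} {m : ℕ} (k : ℕ) (hk : k ≤ m) :
    toAdd (ex (false, res x m, res y m) (zz x y m (k + 1))) = 2 ^ k := by
  induction k with
  | zero =>
    rw [ex_zz_succ, ex_let_true]
    simp only [zz, map_one, toAdd_one, mul_zero, Nat.sub_zero, zero_add, add_zero, pow_zero, let',
      res_length, le_refl, if_true]
    rw [ex_of, if_pos rfl]
  | succ k ih =>
    rw [ex_zz_succ, ih (by omega), ex_let_true, ex_let (by rw [res_length]; omega), pow_succ]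
    ring

theorem Psi_z_self (x y : Ca) (m : ℕ) : toAdd (Psi x y (z x y 0)) m = 1 := by
  rw [Psi_apply, z, Nat.sub_zero, ex_zz_self m le_rfl]
  exact inv_mul_cancel₀ (by positivity)

theorem Psi_let (x y : Ca) (v : Vx) (t : List Bool) :
    ∀ᶠ m in atTop, toAdd (Psi x y (let' v t)) m = 0 := by
  filter_upwards [eventually_gt_atTop t.length] with m hm
  rw [Psi_apply, ex_let hm.ne, mul_zero]

theorem Psi_z_ne {x y x' y' : Ca} (h : (x', y') ≠ (x, y)) (n : ℕ) :
    ∀ᶠ m in atTop, toAdd (Psi x y (z x' y' n)) m = 0 := by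
  have key : ∀ {u w : Ca}, u ≠ w → ∀ᶠ m in atTop, res u m ≠ res w m := by
    intro u w huw
    obtain ⟨i, hi⟩ := Function.ne_iff.1 huw
    filter_upwards [eventually_gt_atTop i] with m hm hres
    exact hi (res_eq_res.1 hres hm)
  by_cases hx : x' = x
  · have hy : y' ≠ y := fun hy => h (by rw [hx, hy])
    filter_upwards [key hy] with m hm
    rw [Psi_apply, z, ex_zz_ne (fun hc => hm hc.2), mul_zero]
  · filter_upwards [key hx] with m hm
    rw [Psi_apply, z, ex_zz_ne (fun hc => hm hc.1), mul_zero]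

theorem Psi_GS {R : Set (Ca × Ca)} {F : Set Vx} {x y : Ca}
    (h : ¬ ((false, x) ∈ F ∧ (true, y) ∈ F)) {g : Om} (hg : g ∈ GS R F) :
    ∀ᶠ m in atTop, toAdd (Psi x y g) m = 0 := by
  induction hg using Subgroup.closure_induction with
  | mem g hg =>
    rcases hg with ⟨v, _, t, rfl⟩ | ⟨x', y', n, _, hx, hy, rfl⟩
    · exact Psi_let x y v t
    · refine Psi_z_ne ?_ n
      intro hc
      obtain ⟨rfl, rfl⟩ := Prod.mk.inj hc
      exact h ⟨hx, hy⟩
  | one => exact Eventually.of_forall fun m => by simp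
  | mul a b _ _ iha ihb =>
    filter_upwards [iha, ihb] with m ha hb
    rw [map_mul, toAdd_mul, Pi.add_apply, ha, hb, add_zero]
  | inv a _ ih =>
    filter_upwards [ih] with m ha
    rw [map_inv, toAdd_inv, Pi.neg_apply, ha, neg_zero]

/-- The group is not free, if the graph has no orientation with countable outdegrees. -/
theorem not_free {R : Set (Ca × Ca)}
    (hK : ∀ out : Vx → Set Vx, (∀ v, (out v).Countable) →
      ∃ x y, (x, y) ∈ R ∧ (true, y) ∉ out (false, x) ∧ (false, x) ∉ out (true, y)) :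
    ¬ IsFreeGroup (GS R Set.univ) := by
  intro hfree
  let X := IsFreeGroup.Generators (GS R Set.univ)
  let e : GS R Set.univ ≃* FreeGroup X := IsFreeGroup.toFreeGroup (GS R Set.univ)
  let pr : FreeGroup X →* Multiplicative (X →₀ ℤ) :=
    FreeGroup.lift fun s => ofAdd (Finsupp.single s (1 : ℤ))
  let π : GS R Set.univ →* Multiplicative (X →₀ ℤ) := pr.comp e.toMonoidHom
  let b : X → GS R Set.univ := fun s => e.symm (FreeGroup.of s)
  let L : Vx → List Bool → GS R Set.univ := fun v t =>
    ⟨let' v t, Subgroup.subset_closure (Or.inl ⟨v, trivial, t, rfl⟩)⟩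
  let Sv : Vx → Set X := fun v => ⋃ t : List Bool, ((toAdd (π (L v t))).support : Set X)
  have hSv : ∀ v, (Sv v).Countable := fun v => Set.countable_iUnion fun t =>
    Finset.countable_toSet _
  choose F _ hF using fun s : X => exists_finset (b s).2
  let out : Vx → Set Vx := fun v => ⋃ s ∈ Sv v, (F s : Set Vx)
  obtain ⟨x, y, hR, h1, h2⟩ := hK out fun v => (hSv v).biUnion fun s _ => Finset.countable_toSet _
  let ζ : ℕ → GS R Set.univ := fun n =>
    ⟨z x y n, Subgroup.subset_closure (Or.inr ⟨x, y, n, hR, trivial, trivial, rfl⟩)⟩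
  have hζ : ∀ n, ζ n = ζ (n + 1) ^ 2 * L (false, x) (res y n) * L (true, y) (res x n) :=
    fun n => Subtype.ext (z_eq x y n)
  -- the exponents of `ζ 0` vanish outside the supports of the letters
  have hzero : ∀ s, s ∉ Sv (false, x) → s ∉ Sv (true, y) → toAdd (π (ζ 0)) s = 0 := by
    intro s hs1 hs2
    have hL1 : ∀ t, toAdd (π (L (false, x) t)) s = 0 := by
      intro t
      by_contra hne
      exact hs1 (Set.mem_iUnion.2 ⟨t, by simpa using hne⟩)
    have hL2 : ∀ t, toAdd (π (L (true, y) t)) s = 0 := by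
      intro t
      by_contra hne
      exact hs2 (Set.mem_iUnion.2 ⟨t, by simpa using hne⟩)
    have hstep : ∀ n, toAdd (π (ζ n)) s = 2 * toAdd (π (ζ (n + 1))) s := by
      intro n
      rw [hζ n, π.map_mul, π.map_mul, π.map_pow, toAdd_mul, toAdd_mul, toAdd_pow,
        Finsupp.add_apply, Finsupp.add_apply, Finsupp.smul_apply, hL1, hL2]
      simp
    have hpow : ∀ n, toAdd (π (ζ 0)) s = 2 ^ n * toAdd (π (ζ n)) s := by
      intro n
      induction n with
      | zero => simp
      | succ n ih => rw [ih, hstep n, pow_succ]; ring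
    by_contra hne
    set a := toAdd (π (ζ 0)) s with ha
    have hdvd : (2 : ℤ) ^ a.natAbs ∣ a := ⟨_, hpow _⟩
    have hle := Int.natAbs_dvd_natAbs.2 hdvd
    rw [Int.natAbs_pow] at hle
    have h3 := Nat.le_of_dvd (Int.natAbs_pos.2 hne) hle
    have h4 : a.natAbs < 2 ^ a.natAbs := Nat.lt_two_pow_self
    simp only [Int.reduceAbs] at h3
    omega
  -- the homomorphism `Psi` factors through the exponents
  let Ψ : GS R Set.univ →* Multiplicative (ℕ → ℚ) := (Psi x y).comp (GS R Set.univ).subtype
  let T : (X →₀ ℤ) →+ (ℕ → ℚ) :=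
    Finsupp.liftAddHom fun s => (zmultiplesHom (ℕ → ℚ)) (toAdd (Ψ (b s)))
  have hfac : ∀ g, toAdd (Ψ g) = T (toAdd (π g)) := by
    have h : Ψ.comp e.symm.toMonoidHom = (AddMonoidHom.toMultiplicative T).comp pr := by
      ext s
      simp only [MonoidHom.comp_apply, MulEquiv.coe_toMonoidHom, pr, FreeGroup.lift_apply_of,
        AddMonoidHom.toMultiplicative_apply_apply, toAdd_ofAdd, T, Finsupp.liftAddHom_apply_single]
      simp [b]
    intro g
    have h3 := DFunLike.congr_fun h (e g)
    simp only [MonoidHom.comp_apply, MulEquiv.coe_toMonoidHom, MulEquiv.symm_apply_apply] at h3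
    rw [h3]
    rfl
  have hev : ∀ s ∈ (toAdd (π (ζ 0))).support, ∀ᶠ m in atTop, toAdd (Ψ (b s)) m = 0 := by
    intro s hs
    have hs' : s ∈ Sv (false, x) ∨ s ∈ Sv (true, y) := by
      by_contra hc
      rw [not_or] at hc
      exact (Finsupp.mem_support_iff.1 hs) (hzero s hc.1 hc.2)
    refine Psi_GS ?_ (hF s)
    rintro ⟨h3, h4⟩
    rcases hs' with hs' | hs'
    · exact h1 (Set.mem_biUnion hs' h4)
    · exact h2 (Set.mem_biUnion hs' h3)
  have hfin : ∀ᶠ m in atTop, ∀ s ∈ (toAdd (π (ζ 0))).support, toAdd (Ψ (b s)) m = 0 :=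
    (Filter.eventually_all_finset _).2 hev
  obtain ⟨m, hm⟩ := hfin.exists
  have h3 : toAdd (Ψ (ζ 0)) m = 1 := Psi_z_self x y m
  rw [hfac, Finsupp.liftAddHom_apply, Finsupp.sum, Finset.sum_apply] at h3
  rw [Finset.sum_eq_zero] at h3
  · exact absurd h3 (by norm_num)
  · intro s hs
    simp [hm s hs]

end Pool.Agent.H409_AG.D
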