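import Pool.Agent.H409_AG.Stmts
import Pool.Agent.H409_AG.PartD_Meas
import Pool.Agent.H409_AG.PartD_NotFree
import Pool.Agent.H409_AG.PartD_Free
import Pool.Agent.H409_AG.PartD_Cantor

/-!
# Part D: the analytic group obtained from an incompact closed graph
-/

set_option autoImplicit false

namespace Pool.Agent.H409_AG

open Cardinal

namespace D

theorem exists_le_aleph {κ : Cardinal.{0}} (h : κ < ℵ_ Ordinal.omega0) :
    ∃ n : ℕ, κ ≤ ℵ_ (n : Ordinal.{0}) := by
  by_contra hc
  push Not at hc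
  refine absurd h (not_lt.2 ?_)
  rw [Cardinal.aleph_limit Ordinal.isSuccLimit_omega0]
  refine ciSup_le' ?_
  rintro ⟨o, ho⟩
  obtain ⟨n, rfl⟩ := Ordinal.lt_omega0.1 ho
  exact (hc n).le

/-- A small subgroup of the group is contained in the subgroup attached to a small set of
vertices. -/
theorem exists_small {R : Set (Ca × Ca)} {K : Subgroup Om} (hK : K ≤ GS R Set.univ)
    (hc : #K < ℵ_ Ordinal.omega0) :
    ∃ S : Set Vx, #S < ℵ_ Ordinal.omega0 ∧ K ≤ GS R S := by
  choose F _ hF using fun g : K => exists_finset (hK g.2)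
  refine ⟨⋃ g : K, (F g : Set Vx), ?_, fun g hg => ?_⟩
  · have hω : ℵ₀ < ℵ_ Ordinal.omega0 := by
      rw [← Cardinal.aleph_zero]
      exact Cardinal.aleph_lt_aleph.2 Ordinal.omega0_pos
    refine (Cardinal.mk_iUnion_le _).trans_lt ?_
    refine Cardinal.mul_lt_of_lt hω.le hc ?_
    refine lt_of_le_of_lt (ciSup_le' fun g => ?_) hω
    exact (Finset.countable_toSet _).le_aleph0
  · exact GS_mono (Set.subset_iUnion (fun g : K => (F g : Set Vx)) ⟨g, hg⟩) (hF ⟨g, hg⟩)

theorem free_of_le {G : Type} [Group G] {K H : Subgroup G} (h : K ≤ H) (hH : IsFreeGroup H) :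
    IsFreeGroup K := by
  have h1 : IsFreeGroup (K.subgroupOf H) := subgroupIsFreeOfIsFree _
  exact IsFreeGroup.ofMulEquiv (Subgroup.subgroupOfEquivOfLe h)

end D

open D in
/-- An incompact closed graph gives a group on the reals with a Borel multiplication which is
`ℵ_ω`-free but not free. -/
theorem borel_group_of_incompact (h : Incompact) : ∃ G : Group ℝ,
    MeasurableSet {p : ℝ × ℝ × ℝ | G.mul p.1 p.2.1 = p.2.2} ∧
      IsKappaFree (ℵ_ Ordinal.omega0) G ∧ ¬ @IsFreeGroup ℝ G := by
  obtain ⟨T, hT, K, z, hz⟩ := h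
  obtain ⟨G, hG, h1, h2⟩ := exists_real_group (GS (RC T) Set.univ) (measurableSet_GS isClosed_closure)
    (not_countable_GS _)
  refine ⟨G, hG, ?_, ?_⟩
  · intro H hH
    obtain ⟨K', hK', hcard, hfree⟩ := h2 H
    apply hfree
    obtain ⟨S, hS, hle⟩ := exists_small hK' (hcard ▸ hH)
    obtain ⟨n, hn⟩ := exists_le_aleph hS
    obtain ⟨out, ho1, ho2⟩ := exists_out (hT n) hn
    exact free_of_le hle (free_of_orient out ho1 ho2)
  · intro hfree
    exact not_free (not_exists_out hz) (h1 hfree)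

theorem group_of_incompact : Stmts.TaskD := by
  intro h
  obtain ⟨G, h1, h2, h3⟩ := borel_group_of_incompact h
  exact ⟨G, h1.analyticSet, h2, h3⟩

end Pool.Agent.H409_AG
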