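import Pool.Agent.H409_AG.PartD_Defs

/-!
# Part D, step D0: the graph on the Cantor space
-/

set_option autoImplicit false

namespace Pool.Agent.H409_AG.PD

open Cardinal PiNat Topology

/-! ### The embedding of the Baire space in the Cantor space -/

/-- the position of the `i`-th one -/
def pos (x : ℕ → ℕ) (i : ℕ) : ℕ := (∑ j ∈ Finset.range (i + 1), x j) + i

theorem pos_succ (x : ℕ → ℕ) (i : ℕ) : pos x (i + 1) = pos x i + x (i + 1) + 1 := by
  unfold pos
  rw [Finset.sum_range_succ _ (i + 1)]
  ring

theorem pos_zero (x : ℕ → ℕ) : pos x 0 = x 0 := by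
  simp [pos]

theorem pos_strictMono (x : ℕ → ℕ) : StrictMono (pos x) :=
  strictMono_nat_of_lt_succ fun i => by rw [pos_succ]; omega

open Classical in
/-- the embedding -/
noncomputable def psi (x : ℕ → ℕ) : C := fun n => decide (∃ i, pos x i = n)

theorem psi_eq_true {x : ℕ → ℕ} {n : ℕ} : psi x n = true ↔ ∃ i, pos x i = n := by
  simp [psi]

theorem agree_pos {x x' : ℕ → ℕ} {n : ℕ} (h : ∀ k ≤ pos x n, psi x' k = psi x k) :
    ∀ i ≤ n, pos x' i = pos x i := by
  intro i
  induction i using Nat.strong_induction_on with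
  | _ i ih =>
    intro hi
    have hle : pos x i ≤ pos x n := (pos_strictMono x).monotone hi
    have h1 : psi x' (pos x i) = true := by
      rw [h _ hle]
      exact psi_eq_true.2 ⟨i, rfl⟩
    obtain ⟨k, hk⟩ := psi_eq_true.1 h1
    have h2 : i ≤ k := by
      by_contra hc
      push Not at hc
      have h3 := ih k hc (hc.le.trans hi)
      rw [h3] at hk
      exact hc.ne ((pos_strictMono x).injective hk)
    have h4 : pos x' i ≤ pos x i := by
      rw [← hk]
      exact (pos_strictMono x').monotone h2
    have h5 : psi x (pos x' i) = true := by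
      rw [← h _ (h4.trans hle)]
      exact psi_eq_true.2 ⟨i, rfl⟩
    obtain ⟨l, hl⟩ := psi_eq_true.1 h5
    have h6 : i ≤ l := by
      by_contra hc
      push Not at hc
      have h3 := ih l hc (hc.le.trans hi)
      rw [← h3] at hl
      exact hc.ne ((pos_strictMono x').injective hl)
    have h7 : pos x i ≤ pos x' i := by
      rw [← hl]
      exact (pos_strictMono x).monotone h6
    exact le_antisymm h4 h7

theorem agree {x x' : ℕ → ℕ} {n : ℕ} (h : ∀ k ≤ pos x n, psi x' k = psi x k) :
    ∀ i ≤ n, x' i = x i := by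
  intro i hi
  have h1 := agree_pos h
  cases i with
  | zero =>
    have := h1 0 hi
    rwa [pos_zero, pos_zero] at this
  | succ i =>
    have h2 := h1 (i + 1) hi
    have h3 := h1 i (by omega)
    rw [pos_succ, pos_succ] at h2
    omega

theorem psi_injective : Function.Injective psi := by
  intro x y hxy
  funext n
  exact agree (x := y) (x' := x) (n := n) (fun k _ => by rw [hxy]) n le_rfl

/-- the points which are not in the range of the embedding -/
def Q0 : Set C := {c | {n | c n = true}.Finite}

theorem Q0_countable : Q0.Countable := by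
  have h : Set.InjOn (fun c : C => {n | c n = true}) Q0 := by
    intro c _ d _ hcd
    funext n
    have := Set.ext_iff.1 hcd n
    simp only [Set.mem_ofPred_eq] at this
    rw [Bool.eq_iff_iff]
    exact this
  have h2 : ((fun c : C => {n | c n = true}) '' Q0).Countable := by
    refine (Set.countable_ofPred_finite_subset (Set.countable_univ (α := ℕ))).mono ?_
    rintro _ ⟨c, hc, rfl⟩
    exact ⟨hc, Set.subset_univ _⟩
  exact Set.countable_of_injective_of_countable_image h h2

theorem exists_psi {c : C} (hc : c ∉ Q0) : ∃ x, psi x = c := by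
  have hinf : {n | c n = true}.Infinite := hc
  let p : ℕ → ℕ := Nat.nth fun n => c n = true
  have hp : StrictMono p := Nat.nth_strictMono hinf
  have hr : Set.range p = {n | c n = true} := Nat.range_nth_of_infinite hinf
  let x : ℕ → ℕ := fun i => Nat.casesOn i (p 0) fun k => p (k + 1) - p k - 1
  have hx0 : x 0 = p 0 := rfl
  have hxs : ∀ k, x (k + 1) = p (k + 1) - p k - 1 := fun k => rfl
  have hpos : ∀ i, pos x i = p i := by
    intro i
    induction i with
    | zero => rw [pos_zero, hx0]
    | succ i ih =>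
      rw [pos_succ, ih, hxs]
      have := hp (Nat.lt_succ_self i)
      have h' : p i < p (i + 1) := this
      omega
  refine ⟨x, ?_⟩
  funext n
  rw [Bool.eq_iff_iff, psi_eq_true]
  have h1 : (∃ i, pos x i = n) ↔ n ∈ Set.range p := by
    simp only [hpos, Set.mem_range]
  rw [h1, hr]
  rfl

/-! ### The graph -/

/-- the graph on the Cantor space -/
def RR (T : List ℕ → List ℕ → Prop) : Set (C × C) :=
  closure {p | ∃ x y, RT T x y ∧ p = (psi x, psi y)}

theorem RR_compact (T : List ℕ → List ℕ → Prop) : IsCompact (RR T) :=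
  isClosed_closure.isCompact

theorem RR_of {T : List ℕ → List ℕ → Prop} {x y : ℕ → ℕ} (h : RT T x y) :
    (psi x, psi y) ∈ RR T := subset_closure ⟨x, y, h, rfl⟩

theorem of_RR {T : List ℕ → List ℕ → Prop} {x y : ℕ → ℕ} (h : (psi x, psi y) ∈ RR T) :
    RT T x y := by
  rintro s t hst ⟨hs, ht⟩
  let U : Set (C × C) := {p | (∀ k ≤ pos x s.length, p.1 k = psi x k) ∧
    ∀ k ≤ pos y s.length, p.2 k = psi y k}
  have hU : IsOpen U := by
    have h1 : IsOpen {p : C × C | ∀ k ≤ pos x s.length, p.1 k = psi x k} := by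
      have : {p : C × C | ∀ k ≤ pos x s.length, p.1 k = psi x k} =
          ⋂ k ∈ Set.Iic (pos x s.length), (fun p : C × C => p.1 k) ⁻¹' {psi x k} := by
        ext p
        simp
      rw [this]
      exact (Set.finite_Iic _).isOpen_biInter fun k _ =>
        (isOpen_discrete _).preimage ((continuous_apply k).comp continuous_fst)
    have h2 : IsOpen {p : C × C | ∀ k ≤ pos y s.length, p.2 k = psi y k} := by
      have : {p : C × C | ∀ k ≤ pos y s.length, p.2 k = psi y k} =
          ⋂ k ∈ Set.Iic (pos y s.length), (fun p : C × C => p.2 k) ⁻¹' {psi y k} := by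
        ext p
        simp
      rw [this]
      exact (Set.finite_Iic _).isOpen_biInter fun k _ =>
        (isOpen_discrete _).preimage ((continuous_apply k).comp continuous_snd)
    exact h1.inter h2
  obtain ⟨p, ⟨hp1, hp2⟩, x', y', hR, rfl⟩ := mem_closure_iff.1 h U hU ⟨fun _ _ => rfl, fun _ _ => rfl⟩
  have h3 := agree hp1
  have h4 := agree hp2
  apply hR s t hst
  refine ⟨fun i hi => ?_, fun i hi => ?_⟩
  · rw [h3 i hi.le]
    exact hs i hi
  · rw [h4 i (by rw [hst]; exact hi.le)]
    exact ht i hi

theorem exists_cover {n : ℕ} {S : Set Vt} (hS : #S ≤ ℵ_ n) :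
    ∃ e : (ℵ_ n : Cardinal.{0}).out → Vt, S ⊆ Set.range e := by
  classical
  rw [← Cardinal.mk_out (ℵ_ n : Cardinal.{0}), Cardinal.le_def] at hS
  obtain ⟨j⟩ := hS
  refine ⟨fun i => if h : ∃ v : S, j v = i then (h.choose : Vt) else (false, fun _ => false), ?_⟩
  intro v hv
  have h : ∃ w : S, j w = j ⟨v, hv⟩ := ⟨⟨v, hv⟩, rfl⟩
  refine ⟨j ⟨v, hv⟩, ?_⟩
  simp only [dif_pos h]
  have := j.injective h.choose_spec
  rw [this]

theorem step_D0 : S_D0 := by
  classical
  rintro ⟨T, hT, K, z, hz⟩
  have hdec : ∃ dec : C → ℕ → ℕ, ∀ x, dec (psi x) = x :=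
    ⟨Function.invFun psi, Function.leftInverse_invFun psi_injective⟩
  obtain ⟨dec, hdec⟩ := hdec
  refine ⟨RR T, RR_compact T, ?_, ?_⟩
  · intro n S hS
    obtain ⟨e, he⟩ := exists_cover hS
    obtain ⟨f, hf⟩ := hT n fun i => dec (e i).2
    have hidx : ∀ v : Vt, ∃ i, (∃ i, dec (e i).2 = dec v.2) → dec (e i).2 = dec v.2 := by
      intro v
      by_cases h : ∃ i, dec (e i).2 = dec v.2
      · obtain ⟨i, hi⟩ := h
        exact ⟨i, fun _ => hi⟩
      · have : Nonempty (ℵ_ n : Cardinal.{0}).out := by
          rw [← Cardinal.mk_ne_zero_iff, Cardinal.mk_out]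
          exact (Cardinal.aleph_pos _).ne'
        exact ⟨Classical.arbitrary _, fun h' => absurd h' h⟩
    choose idx hidx using hidx
    refine ⟨fun v => (Set.univ ×ˢ Q0) ∪
      Set.range fun p : Bool × ℕ => (p.1, psi (dec (e (f (idx v) p.2)).2)), ?_, ?_⟩
    · intro v
      exact (Set.countable_univ.prod Q0_countable).union (Set.countable_range _)
    · intro x y hxy hx hy
      by_cases hxQ : x ∈ Q0
      · exact Or.inr (Or.inl ⟨trivial, hxQ⟩)
      by_cases hyQ : y ∈ Q0
      · exact Or.inl (Or.inl ⟨trivial, hyQ⟩)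
      obtain ⟨x', rfl⟩ := exists_psi hxQ
      obtain ⟨y', rfl⟩ := exists_psi hyQ
      have hR : RT T x' y' := of_RR hxy
      have h1 : dec (e (idx (false, psi x'))).2 = x' := by
        rw [hidx (false, psi x') ?_]
        · exact hdec x'
        · obtain ⟨i, hi⟩ := he hx
          exact ⟨i, by rw [hi]⟩
      have h2 : dec (e (idx (true, psi y'))).2 = y' := by
        rw [hidx (true, psi y') ?_]
        · exact hdec y'
        · obtain ⟨i, hi⟩ := he hy
          exact ⟨i, by rw [hi]⟩
      rcases hf (idx (false, psi x')) (idx (true, psi y'))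
        (by simp only [h1, h2]; exact hR) with h | h
      · obtain ⟨m, hm⟩ := h
        left
        right
        refine ⟨(true, m), ?_⟩
        simp only at hm ⊢
        rw [hm, h2]
      · obtain ⟨m, hm⟩ := h
        right
        right
        refine ⟨(false, m), ?_⟩
        simp only at hm ⊢
        rw [hm, h1]
  · rintro ⟨out, hout1, hout2⟩
    apply hz
    let A : K → Set C := fun i => (⋃ b : Bool, ⋃ b' : Bool,
      {c | (b, c) ∈ out (b', psi (z i))}) ∪ {fun _ => false}
    have hA : ∀ i, (A i).Countable := by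
      intro i
      refine Set.Countable.union ?_ (Set.countable_singleton _)
      refine Set.countable_iUnion fun b => Set.countable_iUnion fun b' => ?_
      exact (hout1 (b', psi (z i))).preimage (fun c d h => (Prod.ext_iff.1 h).2)
    have hA' : ∀ i, ∃ g : ℕ → C, A i = Set.range g := fun i =>
      (hA i).exists_eq_range ⟨_, Or.inr rfl⟩
    choose g hg using hA'
    let kk : K → C → K := fun i c => if h : ∃ k, psi (z k) = c then h.choose else i
    have hkk : ∀ i j, z (kk i (psi (z j))) = z j := by
      intro i j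
      have h : ∃ k, psi (z k) = psi (z j) := ⟨j, rfl⟩
      have h1 : kk i (psi (z j)) = h.choose := dif_pos h
      rw [h1]
      exact psi_injective h.choose_spec
    refine ⟨fun i m => kk i (g i m), fun i j hij => ?_⟩
    rcases hout2 _ _ (RR_of hij) trivial trivial with h | h
    · left
      have h1 : psi (z j) ∈ A i :=
        Or.inl (Set.mem_iUnion.2 ⟨true, Set.mem_iUnion.2 ⟨false, h⟩⟩)
      rw [hg i] at h1
      obtain ⟨m, hm⟩ := h1
      exact ⟨m, by simp only [hm, hkk]⟩
    · right
      have h1 : psi (z i) ∈ A j :=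
        Or.inl (Set.mem_iUnion.2 ⟨false, Set.mem_iUnion.2 ⟨true, h⟩⟩)
      rw [hg j] at h1
      obtain ⟨m, hm⟩ := h1
      exact ⟨m, by simp only [hm, hkk]⟩

end Pool.Agent.H409_AG.PD
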