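import Pool.Agent.H409_AG.PartD_Defs

/-!
# Part D, step D1: the group is isomorphic to an analytic group on the reals
-/

set_option autoImplicit false

namespace Pool.Agent.H409_AG.PD

open Cardinal PiNat Topology

/-! ### Countable unions of compact sets generate countable unions of compact sets -/

section

variable {Γ : Type} [TopologicalSpace Γ]

theorem sigmaCompact_prod {Δ : Type} [TopologicalSpace Δ] {s : Set Γ} {t : Set Δ}
    (hs : IsSigmaCompact s) (ht : IsSigmaCompact t) : IsSigmaCompact (s ×ˢ t) := by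
  obtain ⟨K, hK, rfl⟩ := hs
  obtain ⟨L, hL, rfl⟩ := ht
  have : (⋃ n, K n) ×ˢ (⋃ n, L n) = ⋃ p : ℕ × ℕ, K p.1 ×ˢ L p.2 := by
    ext ⟨a, b⟩
    simp only [Set.mem_prod, Set.mem_iUnion, Prod.exists]
    constructor
    · rintro ⟨⟨i, hi⟩, ⟨j, hj⟩⟩
      exact ⟨i, j, hi, hj⟩
    · rintro ⟨i, j, hi, hj⟩
      exact ⟨⟨i, hi⟩, ⟨j, hj⟩⟩
  rw [this]
  exact isSigmaCompact_iUnion _ fun p => ((hK p.1).prod (hL p.2)).isSigmaCompact

theorem sigmaCompact_union {s t : Set Γ} (hs : IsSigmaCompact s) (ht : IsSigmaCompact t) :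
    IsSigmaCompact (s ∪ t) := by
  rw [Set.union_eq_iUnion]
  refine isSigmaCompact_iUnion _ fun b => ?_
  cases b
  · exact ht
  · exact hs

variable [Group Γ] [IsTopologicalGroup Γ]

/-- products of `n` elements of `T` -/
def prods (T : Set Γ) : ℕ → Set Γ
  | 0 => {1}
  | n + 1 => (fun p : Γ × Γ => p.1 * p.2) '' (prods T n ×ˢ T)

theorem prods_sigmaCompact {T : Set Γ} (hT : IsSigmaCompact T) (n : ℕ) :
    IsSigmaCompact (prods T n) := by
  induction n with
  | zero => exact isCompact_singleton.isSigmaCompact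
  | succ n ih => exact (sigmaCompact_prod ih hT).image continuous_mul

omit [TopologicalSpace Γ] [IsTopologicalGroup Γ] in
theorem prods_mul {T : Set Γ} {n m : ℕ} {a b : Γ} (ha : a ∈ prods T n) (hb : b ∈ prods T m) :
    a * b ∈ prods T (n + m) := by
  induction m generalizing b with
  | zero =>
    have : b = 1 := hb
    rw [this, mul_one]
    exact ha
  | succ m ih =>
    obtain ⟨⟨c, d⟩, ⟨hc, hd⟩, rfl⟩ := hb
    exact ⟨(a * c, d), ⟨ih hc, hd⟩, by simp only; group⟩

omit [TopologicalSpace Γ] [IsTopologicalGroup Γ] in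
theorem prods_one {T : Set Γ} {a : Γ} (ha : a ∈ T) : a ∈ prods T 1 :=
  ⟨(1, a), ⟨rfl, ha⟩, one_mul a⟩

omit [TopologicalSpace Γ] [IsTopologicalGroup Γ] in
theorem prods_inv {T : Set Γ} (hT : ∀ a ∈ T, a⁻¹ ∈ T) {n : ℕ} {a : Γ} (ha : a ∈ prods T n) :
    a⁻¹ ∈ prods T n := by
  induction n generalizing a with
  | zero =>
    have : a = 1 := ha
    rw [this, inv_one]
    rfl
  | succ n ih =>
    obtain ⟨⟨c, d⟩, ⟨hc, hd⟩, rfl⟩ := ha
    have h1 := prods_mul (prods_one (hT d hd)) (ih hc)
    rw [add_comm] at h1
    simpa only [mul_inv_rev] using h1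

theorem closure_sigmaCompact {T : Set Γ} (hT : IsSigmaCompact T) :
    IsSigmaCompact (Subgroup.closure T : Set Γ) := by
  let T' : Set Γ := T ∪ (fun a => a⁻¹) '' T
  have hT' : IsSigmaCompact T' := sigmaCompact_union hT (hT.image continuous_inv)
  have hinv : ∀ a ∈ T', a⁻¹ ∈ T' := by
    rintro a (ha | ⟨b, hb, rfl⟩)
    · exact Or.inr ⟨a, ha, rfl⟩
    · left
      simpa using hb
  have : (Subgroup.closure T : Set Γ) = ⋃ n, prods T' n := by
    apply Set.Subset.antisymm
    · intro a ha
      induction ha using Subgroup.closure_induction with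
      | mem a ha => exact Set.mem_iUnion.2 ⟨1, prods_one (Or.inl ha)⟩
      | one => exact Set.mem_iUnion.2 ⟨0, rfl⟩
      | mul a b _ _ iha ihb =>
        obtain ⟨n, hn⟩ := Set.mem_iUnion.1 iha
        obtain ⟨m, hm⟩ := Set.mem_iUnion.1 ihb
        exact Set.mem_iUnion.2 ⟨n + m, prods_mul hn hm⟩
      | inv a _ ih =>
        obtain ⟨n, hn⟩ := Set.mem_iUnion.1 ih
        exact Set.mem_iUnion.2 ⟨n, prods_inv hinv hn⟩
    · refine Set.iUnion_subset fun n => ?_
      induction n with
      | zero =>
        intro a ha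
        have : a = 1 := ha
        rw [this]
        exact one_mem _
      | succ n ih =>
        rintro _ ⟨⟨c, d⟩, ⟨hc, hd⟩, rfl⟩
        refine mul_mem (ih hc) ?_
        rcases hd with hd | ⟨b, hb, rfl⟩
        · exact Subgroup.subset_closure hd
        · exact inv_mem (Subgroup.subset_closure hb)
  rw [this]
  exact isSigmaCompact_iUnion _ fun n => prods_sigmaCompact hT' n

end

/-! ### The topology of the group `Om` -/

theorem countable_freeGroup : Countable (FreeGroup Sym) := by
  have : Function.Surjective (FreeGroup.mk : List (Sym × Bool) → FreeGroup Sym) :=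
    Quot.mk_surjective
  exact this.countable

local instance instTop : TopologicalSpace (FreeGroup Sym) := ⊥

local instance instDisc : DiscreteTopology (FreeGroup Sym) := ⟨rfl⟩

local instance instCount : Countable (FreeGroup Sym) := countable_freeGroup

local instance instMeas : MeasurableSpace (FreeGroup Sym) := borel _

local instance instBor : BorelSpace (FreeGroup Sym) := ⟨rfl⟩

theorem res_lc (m : ℕ) : IsLocallyConstant fun x : C => res x m := by
  induction m with
  | zero => exact IsLocallyConstant.const []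
  | succ m ih =>
    have h1 : IsLocallyConstant fun x : C => x m :=
      (IsLocallyConstant.iff_continuous _).2 (continuous_apply m)
    exact h1.comp₂ ih fun b l => b :: l

theorem lt_lc (i : Bool) (t : List Bool) (m : ℕ) :
    IsLocallyConstant fun x : C => lt (i, x) t m :=
  (res_lc m).comp fun l => if t.length ≤ m then FreeGroup.of (i, l, t) else 1

theorem lt_continuous (i : Bool) (t : List Bool) : Continuous fun x : C => lt (i, x) t :=
  continuous_pi fun m => (lt_lc i t m).continuous

/-- the value of `lt` in terms of the finite sequences -/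
theorem zaux_lc (m k : ℕ) : IsLocallyConstant fun p : C × C => zaux p.1 p.2 m k := by
  induction k with
  | zero => exact IsLocallyConstant.const 1
  | succ k ih =>
    have h1 : IsLocallyConstant fun p : C × C => res p.1 m :=
      (res_lc m).comp_continuous continuous_fst
    have h2 : IsLocallyConstant fun p : C × C => res p.2 m :=
      (res_lc m).comp_continuous continuous_snd
    have h3 : IsLocallyConstant fun p : C × C => res p.1 (m - k) :=
      (res_lc (m - k)).comp_continuous continuous_fst
    have h4 : IsLocallyConstant fun p : C × C => res p.2 (m - k) :=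
      (res_lc (m - k)).comp_continuous continuous_snd
    have h5 : IsLocallyConstant fun p : C × C => lt (false, p.1) (res p.2 (m - k)) m :=
      h1.comp₂ h4 fun l t => if t.length ≤ m then FreeGroup.of (false, l, t) else 1
    have h6 : IsLocallyConstant fun p : C × C => lt (true, p.2) (res p.1 (m - k)) m :=
      h2.comp₂ h3 fun l t => if t.length ≤ m then FreeGroup.of (true, l, t) else 1
    exact (ih.comp₂ h5 fun a b => a ^ 2 * b).comp₂ h6 fun a b => a * b

theorem zz_continuous (n : ℕ) : Continuous fun p : C × C => zz p.1 p.2 n :=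
  continuous_pi fun m => (zaux_lc m (m + 1 - n)).continuous

theorem gens_sigmaCompact {R : Set (C × C)} (hR : IsCompact R) :
    IsSigmaCompact (gens R Set.univ) := by
  have h1 : gens R Set.univ = (⋃ p : Bool × List Bool, (fun x : C => lt (p.1, x) p.2) '' Set.univ)
      ∪ ⋃ n : ℕ, (fun p : C × C => zz p.1 p.2 n) '' R := by
    ext g
    constructor
    · rintro (⟨⟨i, x⟩, t, _, rfl⟩ | ⟨x, y, n, h, _, _, rfl⟩)
      · exact Or.inl (Set.mem_iUnion.2 ⟨(i, t), x, trivial, rfl⟩)
      · exact Or.inr (Set.mem_iUnion.2 ⟨n, (x, y), h, rfl⟩)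
    · rintro (h | h)
      · obtain ⟨⟨i, t⟩, x, _, rfl⟩ := Set.mem_iUnion.1 h
        exact Or.inl ⟨(i, x), t, trivial, rfl⟩
      · obtain ⟨n, ⟨x, y⟩, hxy, rfl⟩ := Set.mem_iUnion.1 h
        exact Or.inr ⟨x, y, n, hxy, trivial, trivial, rfl⟩
  rw [h1]
  refine sigmaCompact_union ?_ ?_
  · exact isSigmaCompact_iUnion _ fun p =>
      (isCompact_univ.image (lt_continuous p.1 p.2)).isSigmaCompact
  · exact isSigmaCompact_iUnion _ fun n => (hR.image (zz_continuous n)).isSigmaCompact

theorem GS_measurable {R : Set (C × C)} (hR : IsCompact R) :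
    MeasurableSet (GS R Set.univ : Set Om) := by
  obtain ⟨K, hK, h⟩ := closure_sigmaCompact (gens_sigmaCompact hR)
  rw [GS, ← h]
  exact MeasurableSet.iUnion fun n => (hK n).measurableSet

theorem mk_C : #C = 𝔠 := by simp [C]

theorem not_countable_GS (R : Set (C × C)) : ¬ Countable (GS R Set.univ) := by
  intro h
  let f : C → GS R Set.univ := fun x => ⟨lt (false, x) [],
    Subgroup.subset_closure (Or.inl ⟨(false, x), [], trivial, rfl⟩)⟩
  have hf : Function.Injective f := by
    intro x y hxy
    have h1 : lt (false, x) [] = lt (false, y) [] := Subtype.ext_iff.1 hxy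
    apply PiNat.res_injective
    funext m
    have h2 := congrFun h1 m
    rw [lt_of_le _ _ (Nat.zero_le _), lt_of_le _ _ (Nat.zero_le _)] at h2
    have h3 := FreeGroup.of_injective h2
    exact (Prod.ext_iff.1 (Prod.ext_iff.1 h3).2).1
  have h1 : Countable C := hf.countable
  have h2 : #C ≤ ℵ₀ := mk_le_aleph0
  rw [mk_C] at h2
  exact absurd h2 (not_le.2 aleph0_lt_continuum)

theorem step_D1 : S_D1 := by
  intro R hR
  have hmeas := GS_measurable hR
  have : StandardBorelSpace (GS R Set.univ) := hmeas.standardBorel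
  have hun : ¬ Countable ℝ := by
    rw [not_countable_iff]
    infer_instance
  let e : ℝ ≃ᵐ GS R Set.univ := PolishSpace.measurableEquivOfNotCountable hun (not_countable_GS R)
  refine ⟨e.toEquiv.group, e.toEquiv, ?_, ?_⟩
  · have h1 : {p : ℝ × ℝ × ℝ | (e.toEquiv.group).mul p.1 p.2.1 = p.2.2} =
        (fun p : ℝ × ℝ × ℝ => (((e p.1 : GS R Set.univ) : Om) * (e p.2.1 : GS R Set.univ),
          ((e p.2.2 : GS R Set.univ) : Om))) ⁻¹' {q : Om × Om | q.1 = q.2} := by
      ext p
      have h2 : (e.toEquiv.group).mul p.1 p.2.1 = e.symm (e p.1 * e p.2.1) := rfl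
      simp only [Set.mem_ofPred_eq, Set.mem_preimage]
      rw [h2]
      constructor
      · intro h
        rw [← h, MeasurableEquiv.apply_symm_apply]
        rfl
      · intro h
        have h3 : e p.1 * e p.2.1 = e p.2.2 := Subtype.ext h
        rw [h3, MeasurableEquiv.symm_apply_apply]
    rw [IsAnalyticGroup, h1]
    apply MeasurableSet.analyticSet
    have hv : Measurable fun r : ℝ => ((e r : GS R Set.univ) : Om) :=
      measurable_subtype_coe.comp e.measurable
    have h4 : Measurable fun p : ℝ × ℝ × ℝ =>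
        (((e p.1 : GS R Set.univ) : Om) * (e p.2.1 : GS R Set.univ),
          ((e p.2.2 : GS R Set.univ) : Om)) := by
      refine Measurable.prodMk ?_ (hv.comp (measurable_snd.comp measurable_snd))
      exact (hv.comp measurable_fst).mul (hv.comp (measurable_fst.comp measurable_snd))
    exact h4 (isClosed_diagonal.measurableSet)
  · intro a b
    have h2 : (e.toEquiv.group).mul a b = e.symm (e a * e b) := rfl
    rw [h2]
    exact e.apply_symm_apply _

end Pool.Agent.H409_AG.PD
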