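import Pool.Agent.H409_AG.PartD4

/-!
# Part D, step D2: if the group is free then the whole graph is orientable
-/

set_option autoImplicit false

namespace Pool.Agent.H409_AG.PD

open Cardinal PiNat

/-! ### Exponent sums in the group `Om` -/

open Classical in
/-- exponent sum of the symbol `(false, x|m, y|m)` -/
noncomputable def es (x y : C) (m : ℕ) : FreeGroup Sym →* Multiplicative ℤ :=
  FreeGroup.lift fun s => if s = (false, res x m, res y m) then Multiplicative.ofAdd 1 else 1

/-- exponent sum at the coordinate `m` -/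
noncomputable def Es (x y : C) (m : ℕ) : Om →* Multiplicative ℤ :=
  (es x y m).comp (Pi.evalMonoidHom _ m)

theorem Es_apply (x y : C) (m : ℕ) (g : Om) : Es x y m g = es x y m (g m) := rfl

theorem es_lt_true (x y y' : C) (m : ℕ) (t : List Bool) : es x y m (lt (true, y') t m) = 1 := by
  rcases lt_or_ge m t.length with h | h
  · rw [lt_of_lt _ _ h, map_one]
  · rw [lt_of_le _ _ h, es, FreeGroup.lift_apply_of, if_neg]
    intro h'
    exact absurd (Prod.ext_iff.1 h').1 (by simp)

theorem es_lt_false (x y x' : C) (m : ℕ) (t : List Bool) 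
    (hne : ¬ (res x' m = res x m ∧ t = res y m)) : es x y m (lt (false, x') t m) = 1 := by
  rcases lt_or_ge m t.length with h | h
  · rw [lt_of_lt _ _ h, map_one]
  · rw [lt_of_le _ _ h, es, FreeGroup.lift_apply_of, if_neg]
    intro h'
    have h1 := (Prod.ext_iff.1 h').2
    exact hne ⟨(Prod.ext_iff.1 h1).1, (Prod.ext_iff.1 h1).2⟩

theorem es_lt_self (x y : C) (m : ℕ) : es x y m (lt (false, x) (res y m) m) =
    Multiplicative.ofAdd 1 := by
  rw [lt_of_le _ _ (by rw [res_length]), es, FreeGroup.lift_apply_of, if_pos rfl]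

/-- exponent sum of `z` for another edge -/
theorem es_zz_ne (x y x' y' : C) (m : ℕ) (hne : ¬ (res x' m = res x m ∧ res y' m = res y m))
    (k : ℕ) : ∀ n, m + 1 - n = k → es x y m (zz x' y' n m) = 1 := by
  induction k with
  | zero =>
    intro n hn
    rw [zz_of_lt _ _ (by omega), map_one]
  | succ k ih =>
    intro n hn
    rw [zz_rec_apply, map_mul, map_mul, map_pow, ih (n + 1) (by omega), es_lt_true,
      es_lt_false x y x' m _]
    · simp
    · rintro ⟨h1, h2⟩
      have h3 : n = m := by
        have := congrArg List.length h2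
        rwa [res_length, res_length] at this
      subst h3
      exact hne ⟨h1, h2⟩

/-- exponent sum of `z` -/
theorem es_zz (x y : C) (m : ℕ) (k : ℕ) : ∀ n, n ≤ m → m - n = k →
    es x y m (zz x y n m) = Multiplicative.ofAdd ((2 : ℤ) ^ k) := by
  induction k with
  | zero =>
    intro n hn h
    have : n = m := by omega
    subst this
    rw [zz_rec_apply, map_mul, map_mul, map_pow, zz_of_lt _ _ (Nat.lt_succ_self _), map_one,
      es_lt_true, es_lt_self]
    simp
  | succ k ih =>
    intro n hn h
    rw [zz_rec_apply, map_mul, map_mul, map_pow, ih (n + 1) (by omega) (by omega), es_lt_true,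
      es_lt_false x y x m _]
    · rw [mul_one, mul_one, ← ofAdd_nsmul]
      congr 1
      rw [pow_succ, nsmul_eq_mul]
      push_cast
      ring
    · rintro ⟨_, h2⟩
      have := congrArg List.length h2
      rw [res_length, res_length] at this
      omega

/-- for elements of `GS R F` without the edge `(x, y)` the exponent sums are eventually zero -/
theorem Es_eventually (R : Set (C × C)) {F : Set Vt} {x y : C}
    (hxy : ¬ ((false, x) ∈ F ∧ (true, y) ∈ F)) {g : Om} (hg : g ∈ GS R F) :
    ∃ M, ∀ m, M ≤ m → Es x y m g = 1 := by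
  induction hg using Subgroup.closure_induction with
  | mem g hg =>
    rcases hg with ⟨⟨i, x'⟩, t, _, rfl⟩ | ⟨x', y', n, hR, hx, hy, rfl⟩
    · refine ⟨t.length + 1, fun m hm => ?_⟩
      rw [Es_apply]
      cases i
      · apply es_lt_false x y x' m t
        rintro ⟨_, h2⟩
        have := congrArg List.length h2
        rw [res_length] at this
        omega
      · exact es_lt_true _ _ _ _ _
    · have hne : x' ≠ x ∨ y' ≠ y := by
        by_contra hc
        push Not at hc
        rw [hc.1] at hx
        rw [hc.2] at hy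
        exact hxy ⟨hx, hy⟩
      have : ∃ k, x' k ≠ x k ∨ y' k ≠ y k := by
        rcases hne with h | h
        · obtain ⟨k, hk⟩ := Function.ne_iff.1 h
          exact ⟨k, Or.inl hk⟩
        · obtain ⟨k, hk⟩ := Function.ne_iff.1 h
          exact ⟨k, Or.inr hk⟩
      obtain ⟨k, hk⟩ := this
      refine ⟨k + 1, fun m hm => ?_⟩
      rw [Es_apply]
      refine es_zz_ne x y x' y' m ?_ _ n rfl
      rintro ⟨h1, h2⟩
      rcases hk with hk | hk
      · exact hk (res_eq_res.1 h1 (by omega))
      · exact hk (res_eq_res.1 h2 (by omega))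
  | one => exact ⟨0, fun m _ => map_one _⟩
  | mul a b _ _ iha ihb =>
    obtain ⟨M, h⟩ := iha
    obtain ⟨M', h'⟩ := ihb
    refine ⟨max M M', fun m hm => ?_⟩
    rw [map_mul, h m (le_of_max_le_left hm), h' m (le_of_max_le_right hm), one_mul]
  | inv a _ ih =>
    obtain ⟨M, h⟩ := ih
    refine ⟨M, fun m hm => ?_⟩
    rw [map_inv, h m hm, inv_one]

/-! ### Free groups -/

section

variable {X : Type}

/-- the exponent sums of a word -/
noncomputable def ab : FreeGroup X →* Multiplicative (X →₀ ℤ) :=
  FreeGroup.lift fun s => Multiplicative.ofAdd (Finsupp.single s 1)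

theorem ab_of (s : X) : ab (FreeGroup.of s) = Multiplicative.ofAdd (Finsupp.single s 1) :=
  FreeGroup.lift_apply_of

theorem hom_eq_sum (f : FreeGroup X →* Multiplicative ℤ) (w : FreeGroup X) :
    (f w).toAdd = (ab w).toAdd.sum fun s k => k * (f (FreeGroup.of s)).toAdd := by
  induction w using FreeGroup.induction_on with
  | C1 => simp
  | of s =>
    rw [ab_of, toAdd_ofAdd, Finsupp.sum_single_index (by simp), one_mul]
  | inv_of s ih =>
    rw [map_inv f, map_inv ab, toAdd_inv, toAdd_inv, ih, Finsupp.sum_neg_index (by simp)]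
    simp only [Finsupp.sum, neg_mul, Finset.sum_neg_distrib]
  | mul a b iha ihb =>
    rw [map_mul f, map_mul ab, toAdd_mul, toAdd_mul, iha, ihb, Finsupp.sum_add_index']
    · intro s; simp
    · intro s k l; ring

end

theorem step_D2 : S_D2 := by
  classical
  intro R hfree
  set G := GS R Set.univ with hG
  let X := IsFreeGroup.Generators G
  let φ : G ≃* FreeGroup X := IsFreeGroup.toFreeGroup G
  -- letters and z's
  have hlt : ∀ v t, lt v t ∈ G := fun v t =>
    Subgroup.subset_closure (Or.inl ⟨v, t, Set.mem_univ _, rfl⟩)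
  have hzz : ∀ x y, (x, y) ∈ R → ∀ n, zz x y n ∈ G := fun x y h n =>
    Subgroup.subset_closure (Or.inr ⟨x, y, n, h, Set.mem_univ _, Set.mem_univ _, rfl⟩)
  -- generators
  have hsupp : ∀ s : X, ∃ F : Finset Vt, ((φ.symm (FreeGroup.of s) : G) : Om) ∈ GS R F :=
    fun s => exists_finset R (φ.symm (FreeGroup.of s)).2
  choose supp hsupp using hsupp
  let Sv : Vt → Set X := fun v => {s | ∃ t, (ab (φ ⟨lt v t, hlt v t⟩)).toAdd s ≠ 0}
  have hSv : ∀ v, (Sv v).Countable := by
    intro v
    have : Sv v = ⋃ t : List Bool, ((ab (φ ⟨lt v t, hlt v t⟩)).toAdd.support : Set X) := by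
      ext s
      simp [Sv]
    rw [this]
    exact Set.countable_iUnion fun t => Finset.countable_toSet _
  refine ⟨fun v => ⋃ s ∈ Sv v, (supp s : Set Vt), fun v => (hSv v).biUnion fun s _ =>
    Finset.countable_toSet _, ?_⟩
  intro x y hR _ _
  by_contra hc
  push Not at hc
  obtain ⟨hc1, hc2⟩ := hc
  -- the exponent sums of the z's
  let Z : ℕ → G := fun n => ⟨zz x y n, hzz x y hR n⟩
  have hZ : ∀ n, Z n = Z (n + 1) ^ 2 * ⟨lt (false, x) (res y n), hlt _ _⟩ *
      ⟨lt (true, y) (res x n), hlt _ _⟩ := by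
    intro n
    apply Subtype.ext
    exact zz_rec x y n
  have hdiv : ∀ s, s ∉ Sv (false, x) → s ∉ Sv (true, y) → (ab (φ (Z 0))).toAdd s = 0 := by
    intro s h1 h2
    have h3 : ∀ n, (ab (φ (Z n))).toAdd s = 2 * (ab (φ (Z (n + 1)))).toAdd s := by
      intro n
      have h4 : (ab (φ ⟨lt (false, x) (res y n), hlt _ _⟩)).toAdd s = 0 := by
        by_contra h
        exact h1 ⟨_, h⟩
      have h5 : (ab (φ ⟨lt (true, y) (res x n), hlt _ _⟩)).toAdd s = 0 := by
        by_contra h
        exact h2 ⟨_, h⟩
      rw [hZ n, map_mul φ, map_mul φ, map_pow φ, map_mul ab, map_mul ab, map_pow ab, toAdd_mul,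
        toAdd_mul, toAdd_pow, Finsupp.add_apply, Finsupp.add_apply, h4, h5]
      simp
    have h6 : ∀ n, (ab (φ (Z 0))).toAdd s = 2 ^ n * (ab (φ (Z n))).toAdd s := by
      intro n
      induction n with
      | zero => simp
      | succ n ih => rw [ih, h3 n, pow_succ]; ring
    by_contra hne
    have h7 : ∀ n, ((2 : ℤ) ^ n) ∣ (ab (φ (Z 0))).toAdd s := fun n => ⟨_, h6 n⟩
    have h8 := Int.natAbs_dvd_natAbs.2 (h7 ((ab (φ (Z 0))).toAdd s).natAbs)
    rw [Int.natAbs_pow] at h8
    have h9 := Nat.le_of_dvd (Int.natAbs_pos.2 hne) h8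
    exact absurd h9 (not_le.2 (Nat.lt_two_pow_self))
  -- the exponent sums of the generators involved are eventually zero
  have hev : ∀ s, (ab (φ (Z 0))).toAdd s ≠ 0 →
      ∃ M, ∀ m, M ≤ m → Es x y m ((φ.symm (FreeGroup.of s) : G) : Om) = 1 := by
    intro s hs
    apply Es_eventually R _ (hsupp s)
    rintro ⟨h1, h2⟩
    by_cases h3 : s ∈ Sv (false, x)
    · exact hc1 (Set.mem_biUnion h3 h2)
    · by_cases h4 : s ∈ Sv (true, y)
      · exact hc2 (Set.mem_biUnion h4 h1)
      · exact hs (hdiv s h3 h4)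
  choose! M hM using hev
  -- a coordinate
  let m := ((ab (φ (Z 0))).toAdd.support).sup M
  have h1 := hom_eq_sum (((Es x y m).comp G.subtype).comp φ.symm.toMonoidHom) (φ (Z 0))
  have h2 : (((Es x y m).comp G.subtype).comp φ.symm.toMonoidHom) (φ (Z 0)) =
      es x y m (zz x y 0 m) := by
    simp only [MonoidHom.comp_apply, MulEquiv.coe_toMonoidHom, MulEquiv.symm_apply_apply]
    rfl
  rw [h2, es_zz x y m m 0 (Nat.zero_le _) rfl, toAdd_ofAdd, Finsupp.sum,
    Finset.sum_eq_zero] at h1
  · exact absurd h1 (pow_ne_zero _ two_ne_zero)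
  · intro s hs
    have h3 : (((Es x y m).comp G.subtype).comp φ.symm.toMonoidHom) (FreeGroup.of s) = 1 :=
      hM s (Finsupp.mem_support_iff.1 hs) m (Finset.le_sup hs)
    rw [h3, toAdd_one, mul_zero]

end Pool.Agent.H409_AG.PD
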