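import Pool.Agent.H409_AG.PartD_Defs

/-!
# Part D, step D3a: a rank for which every vertex has countably many lower neighbours
-/

set_option autoImplicit false

namespace Pool.Agent.H409_AG.PD

open Cardinal PiNat

/-- `(x, c)` (or `(c, x)`) is in `R`. -/
def ed (R : Set (C × C)) (v : Vt) (c : C) : Prop :=
  if v.1 = false then (v.2, c) ∈ R else (c, v.2) ∈ R

/-- the other end -/
def op (v : Vt) (c : C) : Vt := (!v.1, c)

theorem ed_false (R : Set (C × C)) (x c : C) : ed R (false, x) c ↔ (x, c) ∈ R := by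
  simp [ed]

theorem ed_true (R : Set (C × C)) (x c : C) : ed R (true, x) c ↔ (c, x) ∈ R := by
  simp [ed]

/-- the lower neighbours of `v` -/
def Low {W : Type 1} [LinearOrder W] (R : Set (C × C)) (S : Set Vt) (rk : Vt → W) (v : Vt) :
    Set C := {c | ed R v c ∧ op v c ∈ S ∧ rk (op v c) < rk v}

/-- levels of the closure of `u` under `out` -/
def lev (out : Vt → Set Vt) (u : Vt) : ℕ → Set Vt
  | 0 => {u}
  | n + 1 => ⋃ a ∈ lev out u n, out a

theorem lev_countable {out : Vt → Set Vt} (h : ∀ v, (out v).Countable) (u : Vt) (n : ℕ) :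
    (lev out u n).Countable := by
  induction n with
  | zero => exact Set.countable_singleton u
  | succ n ih => exact ih.biUnion fun a _ => h a

/-- the closure of `u` -/
def clo (out : Vt → Set Vt) (u : Vt) : Set Vt := ⋃ n, lev out u n

theorem clo_countable {out : Vt → Set Vt} (h : ∀ v, (out v).Countable) (u : Vt) :
    (clo out u).Countable := Set.countable_iUnion fun n => lev_countable h u n

theorem self_mem_clo (out : Vt → Set Vt) (u : Vt) : u ∈ clo out u :=
  Set.mem_iUnion.2 ⟨0, rfl⟩

theorem clo_closed {out : Vt → Set Vt} {u v w : Vt} (hv : v ∈ clo out u) (hw : w ∈ out v) :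
    w ∈ clo out u := by
  obtain ⟨n, hn⟩ := Set.mem_iUnion.1 hv
  exact Set.mem_iUnion.2 ⟨n + 1, Set.mem_biUnion hn hw⟩

theorem exists_rank (R : Set (C × C)) (S : Set Vt) (out : Vt → Set Vt) (h : IsOut R S out) :
    ∃ rk : Vt → Ordinal.{0} ×ₗ ℕ, Function.Injective rk ∧
      ∀ v ∈ S, (Low R S rk v).Countable := by
  classical
  let o : Vt → Ordinal.{0} := fun v => Ordinal.typein (α := Vt) WellOrderingRel v
  have ho : Function.Injective o := Ordinal.typein_injective _
  have hroot : ∀ v : Vt, ∃ u, v ∈ clo out u ∧ ∀ u', v ∈ clo out u' → o u ≤ o u' := by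
    intro v
    have hne : {a | ∃ u, a = o u ∧ v ∈ clo out u}.Nonempty := ⟨o v, v, rfl, self_mem_clo out v⟩
    obtain ⟨u, hu, hu'⟩ := csInf_mem hne
    refine ⟨u, hu', fun u' h' => ?_⟩
    rw [← hu]
    exact csInf_le' ⟨u', rfl, h'⟩
  choose root hr1 hr2 using hroot
  have hf : ∀ u : Vt, ∃ f : Vt → ℕ, Set.InjOn f (clo out u) := fun u =>
    Set.countable_iff_exists_injOn.1 (clo_countable h.1 u)
  choose f hf using hf
  let rk : Vt → Ordinal.{0} ×ₗ ℕ := fun v => toLex (o (root v), f (root v) v)
  refine ⟨rk, ?_, ?_⟩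
  · intro v w hvw
    have h1 : (o (root v), f (root v) v) = (o (root w), f (root w) w) := toLex.injective hvw
    have h2 : root v = root w := ho (Prod.ext_iff.1 h1).1
    have h3 : f (root v) v = f (root w) w := (Prod.ext_iff.1 h1).2
    rw [← h2] at h3
    exact hf (root v) (hr1 v) (by rw [h2]; exact hr1 w) h3
  · intro v hv
    have hcount : (out v ∪ clo out (root v)).Countable :=
      (h.1 v).union (clo_countable h.1 _)
    have hinj : Function.Injective (op v) := fun c c' hc => (Prod.ext_iff.1 hc).2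
    refine (hcount.preimage hinj).mono ?_
    rintro c ⟨hed, hS, hlt⟩
    have hadj : op v c ∈ out v ∨ v ∈ out (op v c) := by
      obtain ⟨i, x⟩ := v
      cases i
      · rw [ed_false] at hed
        exact h.2 x c hed hv hS
      · rw [ed_true] at hed
        exact (h.2 c x hed hS hv).symm
    rcases hadj with h1 | h1
    · exact Or.inl h1
    · right
      have h2 : v ∈ clo out (root (op v c)) := clo_closed (hr1 _) h1
      have h3 := hr2 v _ h2
      rcases (Prod.Lex.toLex_lt_toLex.1 hlt) with h4 | ⟨h4, _⟩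
      · exact absurd h3 (not_le.2 h4)
      · have : root (op v c) = root v := ho h4
        show op v c ∈ clo out (root v)
        rw [← this]
        exact hr1 _

/-- thresholds for a countable set of points -/
theorem exists_threshold (A : Set C) (hA : A.Countable) :
    ∃ h : C → ℕ, ∀ c ∈ A, ∀ c' ∈ A, c ≠ c' → ∀ n, h c ≤ n → h c' ≤ n → res c n ≠ res c' n := by
  classical
  obtain ⟨f, hf⟩ := Set.countable_iff_exists_injOn.1 hA
  have hd : ∀ c c' : C, ∃ k, c ≠ c' → c k ≠ c' k := by
    intro c c'
    by_cases hc : c = c'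
    · exact ⟨0, fun h => absurd hc h⟩
    · obtain ⟨k, hk⟩ := Function.ne_iff.1 hc
      exact ⟨k, fun _ => hk⟩
  choose d hd using hd
  -- the element with number `i`
  let g : ℕ → C := fun i => if h : ∃ c ∈ A, f c = i then h.choose else fun _ => false
  have hg : ∀ c ∈ A, g (f c) = c := by
    intro c hc
    have h : ∃ c' ∈ A, f c' = f c := ⟨c, hc, rfl⟩
    have h1 : g (f c) = h.choose := dif_pos h
    rw [h1]
    exact hf h.choose_spec.1 hc h.choose_spec.2
  let hh : C → ℕ := fun c => ((Finset.range (f c)).sup fun i => max (d c (g i)) (d (g i) c)) + 1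
  have key : ∀ c ∈ A, ∀ c' ∈ A, f c' < f c → ∀ n, hh c ≤ n → res c n ≠ res c' n := by
    intro c hc c' hc' hlt n hn heq
    have hne : c ≠ c' := fun h => by rw [h] at hlt; exact lt_irrefl _ hlt
    have h1 : max (d c (g (f c'))) (d (g (f c')) c) ≤
        (Finset.range (f c)).sup fun i => max (d c (g i)) (d (g i) c) :=
      Finset.le_sup (f := fun i => max (d c (g i)) (d (g i) c)) (Finset.mem_range.2 hlt)
    rw [hg c' hc'] at h1
    have h2 : d c c' < n := lt_of_le_of_lt ((le_max_left _ _).trans h1)
      (lt_of_lt_of_le (Nat.lt_succ_self _) hn)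
    exact hd c c' hne (res_eq_res.1 heq h2)
  refine ⟨hh, fun c hc c' hc' hne n h1 h2 => ?_⟩
  have hfne : f c ≠ f c' := fun h => hne (hf hc hc' h)
  rcases lt_or_gt_of_ne hfne with h | h
  · exact (key c' hc' c hc h n h2).symm
  · exact key c hc c' hc' h n h1

end Pool.Agent.H409_AG.PD
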