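import Pool.Agent.H409_AG.PartD3a

/-!
# Part D, step D3b: the subgroup of an orientable set of vertices is free
-/

set_option autoImplicit false

namespace Pool.Agent.H409_AG.PD

open Cardinal PiNat

section

variable {W : Type 1} [LinearOrder W] (R : Set (C × C)) (S : Set Vt)
  (rk : Vt → W) (hh : Vt → C → ℕ)

/-- the letter `(v, t)` is eliminated by the lower neighbour `c` -/
def El (v : Vt) (t : List Bool) (c : C) : Prop :=
  c ∈ Low R S rk v ∧ hh v c ≤ t.length ∧ res c t.length = t

/-- indices of generators -/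
abbrev Idx : Type := (Vt × List Bool) ⊕ (C × C × ℕ)

open Classical in
/-- threshold of an edge -/
noncomputable def th (x y : C) : ℕ :=
  if rk (true, y) < rk (false, x) then hh (false, x) y else hh (true, y) x

/-- the basis -/
def BB : Set Idx := {i | Sum.elim
  (fun p : Vt × List Bool => p.1 ∈ S ∧ ¬ ∃ c, El R S rk hh p.1 p.2 c)
  (fun q : C × C × ℕ => (q.1, q.2.1) ∈ R ∧ (false, q.1) ∈ S ∧ (true, q.2.1) ∈ S ∧
    th rk hh q.1 q.2.1 ≤ q.2.2) i}

/-- the free group on the basis -/
abbrev KK : Type := FreeGroup (BB R S rk hh)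

open Classical in
/-- the generator with the index `i` -/
noncomputable def gg (i : Idx) : KK R S rk hh :=
  if h : i ∈ BB R S rk hh then FreeGroup.of ⟨i, h⟩ else 1

/-- value of the `z`'s -/
noncomputable def gz (x y : C) (n : ℕ) : KK R S rk hh := gg R S rk hh (Sum.inr (x, y, n))

/-- value of `z (n+1)` at the coordinate `m` -/
noncomputable def gz' (m : ℕ) (x y : C) (n : ℕ) : KK R S rk hh :=
  if n < m then gz R S rk hh x y (n + 1) else 1

attribute [local instance 10000] WellFoundedLT.toWellFoundedRelation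

open Classical in
/-- the value of the letter `(v, t)` in the free group, at the coordinate `m` -/
noncomputable def AA [WellFoundedLT W] (m : ℕ) (v : Vt) (t : List Bool) : KK R S rk hh :=
  if h : ∃ c, El R S rk hh v t c then
    if v.1 = false then
      (gz' R S rk hh m v.2 h.choose t.length ^ 2)⁻¹ * gz R S rk hh v.2 h.choose t.length *
        (AA m (op v h.choose) (res v.2 t.length))⁻¹
    else
      (AA m (op v h.choose) (res v.2 t.length))⁻¹ *
        ((gz' R S rk hh m h.choose v.2 t.length ^ 2)⁻¹ * gz R S rk hh h.choose v.2 t.length)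
  else gg R S rk hh (Sum.inl (v, t))
termination_by rk v
decreasing_by
  · exact h.choose_spec.1.2.2
  · exact h.choose_spec.1.2.2

/-- the hypothesis on the thresholds -/
def GoodTh : Prop := ∀ v ∈ S, ∀ c ∈ Low R S rk v, ∀ c' ∈ Low R S rk v, c ≠ c' →
  ∀ n, hh v c ≤ n → hh v c' ≤ n → res c n ≠ res c' n

variable {R S rk hh}

theorem El.unique (hg : GoodTh R S rk hh) {v : Vt} (hv : v ∈ S) {t : List Bool} {c c' : C}
    (h : El R S rk hh v t c) (h' : El R S rk hh v t c') : c = c' := by
  by_contra hne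
  exact hg v hv c h.1 c' h'.1 hne t.length h.2.1 h'.2.1 (h.2.2.trans h'.2.2.symm)

variable [WellFoundedLT W]

theorem AA_not {m : ℕ} {v : Vt} {t : List Bool} (h : ¬ ∃ c, El R S rk hh v t c) :
    AA R S rk hh m v t = gg R S rk hh (Sum.inl (v, t)) := by
  rw [AA, dif_neg h]

theorem AA_false (hg : GoodTh R S rk hh) {m : ℕ} {x c : C} {t : List Bool}
    (hv : (false, x) ∈ S) (h : El R S rk hh (false, x) t c) :
    AA R S rk hh m (false, x) t =
      (gz' R S rk hh m x c t.length ^ 2)⁻¹ * gz R S rk hh x c t.length *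
        (AA R S rk hh m (true, c) (res x t.length))⁻¹ := by
  have hex : ∃ c, El R S rk hh (false, x) t c := ⟨c, h⟩
  have hc : hex.choose = c := El.unique hg hv hex.choose_spec h
  rw [AA, dif_pos hex, if_pos rfl, hc]
  rfl

theorem AA_true (hg : GoodTh R S rk hh) {m : ℕ} {y c : C} {t : List Bool}
    (hv : (true, y) ∈ S) (h : El R S rk hh (true, y) t c) :
    AA R S rk hh m (true, y) t =
      (AA R S rk hh m (false, c) (res y t.length))⁻¹ *
        ((gz' R S rk hh m c y t.length ^ 2)⁻¹ * gz R S rk hh c y t.length) := by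
  have hex : ∃ c, El R S rk hh (true, y) t c := ⟨c, h⟩
  have hc : hex.choose = c := El.unique hg hv hex.choose_spec h
  rw [AA, dif_pos hex, if_neg (by simp), hc]
  rfl

/-- the relation of an edge -/
theorem AA_edge (hinj : Function.Injective rk) (hg : GoodTh R S rk hh) {m n : ℕ} {x y : C}
    (hR : (x, y) ∈ R) (hx : (false, x) ∈ S) (hy : (true, y) ∈ S) (hn : th rk hh x y ≤ n) :
    AA R S rk hh m (false, x) (res y n) * AA R S rk hh m (true, y) (res x n) =
      (gz' R S rk hh m x y n ^ 2)⁻¹ * gz R S rk hh x y n := by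
  have hne : rk (true, y) ≠ rk (false, x) := fun h => by
    have := hinj h
    simp at this
  rcases lt_or_gt_of_ne hne with h | h
  · have h1 : El R S rk hh (false, x) (res y n) y := by
      refine ⟨⟨(ed_false R x y).2 hR, hy, h⟩, ?_, ?_⟩
      · rw [th, if_pos h] at hn
        rw [res_length]
        exact hn
      · rw [res_length]
    rw [AA_false hg hx h1, res_length]
    group
  · have h1 : El R S rk hh (true, y) (res x n) x := by
      refine ⟨⟨(ed_true R y x).2 hR, hx, h⟩, ?_, ?_⟩
      · rw [th, if_neg (not_lt.2 h.le)] at hn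
        rw [res_length]
        exact hn
      · rw [res_length]
    rw [AA_true hg hy h1, res_length]
    group

/-! ### The homomorphism back -/

open Classical in
/-- images of the symbols -/
noncomputable def tsym (R : Set (C × C)) (S : Set Vt) (rk : Vt → W) (hh : Vt → C → ℕ) (m : ℕ)
    (S0 : Set Vt) (s : Sym) : KK R S rk hh :=
  if h : ∃ v, v ∈ S0 ∧ v.1 = s.1 ∧ res v.2 m = s.2.1 then AA R S rk hh m h.choose s.2.2 else 1

/-- the homomorphism back, from the coordinate `m` -/
noncomputable def tt (R : Set (C × C)) (S : Set Vt) (rk : Vt → W) (hh : Vt → C → ℕ) (m : ℕ)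
    (S0 : Set Vt) : FreeGroup Sym →* KK R S rk hh := FreeGroup.lift (tsym R S rk hh m S0)

/-- the points of `S0` are separated at `m` -/
def Sep (S0 : Set Vt) (m : ℕ) : Prop :=
  ∀ v ∈ S0, ∀ w ∈ S0, v.1 = w.1 → res v.2 m = res w.2 m → v = w

theorem tt_lt {m : ℕ} {S0 : Set Vt} (hS : Sep S0 m) {v : Vt} (hv : v ∈ S0) {t : List Bool}
    (ht : t.length ≤ m) : tt R S rk hh m S0 (lt v t m) = AA R S rk hh m v t := by
  have h : ∃ w, w ∈ S0 ∧ w.1 = v.1 ∧ res w.2 m = res v.2 m := ⟨v, hv, rfl, rfl⟩
  have hc : h.choose = v :=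
    hS _ h.choose_spec.1 v hv h.choose_spec.2.1 h.choose_spec.2.2
  rw [lt_of_le v t ht, tt, FreeGroup.lift_apply_of]
  show tsym R S rk hh m S0 (v.1, res v.2 m, t) = _
  rw [tsym, dif_pos h, hc]

theorem tt_zz (hinj : Function.Injective rk) (hg : GoodTh R S rk hh) {m : ℕ} {S0 : Set Vt}
    (hS : Sep S0 m) {x y : C} (hR : (x, y) ∈ R) (hx : (false, x) ∈ S) (hy : (true, y) ∈ S)
    (hx0 : (false, x) ∈ S0) (hy0 : (true, y) ∈ S0) (k : ℕ) :
    ∀ n, th rk hh x y ≤ n → n ≤ m → m - n = k →
      tt R S rk hh m S0 (zz x y n m) = gz R S rk hh x y n := by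
  induction k with
  | zero =>
    intro n hn hnm hk
    have hnm' : n = m := by omega
    rw [zz_rec_apply, map_mul, map_mul, map_pow, zz_of_lt x y (by omega : m < n + 1), map_one,
      tt_lt hS hx0 (by rw [res_length]; exact hnm), tt_lt hS hy0 (by rw [res_length]; exact hnm),
      mul_assoc, AA_edge hinj hg hR hx hy hn, gz', if_neg (by omega)]
    simp
  | succ k ih =>
    intro n hn hnm hk
    rw [zz_rec_apply, map_mul, map_mul, map_pow, ih (n + 1) (by omega) (by omega) (by omega),
      tt_lt hS hx0 (by rw [res_length]; exact hnm), tt_lt hS hy0 (by rw [res_length]; exact hnm),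
      mul_assoc, AA_edge hinj hg hR hx hy hn, gz', if_pos (by omega)]
    group

/-- the value of a generator -/
def val : Idx → Om := Sum.elim (fun p => lt p.1 p.2) (fun q => zz q.1 q.2.1 q.2.2)

/-- the homomorphism from the free group -/
noncomputable def io (R : Set (C × C)) (S : Set Vt) (rk : Vt → W) (hh : Vt → C → ℕ) :
    KK R S rk hh →* Om := FreeGroup.lift fun b => val b.1

omit [WellFoundedLT W] in
theorem gg_of (b : BB R S rk hh) : gg R S rk hh b.1 = FreeGroup.of b := by
  rw [gg, dif_pos b.2]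

theorem back (hinj : Function.Injective rk) (hg : GoodTh R S rk hh) (w : KK R S rk hh) :
    ∃ (F : Finset Vt) (M : ℕ), ∀ m, M ≤ m → ∀ S0 : Set Vt, (F : Set Vt) ⊆ S0 → Sep S0 m →
      tt R S rk hh m S0 (io R S rk hh w m) = w := by
  classical
  induction w using FreeGroup.induction_on with
  | C1 =>
    refine ⟨∅, 0, fun m _ S0 _ _ => ?_⟩
    rw [map_one, Pi.one_apply, map_one]
  | of b =>
    obtain ⟨b, hb⟩ := b
    rcases b with ⟨v, t⟩ | ⟨x, y, n⟩
    · refine ⟨{v}, t.length, fun m hm S0 hF hS => ?_⟩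
      have h1 : io R S rk hh (FreeGroup.of ⟨Sum.inl (v, t), hb⟩) = lt v t :=
        FreeGroup.lift_apply_of
      rw [h1, tt_lt hS (hF (by simp)) hm, AA_not hb.2, ← gg_of]
    · refine ⟨{(false, x), (true, y)}, n, fun m hm S0 hF hS => ?_⟩
      have h1 : io R S rk hh (FreeGroup.of ⟨Sum.inr (x, y, n), hb⟩) = zz x y n :=
        FreeGroup.lift_apply_of
      rw [h1, tt_zz hinj hg hS hb.1 hb.2.1 hb.2.2.1 (hF (by simp)) (hF (by simp)) (m - n) n
        hb.2.2.2 hm rfl, gz, ← gg_of]
  | inv_of b ih =>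
    obtain ⟨F, M, h⟩ := ih
    refine ⟨F, M, fun m hm S0 hF hS => ?_⟩
    rw [map_inv, Pi.inv_apply, map_inv]
    congr 1
    exact h m hm S0 hF hS
  | mul a b iha ihb =>
    obtain ⟨F, M, h⟩ := iha
    obtain ⟨F', M', h'⟩ := ihb
    refine ⟨F ∪ F', max M M', fun m hm S0 hF hS => ?_⟩
    rw [map_mul, Pi.mul_apply, map_mul, h m (le_of_max_le_left hm) S0
      (fun v hv => hF (by simp only [Finset.coe_union]; exact Or.inl hv)) hS,
      h' m (le_of_max_le_right hm) S0
      (fun v hv => hF (by simp only [Finset.coe_union]; exact Or.inr hv)) hS]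

theorem exists_sep (F : Finset Vt) : ∃ M, ∀ m, M ≤ m → Sep (F : Set Vt) m := by
  classical
  have hd : ∀ p : Vt × Vt, ∃ k, p.1.2 ≠ p.2.2 → p.1.2 k ≠ p.2.2 k := by
    rintro ⟨⟨_, c⟩, ⟨_, c'⟩⟩
    by_cases hc : c = c'
    · exact ⟨0, fun h => absurd hc h⟩
    · obtain ⟨k, hk⟩ := Function.ne_iff.1 hc
      exact ⟨k, fun _ => hk⟩
  choose d hd using hd
  refine ⟨((F ×ˢ F).sup d) + 1, fun m hm v hv w hw h1 h2 => ?_⟩
  refine Prod.ext h1 ?_
  by_contra hne
  have h3 : d (v, w) ≤ (F ×ˢ F).sup d :=
    Finset.le_sup (f := d) (Finset.mem_product.2 ⟨hv, hw⟩)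
  exact hd (v, w) hne (res_eq_res.1 h2 (by omega))

theorem io_injective (hinj : Function.Injective rk) (hg : GoodTh R S rk hh) :
    Function.Injective (io R S rk hh) := by
  rw [injective_iff_map_eq_one]
  intro w hw
  obtain ⟨F, M, h⟩ := back hinj hg w
  obtain ⟨M', h'⟩ := exists_sep F
  have h1 := h (max M M') (le_max_left _ _) F subset_rfl (h' _ (le_max_right _ _))
  rw [hw, Pi.one_apply, map_one] at h1
  exact h1.symm

/-! ### Generation -/

omit [WellFoundedLT W] in
theorem io_val (i : Idx) (hi : i ∈ BB R S rk hh) : val i ∈ (io R S rk hh).range :=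
  ⟨FreeGroup.of ⟨i, hi⟩, FreeGroup.lift_apply_of⟩

omit [WellFoundedLT W] in
theorem zz_high {x y : C} (hR : (x, y) ∈ R) (hx : (false, x) ∈ S) (hy : (true, y) ∈ S) {n : ℕ}
    (hn : th rk hh x y ≤ n) : zz x y n ∈ (io R S rk hh).range :=
  io_val (Sum.inr (x, y, n)) ⟨hR, hx, hy, hn⟩

theorem lt_mem_range (v : Vt) : v ∈ S → ∀ t, lt v t ∈ (io R S rk hh).range := by
  induction hr : rk v using WellFoundedLT.induction generalizing v with
  | ind w ih =>
    intro hv t
    by_cases hel : ∃ c, El R S rk hh v t c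
    · obtain ⟨c, hc⟩ := hel
      obtain ⟨i, x⟩ := v
      have hop : op (i, x) c ∈ S := hc.1.2.1
      have h1 : ∀ t, lt (op (i, x) c) t ∈ (io R S rk hh).range :=
        ih (rk (op (i, x) c)) (by rw [← hr]; exact hc.1.2.2) _ rfl hop
      cases i
      · have hR : (x, c) ∈ R := (ed_false R x c).1 hc.1.1
        have hth : th rk hh x c ≤ t.length := by
          have h4 : rk (true, c) < rk (false, x) := hc.1.2.2
          rw [th, if_pos h4]
          exact hc.2.1
        have h2 := zz_rec x c t.length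
        have h3 : lt (false, x) t = (zz x c (t.length + 1) ^ 2)⁻¹ * zz x c t.length *
            (lt (true, c) (res x t.length))⁻¹ := by
          rw [h2, hc.2.2]
          group
        rw [h3]
        exact mul_mem (mul_mem (inv_mem (pow_mem (zz_high hR hv hop (by omega)) 2))
          (zz_high hR hv hop hth)) (inv_mem (h1 _))
      · have hR : (c, x) ∈ R := (ed_true R x c).1 hc.1.1
        have hth : th rk hh c x ≤ t.length := by
          have h4 : rk (false, c) < rk (true, x) := hc.1.2.2
          rw [th, if_neg (not_lt.2 h4.le)]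
          exact hc.2.1
        have h2 := zz_rec c x t.length
        have h3 : lt (true, x) t = (lt (false, c) (res x t.length))⁻¹ *
            (zz c x (t.length + 1) ^ 2)⁻¹ * zz c x t.length := by
          rw [h2, hc.2.2]
          group
        rw [h3]
        exact mul_mem (mul_mem (inv_mem (h1 _)) (inv_mem (pow_mem (zz_high hR hop hv
          (by omega)) 2))) (zz_high hR hop hv hth)
    · exact io_val (Sum.inl (v, t)) ⟨hv, hel⟩

theorem zz_mem_range {x y : C} (hR : (x, y) ∈ R) (hx : (false, x) ∈ S) (hy : (true, y) ∈ S)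
    (n : ℕ) : zz x y n ∈ (io R S rk hh).range := by
  have key : ∀ k n, th rk hh x y ≤ n + k → zz x y n ∈ (io R S rk hh).range := by
    intro k
    induction k with
    | zero => exact fun n hn => zz_high hR hx hy hn
    | succ k ih =>
      intro n hn
      rw [zz_rec]
      exact mul_mem (mul_mem (pow_mem (ih (n + 1) (by omega)) 2) (lt_mem_range _ hx _))
        (lt_mem_range _ hy _)
  exact key (th rk hh x y) n (by omega)

theorem range_eq : (io R S rk hh).range = GS R S := by
  apply le_antisymm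
  · rintro _ ⟨w, rfl⟩
    induction w using FreeGroup.induction_on with
    | C1 => rw [map_one]; exact one_mem _
    | of b =>
      have h1 : io R S rk hh (FreeGroup.of b) = val b.1 := FreeGroup.lift_apply_of
      rw [h1]
      apply Subgroup.subset_closure
      obtain ⟨b, hb⟩ := b
      rcases b with ⟨v, t⟩ | ⟨x, y, n⟩
      · exact Or.inl ⟨v, t, hb.1, rfl⟩
      · exact Or.inr ⟨x, y, n, hb.1, hb.2.1, hb.2.2.1, rfl⟩
    | inv_of b ih => rw [map_inv]; exact inv_mem ih
    | mul a b iha ihb => rw [map_mul]; exact mul_mem iha ihb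
  · rw [GS, Subgroup.closure_le]
    rintro g (⟨v, t, hv, rfl⟩ | ⟨x, y, n, hR, hx, hy, rfl⟩)
    · exact lt_mem_range v hv t
    · exact zz_mem_range hR hx hy n

end

/-- D3: subgroups of orientable sets are free. -/
theorem step_D3 : S_D3 := by
  rintro R S ⟨out, h⟩
  obtain ⟨rk, hinj, hlow⟩ := exists_rank R S out h
  have : ∀ v : Vt, ∃ f : C → ℕ, v ∈ S → ∀ c ∈ Low R S rk v, ∀ c' ∈ Low R S rk v, c ≠ c' →
      ∀ n, f c ≤ n → f c' ≤ n → res c n ≠ res c' n := by
    intro v
    by_cases hv : v ∈ S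
    · obtain ⟨f, hf⟩ := exists_threshold _ (hlow v hv)
      exact ⟨f, fun _ => hf⟩
    · exact ⟨fun _ => 0, fun h => absurd h hv⟩
  choose hh hhh using this
  have hg : GoodTh R S rk hh := hhh
  have e1 : KK R S rk hh ≃* (io R S rk hh).range :=
    MonoidHom.ofInjective (io_injective hinj hg)
  have e2 : (io R S rk hh).range ≃* GS R S := MulEquiv.subgroupCongr range_eq
  exact IsFreeGroup.ofMulEquiv (e1.trans e2)

end Pool.Agent.H409_AG.PD
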