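import Pool.Agent.H409_AG.PartD_Defs

/-!
# Part D, step D4: small subgroups are contained in the subgroups of small sets of vertices
-/

set_option autoImplicit false

namespace Pool.Agent.H409_AG.PD

open Cardinal PiNat

theorem gens_mono (R : Set (C × C)) {S S' : Set Vt} (h : S ⊆ S') : gens R S ⊆ gens R S' := by
  rintro g (⟨v, t, hv, rfl⟩ | ⟨x, y, n, hR, hx, hy, rfl⟩)
  · exact Or.inl ⟨v, t, h hv, rfl⟩
  · exact Or.inr ⟨x, y, n, hR, h hx, h hy, rfl⟩

theorem GS_mono (R : Set (C × C)) {S S' : Set Vt} (h : S ⊆ S') : GS R S ≤ GS R S' :=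
  Subgroup.closure_mono (gens_mono R h)

/-- each element is in the subgroup of a finite set of vertices -/
theorem exists_finset (R : Set (C × C)) {S : Set Vt} {g : Om} (hg : g ∈ GS R S) :
    ∃ F : Finset Vt, g ∈ GS R F := by
  classical
  induction hg using Subgroup.closure_induction with
  | mem g hg =>
    rcases hg with ⟨v, t, _, rfl⟩ | ⟨x, y, n, hR, _, _, rfl⟩
    · exact ⟨{v}, Subgroup.subset_closure (Or.inl ⟨v, t, by simp, rfl⟩)⟩
    · exact ⟨{(false, x), (true, y)}, Subgroup.subset_closure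
        (Or.inr ⟨x, y, n, hR, by simp, by simp, rfl⟩)⟩
  | one => exact ⟨∅, one_mem _⟩
  | mul a b _ _ iha ihb =>
    obtain ⟨F, h⟩ := iha
    obtain ⟨F', h'⟩ := ihb
    refine ⟨F ∪ F', mul_mem (GS_mono R ?_ h) (GS_mono R ?_ h')⟩
    · simp only [Finset.coe_union]
      exact Set.subset_union_left
    · simp only [Finset.coe_union]
      exact Set.subset_union_right
  | inv a _ ih =>
    obtain ⟨F, h⟩ := ih
    exact ⟨F, inv_mem h⟩

theorem step_D4 : S_D4 := by
  intro R n H hH hcard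
  have h1 : ∀ g : H, ∃ F : Finset Vt, (g : Om) ∈ GS R F := fun g => exists_finset R (hH g.2)
  choose F hF using h1
  refine ⟨⋃ g : H, (F g : Set Vt), ?_, ?_⟩
  · refine (mk_iUnion_le _).trans ?_
    have h2 : (⨆ g : H, #(F g : Set Vt)) ≤ ℵ₀ := by
      refine ciSup_le' fun g => ?_
      exact (Finset.countable_toSet (F g)).le_aleph0
    calc #H * (⨆ g : H, #(F g : Set Vt)) ≤ ℵ_ n * ℵ_ n :=
          mul_le_mul' hcard (h2.trans (aleph0_le_aleph _))
      _ = ℵ_ n := mul_eq_self (aleph0_le_aleph _)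
  · intro g hg
    exact GS_mono R (Set.subset_iUnion (fun g : H => (F g : Set Vt)) ⟨g, hg⟩) (hF ⟨g, hg⟩)

end Pool.Agent.H409_AG.PD
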