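import Pool.Agent.H409_AG.PartD_Defs

/-!
# Part D, assembly from the steps D0 to D4
-/

set_option autoImplicit false

namespace Pool.Agent.H409_AG.PD

open Cardinal PiNat

theorem exists_aleph_of_lt {c : Cardinal.{0}} (h : c < ℵ_ Ordinal.omega0) : ∃ n : ℕ, c ≤ ℵ_ n := by
  by_contra hc
  push Not at hc
  apply absurd h (not_lt.2 _)
  rw [Cardinal.aleph_limit Ordinal.isSuccLimit_omega0]
  refine ciSup_le' fun ⟨a, ha⟩ => ?_
  obtain ⟨n, rfl⟩ := Ordinal.lt_omega0.1 ha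
  exact (hc n).le

theorem asm_aux {α : Type} [Group α] {R : Set (C × C)} (E : α ≃* GS R Set.univ)
    (hR : GoodGraph R) (h2 : S_D2) (h3 : S_D3) (h4 : S_D4) :
    (∀ H : Subgroup α, #H < ℵ_ Ordinal.omega0 → IsFreeGroup H) ∧ ¬ IsFreeGroup α := by
  obtain ⟨_, hout, hno⟩ := hR
  refine ⟨fun H hH => ?_, fun hfree => ?_⟩
  · let f : α →* Om := (GS R Set.univ).subtype.comp E.toMonoidHom
    have hf : Function.Injective f :=
      Subtype.val_injective.comp E.injective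
    let H' : Subgroup Om := H.map f
    let EH : H ≃* H' := H.equivMapOfInjective f hf
    have hcard : #H' = #H := (Cardinal.mk_congr EH.toEquiv).symm
    obtain ⟨n, hn⟩ : ∃ n : ℕ, #H' ≤ ℵ_ n := by
      rw [hcard]
      exact exists_aleph_of_lt hH
    have hle : H' ≤ GS R Set.univ := by
      rintro _ ⟨x, _, rfl⟩
      exact (E x).2
    obtain ⟨S, hS, hHS⟩ := h4 R n H' hle hn
    have := h3 R S (hout n S hS)
    have : IsFreeGroup (H'.subgroupOf (GS R S)) := subgroupIsFreeOfIsFree _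
    have E2 : H'.subgroupOf (GS R S) ≃* H' := Subgroup.subgroupOfEquivOfLe hHS
    exact IsFreeGroup.ofMulEquiv (E2.trans EH.symm)
  · apply hno
    apply h2
    exact IsFreeGroup.ofMulEquiv E

theorem group_of_steps (h0 : S_D0) (h1 : S_D1) (h2 : S_D2) (h3 : S_D3) (h4 : S_D4)
    (h : Incompact) : ∃ G : Group ℝ, IsAnalyticGroup G ∧ IsKappaFree (ℵ_ Ordinal.omega0) G ∧
      ¬ @IsFreeGroup ℝ G := by
  obtain ⟨R, hR⟩ := h0 h
  obtain ⟨G, e, hG, he⟩ := h1 R hR.1
  have := @asm_aux ℝ G R (@MulEquiv.mk ℝ (GS R Set.univ) G.toMul _ e he) hR h2 h3 h4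
  exact ⟨G, hG, this.1, this.2⟩

end Pool.Agent.H409_AG.PD
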