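import Mathlib

/-!
# Part D: the group attached to a relation on the Cantor space

The letters `lt v t`, the elements `z x y n` of the countable product `Om` of countable free
groups, and the subgroups `GS R S`.
-/

set_option autoImplicit false

namespace Pool.Agent.H409_AG.D

open PiNat

/-- The Cantor space. -/
abbrev Ca : Type := ℕ → Bool

/-- The vertices: two copies of the Cantor space. -/
abbrev Vx : Type := Bool × Ca

/-- The symbols. -/
abbrev Sym : Type := Bool × List Bool × List Bool

/-- The free group on the symbols, with the discrete topology. -/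
def Fr : Type := FreeGroup Sym

instance : Group Fr := inferInstanceAs (Group (FreeGroup Sym))

instance : TopologicalSpace Fr := ⊥

instance : DiscreteTopology Fr := ⟨rfl⟩

instance : Countable Fr := by
  have : Countable (FreeGroup Sym) := inferInstance
  exact this

/-- The generators of `Fr`. -/
def Fr.of (s : Sym) : Fr := FreeGroup.of s

/-- The ambient group. -/
abbrev Om : Type := ℕ → Fr

/-- The letter `t` of the vertex `v`. -/
def let' (v : Vx) (t : List Bool) : Om := fun m =>
  if t.length ≤ m then Fr.of (v.1, res v.2 m, t) else 1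

/-- Auxiliary recursion for `z`. -/
def zz (x y : Ca) (m : ℕ) : ℕ → Fr
  | 0 => 1
  | k + 1 => zz x y m k ^ 2 * let' (false, x) (res y (m - k)) m * let' (true, y) (res x (m - k)) m

/-- The element `z x y n`. -/
def z (x y : Ca) (n : ℕ) : Om := fun m => zz x y m (m + 1 - n)

theorem z_of_lt (x y : Ca) {n m : ℕ} (h : m < n) : z x y n m = 1 := by
  have : m + 1 - n = 0 := by omega
  simp [z, this, zz]

theorem z_eq (x y : Ca) (n : ℕ) :
    z x y n = z x y (n + 1) ^ 2 * let' (false, x) (res y n) * let' (true, y) (res x n) := by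
  funext m
  rcases le_or_gt n m with h | h
  · have h1 : m + 1 - n = (m - n) + 1 := by omega
    have h2 : m + 1 - (n + 1) = m - n := by omega
    have h3 : m - (m - n) = n := by omega
    simp only [z, h1, h2, zz, h3, Pi.mul_apply, Pi.pow_apply]
  · rw [z_of_lt x y h]
    simp only [Pi.mul_apply, Pi.pow_apply]
    rw [z_of_lt x y (by omega : m < n + 1)]
    simp [let', not_le.2 h]

/-- The generators attached to a set of vertices. -/
def Gen (R : Set (Ca × Ca)) (S : Set Vx) : Set Om :=
  {g | (∃ v ∈ S, ∃ t, g = let' v t) ∨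
    ∃ x y n, (x, y) ∈ R ∧ (false, x) ∈ S ∧ (true, y) ∈ S ∧ g = z x y n}

/-- The subgroup attached to a set of vertices. -/
def GS (R : Set (Ca × Ca)) (S : Set Vx) : Subgroup Om := Subgroup.closure (Gen R S)

theorem Gen_mono {R : Set (Ca × Ca)} {S S' : Set Vx} (h : S ⊆ S') : Gen R S ⊆ Gen R S' := by
  rintro g (⟨v, hv, t, rfl⟩ | ⟨x, y, n, hR, hx, hy, rfl⟩)
  · exact Or.inl ⟨v, h hv, t, rfl⟩
  · exact Or.inr ⟨x, y, n, hR, h hx, h hy, rfl⟩

theorem GS_mono {R : Set (Ca × Ca)} {S S' : Set Vx} (h : S ⊆ S') : GS R S ≤ GS R S' :=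
  Subgroup.closure_mono (Gen_mono h)

/-- Every element of the group lies in the subgroup attached to finitely many vertices. -/
theorem exists_finset {R : Set (Ca × Ca)} {S : Set Vx} {g : Om} (hg : g ∈ GS R S) :
    ∃ F : Finset Vx, (F : Set Vx) ⊆ S ∧ g ∈ GS R F := by
  classical
  induction hg using Subgroup.closure_induction with
  | mem g hg =>
    rcases hg with ⟨v, hv, t, rfl⟩ | ⟨x, y, n, hR, hx, hy, rfl⟩
    · exact ⟨{v}, by simpa using hv, Subgroup.subset_closure (Or.inl ⟨v, by simp, t, rfl⟩)⟩
    · refine ⟨{(false, x), (true, y)}, ?_, Subgroup.subset_closure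
        (Or.inr ⟨x, y, n, hR, by simp, by simp, rfl⟩)⟩
      intro v hv
      simp only [Finset.coe_insert, Finset.coe_singleton, Set.mem_insert_iff,
        Set.mem_singleton_iff] at hv
      rcases hv with rfl | rfl
      · exact hx
      · exact hy
  | one => exact ⟨∅, by simp, one_mem _⟩
  | mul a b _ _ iha ihb =>
    obtain ⟨F, hF, hFa⟩ := iha
    obtain ⟨F', hF', hFb⟩ := ihb
    refine ⟨F ∪ F', by simp [hF, hF'], mul_mem ?_ ?_⟩
    · exact GS_mono (by simp) hFa
    · exact GS_mono (by simp) hFb
  | inv a _ ih =>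
    obtain ⟨F, hF, hFa⟩ := ih
    exact ⟨F, hF, inv_mem hFa⟩

end Pool.Agent.H409_AG.D
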