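import Mathlib
import Pool.Agent.H409_AG.Defs

/-!
# Part D, common definitions

The vertices are `Vt = Bool × (ℕ → Bool)`; an edge `(x, y) ∈ R` joins `(false, x)` and `(true, y)`.
The letter `lt v t` (`t` a finite sequence) is an element of the group `Om`; the elements
`zz x y n` satisfy `zz x y n = zz x y (n+1) ^ 2 * lt (false, x) (y|n) * lt (true, y) (x|n)`.
`GS R S` is the subgroup generated by the letters of the vertices in `S` and all `zz x y n` for
`(x, y) ∈ R` with both ends in `S`.
-/

set_option autoImplicit false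

namespace Pool.Agent.H409_AG.PD

open Cardinal PiNat

/-- The Cantor space. -/
abbrev C : Type := ℕ → Bool

/-- Vertices: two copies of the Cantor space. -/
abbrev Vt : Type := Bool × C

/-- Symbols: `(i, s, t)`. -/
abbrev Sym : Type := Bool × List Bool × List Bool

/-- The countable product of free groups. -/
abbrev Om : Type := ℕ → FreeGroup Sym

/-- The letter of the vertex `v` with the index `t`. -/
def lt (v : Vt) (t : List Bool) : Om :=
  fun m => if t.length ≤ m then FreeGroup.of (v.1, res v.2 m, t) else 1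

/-- auxiliary recursion: `zaux x y m k` is the coordinate `m` of `zz x y (m + 1 - k)`. -/
def zaux (x y : C) (m : ℕ) : ℕ → FreeGroup Sym
  | 0 => 1
  | k + 1 => (zaux x y m k) ^ 2 * lt (false, x) (res y (m - k)) m * lt (true, y) (res x (m - k)) m

/-- The element attached to an edge. -/
def zz (x y : C) (n : ℕ) : Om := fun m => zaux x y m (m + 1 - n)

theorem zz_of_lt (x y : C) {n m : ℕ} (h : m < n) : zz x y n m = 1 := by
  have : m + 1 - n = 0 := by omega
  simp only [zz, this, zaux]

theorem lt_of_lt (v : Vt) (t : List Bool) {m : ℕ} (h : m < t.length) : lt v t m = 1 := by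
  simp only [lt, if_neg (not_le.2 h)]

theorem lt_of_le (v : Vt) (t : List Bool) {m : ℕ} (h : t.length ≤ m) :
    lt v t m = FreeGroup.of (v.1, res v.2 m, t) := by
  simp only [lt, if_pos h]

theorem zz_rec_apply (x y : C) (n m : ℕ) : zz x y n m =
    (zz x y (n + 1) m) ^ 2 * lt (false, x) (res y n) m * lt (true, y) (res x n) m := by
  rcases lt_or_ge m n with h | h
  · rw [zz_of_lt x y h, zz_of_lt x y (h.trans (Nat.lt_succ_self n)),
      lt_of_lt _ _ (by rw [res_length]; exact h), lt_of_lt _ _ (by rw [res_length]; exact h)]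
    simp
  · have h1 : m + 1 - n = (m - n) + 1 := by omega
    have h2 : m + 1 - (n + 1) = m - n := by omega
    have h3 : m - (m - n) = n := by omega
    simp only [zz, h1, h2, zaux, h3]

theorem zz_rec (x y : C) (n : ℕ) : zz x y n =
    (zz x y (n + 1)) ^ 2 * lt (false, x) (res y n) * lt (true, y) (res x n) := by
  funext m
  exact zz_rec_apply x y n m

/-- The generators with all ends in `S`. -/
def gens (R : Set (C × C)) (S : Set Vt) : Set Om :=
  {g | (∃ v t, v ∈ S ∧ g = lt v t) ∨
    ∃ x y n, (x, y) ∈ R ∧ (false, x) ∈ S ∧ (true, y) ∈ S ∧ g = zz x y n}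

/-- The subgroup attached to `S`; the group of the project is `GS R Set.univ`. -/
def GS (R : Set (C × C)) (S : Set Vt) : Subgroup Om := Subgroup.closure (gens R S)

/-- `out` is an orientation of the graph `R` on `S` (each edge points at least in one direction)
with countable outdegrees. -/
def IsOut (R : Set (C × C)) (S : Set Vt) (out : Vt → Set Vt) : Prop :=
  (∀ v, (out v).Countable) ∧ ∀ x y, (x, y) ∈ R → (false, x) ∈ S → (true, y) ∈ S →
    (true, y) ∈ out (false, x) ∨ (false, x) ∈ out (true, y)

/-- What is used of the graph: it is compact, orientable on each set of size less than `ℵ_ω`, but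
not on the whole space. -/
def GoodGraph (R : Set (C × C)) : Prop :=
  IsCompact R ∧ (∀ (n : ℕ) (S : Set Vt), #S ≤ ℵ_ n → ∃ out, IsOut R S out) ∧
    ¬ ∃ out, IsOut R Set.univ out

/-- D0 (statement) -/
def S_D0 : Prop := Incompact → ∃ R, GoodGraph R

/-- D1 (statement): the group is isomorphic to an analytic group on the reals. -/
def S_D1 : Prop := ∀ R : Set (C × C), IsCompact R →
  ∃ (G : Group ℝ) (e : ℝ ≃ GS R Set.univ), IsAnalyticGroup G ∧ ∀ a b, e (G.mul a b) = e a * e b

/-- D2 (statement) -/
def S_D2 : Prop := ∀ R : Set (C × C), IsFreeGroup (GS R Set.univ) → ∃ out, IsOut R Set.univ out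

/-- D3 (statement) -/
def S_D3 : Prop := ∀ (R : Set (C × C)) (S : Set Vt), (∃ out, IsOut R S out) →
  IsFreeGroup (GS R S)

/-- D4 (statement): subgroups of size at most `ℵ_n` are contained in some `GS R S`. -/
def S_D4 : Prop := ∀ (R : Set (C × C)) (n : ℕ) (H : Subgroup Om), H ≤ GS R Set.univ → #H ≤ ℵ_ n →
  ∃ S : Set Vt, #S ≤ ℵ_ n ∧ H ≤ GS R S

end Pool.Agent.H409_AG.PD
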