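import Pool.Agent.H409_AG.Stmts
import Pool.Agent.H409_AG.PartD0
import Pool.Agent.H409_AG.PartD1
import Pool.Agent.H409_AG.PartD2
import Pool.Agent.H409_AG.PartD3b
import Pool.Agent.H409_AG.PartD4
import Pool.Agent.H409_AG.PartD_Asm

/-!
# Part D, complete (second version)
-/

set_option autoImplicit false

namespace Pool.Agent.H409_AG.PD

theorem taskD : Stmts.TaskD := group_of_steps step_D0 step_D1 step_D2 step_D3 step_D4

end Pool.Agent.H409_AG.PD
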