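import Pool.Agent.H409_AG.PartB
import Pool.Agent.H409_AG.PartC7
import Pool.Agent.H409_AG.CapD
import Pool.Agent.H409_AG.CapInd
import Pool.Agent.H409_AG.CapOr

/-!
# The two-step iteration: ladder system and graph

A condition is a pair of an initial part of a ladder system and a finite condition for the graph
which is compatible with it.
-/

set_option autoImplicit false

namespace Pool.Agent.H409_AG.Two

open Cardinal Pool.Agent.Helper669.Forcing Pool.Agent.H409_AG Pool.Agent.H409_AG.Gr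
  Pool.Agent.H409_AG.Ccc

variable {Z : Type} [LinearOrder Z]

/-- the relation given by an initial part of a ladder system -/
def rl (b : PartB.Cond Z) : Z → Z → Prop := fun δ γ => γ ∈ b.A δ

theorem rl_lt {b : PartB.Cond Z} {δ γ : Z} (h : rl b δ γ) : γ < δ := b.lt _ _ h

theorem rl_top {b : PartB.Cond Z} {δ γ : Z} (h : rl b δ γ) : δ ≤ b.top := b.le_top _ _ h

theorem rl_ad (b : PartB.Cond Z) : AD (rl b) := by
  intro δ δ' hne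
  obtain ⟨g, hg1, hg2⟩ := b.free
  refine ((hg1 δ).union (hg1 δ')).mono ?_
  rintro γ ⟨h1, h2⟩
  rcases lt_or_gt_of_ne hne with h | h
  · exact hg2 δ δ' h γ h1 h2
  · exact (hg2 δ' δ h γ h2 h1).symm

/-- comparing conditions for different relations -/
def RLe {A A' : Z → Z → Prop} (q' : Gr.Cond A') (q : Gr.Cond A) : Prop :=
  q.n ≤ q'.n ∧ (∀ δ s, (δ, s) ∈ q.X → ∃ s', s <+: s' ∧ (δ, s') ∈ q'.X) ∧
    (∀ β s, (β, s) ∈ q.Y → ∃ s', s <+: s' ∧ (β, s') ∈ q'.Y) ∧ q.e ⊆ q'.e ∧ q.T ⊆ q'.T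

theorem RLe.refl {A : Z → Z → Prop} (q : Gr.Cond A) : RLe q q := (le_refl q : q ≤ q)

theorem RLe.trans {A A' A'' : Z → Z → Prop} {r : Gr.Cond A''} {q : Gr.Cond A'} {p : Gr.Cond A}
    (hrq : RLe r q) (hqp : RLe q p) : RLe r p := by
  refine ⟨hqp.1.trans hrq.1, ?_, ?_, hqp.2.2.2.1.trans hrq.2.2.2.1,
    hqp.2.2.2.2.trans hrq.2.2.2.2⟩
  · intro δ s h
    obtain ⟨s1, h1, h2⟩ := hqp.2.1 δ s h
    obtain ⟨s2, h3, h4⟩ := hrq.2.1 δ s1 h2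
    exact ⟨s2, h1.trans h3, h4⟩
  · intro δ s h
    obtain ⟨s1, h1, h2⟩ := hqp.2.2.1 δ s h
    obtain ⟨s2, h3, h4⟩ := hrq.2.2.1 δ s1 h2
    exact ⟨s2, h1.trans h3, h4⟩

/-- changing the relation -/
def cast {A A' : Z → Z → Prop} (q : Gr.Cond A) (h : ∀ δ β, (δ, β) ∈ q.e → A' δ β.1) :
    Gr.Cond A' where
  n := q.n
  X := q.X
  Y := q.Y
  e := q.e
  T := q.T
  finX := q.finX
  finY := q.finY
  finT := q.finT
  Xlen := q.Xlen
  Ylen := q.Ylen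
  Xfun := q.Xfun
  Yfun := q.Yfun
  Yinj := q.Yinj
  eX := q.eX
  eY := q.eY
  eA := h
  Tlen := q.Tlen
  Tle := q.Tle
  Tcl := q.Tcl
  Te := q.Te
  B := q.B

theorem le_edge {b' b : PartB.Cond Z} (hb : b' ≤ b) {q : Gr.Cond (rl b)}
    (on : On q (Set.Iic b.top)) (δ : Z) (β : Z × ℕ) (h : (δ, β) ∈ q.e) : rl b' δ β.1 := by
  obtain ⟨s, hs⟩ := q.eX _ _ h
  show β.1 ∈ b'.A δ
  rw [hb.2 δ (on.1 _ _ hs)]
  exact q.eA _ _ h

/-- raising the relation -/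
def up {b' b : PartB.Cond Z} (hb : b' ≤ b) (q : Gr.Cond (rl b)) (on : On q (Set.Iic b.top)) :
    Gr.Cond (rl b') := cast q (le_edge hb on)

theorem down_edge {b' b : PartB.Cond Z} (hb : b' ≤ b) (q : Gr.Cond (rl b')) (δ : Z) (β : Z × ℕ)
    (h : (δ, β) ∈ (res q (Set.Iic b.top)).e) : rl b δ β.1 := by
  have h1 : δ ≤ b.top := h.2.1
  show β.1 ∈ b.A δ
  rw [← hb.2 δ h1]
  exact q.eA _ _ h.1

/-- restricting to the part decided by `b` -/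
def dn {b' b : PartB.Cond Z} (hb : b' ≤ b) (q : Gr.Cond (rl b')) : Gr.Cond (rl b) :=
  cast (res q (Set.Iic b.top)) (down_edge hb q)

theorem rle_dn {b' b : PartB.Cond Z} (hb : b' ≤ b) (q : Gr.Cond (rl b')) : RLe q (dn hb q) :=
  (le_res q (Set.Iic b.top) : q ≤ res q (Set.Iic b.top))

theorem on_dn {b' b : PartB.Cond Z} (hb : b' ≤ b) (q : Gr.Cond (rl b')) :
    On (dn hb q) (Set.Iic b.top) := res_on q (Set.Iic b.top)

theorem dn_mono {b' b : PartB.Cond Z} (hb : b' ≤ b) {q q' : Gr.Cond (rl b')} (h : q' ≤ q) :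
    dn hb q' ≤ dn hb q := res_mono h (Set.Iic b.top)

/-- restricting is monotone, also across different relations -/
theorem rle_res {A A' : Z → Z → Prop} {q' : Gr.Cond A'} {q : Gr.Cond A} (h : RLe q' q)
    (U : Set Z) : RLe (res q' U) (res q U) := by
  refine ⟨h.1, ?_, ?_, ?_, h.2.2.2.2⟩
  · rintro δ s ⟨h1, h2⟩
    obtain ⟨s', h3, h4⟩ := h.2.1 δ s h1
    exact ⟨s', h3, h4, h2⟩
  · rintro δ s ⟨h1, h2⟩
    obtain ⟨s', h3, h4⟩ := h.2.2.1 δ s h1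
    exact ⟨s', h3, h4, h2⟩
  · rintro z ⟨h1, h2⟩
    exact ⟨h.2.2.2.1 h1, h2⟩

theorem dn_le {b' b : PartB.Cond Z} (hb : b' ≤ b) {q : Gr.Cond (rl b')} {r : Gr.Cond (rl b)}
    (on : On r (Set.Iic b.top)) (h : RLe q r) : dn hb q ≤ r := by
  have h1 := rle_res h (Set.Iic b.top)
  rw [res_eq on] at h1
  exact h1

theorem sc_Iic (b : PartB.Cond Z) (z : Z) : SC (rl b) (Set.Iic z) :=
  fun _ hδ _ _ _ _ h _ => (rl_lt h).le.trans hδ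

/-- the main lemma: lifting extensions -/
theorem lift {b' b : PartB.Cond Z} (hb : b' ≤ b) {q : Gr.Cond (rl b')}
    (on : On q (Set.Iic b'.top)) {r : Gr.Cond (rl b)} (onr : On r (Set.Iic b.top))
    (h : r ≤ dn hb q) : ∃ q' : Gr.Cond (rl b'), On q' (Set.Iic b'.top) ∧ q' ≤ q ∧ RLe q' r := by
  obtain ⟨t, ht1, ht2⟩ := red (sc_Iic b' b.top) (w := up hb r onr) (q := q) onr h
  refine ⟨res t (Set.Iic b'.top), res_on _ _, ?_, ?_⟩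
  · exact res_le ht2 on
  · have : res t (Set.Iic b'.top) ≤ up hb r onr := res_le ht1 (onr.mono fun x hx =>
      le_trans hx hb.1)
    exact this

/-- The conditions of the iteration. -/
structure P2 (Z : Type) [LinearOrder Z] where
  b : PartB.Cond Z
  q : Gr.Cond (rl b)
  on : On q (Set.Iic b.top)

instance : Preorder (P2 Z) where
  le x' x := x'.b ≤ x.b ∧ RLe x'.q x.q
  le_refl x := ⟨le_rfl, RLe.refl _⟩
  le_trans _ _ _ h1 h2 := ⟨h1.1.trans h2.1, h1.2.trans h2.2⟩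

theorem P2.le_def {x' x : P2 Z} : x' ≤ x ↔ x'.b ≤ x.b ∧ RLe x'.q x.q := Iff.rfl

theorem dn_anti {x0 x y : P2 Z} (hx : x ≤ x0) (hy : y ≤ x) :
    dn (hy.trans hx).1 y.q ≤ dn hx.1 x.q := rle_res hy.2 (Set.Iic x0.b.top)

/-- lifting extensions -/
theorem lift_x {x0 x : P2 Z} (hx : x ≤ x0) {r : Gr.Cond (rl x0.b)}
    (onr : On r (Set.Iic x0.b.top)) (h : r ≤ dn hx.1 x.q) :
    ∃ (y : P2 Z) (hy : y ≤ x), y.b = x.b ∧ dn (hy.trans hx).1 y.q ≤ r := by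
  obtain ⟨q', on', h1, h2⟩ := lift hx.1 x.on onr h
  exact ⟨⟨x.b, q', on'⟩, ⟨le_rfl, h1⟩, rfl, dn_le _ onr h2⟩

/-- the sentence `Φ` about the iteration is the sentence `φ` about the finite part -/
structure Tr (x0 : P2 Z) (Φ : Set (P2 Z)) (φ : Set (Gr.Cond (rl x0.b))) : Prop where
  bsd : Bsd (Set.Iic x0.b.top) φ
  iff : ∀ x (hx : x ≤ x0), x ∈ Φ ↔ dn hx.1 x.q ∈ φ

variable {x0 : P2 Z}

theorem tr_fnot {Φ : Set (P2 Z)} {φ : Set (Gr.Cond (rl x0.b))} (h : Tr x0 Φ φ) :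
    Tr x0 (fnot Φ) (fnot φ) := by
  refine ⟨bsd_fnot (sc_Iic _ _) h.bsd, fun x hx => ⟨fun hn r hr hrφ => ?_, fun hn y hy hyΦ => ?_⟩⟩
  · obtain ⟨y, hy, -, h1⟩ := lift_x hx (res_on r _) (res_le hr (on_dn _ _))
    exact hn y hy ((h.iff y (hy.trans hx)).2 (h.bsd.down _ (h.bsd.based r hrφ) _ h1))
  · exact hn _ (dn_anti hx hy) ((h.iff y (hy.trans hx)).1 hyΦ)

theorem tr_fand {Φ Ψ : Set (P2 Z)} {φ ψ : Set (Gr.Cond (rl x0.b))} (h : Tr x0 Φ φ)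
    (h' : Tr x0 Ψ ψ) : Tr x0 (fand Φ Ψ) (fand φ ψ) :=
  ⟨bsd_fand h.bsd h'.bsd, fun x hx => and_congr (h.iff x hx) (h'.iff x hx)⟩

theorem tr_fall {ι : Sort*} {Φ : ι → Set (P2 Z)} {φ : ι → Set (Gr.Cond (rl x0.b))}
    (h : ∀ i, Tr x0 (Φ i) (φ i)) : Tr x0 (fall Φ) (fall φ) :=
  ⟨bsd_fall fun i => (h i).bsd, fun x hx => forall_congr' fun i => (h i).iff x hx⟩

theorem tr_fimp {Φ Ψ : Set (P2 Z)} {φ ψ : Set (Gr.Cond (rl x0.b))} (h : Tr x0 Φ φ)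
    (h' : Tr x0 Ψ ψ) : Tr x0 (fimp Φ Ψ) (fimp φ ψ) :=
  tr_fnot (tr_fand h (tr_fnot h'))

theorem tr_fex {ι : Sort*} {Φ : ι → Set (P2 Z)} {φ : ι → Set (Gr.Cond (rl x0.b))}
    (h : ∀ i, Tr x0 (Φ i) (φ i)) : Tr x0 (fex Φ) (fex φ) :=
  tr_fnot (tr_fall fun i => tr_fnot (h i))

theorem tr_fground (h : Prop) : Tr x0 (fground h) (fground h) :=
  ⟨bsd_fground h, fun _ _ => Iff.rfl⟩

theorem tr_meets {N2 : Set (P2 Z)} {N : Set (Gr.Cond (rl x0.b))}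
    (h1 : ∀ p q, q ∈ N → p ≤ q → ∃ q' ∈ N, res p (Set.Iic x0.b.top) ≤ q')
    (h2 : ∀ x (hx : x ≤ x0), ∀ s ∈ N2, x ≤ s → ∃ (y : P2 Z) (hy : y ≤ x), ∃ s' ∈ N,
      dn (hy.trans hx).1 y.q ≤ s')
    (h3 : ∀ x (hx : x ≤ x0), ∀ s ∈ N, dn hx.1 x.q ≤ s → ∃ y ≤ x, ∃ s' ∈ N2, y ≤ s') :
    Tr x0 (meets N2) (meets N) := by
  refine ⟨bsd_meets (sc_Iic _ _) h1, fun x hx => ⟨fun hn r hr => ?_, fun hn y hy => ?_⟩⟩
  · obtain ⟨y, hy, -, k1⟩ := lift_x hx (res_on r _) (res_le hr (on_dn _ _))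
    obtain ⟨y1, hy1, s, hs, k2⟩ := hn y hy
    obtain ⟨y2, hy2, s', hs', k3⟩ := h2 y1 (hy1.trans (hy.trans hx)) s hs k2
    have k4 : dn (hy2.trans (hy1.trans (hy.trans hx))).1 y2.q ≤ res r (Set.Iic x0.b.top) :=
      (dn_anti (hy.trans hx) (hy2.trans hy1)).trans k1
    obtain ⟨t, ht1, ht2⟩ := red (sc_Iic _ _) (on_dn _ _) k4
    exact ⟨t, ht2, s', hs', ht1.trans k3⟩
  · obtain ⟨r, hr, s, hs, k1⟩ := hn _ (dn_anti hx hy)
    obtain ⟨q', hq', k2⟩ := h1 r s hs k1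
    obtain ⟨y1, hy1, -, k3⟩ := lift_x (hy.trans hx) (res_on r _) (res_le hr (on_dn _ _))
    obtain ⟨y2, hy2, s', hs', k4⟩ := h3 y1 (hy1.trans (hy.trans hx)) q' hq' (k3.trans k2)
    exact ⟨y2, hy2.trans hy1, s', hs', k4⟩

/-- the name of the tree -/
def TN2 (s σ : List ℕ) : Set (P2 Z) := {x | (s, σ) ∈ x.q.T}

theorem tr_TN (s σ : List ℕ) : Tr x0 (meets (TN2 s σ)) (meets (TN s σ)) := by
  refine tr_meets (fun p q hq hle => ⟨res p _, hle.2.2.2.2 hq, le_rfl⟩)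
    (fun x hx t ht hxt => ⟨x, le_rfl, dn hx.1 x.q, hxt.2.2.2.2.2 ht, le_rfl⟩)
    (fun x hx t ht hxt => ⟨x, le_rfl, x, hxt.2.2.2.2 ht, le_rfl⟩)

/-- the name `z` for a real is the name `ζ` about the finite part -/
def TrN (x0 : P2 Z) (z : ℕ → ℕ → Set (P2 Z)) (ζ : Nm (rl x0.b)) : Prop :=
  ∀ k a, Tr x0 (meets (z k a)) (meets (ζ k a))

theorem tr_IsFun {z : ℕ → ℕ → Set (P2 Z)} {ζ : Nm (rl x0.b)} (h : TrN x0 z ζ) :
    Tr x0 (IsFun z) (IsFun ζ) :=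
  tr_fand (tr_fall fun k => tr_fex fun a => h k a)
    (tr_fall fun k => tr_fall fun a => tr_fall fun b =>
      tr_fimp (tr_fand (h k a) (h k b)) (tr_fground _))

theorem tr_SameReal {z z' : ℕ → ℕ → Set (P2 Z)} {ζ ζ' : Nm (rl x0.b)} (h : TrN x0 z ζ)
    (h' : TrN x0 z' ζ') : Tr x0 (SameReal z z') (SameReal ζ ζ') :=
  tr_fall fun k => tr_fall fun a => tr_fall fun b =>
    tr_fimp (tr_fand (h k a) (h' k b)) (tr_fground _)

theorem tr_InitSeg {z : ℕ → ℕ → Set (P2 Z)} {ζ : Nm (rl x0.b)} (h : TrN x0 z ζ)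
    (s : List ℕ) : Tr x0 (InitSeg s z) (InitSeg s ζ) :=
  tr_fall fun k => tr_fall fun _ => h k _

theorem tr_RTN {z z' : ℕ → ℕ → Set (P2 Z)} {ζ ζ' : Nm (rl x0.b)} (h : TrN x0 z ζ)
    (h' : TrN x0 z' ζ') : Tr x0 (RTN TN2 z z') (RTN TN ζ ζ') :=
  tr_fall fun s => tr_fall fun t => tr_fall fun _ =>
    tr_fimp (tr_fand (tr_InitSeg h s) (tr_InitSeg h' t)) (tr_TN s t)

/-- the name about the iteration given by a name about the finite part -/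
def inj (x0 : P2 Z) (ζ : Nm (rl x0.b)) : ℕ → ℕ → Set (P2 Z) := fun k a =>
  {x | ∃ hx : x ≤ x0, ∃ q ∈ ζ k a, dn hx.1 x.q ≤ q}

theorem trN_inj {ζ : Nm (rl x0.b)} (h : ∀ k a, ∀ q ∈ ζ k a, On q (Set.Iic x0.b.top)) :
    TrN x0 (inj x0 ζ) ζ := by
  intro k a
  refine tr_meets (fun p q hq hle => ⟨q, hq, res_le hle (h k a q hq)⟩) ?_ ?_
  · rintro x hx s ⟨hs, q, hq, h1⟩ hxs
    refine ⟨x, le_rfl, q, hq, le_trans ?_ h1⟩
    exact rle_res hxs.2 (Set.Iic x0.b.top)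
  · intro x hx s hs h1
    exact ⟨x, le_rfl, x, ⟨hx, s, hs, h1⟩, le_rfl⟩

end Pool.Agent.H409_AG.Two
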