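import Pool.Agent.H409_AG.Two1

/-!
# Names about the iteration are names about the finite part
-/

set_option autoImplicit false

namespace Pool.Agent.H409_AG.Two

open Cardinal Pool.Agent.Helper669.Forcing Pool.Agent.H409_AG Pool.Agent.H409_AG.Gr
  Pool.Agent.H409_AG.Ccc Pool.Agent.Helper669

variable {Z : Type} [LinearOrder Z]

/-- putting a finite part on top of a ladder condition -/
def mk' (b : PartB.Cond Z) (t : Gr.Cond (rl b)) : P2 Z := ⟨b, res t (Set.Iic b.top), res_on _ _⟩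

theorem mk'_le {b : PartB.Cond Z} {t : Gr.Cond (rl b)} {x : P2 Z} (hb : b ≤ x.b)
    (h : RLe t x.q) : mk' b t ≤ x := by
  refine ⟨hb, ?_⟩
  have h1 := rle_res h (Set.Iic b.top)
  have h2 : res x.q (Set.Iic b.top) = x.q :=
    res_eq (x.on.mono (Set.Iic_subset_Iic.2 hb.1))
  rw [h2] at h1
  exact h1

/-- the part of the condition `x` seen by a stronger ladder condition -/
def upx {b : PartB.Cond Z} (x : P2 Z) (hb : b ≤ x.b) : P2 Z :=
  ⟨b, up hb x.q x.on, (show On x.q (Set.Iic b.top) from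
    x.on.mono fun _ hz => le_trans hz hb.1)⟩

theorem upx_le {b : PartB.Cond Z} (x : P2 Z) (hb : b ≤ x.b) : upx x hb ≤ x := ⟨hb, RLe.refl x.q⟩

/-- the set of the ladder conditions below which the element named by `S` has countably many
possible values -/
def Ed {X : Type} (x0 : P2 Z) (S : X → Set (P2 Z)) : Set (PartB.Cond Z) :=
  {b | ∃ C : Set (P2 Z × X), C.Countable ∧ (∀ d ∈ C, b ≤ d.1.b ∧ d.1 ≤ x0 ∧ d.1 ∈ meets (S d.2)) ∧
    ∀ x ≤ x0, x.b ≤ b → ∃ d ∈ C, Compat x d.1}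

theorem down_Ed {X : Type} (x0 : P2 Z) (S : X → Set (P2 Z)) : Down (Ed x0 S) := by
  rintro b ⟨C, h1, h2, h3⟩ b' hb'
  exact ⟨C, h1, fun d hd => ⟨hb'.trans (h2 d hd).1, (h2 d hd).2⟩,
    fun x hx hxb => h3 x hx (hxb.trans hb')⟩

theorem dense_Ed [WellFoundedLT Z] {κ : Cardinal.{0}} (hκ : ℵ₁ ≤ κ)
    (hno : ∀ z : Z, ∃ z', z < z')
    (hbd : ∀ (J : Type) (f : J → Z), #J ≤ κ → ∃ b, ∀ j, f j ≤ b)
    {X : Type} (x0 : P2 Z) (S : X → Set (P2 Z))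
    (htot : ∀ x ≤ x0, ∃ y ≤ x, ∃ a, y ∈ meets (S a)) (b : PartB.Cond Z) (hb : b ≤ x0.b) :
    ∃ b' ≤ b, b' ∈ Ed x0 S := by
  classical
  by_contra hcon
  push Not at hcon
  obtain ⟨r0, hr0⟩ := PartB.PS.exists_start b hno
  let K := (ℵ₁ : Cardinal.{0}).ord.ToType
  have hK : #K = ℵ₁ := by simp [K]
  have hKκ : #K ≤ κ := hK.le.trans hκ
  have hIio : ∀ i : K, (Set.Iio i).Countable := by
    intro i
    rw [← Cardinal.le_aleph0_iff_set_countable, ← Order.lt_succ_iff,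
      ← Cardinal.aleph_zero, Cardinal.succ_aleph, zero_add]
    exact PartB.card_Iio_lt i
  have hKne : Nonempty K := by
    rw [← Cardinal.mk_ne_zero_iff, hK]
    exact (Cardinal.aleph_pos 1).ne'
  have hx0 : x0 ≤ x0 := le_rfl
  obtain ⟨y0, -, a0, -⟩ := htot x0 le_rfl
  have hne : Nonempty (PartB.PS Z × (P2 Z × X)) := ⟨(r0, (y0, a0))⟩
  obtain ⟨F, hF⟩ := KDelta.rec_choice (ι := K) (β := PartB.PS Z × (P2 Z × X)) (r := (· < ·))
    wellFounded_lt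
    (fun ξ F d => d.1 ≤ r0 ∧ (∀ η < ξ, d.1 ≤ (F η).1) ∧ d.1.p ≤ d.2.1.b ∧ d.2.1 ≤ x0 ∧
      d.2.1 ∈ meets (S d.2.2) ∧ ∀ η < ξ, ¬ Compat d.2.1 (F η).2.1)
    (by
      rintro ξ F G d hFG ⟨h1, h2, h3, h4, h5, h6⟩
      refine ⟨h1, fun η hη => ?_, h3, h4, h5, fun η hη => ?_⟩
      · rw [← hFG η hη]
        exact h2 η hη
      · rw [← hFG η hη]
        exact h6 η hη)
    (by
      intro ξ F hF
      have hex : ∃ r1 ≤ r0, ∀ η < ξ, r1 ≤ (F η).1 := by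
        by_cases hne : Nonempty (Set.Iio ξ)
        · obtain ⟨r1, hr1, -⟩ := PartB.PS.glb (J := Set.Iio ξ) (fun η => (F η.1).1) (by
            intro i j hij
            rcases hij.lt_or_eq with h | h
            · exact (hF j.1 j.2).2.1 i.1 h
            · rw [h]) (hbd _ _ ((Cardinal.mk_set_le _).trans hKκ))
          exact ⟨r1, (hr1 (Classical.choice hne)).trans
            (hF (Classical.choice hne).1 (Classical.choice hne).2).1, fun η hη => hr1 ⟨η, hη⟩⟩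
        · exact ⟨r0, le_rfl, fun η hη => absurd ⟨⟨η, hη⟩⟩ hne⟩
      obtain ⟨r1, hr1, hr1F⟩ := hex
      have hnot := hcon r1.p (hr1.1.trans hr0)
      have h7 : ∃ x ≤ x0, x.b ≤ r1.p ∧ ∀ η < ξ, ¬ Compat x (F η).2.1 := by
        by_contra hc
        push Not at hc
        apply hnot
        refine ⟨(fun η => (F η).2) '' Set.Iio ξ, (hIio ξ).image _, ?_, ?_⟩
        · rintro _ ⟨η, hη, rfl⟩
          have := hF η hη
          exact ⟨(hr1F η hη).1.trans this.2.2.1, this.2.2.2.1, this.2.2.2.2.1⟩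
        · intro x hx hxb
          obtain ⟨η, hη, h⟩ := hc x hx hxb
          exact ⟨_, ⟨η, hη, rfl⟩, h⟩
      obtain ⟨x, hx, hxb, hxC⟩ := h7
      obtain ⟨y, hy, a, hya⟩ := htot x hx
      obtain ⟨r', hr', hr'y, -⟩ := r1.exists_le hno (hy.1.trans hxb) r1.p.top
      refine ⟨(r', (y, a)), hr'.trans hr1, fun η hη => hr'.trans (hr1F η hη), hr'y,
        hy.trans hx, hya, fun η hη hc => hxC η hη ?_⟩
      obtain ⟨s, hs1, hs2⟩ := hc
      exact ⟨s, hs1.trans hy, hs2⟩)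
  obtain ⟨R, hR, -⟩ := PartB.PS.glb (J := K) (fun ξ => (F ξ).1) (by
    intro i j hij
    rcases hij.lt_or_eq with h | h
    · exact (hF j).2.1 i h
    · rw [h]) (hbd _ _ hKκ)
  have hRb : ∀ ξ, R.p ≤ (F ξ).2.1.b := fun ξ => (hR ξ).1.trans (hF ξ).2.2.1
  have hunc : ¬ Countable K := by
    rw [← Cardinal.mk_le_aleph0_iff, hK, not_le]
    exact Cardinal.aleph0_lt_aleph_one
  obtain ⟨ξ, η, hne, t, ht1, ht2⟩ := (ccc (rl_ad R.p)).family
    (fun ξ => up (hRb ξ) (F ξ).2.1.q (F ξ).2.1.on) hunc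
  have key : ∀ ξ η, η < ξ → t ≤ up (hRb ξ) (F ξ).2.1.q (F ξ).2.1.on →
      t ≤ up (hRb η) (F η).2.1.q (F η).2.1.on → False := by
    intro ξ η hlt h1 h2
    exact (hF ξ).2.2.2.2.2 η hlt ⟨mk' R.p t, mk'_le (hRb ξ) h1, mk'_le (hRb η) h2⟩
  rcases lt_or_gt_of_ne hne with h | h
  · exact key η ξ h ht2 ht1
  · exact key ξ η h ht1 ht2

/-- Names for reals in the extension are names about the finite part, below some condition. -/
theorem exists_names [WellFoundedLT Z] {κ : Cardinal.{0}} (hκ : ℵ₁ ≤ κ)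
    (hno : ∀ z : Z, ∃ z', z < z')
    (hbd : ∀ (J : Type) (f : J → Z), #J ≤ κ → ∃ b, ∀ j, f j ≤ b)
    {I : Type} (hI : #I ≤ κ) (z : I → ℕ → ℕ → Set (P2 Z)) (x0 : P2 Z)
    (hz : ∀ i, x0 ∈ IsFun (z i)) :
    ∃ x1 ≤ x0, ∃ ζ : I → Nm (rl x1.b),
      (∀ i k a, ∀ q ∈ ζ i k a, On q (Set.Iic x1.b.top)) ∧ ∀ i, TrN x1 (z i) (ζ i) := by
  have hκ0 : ℵ₀ ≤ κ := (Cardinal.aleph0_le_aleph 1).trans hκ
  obtain ⟨b1, hb1, hE⟩ := PartB.decide_all (κ := κ) hno hbd (K := I × ℕ)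
    (mk_prod_le hκ0 hI (mk_countable_le hκ0)) (fun j => Ed x0 (z j.1 j.2)) x0.b
    (fun j b hb => dense_Ed hκ hno hbd x0 (z j.1 j.2)
      (fun x hx => IsFun.total (down_IsFun _ _ (hz j.1) _ hx) j.2) b hb)
    (fun j => down_Ed _ _)
  refine ⟨upx x0 hb1, upx_le x0 hb1, fun i k a => {q | ∃ on : On q (Set.Iic b1.top),
    (⟨b1, q, on⟩ : P2 Z) ≤ upx x0 hb1 ∧ (⟨b1, q, on⟩ : P2 Z) ∈ meets (z i k a)}, ?_, ?_⟩
  · rintro i k a q ⟨on, -, -⟩
    exact on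
  · intro i k a
    refine tr_meets ?_ ?_ ?_
    · rintro p q ⟨on, h1, h2⟩ hle
      exact ⟨q, ⟨on, h1, h2⟩, res_le hle on⟩
    · intro x hx s hs hxs
      obtain ⟨C, -, hC, hCm⟩ := hE (i, k)
      obtain ⟨d, hd, t, ht1, ht2⟩ := hCm x (hx.trans (upx_le _ _)) hx.1
      obtain ⟨hdb, hdx, hdS⟩ := hC d hd
      have e1 : d.2 = a := IsFun.unique (down_IsFun _ _ (hz i) _ (ht2.trans hdx))
        (down_meets _ _ hdS _ ht2) (meets_of_le hs (ht1.trans hxs))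
      have on' : On (up hdb d.1.q d.1.on) (Set.Iic b1.top) := (upx d.1 hdb).on
      refine ⟨t, ht1, up hdb d.1.q d.1.on, ⟨on', ⟨le_rfl, hdx.2⟩, ?_⟩, ?_⟩
      · rw [← e1]
        exact down_meets _ _ hdS _ (upx_le d.1 hdb)
      · exact dn_le _ on' ht2.2
    · rintro x hx s ⟨on, h1, h2⟩ h3
      have h4 : x ≤ (⟨b1, s, on⟩ : P2 Z) := ⟨hx.1, (rle_dn hx.1 x.q).trans h3⟩
      exact h2 x h4

end Pool.Agent.H409_AG.Two
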