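import Pool.Agent.H409_AG.Two2

/-!
# The orientation in the extension by the iteration
-/

set_option autoImplicit false

namespace Pool.Agent.H409_AG.Two

open Cardinal Pool.Agent.Helper669.Forcing Pool.Agent.H409_AG Pool.Agent.H409_AG.Gr
  Pool.Agent.H409_AG.Ccc Pool.Agent.Helper669

section Names

variable {L : Type} {A : L → L → Prop}

/-- each name for a real with support in `B` is equal to a countable name with support in `B` -/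
theorem exists_small_name_in (hA : AD A) {B : Set L} (sc : SC A B) {z : Nm A}
    (hzB : ∀ k a, ∀ q ∈ z k a, On q B) {p : Cond A} (hpB : On p B) (hp : p ∈ IsFun z) :
    ∃ S ⊆ B, S.Countable ∧ ∃ τ ∈ NU A S, p ∈ IsFun τ ∧ p ∈ SameReal z τ := by
  have hbz : ∀ k a, Bsd B (meets (z k a)) := fun k a => bsd_meets_on sc (hzB k a)
  choose C hC hCc hCm using fun k : ℕ =>
    (ccc hA).exists_max {d : Cond A × ℕ | On d.1 B ∧ d.1 ≤ p ∧ d.1 ∈ meets (z k d.2)}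
  let τ : Nm A := fun k a => {w | ∃ d ∈ C k, d.2 = a ∧ w = d.1}
  let S : Set L := ⋃ k : ℕ, ⋃ d ∈ C k, supp d.1
  have hpre : ∀ k r, r ≤ p → ∃ r' ≤ r, ∃ d ∈ C k, r' ≤ d.1 := by
    intro k r hr
    obtain ⟨r', hr', a, ha⟩ := IsFun.total (down_IsFun _ _ hp _ hr) k
    obtain ⟨d, hd, s, hs1, hs2⟩ := hCm k (res r' B, a)
      ⟨res_on _ _, res_le (hr'.trans hr) hpB, (hbz k a).based _ ha⟩
    obtain ⟨t, ht1, ht2⟩ := red sc (res_on s B) (res_le hs1 (res_on r' B))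
    refine ⟨t, ht2.trans hr', d, hd, ht1.trans (res_le hs2 (hC k hd).1)⟩
  refine ⟨S, ?_, Set.countable_iUnion fun k => (hCc k).biUnion fun d _ =>
    (supp_finite d.1).countable, τ, ?_, ⟨?_, ?_⟩, ?_⟩
  · refine Set.iUnion_subset fun k => Set.iUnion₂_subset fun d hd => ?_
    exact on_iff.1 (hC k hd).1
  · intro k a
    refine ⟨((hCc k).image fun d => d.1).mono ?_, ?_⟩
    · rintro w ⟨d, hd, -, rfl⟩
      exact ⟨d, hd, rfl⟩
    · rintro w ⟨d, hd, -, rfl⟩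
      rw [on_iff]
      intro x hx
      exact Set.mem_iUnion.2 ⟨k, Set.mem_biUnion hd hx⟩
  · intro k
    refine mem_fex.2 fun r hr => ?_
    obtain ⟨r', hr', d, hd, h⟩ := hpre k r hr
    exact ⟨r', hr', d.2, meets_of_le ⟨d, hd, rfl, rfl⟩ h⟩
  · intro k a b
    refine mem_fimp.2 fun r hr hrab => ⟨r, le_rfl, ?_⟩
    obtain ⟨s, hs, _, ⟨d, hd, rfl, rfl⟩, h1⟩ := hrab.1 r le_rfl
    obtain ⟨s', hs', _, ⟨d', hd', rfl, rfl⟩, h2⟩ := hrab.2 s hs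
    exact IsFun.unique (down_IsFun _ _ hp _ ((hs'.trans hs).trans hr))
      (down_meets _ _ (hC k hd).2.2 _ (hs'.trans h1)) (down_meets _ _ (hC k hd').2.2 _ h2)
  · intro k a b
    refine mem_fimp.2 fun r hr hrab => ⟨r, le_rfl, ?_⟩
    obtain ⟨s, hs, _, ⟨d, hd, rfl, rfl⟩, h1⟩ := hrab.2 r le_rfl
    exact IsFun.unique (down_IsFun _ _ hp _ (hs.trans hr)) (down_meets _ _ hrab.1 _ hs)
      (down_meets _ _ (hC k hd).2.2 _ h1)

/-- names which orient a family of names -/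
theorem orient_names (hA : AD A) {B : Set L} (sc : SC A B) {I : Type}
    (hU : ∀ S ⊆ B, #S ≤ max ℵ₀ #I → ∃ U ⊆ B, S ⊆ U ∧ Cap A U) (z : I → Nm A)
    (hzB : ∀ i k a, ∀ q ∈ z i k a, On q B) {p : Cond A} (hpB : On p B)
    (hz : ∀ i, p ∈ IsFun (z i)) :
    ∃ ν : I → ℕ → Nm A, (∀ i m, ν i m ∈ NU A B) ∧ ∀ q ≤ p, ∀ i j, q ∈ RTN TN (z i) (z j) →
      ∃ r ≤ q, (∃ m, r ∈ IsFun (ν i m) ∧ r ∈ SameReal (ν i m) (z j)) ∨
        (∃ m, r ∈ IsFun (ν j m) ∧ r ∈ SameReal (ν j m) (z i)) := by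
  choose S hSB hS τ hτ hτf hτz using fun i => exists_small_name_in hA sc (hzB i) hpB (hz i)
  obtain ⟨U, hUB, hSU, Φ, hΦ, hcap⟩ := hU (⋃ i, S i) (Set.iUnion_subset hSB) (by
    refine (mk_iUnion_le _).trans ?_
    have h2 : (⨆ i, #(S i)) ≤ ℵ₀ := ciSup_le' fun i => (hS i).le_aleph0
    refine (mul_le_mul' (le_max_right ℵ₀ #I) (h2.trans (le_max_left ℵ₀ #I))).trans ?_
    rw [mul_eq_self (le_max_left _ _)])
  have hτU : ∀ i, τ i ∈ NU A U := fun i =>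
    NU.mono ((Set.subset_iUnion S i).trans hSU) (hτ i)
  -- enumerate
  have hen : ∀ i, ∃ f : ℕ → Nm A, Φ (τ i) ⊆ Set.range f ∧ ∀ m, f m ∈ NU A U := by
    intro i
    obtain ⟨f, hf⟩ := ((hΦ (τ i)).1.union (Set.countable_singleton (τ i))).exists_eq_range
      ⟨_, Or.inr rfl⟩
    refine ⟨f, by rw [← hf]; exact Set.subset_union_left, fun m => ?_⟩
    have h1 : f m ∈ Φ (τ i) ∪ {τ i} := by rw [hf]; exact ⟨m, rfl⟩
    rcases h1 with h1 | h1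
    · exact (hΦ (τ i)).2 h1
    · rw [Set.mem_singleton_iff] at h1
      rw [h1]
      exact hτU i
  choose f hf hfU using hen
  refine ⟨f, fun i m => NU.mono hUB (hfU i m), fun q hq i j hR => ?_⟩
  have hR' : q ∈ RTN TN (τ i) (τ j) :=
    C6.rtn_of_sameReal (down_IsFun _ _ (hz i) _ hq) (down_IsFun _ _ (hz j) _ hq)
      (down_SameReal _ _ _ (hτz i) _ hq) (down_SameReal _ _ _ (hτz j) _ hq) hR
  have hfi := down_IsFun _ _ (hτf i) _ hq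
  have hfj := down_IsFun _ _ (hτf j) _ hq
  rcases hcap (τ i) (hτU i) (τ j) (hτU j) q hfi hfj hR' with h | h
  · obtain ⟨r, hr, υ, hυ, h1, h2⟩ := h
    obtain ⟨m, hm⟩ := hf i hυ
    refine ⟨r, hr, Or.inl ⟨m, by rw [hm]; exact h1, ?_⟩⟩
    rw [hm]
    exact C6.sameReal_symm (C6.sameReal_trans (down_IsFun _ _ hfj _ hr)
      (down_SameReal _ _ _ (hτz j) _ (hr.trans hq)) h2)
  · obtain ⟨r, hr, υ, hυ, h1, h2⟩ := h
    obtain ⟨m, hm⟩ := hf j hυ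
    refine ⟨r, hr, Or.inr ⟨m, by rw [hm]; exact h1, ?_⟩⟩
    rw [hm]
    exact C6.sameReal_symm (C6.sameReal_trans (down_IsFun _ _ hfi _ hr)
      (down_SameReal _ _ _ (hτz i) _ (hr.trans hq)) h2)

end Names

variable {Z : Type} [LinearOrder Z]

/-- closures for the relation of a ladder condition -/
theorem exists_closure (b : PartB.Cond Z) : ∃ cl : Z → Set Z,
    (∀ x, #(cl x) ≤ (ℵ₁ : Cardinal.{0})) ∧ (∀ x, x ∈ cl x) ∧
      ∀ S ⊆ Set.Iic b.top, Good (rl b) (Set.Iic b.top) (⋃ x ∈ S, cl x) := by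
  obtain ⟨g, hg1, hg2⟩ := b.free
  let out : Z → Set Z := fun x => {y | rl b x y} ∪ {y | rl b y x ∧ x ∉ g y}
  have hout : ∀ x, #(out x) ≤ (ℵ₁ : Cardinal.{0}) := by
    intro x
    refine (Cardinal.mk_union_le _ _).trans ?_
    refine Cardinal.add_le_of_le (Cardinal.aleph0_le_aleph _) (b.card x) ?_
    refine (Cardinal.mk_le_aleph0_iff.2 ?_).trans (Cardinal.aleph0_le_aleph _)
    refine Set.Subsingleton.countable ?_
    rintro y ⟨hy1, hy2⟩ y' ⟨hy1', hy2'⟩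
    by_contra hne
    rcases lt_or_gt_of_ne hne with h | h
    · rcases hg2 y y' h x hy1 hy1' with h | h
      · exact hy2 h
      · exact hy2' h
    · rcases hg2 y' y h x hy1' hy1 with h | h
      · exact hy2' h
      · exact hy2 h
  refine ⟨Gr.cl out, mk_cl_le (Cardinal.aleph0_le_aleph _) hout, self_mem_cl out, ?_⟩
  intro S hS
  refine ⟨?_, ?_, ?_⟩
  · intro a ha
    obtain ⟨x, hx, ha⟩ := Set.mem_iUnion₂.1 ha
    refine cl_induction (C := fun a => a ≤ b.top) (hS hx) ?_ ha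
    rintro c d hc (hd | hd)
    · exact (rl_lt hd).le.trans hc
    · exact rl_top hd.1
  · intro δ hδ γ hγ
    obtain ⟨x, hx, hδ⟩ := Set.mem_iUnion₂.1 hδ
    exact Set.mem_iUnion₂.2 ⟨x, hx, out_sub_cl hδ (Or.inl hγ)⟩
  · intro δ hδ hδU
    refine (hg1 δ).mono ?_
    rintro γ ⟨hγU, hγ⟩
    by_contra hcon
    obtain ⟨x, hx, hγx⟩ := Set.mem_iUnion₂.1 hγU
    exact hδU (Set.mem_iUnion₂.2 ⟨x, hx, out_sub_cl hγx (Or.inr ⟨hγ, hcon⟩)⟩)

/-- Small families are orientable. -/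
theorem orient2 [WellFoundedLT Z] {κ : Cardinal.{0}} (hκ : ℵ₁ ≤ κ)
    (hno : ∀ z : Z, ∃ z', z < z')
    (hbd : ∀ (J : Type) (f : J → Z), #J ≤ κ → ∃ b, ∀ j, f j ≤ b)
    (hCH : #(ℕ → ℕ) ≤ (ℵ₁ : Cardinal.{0})) {I : Type} {n : ℕ}
    (hI : max ℵ₀ #I ≤ (ℵ_ (n : Ordinal.{0}) : Cardinal.{0})) (hIκ : #I ≤ κ)
    (z : I → ℕ → ℕ → Set (P2 Z)) (x0 : P2 Z) (hz : ∀ i, x0 ∈ IsFun (z i)) :
    x0 ∈ OrientN TN2 z := by
  refine C6.fex_of_dense fun y hy => ?_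
  obtain ⟨x1, hx1, ζ, hζ1, hζ2⟩ := exists_names hκ hno hbd hIκ z y
    fun i => down_IsFun _ _ (hz i) _ hy
  refine ⟨x1, hx1, ?_⟩
  show x1 ∈ OrientN TN2 z
  have hA := rl_ad x1.b
  have hcapt : Captures (rl x1.b) (Set.Iic x1.b.top) := captures (rl x1.b) (Set.Iic x1.b.top) hA
    fun δ hδ γ hγ => (rl_lt hγ).le.trans hδ
  obtain ⟨cl, hcl1, hcl2, hcl3⟩ := exists_closure x1.b
  have hzx : ∀ i, x1.q ∈ IsFun (ζ i) := by
    intro i
    have h1 := ((tr_IsFun (hζ2 i)).iff x1 le_rfl).1 (down_IsFun _ _ (hz i) _ (hx1.trans hy))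
    exact down_IsFun _ _ h1 _ (rle_dn _ x1.q)
  obtain ⟨ν, hν1, hν2⟩ := orient_names hA (sc_Iic x1.b x1.b.top) (fun S hS hc =>
    ⟨⋃ x ∈ S, cl x, (hcl3 S hS).sub, fun x hx => mem_biUnion_cl.2 ⟨x, hx, hcl2 x⟩,
      cap_union hA hcapt hCH cl hcl1 hcl3 n S hS (hc.trans hI)⟩) ζ hζ1 x1.on hzx
  have hν : ∀ i m, TrN x1 (inj x1 (ν i m)) (ν i m) := fun i m =>
    trN_inj fun k a q hq => (hν1 i m k a).2 q hq
  refine C6.orientN_of (fun i m => inj x1 (ν i m)) fun x hx i j hR => ?_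
  have h1 := ((tr_RTN (hζ2 i) (hζ2 j)).iff x hx).1 hR
  have h0 : dn hx.1 x.q ≤ x1.q := dn_le _ x1.on hx.2
  obtain ⟨r, hr, h2⟩ := hν2 _ h0 i j h1
  obtain ⟨y', hy', -, h3⟩ := lift_x hx (res_on r _) (res_le hr (on_dn _ _))
  refine ⟨y', hy', ?_⟩
  have key : ∀ i j m, r ∈ IsFun (ν i m) → r ∈ SameReal (ν i m) (ζ j) →
      y' ∈ IsFun (inj x1 (ν i m)) ∧ y' ∈ SameReal (inj x1 (ν i m)) (z j) := by
    intro i j m h4 h5
    have t1 := tr_IsFun (hν i m)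
    have t2 := tr_SameReal (hν i m) (hζ2 j)
    exact ⟨(t1.iff y' (hy'.trans hx)).2 (t1.bsd.down _ (t1.bsd.based _ h4) _ h3),
      (t2.iff y' (hy'.trans hx)).2 (t2.bsd.down _ (t2.bsd.based _ h5) _ h3)⟩
  rcases h2 with ⟨m, h4, h5⟩ | ⟨m, h4, h5⟩
  · exact Or.inl ⟨m, key i j m h4 h5⟩
  · exact Or.inr ⟨m, key j i m h4 h5⟩

end Pool.Agent.H409_AG.Two
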