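import Pool.Agent.H409_AG.Two3

/-!
# The generic points in the extension by the iteration
-/

set_option autoImplicit false

namespace Pool.Agent.H409_AG.Two

open Cardinal Pool.Agent.Helper669.Forcing Pool.Agent.H409_AG Pool.Agent.H409_AG.Gr
  Pool.Agent.H409_AG.Ccc Pool.Agent.Helper669

variable {Z : Type} [LinearOrder Z]

/-- the names of the points -/
def ZN2 (i : Z ⊕ (Z × ℕ)) : ℕ → ℕ → Set (P2 Z) := fun k a =>
  {x | ∃ s, At x.q i s ∧ k < s.length ∧ s.getD k 0 = a}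

/-- the index is below `z` -/
def Low (z : Z) (i : Z ⊕ (Z × ℕ)) : Prop :=
  match i with
  | Sum.inl δ => δ ≤ z
  | Sum.inr β => β.1 ≤ z

theorem Low.mono {z z' : Z} {i : Z ⊕ (Z × ℕ)} (h : Low z i) (hz : z ≤ z') : Low z' i := by
  rcases i with δ | β
  · exact le_trans (α := Z) h hz
  · exact le_trans (α := Z) h hz

theorem exists_low (i : Z ⊕ (Z × ℕ)) : ∃ z, Low z i := by
  rcases i with δ | β
  · exact ⟨δ, le_rfl⟩
  · exact ⟨β.1, le_rfl⟩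

theorem at_res {A : Z → Z → Prop} {q : Gr.Cond A} {i : Z ⊕ (Z × ℕ)} {s : List ℕ} {z : Z}
    (hi : Low z i) : At (res q (Set.Iic z)) i s ↔ At q i s := by
  rcases i with δ | β
  · exact ⟨fun h => h.1, fun h => ⟨h, hi⟩⟩
  · exact ⟨fun h => h.1, fun h => ⟨h, hi⟩⟩

theorem at_rle {A A' : Z → Z → Prop} {q' : Gr.Cond A'} {q : Gr.Cond A} (h : RLe q' q)
    {i : Z ⊕ (Z × ℕ)} {s : List ℕ} (hs : At q i s) : ∃ s', s <+: s' ∧ At q' i s' := by
  rcases i with δ | β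
  · exact h.2.1 _ _ hs
  · exact h.2.2.1 _ _ hs

theorem tr_ZN {x0 : P2 Z} {i : Z ⊕ (Z × ℕ)} (hi : Low x0.b.top i) : TrN x0 (ZN2 i) (ZN i) := by
  intro k a
  refine tr_meets ?_ ?_ ?_
  · intro p q hq hle
    refine ⟨res p (Set.Iic x0.b.top), ?_, le_rfl⟩
    obtain ⟨s, h1, h2, h3⟩ := down_ZN i k a q hq p hle
    exact ⟨s, (at_res hi).2 h1, h2, h3⟩
  · rintro x hx s ⟨u, h1, h2, h3⟩ hxs
    obtain ⟨u', h4, h5⟩ := at_rle hxs.2 h1
    refine ⟨x, le_rfl, dn hx.1 x.q, ⟨u', ?_, h2.trans_le h4.length_le, ?_⟩, le_rfl⟩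
    · exact (at_res hi).2 h5
    · rw [← getD_pre h4 h2]
      exact h3
  · rintro x hx s ⟨u, h1, h2, h3⟩ hxs
    obtain ⟨u', h4, h5⟩ := at_rle ((rle_dn hx.1 x.q).trans hxs) h1
    refine ⟨x, le_rfl, x, ⟨u', h5, h2.trans_le h4.length_le, ?_⟩, le_rfl⟩
    rw [← getD_pre h4 h2]
    exact h3

/-- raising the top -/
theorem exists_top (x : P2 Z) (z : Z) : ∃ y ≤ x, z ≤ y.b.top := by
  obtain ⟨b, hb, hz⟩ := x.b.exists_top_ge z
  exact ⟨upx x hb, upx_le x hb, hz⟩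

theorem exists_low_le (x : P2 Z) (i : Z ⊕ (Z × ℕ)) : ∃ y ≤ x, Low y.b.top i := by
  obtain ⟨z, hz⟩ := exists_low i
  obtain ⟨y, hy, h⟩ := exists_top x z
  exact ⟨y, hy, hz.mono h⟩

theorem isFun_of_dense {P : Type} [Preorder P] {X Y : Type} {R : X → Y → Set P} {p : P}
    (h : ∀ q ≤ p, ∃ r ≤ q, r ∈ IsFun R) : p ∈ IsFun R := by
  refine ⟨fun x => C6.fex_of_dense fun q hq => ?_, fun x y y' => mem_fimp.2 fun q hq hh => ?_⟩
  · obtain ⟨r, hr, h1⟩ := h q hq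
    exact ⟨r, hr, h1.1 x⟩
  · obtain ⟨r, hr, h1⟩ := h q hq
    refine ⟨r, hr, ?_⟩
    exact IsFun.unique h1 (down_meets _ _ hh.1 _ hr) (down_meets _ _ hh.2 _ hr)

theorem isFun_ZN2 (i : Z ⊕ (Z × ℕ)) (x : P2 Z) : x ∈ IsFun (ZN2 i) := by
  refine isFun_of_dense fun y _ => ?_
  obtain ⟨w, hw, hi⟩ := exists_low_le y i
  exact ⟨w, hw, ((tr_IsFun (tr_ZN hi)).iff w le_rfl).2 (isFun_ZN i _)⟩

theorem ne_ZN2 {i j : Z ⊕ (Z × ℕ)} (hij : i ≠ j) (x : P2 Z) :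
    x ∉ SameReal (ZN2 i) (ZN2 j) := by
  intro h
  obtain ⟨y, hy, hi⟩ := exists_low_le x i
  obtain ⟨w, hw, hj⟩ := exists_low_le y j
  have h1 := down_SameReal _ _ _ h _ (hw.trans hy)
  exact ne_ZN hij _ (((tr_SameReal (tr_ZN (hi.mono hw.1.1)) (tr_ZN hj)).iff w le_rfl).1 h1)

theorem rtn_of_edge2 {x : P2 Z} {δ : Z} {β : Z × ℕ} (h : (δ, β) ∈ x.q.e) :
    x ∈ RTN TN2 (ZN2 (Sum.inl δ)) (ZN2 (Sum.inr β)) := by
  obtain ⟨s, hs⟩ := x.q.eX _ _ h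
  obtain ⟨σ, hσ⟩ := x.q.eY _ _ h
  have h1 : δ ≤ x.b.top := x.on.1 _ _ hs
  have h2 : β.1 ≤ x.b.top := x.on.2 _ _ hσ
  have h1' : Low x.b.top (Sum.inl δ : Z ⊕ (Z × ℕ)) := h1
  have h2' : Low x.b.top (Sum.inr β : Z ⊕ (Z × ℕ)) := h2
  refine ((tr_RTN (tr_ZN h1') (tr_ZN h2')).iff x le_rfl).2 (rtn_of_edge ?_)
  exact ⟨h, h1, h2⟩

theorem exists_edge2 (x : P2 Z) {δ γ : Z} (h : γ ∈ x.b.A δ) :
    ∃ y ≤ x, ∃ k, (δ, (γ, k)) ∈ y.q.e := by
  obtain ⟨q, hq, k, hk⟩ := exists_edge x.q (A := rl x.b) h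
  have h1 : δ ≤ x.b.top := rl_top (b := x.b) h
  have h2 : γ ≤ x.b.top := (rl_lt (b := x.b) h).le.trans h1
  exact ⟨mk' x.b q, mk'_le le_rfl hq, k, hk, h1, h2⟩

/-- the main step in adding a ladder: a condition with a large new ladder, in a general form -/
theorem exists_ladder_open [WellFoundedLT Z] {κ : Cardinal.{0}} (hκ : ℵ₁ ≤ κ)
    (hno : ∀ z : Z, ∃ z', z < z')
    (hbd : ∀ (J : Type) (f : J → Z), #J ≤ κ → ∃ b, ∀ j, f j ≤ b)
    (hIio : ∀ z : Z, #(Set.Iio z) ≤ κ) (D : Z → Z → Set (PartB.Cond Z))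
    (hdown : ∀ γ ξ, Down (D γ ξ)) (q : PartB.Cond Z)
    (hD : ∀ γ, ∀ q' ≤ q, ∃ r ≤ q', ∃ ξ, r ∈ D γ ξ) : ∃ r ≤ q, ¬ (r.A r.top).Countable ∧
      ∀ γ < r.top, ∃ ξ < r.top, r ∈ D γ ξ := by
  classical
  obtain ⟨r0, hr0⟩ := PartB.PS.exists_start q hno
  let K := (ℵ₁ : Cardinal.{0}).ord.ToType
  have hK : #K = ℵ₁ := by simp [K]
  have hKno : ∀ i : K, ∃ j, i < j := by
    intro i
    have h1 : NoMaxOrder K := by
      have h2 : (ℵ₀ : Cardinal.{0}) ≤ ℵ₁ := Cardinal.aleph0_le_aleph 1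
      exact Cardinal.noMaxOrder h2
    exact exists_gt i
  obtain ⟨R, hR1, hR2⟩ := PartB.exists_chain (K := K) hbd (hK.le.trans hκ) r0
    (fun _ r r' => r.p.top < r'.p.top ∧ ∀ γ < r.p.top, ∃ ξ < r'.p.top, r'.p ∈ D γ ξ) (by
    intro _ r hr
    obtain ⟨q', hq', h⟩ := PartB.decide_all (K := Set.Iio r.p.top) hno hbd (hIio r.p.top)
      (fun γ => {b | ∃ ξ, b ∈ D γ.1 ξ}) r.p
      (fun γ q' hq' => hD γ.1 q' (hq'.trans (hr.1.trans hr0)))
      (fun γ b hb b' hb' => by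
        obtain ⟨ξ, hξ⟩ := hb
        exact ⟨ξ, hdown _ _ _ hξ _ hb'⟩)
    choose g hg using h
    obtain ⟨b, hb⟩ := hbd _ g (hIio r.p.top)
    obtain ⟨r', h1, h2, h3, h4⟩ := r.exists_le hno hq' b
    refine ⟨r', h1, hq'.1.trans_lt h3, fun γ hγ => ⟨g ⟨γ, hγ⟩, (hb ⟨γ, hγ⟩).trans_lt h4, ?_⟩⟩
    exact hdown _ _ _ (hg ⟨γ, hγ⟩) _ h2)
  have hKne : Nonempty K := by
    rw [← Cardinal.mk_ne_zero_iff, hK]
    exact (Cardinal.aleph_pos 1).ne'
  obtain ⟨r, hr1, hr2⟩ := PartB.PS.glb (J := K) R hR1 (hbd _ _ (hK.le.trans hκ))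
  have hlt : ∀ i j, i < j → (R i).p.top < (R j).p.top := by
    intro i j hij
    obtain ⟨-, r', h1, h2, h3, -⟩ := hR2 j
    exact (h1 i hij).1.1.trans_lt h3
  have hlt' : ∀ j, (R j).p.top < r.p.top := by
    intro j
    obtain ⟨j', hj'⟩ := hKno j
    exact (hlt j j' hj').trans_le (hr1 j').1.1
  have hrc : ∀ j, (R j).p.top ∈ r.c := fun j => ((hr1 j).2 _ le_rfl).2 (R j).top_mem
  have hrA : r.p.A r.p.top = ∅ := r.disj _ r.top_mem
  obtain ⟨g, hg1, hg2, hg3⟩ := r.free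
  let S : Set Z := Set.range fun j => (R j).p.top
  have hinj : Function.Injective fun j => (R j).p.top :=
    StrictMono.injective (fun i j h => hlt i j h)
  have hA1 : Function.update r.p.A r.p.top S r.p.top = S := Function.update_self _ _ _
  have hA2 : ∀ δ, δ ≠ r.p.top → Function.update r.p.A r.p.top S δ = r.p.A δ := fun δ h =>
    Function.update_of_ne h _ _
  let f : PartB.Cond Z :=
    { top := r.p.top
      A := Function.update r.p.A r.p.top S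
      lt := by
        intro δ γ h
        by_cases hδ : δ = r.p.top
        · subst hδ
          rw [hA1] at h
          obtain ⟨j, rfl⟩ := h
          exact hlt' j
        · rw [hA2 δ hδ] at h
          exact r.p.lt δ γ h
      le_top := by
        intro δ γ h
        by_cases hδ : δ = r.p.top
        · exact hδ.le
        · rw [hA2 δ hδ] at h
          exact r.p.le_top δ γ h
      card := by
        intro δ
        by_cases hδ : δ = r.p.top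
        · subst hδ
          rw [hA1]
          exact Cardinal.mk_range_le.trans hK.le
        · rw [hA2 δ hδ]
          exact r.p.card δ
      count := by
        intro δ γ h
        by_cases hδ : δ = r.p.top
        · subst hδ
          rw [hA1]
          obtain ⟨j, hj⟩ := hr2 γ h
          have h1 : (Set.Iio j).Countable := by
            rw [← Cardinal.le_aleph0_iff_set_countable, ← Order.lt_succ_iff,
              ← Cardinal.aleph_zero, Cardinal.succ_aleph, zero_add]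
            exact (PartB.card_Iio_lt j)
          refine (h1.image fun j => (R j).p.top).mono ?_
          rintro _ ⟨⟨i, rfl⟩, hi⟩
          refine ⟨i, ?_, rfl⟩
          by_contra hcon
          rw [Set.mem_Iio, not_lt] at hcon
          have h2 : (R j).p.top ≤ (R i).p.top := (hR1 j i hcon).1.1
          exact absurd (h2.trans hi) (not_le.2 hj)
        · rw [hA2 δ hδ]
          exact r.p.count δ γ h
      free := by
        refine ⟨g, hg1, fun δ δ' h γ hγ hγ' => ?_⟩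
        by_cases hδ' : δ' = r.p.top
        · subst hδ'
          rw [hA1] at hγ'
          rw [hA2 δ h.ne] at hγ
          obtain ⟨j, rfl⟩ := hγ'
          exact Or.inl (hg3 δ _ hγ (hrc j))
        · rw [hA2 δ' hδ'] at hγ'
          by_cases hδ : δ = r.p.top
          · subst hδ
            exact absurd h (not_lt.2 (r.p.le_top δ' γ hγ'))
          · rw [hA2 δ hδ] at hγ
            exact hg2 δ δ' h γ hγ hγ' }
  have hf : ∀ j, f ≤ (R j).p := by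
    intro j
    refine ⟨(hlt' j).le, fun δ hδ => ?_⟩
    show Function.update r.p.A r.p.top S δ = _
    rw [hA2 δ (hδ.trans_lt (hlt' j)).ne]
    exact (hr1 j).1.2 δ hδ
  have j0 : K := Classical.choice hKne
  refine ⟨f, (hf j0).trans ((hR2 j0).1.1.trans hr0), ?_, fun γ hγ => ?_⟩
  · show ¬ (Function.update r.p.A r.p.top S r.p.top).Countable
    rw [hA1, ← Cardinal.le_aleph0_iff_set_countable, Cardinal.mk_range_eq _ hinj, hK, not_le]
    exact Cardinal.aleph0_lt_aleph_one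
  · obtain ⟨j, hj⟩ := hr2 γ hγ
    obtain ⟨j', hj'⟩ := hKno j
    obtain ⟨-, r', h1, h2, h3, h4⟩ := hR2 j'
    obtain ⟨ξ, h5, h6⟩ := h4 γ (hj.trans_le (h1 j hj').1.1)
    exact ⟨ξ, h5.trans (hlt' j'), hdown _ _ _ h6 _ (hf j')⟩

/-- countably many possible values, as a property of a countable set of conditions -/
def Wit {X : Type} (x0 : P2 Z) (S : X → Set (P2 Z)) (b : PartB.Cond Z) (C : Set (P2 Z × X)) :
    Prop :=
  C.Countable ∧ (∀ d ∈ C, b ≤ d.1.b ∧ d.1 ≤ x0 ∧ d.1 ∈ meets (S d.2)) ∧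
    ∀ x ≤ x0, x.b ≤ b → ∃ d ∈ C, Compat x d.1

theorem Wit.down {X : Type} {x0 : P2 Z} {S : X → Set (P2 Z)} {b b' : PartB.Cond Z}
    {C : Set (P2 Z × X)} (h : Wit x0 S b C) (hb : b' ≤ b) : Wit x0 S b' C :=
  ⟨h.1, fun d hd => ⟨hb.trans (h.2.1 d hd).1, (h.2.1 d hd).2⟩,
    fun x hx hxb => h.2.2 x hx (hxb.trans hb)⟩

/-- the values of a function are among those of the witnesses -/
theorem Wit.value {X Y : Type} {x0 : P2 Z} {f : Y → X → Set (P2 Z)} (hf : x0 ∈ IsFun f) {y : Y}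
    {b : PartB.Cond Z} {C : Set (P2 Z × X)} (h : Wit x0 (f y) b C) {x : P2 Z} (hx : x ≤ x0)
    (hb : x.b ≤ b) {a : X} (ha : x ∈ meets (f y a)) : ∃ d ∈ C, d.2 = a := by
  obtain ⟨d, hd, t, ht1, ht2⟩ := h.2.2 x hx hb
  obtain ⟨-, h2, h3⟩ := h.2.1 d hd
  exact ⟨d, hd, IsFun.unique (down_IsFun _ _ hf _ (ht1.trans hx)) (down_meets _ _ h3 _ ht2)
    (down_meets _ _ ha _ ht1)⟩

theorem not_orient2 [WellFoundedLT Z] {κ : Cardinal.{0}} (hκ : ℵ₁ ≤ κ)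
    (hno : ∀ z : Z, ∃ z', z < z')
    (hbd : ∀ (J : Type) (f : J → Z), #J ≤ κ → ∃ b, ∀ j, f j ≤ b)
    (hIio : ∀ z : Z, #(Set.Iio z) ≤ κ) (x : P2 Z) :
    x ∈ fnot (OrientN (P := P2 Z) TN2 (ZN2 (Z := Z))) := by
  classical
  intro y0 _ hy0
  obtain ⟨x1, _, f, hf, hor⟩ := mem_fex.1 hy0 y0 le_rfl
  have hκ0 : ℵ₀ ≤ κ := (Cardinal.aleph0_le_aleph 1).trans hκ
  have htot : ∀ i m, ∀ x ≤ x1, ∃ y ≤ x, ∃ a, y ∈ meets (f i m a) := fun i m x hx =>
    IsFun.total (down_IsFun _ _ (hf i) _ hx) m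
  -- bounds
  let D : Z → Z → Set (PartB.Cond Z) := fun γ ξ => {b | ∀ k m, ∃ C,
    Wit x1 (f (Sum.inr (γ, k)) m) b C ∧ ∀ d ∈ C, ∀ δ, d.2 = Sum.inl δ → δ < ξ}
  obtain ⟨r, hr, hrA, hrD⟩ := exists_ladder_open hκ hno hbd hIio D
    (fun γ ξ b hb b' hb' k m => by
      obtain ⟨C, h1, h2⟩ := hb k m
      exact ⟨C, h1.down hb', h2⟩) x1.b
    (fun γ b hb => by
      obtain ⟨b', hb', h⟩ := PartB.decide_all (κ := κ) hno hbd (K := ℕ × ℕ)
        (mk_countable_le hκ0) (fun j => Ed x1 (f (Sum.inr (γ, j.1)) j.2)) b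
        (fun j c hc => dense_Ed hκ hno hbd x1 _ (htot _ _) c (hc.trans hb))
        (fun j => down_Ed _ _)
      choose C hC using h
      have hcnt : (⋃ j : ℕ × ℕ, {δ | ∃ d ∈ C j, d.2 = Sum.inl δ}).Countable := by
        refine Set.countable_iUnion fun j => ?_
        refine ((hC j).1.image Prod.snd).preimage (f := Sum.inl) Sum.inl_injective |>.mono ?_
        rintro δ ⟨d, hd, h⟩
        exact ⟨d, hd, h⟩
      obtain ⟨ξ0, hξ0⟩ := hbd (⋃ j : ℕ × ℕ, {δ | ∃ d ∈ C j, d.2 = Sum.inl δ} : Set Z)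
        (fun δ => δ.1) (hcnt.le_aleph0.trans hκ0)
      obtain ⟨ξ, hξ⟩ := hno ξ0
      refine ⟨b', hb', ξ, fun k m => ⟨C (k, m), hC (k, m), fun d hd δ hδ => ?_⟩⟩
      exact (hξ0 ⟨δ, Set.mem_iUnion.2 ⟨(k, m), d, hd, hδ⟩⟩).trans_lt hξ)
  -- the possible values at the new point
  obtain ⟨r', hr', h⟩ := PartB.decide_all (κ := κ) hno hbd (K := ℕ)
    (mk_countable_le hκ0) (fun m => Ed x1 (f (Sum.inl r.top) m)) r
    (fun m c hc => dense_Ed hκ hno hbd x1 _ (htot _ _) c (hc.trans hr))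
    (fun m => down_Ed _ _)
  choose C hC using h
  have hW : (⋃ m : ℕ, ⋃ k : ℕ, {γ | ∃ d ∈ C m, d.2 = Sum.inr (γ, k)}).Countable := by
    refine Set.countable_iUnion fun m => Set.countable_iUnion fun k => ?_
    refine ((hC m).1.image Prod.snd).preimage (f := fun γ => Sum.inr (γ, k)) (fun a b h => by
      simpa using h) |>.mono ?_
    rintro δ ⟨d, hd, h⟩
    exact ⟨d, hd, h⟩
  have h1 : ¬ r.A r.top ⊆ ⋃ m : ℕ, ⋃ k : ℕ, {γ | ∃ d ∈ C m, d.2 = Sum.inr (γ, k)} :=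
    fun h => hrA (hW.mono h)
  rw [Set.not_subset] at h1
  obtain ⟨γ, hγ, hγW⟩ := h1
  have hγ' : γ ∈ (upx x1 (hr'.trans hr)).b.A r.top := by
    show γ ∈ r'.A r.top
    rw [hr'.2 _ le_rfl]
    exact hγ
  obtain ⟨x4, hx4, k, hk⟩ := exists_edge2 (upx x1 (hr'.trans hr)) hγ'
  have hx41 : x4 ≤ x1 := hx4.trans (upx_le _ _)
  have hx4b : x4.b ≤ r' := hx4.1
  obtain ⟨x5, hx5, h2⟩ := mem_fimp.1 (hor (Sum.inl r.top) (Sum.inr (γ, k))) x4 hx41
    (rtn_of_edge2 hk)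
  obtain ⟨x6, hx6, h3⟩ := mem_for'.1 h2 x5 le_rfl
  have hx64 : x6 ≤ x4 := hx6.trans hx5
  have key : ∀ i j : Z ⊕ (Z × ℕ), x6 ∈ (fex fun m => fex fun k =>
      fand (meets (f i m k)) (SameReal (ZN2 k) (ZN2 j))) →
      ∃ m, ∃ s ≤ x6, s ∈ meets (f i m j) := by
    intro i j h
    obtain ⟨r3, hr3, m, h4⟩ := mem_fex.1 h x6 le_rfl
    obtain ⟨r4, hr4, k', h5, h6⟩ := mem_fex.1 h4 r3 le_rfl
    have h7 : k' = j := by
      by_contra hne
      exact ne_ZN2 hne _ h6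
    subst h7
    exact ⟨m, r4, hr4.trans hr3, h5⟩
  rcases h3 with h3 | h3
  · obtain ⟨m, s, hs, h4⟩ := key _ _ h3
    have hC' : Wit x1 (f (Sum.inl r.top) m) r' (C m) := hC m
    obtain ⟨d, hd, h5⟩ := hC'.value (hf _) ((hs.trans hx64).trans hx41)
      ((hs.trans hx64).1.trans hx4b) h4
    exact hγW (Set.mem_iUnion.2 ⟨m, Set.mem_iUnion.2 ⟨k, d, hd, h5⟩⟩)
  · obtain ⟨m, s, hs, h4⟩ := key _ _ h3
    obtain ⟨ξ, hξ, hD⟩ := hrD γ (r.lt _ _ hγ)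
    obtain ⟨C', hC', hb⟩ := hD k m
    obtain ⟨d, hd, h5⟩ := hC'.value (hf _) ((hs.trans hx64).trans hx41)
      ((hs.trans hx64).1.trans (hx4b.trans hr')) h4
    exact absurd ((hb d hd _ h5).trans hξ) (lt_irrefl _)

/-- the cardinals are preserved -/
theorem not_onto2 [WellFoundedLT Z] {κ : Cardinal.{0}} (hκ : ℵ₁ ≤ κ)
    (hno : ∀ z : Z, ∃ z', z < z')
    (hbd : ∀ (J : Type) (f : J → Z), #J ≤ κ → ∃ b, ∀ j, f j ≤ b)
    {X Y : Type} (hX : #X ≤ κ) (hXY : #X < #Y) (hY : ℵ₀ < #Y) (x : P2 Z) :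
    x ∈ fnot (fex fun R : X → Y → Set (P2 Z) => fand (IsFun R) (IsOnto R)) := by
  classical
  intro y0 _ hy0
  obtain ⟨x1, _, R, hR1, hR2⟩ := mem_fex.1 hy0 y0 le_rfl
  obtain ⟨b, hb, h⟩ := PartB.decide_all (κ := κ) hno hbd (K := X) hX (fun ξ => Ed x1 (R ξ)) x1.b
    (fun ξ c hc => dense_Ed hκ hno hbd x1 _
      (fun x hx => IsFun.total (down_IsFun _ _ hR1 _ hx) ξ) c hc)
    (fun m => down_Ed _ _)
  choose C hC using h
  have h1 : #(⋃ ξ, Prod.snd '' C ξ : Set Y) < #Y := by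
    refine (Cardinal.mk_iUnion_le _).trans_lt ?_
    refine Cardinal.mul_lt_of_lt hY.le hXY ?_
    refine lt_of_le_of_lt (ciSup_le' fun ξ => ?_) hY
    exact ((hC ξ).1.image _).le_aleph0
  have h2 : ∃ y, y ∉ (⋃ ξ, Prod.snd '' C ξ : Set Y) := by
    by_contra hcon
    push Not at hcon
    have : (⋃ ξ, Prod.snd '' C ξ : Set Y) = Set.univ := Set.eq_univ_iff_forall.2 hcon
    rw [this, Cardinal.mk_univ] at h1
    exact lt_irrefl _ h1
  obtain ⟨y, hy⟩ := h2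
  obtain ⟨x3, hx3, ξ, h3⟩ := mem_fex.1 (hR2 y) (upx x1 hb) (upx_le _ _)
  have hC' : Wit x1 (R ξ) b (C ξ) := hC ξ
  obtain ⟨d, hd, h5⟩ := hC'.value hR1 (hx3.trans (upx_le _ _)) hx3.1 h3
  exact hy (Set.mem_iUnion.2 ⟨ξ, d, hd, h5⟩)

end Pool.Agent.H409_AG.Two
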