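import Pool.Agent.H409_AG.Two4

/-!
# The continuum hypothesis implies that an incompact closed graph can be forced
-/

set_option autoImplicit false

namespace Pool.Agent.H409_AG

open Cardinal Pool.Agent.Helper669.Forcing Pool.Agent.H409_AG.Gr Pool.Agent.H409_AG.Two

theorem mk_real_of_ch (h : ContinuumHyp) : #(ℕ → ℕ) ≤ (ℵ₁ : Cardinal.{0}) := by
  obtain ⟨E, hE⟩ := h
  have h := Cardinal.mk_le_of_surjective (f := E) fun x => by
    obtain ⟨i, hi⟩ := hE x
    exact ⟨i, hi.symm⟩
  rwa [Cardinal.mk_out] at h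

/-- Under the continuum hypothesis some forcing notion preserves the cardinals up to `ℵ_{ω+1}` and
forces that there is an incompact closed graph. -/
theorem incompact_forced (hCH : ContinuumHyp) : ∃ (Q : Type) (_ : Preorder Q), Nonempty Q ∧
    ∀ q : Q, q ∈ CardinalsPreservedTo Q (ℵ_ (Ordinal.omega0 + 1)) ∧ q ∈ IncompactN Q := by
  have hR := mk_real_of_ch hCH
  refine ⟨P2 Lam, inferInstance, ⟨⟨PartB.bot0, emptyCond _,
    ⟨fun _ _ h => absurd h (Set.notMem_empty _), fun _ _ h => absurd h (Set.notMem_empty _)⟩⟩⟩,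
    fun q => ⟨?_, ?_⟩⟩
  · intro μ ν hμν hν1 hν2
    refine not_onto2 PartB.aleph_one_le PartB.lam_noMax PartB.lam_bdd ?_ ?_ ?_ q
    · rw [Cardinal.mk_out, ← Order.lt_succ_iff, Cardinal.succ_aleph]
      exact hμν.trans_le hν2
    · rw [Cardinal.mk_out, Cardinal.mk_out]
      exact hμν
    · rw [Cardinal.mk_out]
      exact hν1
  refine mem_fex_of_mem (φ := fun T : List ℕ → List ℕ → Set (P2 Lam) =>
    fand (fall fun n : ℕ => fall fun z : (ℵ_ n : Cardinal.{0}).out → ℕ → ℕ → Set (P2 Lam) =>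
        fimp (fall fun i => IsFun (z i)) (OrientN T z))
      (fex fun K : Type => fex fun z : K → ℕ → ℕ → Set (P2 Lam) =>
        fand (fall fun i => IsFun (z i)) (fnot (OrientN T z)))) TN2
    (down_fand (down_fall fun _ => down_fall fun _ => down_fimp _ _) (down_fex _)) ⟨?_, ?_⟩
  · intro n z
    refine mem_fimp.2 fun r hr hz => ⟨r, le_rfl, ?_⟩
    refine orient2 PartB.aleph_one_le PartB.lam_noMax PartB.lam_bdd hR (n := n) ?_ ?_ z r hz
    · rw [Cardinal.mk_out, max_eq_right (Cardinal.aleph0_le_aleph _)]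
    · rw [Cardinal.mk_out, Cardinal.aleph_le_aleph]
      exact (Ordinal.natCast_lt_omega0 n).le
  · refine mem_fex_of_mem (φ := fun K : Type => fex fun z : K → ℕ → ℕ → Set (P2 Lam) =>
        fand (fall fun i => IsFun (z i)) (fnot (OrientN TN2 z))) (Lam ⊕ (Lam × ℕ)) (down_fex _) ?_
    refine mem_fex_of_mem (φ := fun z : Lam ⊕ (Lam × ℕ) → ℕ → ℕ → Set (P2 Lam) =>
        fand (fall fun i => IsFun (z i)) (fnot (OrientN TN2 z))) ZN2
        (down_fand (down_fall fun _ => down_IsFun _) (down_fnot _)) ?_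
    exact ⟨fun i => isFun_ZN2 i q,
      not_orient2 PartB.aleph_one_le PartB.lam_noMax PartB.lam_bdd PartB.lam_Iio q⟩

end Pool.Agent.H409_AG
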